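import Pool.Agent.HER.St
import Pool.Agent.Helper22.VCM.C2b

/-!
# HER [PIG]: pigeonhole
-/

set_option autoImplicit false

namespace HER

open Set Pool.Agent.Helper5.DU Pool.Agent.Helper6.Str Pool.Agent.Helper79.VC
  Pool.Agent.Helper97.LO Pool.Agent.Helper97.VC

theorem thm_PIG : St_PIG := by
  classical
  intro L _ _ K M S F hK hS X G γ hG hFG hγ hX
  have he : ∀ f, ∃ e : ℕ → M, Function.Injective e ∧ range e = X f := by
    intro f
    obtain ⟨h1, h2, h3⟩ := hX f
    have := h1.to_subtype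
    have := h2.to_subtype
    obtain ⟨e⟩ := nonempty_equiv_of_countable (α := ℕ) (β := X f)
    refine ⟨fun n => (e n : M), fun a b hab => e.injective (Subtype.ext hab), ?_⟩
    ext x
    constructor
    · rintro ⟨n, rfl⟩
      exact (e n).2
    · intro hx
      exact ⟨e.symm ⟨x, hx⟩, by simp⟩
  choose e he1 he2 using he
  have hmem : ∀ f, pl S (e f) ∈ K := by
    intro f
    apply hS _ (he1 f)
    rw [he2]
    exact hFG.trans (hX f).2.2
  let E := hG.toFinset.equivFin
  let c : Fin hG.toFinset.card → M := fun i => (E.symm i : M)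
  have hc : ∀ i, c i ∈ G := fun i => hG.mem_toFinset.mp (E.symm i).2
  have hcs : ∀ x ∈ G, ∃ i, c i = x := fun x hx =>
    ⟨E ⟨x, hG.mem_toFinset.mpr hx⟩, by simp [c]⟩
  have hv : ∀ f, ∀ i, ∃ n, e f n = c i := by
    intro f i
    have h1 : c i ∈ range (e f) := by
      rw [he2]
      exact (hX f).2.2 (hc i)
    exact h1
  choose v hv using hv
  obtain ⟨ρ, hρ⟩ := hK γ hγ hG.toFinset.card
  have hm : ∀ f, ∃ m, BFR (pl S (e f)) (ρ m).1 univ univ γ (pr (v f) (ρ m).2) := by
    intro f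
    obtain ⟨m, -, hm⟩ := hρ _ (hmem f) (v f)
    exact ⟨m, hm⟩
  choose m hm using hm
  have hni : ¬ Function.Injective m := fun h => not_injective_cantor m h
  unfold Function.Injective at hni
  push Not at hni
  obtain ⟨f, g, hfg, hne⟩ := hni
  refine ⟨f, g, hne, ?_⟩
  -- from the piece `X f` to the representative
  have h1 : ∀ f, BFR S (ρ (m f)).1 (X f) univ γ (range fun i => (c i, (ρ (m f)).2 i)) := by
    intro f
    have h2 : BFR (pl S (e f)) S univ (X f) γ (range fun i => (v f i, c i)) := by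
      have := BFR_pl (S := S) (he1 f) γ (p := range fun i => (v f i, c i)) (by
        rintro _ ⟨i, rfl⟩
        exact (hv f i).symm)
      rwa [he2] at this
    have h3 : BFR S (pl S (e f)) (X f) univ γ (range fun i => (c i, v f i)) := by
      refine h2.symm ?_
      rintro _ ⟨i, rfl⟩
      exact ⟨i, rfl⟩
    refine h3.trans (hm f) ?_
    rintro _ ⟨i, rfl⟩
    exact ⟨v f i, ⟨i, rfl⟩, ⟨i, rfl⟩⟩
  have h4 : BFR S (ρ (m f)).1 (X g) univ γ (range fun i => (c i, (ρ (m f)).2 i)) := by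
    rw [hfg]
    exact h1 g
  have h5 : BFR (ρ (m f)).1 S univ (X g) γ (range fun i => ((ρ (m f)).2 i, c i)) := by
    refine h4.symm ?_
    rintro _ ⟨i, rfl⟩
    exact ⟨i, rfl⟩
  refine (h1 f).trans h5 ?_
  rintro _ ⟨x, hx, rfl⟩
  obtain ⟨i, rfl⟩ := hcs x hx
  exact ⟨(ρ (m f)).2 i, ⟨i, rfl⟩, ⟨i, rfl⟩⟩

end HER
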