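import Pool.Agent.HER.St

/-!
# HER, module CCB: combs of functions
-/

set_option autoImplicit false

namespace HER

open Set

/-- one step of the construction -/
theorem CCB_step {M C : Type} [Finite C] (A : {A : Set (M → C) // A.Infinite}) :
    ∃ (z : M) (h : M → C) (p e : C) (A' : {A : Set (M → C) // A.Infinite}), h ∈ A.1 ∧
      A'.1 ⊆ A.1 ∧ p ≠ e ∧ h z = e ∧ ∀ f ∈ A'.1, f z = p := by
  obtain ⟨f1, h1, f2, h2, hne⟩ := A.2.nontrivial
  obtain ⟨z, hz⟩ := Function.ne_iff.1 hne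
  have hAi : Infinite ↥A.1 := A.2.to_subtype
  obtain ⟨p, hp⟩ := Finite.exists_infinite_fiber (fun f : ↥A.1 => (f : M → C) z)
  have hinf : (Subtype.val '' ((fun f : ↥A.1 => (f : M → C) z) ⁻¹' {p})).Infinite :=
    (Set.infinite_coe_iff.1 hp).image Subtype.val_injective.injOn
  have hsub : Subtype.val '' ((fun f : ↥A.1 => (f : M → C) z) ⁻¹' {p}) ⊆ A.1 := by
    rintro _ ⟨f, -, rfl⟩
    exact f.2
  have hval : ∀ f ∈ Subtype.val '' ((fun f : ↥A.1 => (f : M → C) z) ⁻¹' {p}), f z = p := by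
    rintro _ ⟨f, hf, rfl⟩
    exact hf
  by_cases h3 : f1 z = p
  · exact ⟨z, f2, p, f2 z, ⟨_, hinf⟩, h2, hsub, fun h => hz (h3.trans h), rfl, hval⟩
  · exact ⟨z, f1, p, f1 z, ⟨_, hinf⟩, h1, hsub, fun h => h3 h.symm, rfl, hval⟩

/-- [CCB] -/
theorem thm_CCB : St_CCB := by
  intro M C _ G hG
  choose z h p e A' hh hA hpe hz hf using CCB_step (M := M) (C := C)
  let S : ℕ → {A : Set (M → C) // A.Infinite} := fun n => A'^[n] ⟨G, hG⟩
  have hS : ∀ n, S (n + 1) = A' (S n) := fun n => Function.iterate_succ_apply' _ _ _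
  have hmono : ∀ m j, (S (m + j)).1 ⊆ (S m).1 := by
    intro m j
    induction j with
    | zero => exact Subset.rfl
    | succ j ih =>
      rw [← Nat.add_assoc, hS]
      exact (hA _).trans ih
  have hlt : ∀ m n, m < n → h (S n) (z (S m)) = p (S m) := by
    intro m n hmn
    obtain ⟨j, rfl⟩ : ∃ j, n = m + 1 + j := ⟨n - (m + 1), by omega⟩
    apply hf (S m)
    rw [← hS]
    exact hmono (m + 1) j (hh (S (m + 1 + j)))
  obtain ⟨κ, hκ⟩ := Finite.exists_infinite_fiber (fun n => (p (S n), e (S n)))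
  have hinf : ((fun n => (p (S n), e (S n))) ⁻¹' {κ}).Infinite := Set.infinite_coe_iff.1 hκ
  let σ : ℕ → ℕ := Nat.nth (fun n => n ∈ (fun n => (p (S n), e (S n))) ⁻¹' {κ})
  have hσ : StrictMono σ := Nat.nth_strictMono hinf
  have hσ2 : ∀ n, (p (S (σ n)), e (S (σ n))) = κ := fun n => Nat.nth_mem_of_infinite hinf n
  refine ⟨fun n => h (S (σ n)), fun n => z (S (σ n)), κ.1, κ.2, ?_, fun i => ?_, fun i => ?_,
    fun i j hij => ?_⟩
  · rw [← hσ2 0]
    exact hpe _
  · have h1 := hmono 0 (σ i)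
    rw [Nat.zero_add] at h1
    exact h1 (hh _)
  · rw [← hσ2 i]
    exact hz _
  · rw [← hσ2 i]
    exact hlt _ _ (hσ hij)

end HER
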