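import Pool.Agent.HER.St

/-!
# HER: [CMB] combs in hereditarily split sets
-/

set_option autoImplicit false

namespace HER

open Set

private theorem CMB_pigeon {M D : Type} [Finite D] (f : M → D) (U : Set M) (hU : ¬ U.Countable) :
    ∃ c, ¬ {v ∈ U | f v = c}.Countable := by
  by_contra hcon
  push Not at hcon
  apply hU
  have h1 : U ⊆ ⋃ c, {v ∈ U | f v = c} := by
    intro v hv
    exact mem_iUnion.2 ⟨f v, hv, rfl⟩
  exact (countable_iUnion hcon).mono h1

/-- one step of the construction -/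
private theorem CMB_step {M C : Type} [Finite C] (col : M → M → C) (Y' : Set M)
    (p e ρ0 : C)
    (h : ∃ y ∈ Y', ¬ {v ∈ Y' | col y v = p}.Countable ∧
      ∃ x : ℕ → M, Function.Injective x ∧ (∀ k, x k ∈ Y' ∧ x k ≠ y ∧ col y (x k) = e) ∧
        ∀ k l, k < l → col (x k) (x l) = ρ0) (i : ℕ) :
    ∃ (W : Set M) (y : M) (x : ℕ → M) (r : C), (W ⊆ Y' ∧ ¬ W.Countable) ∧ y ∈ Y' ∧ y ∉ W ∧
      (∀ k ≤ i, x k ∈ Y' ∧ x k ∉ W ∧ x k ≠ y ∧ col y (x k) = e) ∧
      (∀ k ≤ i, ∀ l ≤ i, x k = x l → k = l) ∧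
      (∀ v ∈ W, col y v = p) ∧ (∀ k ≤ i, ∀ v ∈ W, col (x k) v = r) ∧
      ∀ k l, k < l → l ≤ i → col (x k) (x l) = ρ0 := by
  classical
  have := Fintype.ofFinite C
  obtain ⟨y, hy, hU, x, hxinj, hx, hxx⟩ := h
  let K : ℕ := Fintype.card C * i + 1
  have hFin : (insert y (x '' {k | k < K})).Finite := ((Set.finite_lt_nat K).image x).insert y
  have hU1 : ¬ ({v ∈ Y' | col y v = p} \ insert y (x '' {k | k < K})).Countable := by
    intro hc
    apply hU
    exact (hc.union hFin.countable).mono (by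
      intro v hv
      by_cases h1 : v ∈ insert y (x '' {k | k < K})
      · exact Or.inr h1
      · exact Or.inl ⟨hv, h1⟩)
  obtain ⟨c, hc⟩ := CMB_pigeon (fun v => fun k : Fin K => col (x k) v) _ hU1
  obtain ⟨r, hr⟩ := Fintype.exists_lt_card_fiber_of_mul_lt_card (n := i) c (by
    rw [Fintype.card_fin]
    exact Nat.lt_succ_self _)
  obtain ⟨S, hS, hScard⟩ := Finset.exists_subset_card_eq (Nat.succ_le_of_lt hr)
  let emb := S.orderEmbOfFin hScard
  have hemb : ∀ j, c (emb j) = r := by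
    intro j
    have h1 := hS (S.orderEmbOfFin_mem hScard j)
    rw [Finset.mem_filter] at h1
    exact h1.2
  let x' : ℕ → M := fun k => if hk : k < i + 1 then x (emb ⟨k, hk⟩) else y
  have hx' : ∀ k (hk : k < i + 1), x' k = x (emb ⟨k, hk⟩) := by
    intro k hk
    simp only [x', dif_pos hk]
  refine ⟨_, y, x', r, ⟨?_, hc⟩, hy, ?_, ?_, ?_, ?_, ?_, ?_⟩
  · intro v hv
    exact hv.1.1.1
  · intro hyW
    exact hyW.1.2 (mem_insert _ _)
  · intro k hk
    rw [hx' k (Nat.lt_succ_of_le hk)]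
    refine ⟨(hx _).1, ?_, (hx _).2.1, (hx _).2.2⟩
    intro hxW
    exact hxW.1.2 (mem_insert_of_mem _ ⟨_, (emb ⟨k, Nat.lt_succ_of_le hk⟩).2, rfl⟩)
  · intro k hk l hl hkl
    rw [hx' k (Nat.lt_succ_of_le hk), hx' l (Nat.lt_succ_of_le hl)] at hkl
    have h1 := emb.injective (Fin.ext (hxinj hkl))
    exact congrArg Fin.val h1
  · intro v hv
    exact hv.1.1.2
  · intro k hk v hv
    rw [hx' k (Nat.lt_succ_of_le hk)]
    have h1 := congrFun hv.2 (emb ⟨k, Nat.lt_succ_of_le hk⟩)
    exact h1.trans (hemb _)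
  · intro k l hkl hl
    rw [hx' k (by omega), hx' l (by omega)]
    apply hxx
    have h1 : emb ⟨k, by omega⟩ < emb ⟨l, by omega⟩ := emb.strictMono (by
      show k < l
      exact hkl)
    exact h1

theorem thm_CMB : St_CMB := by
  intro M C _ inv col Y p e ρ0 hinv hsym hY hyp
  have hstep : ∀ (i : ℕ) (P : {Y' : Set M // Y' ⊆ Y ∧ ¬ Y'.Countable}), _ :=
    fun i P => CMB_step col P.1 p e ρ0 (hyp P.1 P.2.1 P.2.2) i
  choose W y x r h1 h2 h3 h4 h5 h6 h7 h8 using hstep
  let St : ℕ → {Y' : Set M // Y' ⊆ Y ∧ ¬ Y'.Countable} := fun n =>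
    Nat.rec ⟨Y, Subset.rfl, hY⟩ (fun n P => ⟨W n P, (h1 n P).1.trans P.2.1, (h1 n P).2⟩) n
  have hSt : ∀ n, (St (n + 1)).1 = W n (St n) := fun n => rfl
  have hanti : ∀ m n, m ≤ n → (St n).1 ⊆ (St m).1 := by
    intro m n hmn
    induction n, hmn using Nat.le_induction with
    | base => exact Subset.rfl
    | succ n _ ih =>
      rw [hSt]
      exact (h1 n (St n)).1.trans ih
  have hlt : ∀ m n, m < n → (St n).1 ⊆ W m (St m) := fun m n hmn => hanti (m + 1) n hmn
  obtain ⟨ρ, hρ⟩ := Finite.exists_infinite_fiber (fun n => r n (St n))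
  obtain ⟨φ, hφ, hφr⟩ : ∃ φ : ℕ → ℕ, StrictMono φ ∧ ∀ n, r (φ n) (St (φ n)) = ρ := by
    apply Nat.exists_strictMono_subsequence (P := fun n => r n (St n) = ρ)
    intro N
    have h9 : ((fun n => r n (St n)) ⁻¹' {ρ}).Infinite := Set.infinite_coe_iff.1 hρ
    obtain ⟨n, hn, hn'⟩ := h9.exists_gt N
    exact ⟨n, hn', hn⟩
  have hle : ∀ i, i ≤ φ i := fun i => hφ.le_apply
  -- membership facts
  have hz : ∀ i j, i < j → y (φ j) (St (φ j)) ∈ W (φ i) (St (φ i)) := fun i j hij =>
    hlt _ _ (hφ hij) (h2 _ _)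
  have hx : ∀ i j l, i < j → l < j + 1 → x (φ j) (St (φ j)) l ∈ W (φ i) (St (φ i)) :=
    fun i j l hij hl => hlt _ _ (hφ hij) (h4 _ _ l (by have := hle j; omega)).1
  refine ⟨ρ, fun i => y (φ i) (St (φ i)), fun i k => x (φ i) (St (φ i)) k, ?_⟩
  constructor
  · intro i j hij
    have hij' : y (φ i) (St (φ i)) = y (φ j) (St (φ j)) := hij
    rcases lt_trichotomy i j with h | h | h
    · have h9 := hz i j h
      rw [← hij'] at h9
      exact absurd h9 (h3 _ _)
    · exact h
    · have h9 := hz j i h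
      rw [hij'] at h9
      exact absurd h9 (h3 _ _)
  · intro i k j l hk hl hij
    rcases lt_trichotomy i j with h | h | h
    · have h9 := hx i j l h hl
      rw [← hij] at h9
      exact absurd h9 (h4 _ _ k (by have := hle i; omega)).2.1
    · subst h
      exact ⟨rfl, h5 _ _ k (by have := hle i; omega) l (by have := hle i; omega) hij⟩
    · have h9 := hx j i k h hk
      rw [hij] at h9
      exact absurd h9 (h4 _ _ l (by have := hle j; omega)).2.1
  · intro i j l hl hij
    rcases lt_trichotomy i j with h | h | h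
    · have h9 := hx i j l h hl
      rw [← hij] at h9
      exact h3 _ _ h9
    · subst h
      exact (h4 _ _ l (by have := hle i; omega)).2.2.1 hij.symm
    · have h9 := hz j i h
      rw [hij] at h9
      exact absurd h9 (h4 _ _ l (by have := hle j; omega)).2.1
  · intro i j hij
    exact h6 _ _ _ (hz i j hij)
  · intro i j l hij hl
    exact h6 _ _ _ (hx i j l hij hl)
  · intro i k hk
    exact (h4 _ _ k (by have := hle i; omega)).2.2.2
  · intro i j k hij hk
    rw [hsym (x (φ i) (St (φ i)) k) (y (φ j) (St (φ j))), h7 _ _ k (by have := hle i; omega) _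
      (hz i j hij), hφr]
  · intro i j k l hij hk hl
    rw [h7 _ _ k (by have := hle i; omega) _ (hx i j l hij hl), hφr]
  · intro i k l hkl hl
    exact h8 _ _ k l hkl (by have := hle i; omega)

end HER
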