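import Pool.Agent.HER.St

/-!
# HER: combs with longer rows
-/

set_option autoImplicit false

namespace HER

open Set Pool.Agent.Helper5.DU Pool.Agent.Helper6.Str Pool.Agent.Helper79.VC
  Pool.Agent.Helper97.LO Pool.Agent.Helper97.VC

/-- the subsequence -/
def CSB_i (N : ℕ → ℕ) (n : ℕ) : ℕ := n + ∑ j ∈ Finset.range (n + 1), N j

theorem CSB_lt (N : ℕ → ℕ) {m n : ℕ} (h : m < n) : CSB_i N m < CSB_i N n := by
  have h1 : StrictMono (CSB_i N) := by
    refine strictMono_nat_of_lt_succ fun k => ?_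
    unfold CSB_i
    rw [Finset.sum_range_succ (n := k + 1)]
    omega
  exact h1 h

theorem CSB_inj (N : ℕ → ℕ) {m n : ℕ} (h : CSB_i N m = CSB_i N n) : m = n := by
  by_contra hne
  rcases lt_or_gt_of_ne hne with h1 | h1
  · exact absurd h (CSB_lt N h1).ne
  · exact absurd h (CSB_lt N h1).ne'

theorem CSB_le (N : ℕ → ℕ) {k n : ℕ} (h : k < N n) : k < CSB_i N n + 1 := by
  have h1 : N n ≤ ∑ j ∈ Finset.range (n + 1), N j :=
    Finset.single_le_sum (f := N) (fun j _ => Nat.zero_le _) (Finset.mem_range.2 (Nat.lt_succ_self n))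
  unfold CSB_i
  omega

theorem thm_CSB : St_CSB := by
  intro M C col τ p e d ρ ρ0 z x N hc
  refine ⟨fun n => z (CSB_i N n), fun n k => x (CSB_i N n) k, ?_, ?_, ?_, ?_, ?_, ?_, ?_, ?_, ?_⟩
  · intro m n h
    exact CSB_inj N (hc.zinj h)
  · intro i k j l hk hl h
    have h1 := hc.xinj _ _ _ _ (CSB_le N hk) (CSB_le N hl) h
    exact ⟨CSB_inj N h1.1, h1.2⟩
  · intro i j l hl
    exact hc.zx _ _ _ (CSB_le N hl)
  · intro i j hij
    exact hc.zz _ _ (CSB_lt N hij)
  · intro i j l hij hl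
    exact hc.zxp _ _ _ (CSB_lt N hij) (CSB_le N hl)
  · intro i k hk
    exact hc.zxe _ _ (CSB_le N hk)
  · intro i j k hij hk
    exact hc.zxd _ _ _ (CSB_lt N hij) (CSB_le N hk)
  · intro i j k l hij hk hl
    exact hc.xx _ _ _ _ (CSB_lt N hij) (CSB_le N hk) (CSB_le N hl)
  · intro i k l hkl hl
    exact hc.xx0 _ _ _ hkl (CSB_le N hl)

end HER
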