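import Pool.Agent.HER.St

/-!
# HER: the theorem of Dushnik and Miller for uncountable sets
-/

set_option autoImplicit false

namespace HER

open Set Pool.Agent.Helper5.DU Pool.Agent.Helper6.Str Pool.Agent.Helper79.VC
  Pool.Agent.Helper97.LO Pool.Agent.Helper97.VC

theorem thm_DM (hSQ : St_SQ) : St_DM := by
  intro M G Y hG hY hno
  by_cases hA : ∃ A ⊆ Y, ¬ A.Countable ∧ ∀ x ∈ A, {y ∈ A | G x y}.Countable
  · obtain ⟨A, hAY, hAc, hA⟩ := hA
    obtain ⟨s, hs, hs'⟩ := hSQ M A (fun x => {y | y = x ∨ (x ∈ A ∧ y ∈ A ∧ G x y)}) (by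
      intro D hD
      by_contra hcon
      push Not at hcon
      apply hAc
      have h1 : A ⊆ ⋃ y ∈ D, {u | u = y ∨ (y ∈ A ∧ u ∈ A ∧ G y u)} := by
        intro u hu
        obtain ⟨y, hy, hy'⟩ := hcon u hu
        exact mem_iUnion₂.2 ⟨y, hy, hy'⟩
      refine (hD.biUnion fun y _ => ?_).mono h1
      have h2 : {u | u = y ∨ (y ∈ A ∧ u ∈ A ∧ G y u)} ⊆ {y} ∪ {u | y ∈ A ∧ u ∈ A ∧ G y u} := by
        rintro u (hu | hu)
        · exact Or.inl hu
        · exact Or.inr hu
      refine ((countable_singleton y).union ?_).mono h2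
      by_cases hyA : y ∈ A
      · exact (hA y hyA).mono fun u hu => hu.2
      · exact countable_empty.mono fun u hu => absurd hu.1 hyA)
    have hinj : Function.Injective s := by
      intro a b hab
      by_contra hne
      rcases lt_or_gt_of_ne hne with h1 | h1
      · exact hs' a b h1 (Or.inl hab.symm)
      · exact hs' b a h1 (Or.inl hab)
    have hG' : ∀ a b, a < b → ¬ G (s a) (s b) := fun a b hab hg =>
      hs' a b hab (Or.inr ⟨hs a, hs b, hg⟩)
    refine ⟨range s, ?_, fun hc => ?_, ?_⟩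
    · rintro _ ⟨a, rfl⟩
      exact hAY (hs a)
    · apply not_countable_om
      have := hc.preimage hinj
      rwa [preimage_range] at this
    · rintro _ ⟨a, rfl⟩ _ ⟨b, rfl⟩ hne hg
      rcases lt_or_gt_of_ne (fun h => hne (congrArg s h) : a ≠ b) with h1 | h1
      · exact hG' a b h1 hg
      · exact hG' b a h1 (hG _ _ hg)
  · exfalso
    push Not at hA
    apply hno
    have h1 : ∀ A : {A : Set M // A ⊆ Y ∧ ¬ A.Countable}, ∃ x ∈ A.1,
        ¬ {y ∈ A.1 | G x y}.Countable := fun A => hA A.1 A.2.1 A.2.2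
    choose x hx hx' using h1
    let nx : {A : Set M // A ⊆ Y ∧ ¬ A.Countable} → {A : Set M // A ⊆ Y ∧ ¬ A.Countable} :=
      fun A => ⟨{y ∈ A.1 | G (x A) y} \ {x A}, fun y hy => A.2.1 hy.1.1, fun hc => by
        apply hx' A
        refine (hc.union (countable_singleton (x A))).mono fun y hy => ?_
        by_cases hyx : y = x A
        · exact Or.inr hyx
        · exact Or.inl ⟨hy, hyx⟩⟩
    let A : ℕ → {A : Set M // A ⊆ Y ∧ ¬ A.Countable} := fun n => nx^[n] ⟨Y, Subset.rfl, hY⟩
    have hstep : ∀ n, A (n + 1) = nx (A n) := fun n => Function.iterate_succ_apply' nx n _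
    have hsub : ∀ n, (A (n + 1)).1 ⊆ (A n).1 := by
      intro n y hy
      rw [hstep] at hy
      exact hy.1.1
    have hanti : Antitone fun n => (A n).1 := antitone_nat_of_succ_le hsub
    have hlt : ∀ k l, k < l → G (x (A k)) (x (A l)) ∧ x (A l) ≠ x (A k) := by
      intro k l hkl
      have h2 : x (A l) ∈ (A (k + 1)).1 := hanti (Nat.succ_le_of_lt hkl) (hx (A l))
      rw [hstep] at h2
      exact ⟨h2.1.2, h2.2⟩
    refine ⟨fun k => x (A k), ?_, fun k => (A k).2.1 (hx (A k)), fun k l hkl => (hlt k l hkl).1⟩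
    intro k l hkl
    by_contra hne
    rcases lt_or_gt_of_ne hne with h2 | h2
    · exact (hlt k l h2).2 hkl.symm
    · exact (hlt l k h2).2 hkl

end HER
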