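import Pool.Agent.HER.St

/-!
# HER / LO1: a transitive subset of a tournament
-/

set_option autoImplicit false

namespace HER

open Set Pool.Agent.Helper5.DU Pool.Agent.Helper6.Str Pool.Agent.Helper79.VC
  Pool.Agent.Helper97.LO Pool.Agent.Helper97.VC

theorem thm_LO1 : St_LO1 := by
  intro M C inv col p T hinv hsym hp hT hcol hspl hcd
  classical
  let N : M → Set M := fun x => {z ∈ T | col x z = p}
  have hN : ∀ x ∈ T, ∀ y ∈ T, x ≠ y → col x y = p → (N y \ N x).Countable := by
    intro x hx y hy hxy hc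
    refine (hcd x hx y hy hxy hc).mono ?_
    rintro z ⟨⟨hz, hz1⟩, hz2⟩
    have hzx : x ≠ z := by
      rintro rfl
      apply hp
      rw [← hc, ← hsym, hz1]
      exact hc.symm
    have h1 : col x z = inv p := by
      rcases hcol x hx z hz hzx with h | h
      · exact absurd ⟨hz, h⟩ hz2
      · exact h
    refine ⟨hz, hz1, ?_⟩
    rw [hsym x z, h1, hinv]
  let r : T → T → Prop := fun x y => (N x \ N y).Countable ∧ (N y \ N x).Countable
  have hsub : ∀ x y z : M, N x \ N z ⊆ (N x \ N y) ∪ (N y \ N z) := by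
    intro x y z w hw
    by_cases h : w ∈ N y
    · exact Or.inr ⟨h, hw.2⟩
    · exact Or.inl ⟨hw.1, h⟩
  have hr : Equivalence r := by
    refine ⟨fun x => ?_, fun h => ⟨h.2, h.1⟩, fun {x y z} h1 h2 => ⟨?_, ?_⟩⟩
    · simp only [r, Set.diff_self, Set.countable_empty, and_self]
    · exact (h1.1.union h2.1).mono (hsub x y z)
    · exact (h2.2.union h1.2).mono (hsub z y x)
  have hcl : ∀ x : T, {y | r x y}.Countable := by
    intro x
    by_contra hc
    have hT2 : ¬ (Subtype.val '' {y | r x y} : Set M).Countable := fun h =>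
      hc (Set.countable_of_injective_of_countable_image Subtype.val_injective.injOn h)
    have hTT : (Subtype.val '' {y | r x y} : Set M) ⊆ T := by
      rintro _ ⟨y, -, rfl⟩
      exact y.2
    obtain ⟨_, ⟨e, he, rfl⟩, -, h1, -⟩ := hspl _ hTT hT2
    obtain ⟨_, ⟨⟨f, hf, rfl⟩, hf2⟩, -, -, h2⟩ := hspl _ (fun z hz => hTT hz.1) h1
    apply h2
    refine (hr.trans (hr.symm he) hf).1.mono ?_
    rintro z ⟨⟨hz1, hz2⟩, hz3⟩
    refine ⟨⟨hTT hz1, hz2⟩, fun h => hp ?_⟩
    rw [← hz3]
    exact h.2
  let s : Setoid T := ⟨r, hr⟩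
  let f : T → T := fun x => (Quotient.mk s x).out
  have hf : ∀ x, r (f x) x := fun x => Quotient.exact (Quotient.out_eq (Quotient.mk s x))
  have hff : ∀ x y, r x y → f x = f y := fun x y h => by
    have : Quotient.mk s x = Quotient.mk s y := Quotient.sound h
    simp only [f, this]
  have hW : ∀ x ∈ Set.range f, f x = x := by
    rintro _ ⟨y, rfl⟩
    exact hff _ _ (hf y)
  have hWr : ∀ x ∈ Set.range f, ∀ y ∈ Set.range f, r x y → x = y := by
    intro x hx y hy h
    rw [← hW x hx, ← hW y hy]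
    exact hff x y h
  refine ⟨Subtype.val '' Set.range f, ?_, fun h => ?_, ?_⟩
  · rintro _ ⟨y, -, rfl⟩
    exact y.2
  · have h1 : (Set.range f).Countable :=
      Set.countable_of_injective_of_countable_image Subtype.val_injective.injOn h
    apply hT
    have h2 : (⋃ z ∈ Set.range f, {y | r z y}).Countable :=
      h1.biUnion fun z _ => hcl z
    have h3 : (Set.univ : Set T).Countable :=
      h2.mono fun y _ => Set.mem_biUnion (Set.mem_range_self y) (hf y)
    exact Set.countable_coe_iff.1 (Set.countable_univ_iff.1 h3)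
  · rintro _ ⟨x, hx, rfl⟩ _ ⟨y, hy, rfl⟩ _ ⟨z, hz, rfl⟩ hxy hyz h1 h2
    have hxz : (x : M) ≠ z := by
      intro h
      apply hp
      rw [← h, hsym (x : M) y, h1] at h2
      exact h2
    refine ⟨hxz, ?_⟩
    rcases hcol x x.2 z z.2 hxz with h3 | h3
    · exact h3
    · exfalso
      apply hxz
      have h4 : col z x = p := by
        rw [hsym (x : M) z, h3, hinv]
      have h5 := hN z z.2 x x.2 hxz.symm h4
      have h6 := hN x x.2 y y.2 hxy h1
      have h7 := hN y y.2 z z.2 hyz h2
      exact congrArg Subtype.val (hWr x hx z hz ⟨h5, (h7.union h6).mono (hsub z y x)⟩)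

end HER
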