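import Pool.Agent.HER.St

/-!
# HER / LO2: a hereditarily split linear order contains the rationals
-/

set_option autoImplicit false

namespace HER

open Set Pool.Agent.Helper5.DU Pool.Agent.Helper6.Str Pool.Agent.Helper79.VC
  Pool.Agent.Helper97.LO Pool.Agent.Helper97.VC

theorem LO2_gen (Z : Type) [LinearOrder Z] (hZ : ¬ Countable Z)
    (hs : ∀ T : Set Z, ¬ T.Countable → ∃ y ∈ T, ¬ {x ∈ T | y < x}.Countable ∧
      ¬ {x ∈ T | x < y}.Countable) : Nonempty (ℚ ↪o Z) := by
  classical
  let r : Z → Z → Prop := fun x y => (Set.Ioo x y).Countable ∧ (Set.Ioo y x).Countable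
  have hsub : ∀ x y z : Z, Set.Ioo x z ⊆ Set.Ioo x y ∪ (Set.Ioo y z ∪ {y}) := by
    intro x y z w hw
    rcases lt_trichotomy w y with h | h | h
    · exact Or.inl ⟨hw.1, h⟩
    · exact Or.inr (Or.inr h)
    · exact Or.inr (Or.inl ⟨h, hw.2⟩)
  have hr : Equivalence r := by
    refine ⟨fun x => ?_, fun h => ⟨h.2, h.1⟩, fun {x y z} h1 h2 => ⟨?_, ?_⟩⟩
    · simp only [r, Set.Ioo_self, Set.countable_empty, and_self]
    · exact (h1.1.union (h2.1.union (Set.countable_singleton y))).mono (hsub x y z)
    · exact (h2.2.union (h1.2.union (Set.countable_singleton y))).mono (hsub z y x)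
  have hcl : ∀ x : Z, {y | r x y}.Countable := by
    intro x
    by_contra hc
    by_cases h1 : {u | r x u ∧ x < u}.Countable
    · have h2 : ¬ {u | r x u ∧ u < x}.Countable := by
        intro h2
        apply hc
        refine ((h1.union h2).union (Set.countable_singleton x)).mono fun u hu => ?_
        rcases lt_trichotomy u x with h | h | h
        · exact Or.inl (Or.inr ⟨hu, h⟩)
        · exact Or.inr h
        · exact Or.inl (Or.inl ⟨hu, h⟩)
      obtain ⟨v, hv, hv1, -⟩ := hs _ h2
      exact hv1 (Set.Countable.mono (fun u hu => (⟨hu.2, hu.1.2⟩ : u ∈ Set.Ioo v x)) hv.1.2)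
    · obtain ⟨v, hv, -, hv1⟩ := hs _ h1
      exact hv1 (Set.Countable.mono (fun u hu => (⟨hu.1.2, hu.2⟩ : u ∈ Set.Ioo x v)) hv.1.1)
  let s : Setoid Z := ⟨r, hr⟩
  let f : Z → Z := fun x => (Quotient.mk s x).out
  have hf : ∀ x, r (f x) x := fun x => Quotient.exact (Quotient.out_eq (Quotient.mk s x))
  have hff : ∀ x y, r x y → f x = f y := fun x y h => by
    have : Quotient.mk s x = Quotient.mk s y := Quotient.sound h
    simp only [f, this]
  let W : Set Z := Set.range f
  have hW : ∀ x ∈ W, f x = x := by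
    rintro _ ⟨y, rfl⟩
    exact hff _ _ (hf y)
  have hWr : ∀ x ∈ W, ∀ y ∈ W, r x y → x = y := by
    intro x hx y hy h
    rw [← hW x hx, ← hW y hy]
    exact hff x y h
  have hnt : Nontrivial W := by
    obtain ⟨x⟩ : Nonempty Z := by
      by_contra hne
      rw [not_nonempty_iff] at hne
      exact hZ inferInstance
    obtain ⟨y, hy⟩ : ∃ y, ¬ r x y := by
      by_contra hcon
      push Not at hcon
      apply hZ
      have : (Set.univ : Set Z).Countable := (hcl x).mono fun y _ => hcon y
      exact Set.countable_univ_iff.1 this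
    refine ⟨⟨f x, ⟨x, rfl⟩⟩, ⟨f y, ⟨y, rfl⟩⟩, fun h => hy ?_⟩
    have h1 : f x = f y := congrArg Subtype.val h
    exact hr.trans (hr.symm (hf x)) (h1 ▸ hf y)
  have hd : DenselyOrdered W := by
    refine ⟨fun a b hab => ?_⟩
    obtain ⟨x, hx⟩ := a
    obtain ⟨y, hy⟩ := b
    have hxy : x < y := hab
    have h1 : ¬ (Set.Ioo x y).Countable := by
      intro h
      refine hxy.ne (hWr x hx y hy ⟨h, ?_⟩)
      rw [Set.Ioo_eq_empty (by exact fun h => absurd h hxy.not_gt)]
      exact Set.countable_empty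
    obtain ⟨z, hz, hz2⟩ : ∃ z ∈ Set.Ioo x y, ¬ (r x z ∨ r y z) := by
      by_contra hcon
      push Not at hcon
      exact h1 (((hcl x).union (hcl y)).mono fun z hz => hcon z hz)
    push Not at hz2
    refine ⟨⟨f z, ⟨z, rfl⟩⟩, ?_, ?_⟩
    · change x < f z
      by_contra hle
      push Not at hle
      apply hz2.1
      refine ⟨Set.Countable.mono (fun w hw =>
        (⟨lt_of_le_of_lt hle hw.1, hw.2⟩ : w ∈ Set.Ioo (f z) z)) (hf z).1, ?_⟩
      rw [Set.Ioo_eq_empty (fun h => absurd h hz.1.not_gt)]
      exact Set.countable_empty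
    · change f z < y
      by_contra hle
      push Not at hle
      apply hz2.2
      refine ⟨?_, Set.Countable.mono (fun w hw =>
        (⟨hw.1, lt_of_lt_of_le hw.2 hle⟩ : w ∈ Set.Ioo z (f z))) (hf z).2⟩
      rw [Set.Ioo_eq_empty (fun h => absurd h hz.2.not_gt)]
      exact Set.countable_empty
  obtain ⟨e⟩ := Order.embedding_from_countable_to_dense ℚ W
  exact ⟨e.trans (OrderEmbedding.subtype _)⟩

theorem thm_LO2 : St_LO2 := by
  intro M C inv col p Z hinv hsym hp hZ hcol hspl htr
  classical
  let R : Z → Z → Prop := fun x y => (x : M) ≠ y ∧ col x y = p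
  have hRa : ∀ x y : Z, R x y → ¬ R y x := by
    intro x y h1 h2
    apply hp
    rw [← h1.2, ← hsym, h2.2]
    exact h1.2.symm
  have hRt : ∀ x y z : Z, R x y → R y z → R x z := fun x y z h1 h2 =>
    htr x x.2 y y.2 z z.2 h1.1 h2.1 h1.2 h2.2
  have hRT : ∀ x y : Z, x ≠ y → R x y ∨ R y x := by
    intro x y h
    have hne : (x : M) ≠ y := fun h1 => h (Subtype.ext h1)
    rcases hcol x x.2 y y.2 hne with h1 | h1
    · exact Or.inl ⟨hne, h1⟩
    · refine Or.inr ⟨hne.symm, ?_⟩
      rw [hsym x y, h1, hinv]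
  let LO : LinearOrder Z :=
    { le := fun x y => x = y ∨ R x y
      lt := R
      le_refl := fun x => Or.inl rfl
      le_trans := by
        rintro x y z (rfl | h1) (rfl | h2)
        · exact Or.inl rfl
        · exact Or.inr h2
        · exact Or.inr h1
        · exact Or.inr (hRt x y z h1 h2)
      lt_iff_le_not_ge := by
        intro x y
        constructor
        · intro h
          refine ⟨Or.inr h, ?_⟩
          rintro (rfl | h2)
          · exact h.1 rfl
          · exact hRa x y h h2
        · rintro ⟨rfl | h, h2⟩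
          · exact absurd (Or.inl rfl) h2
          · exact h
      le_antisymm := by
        rintro x y (rfl | h1) (h2 | h2)
        · rfl
        · rfl
        · exact h2.symm
        · exact absurd h2 (hRa x y h1)
      le_total := by
        intro x y
        by_cases h : x = y
        · exact Or.inl (Or.inl h)
        · rcases hRT x y h with h1 | h1
          · exact Or.inl (Or.inr h1)
          · exact Or.inr (Or.inr h1)
      toDecidableLE := Classical.decRel _ }
  have hlt : ∀ x y : Z, x < y ↔ R x y := fun x y => Iff.rfl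
  obtain ⟨e⟩ := LO2_gen Z (fun h => hZ (Set.countable_coe_iff.1 h)) (by
    intro T hT
    have hT2 : ¬ (Subtype.val '' T : Set M).Countable := fun h =>
      hT (Set.countable_of_injective_of_countable_image Subtype.val_injective.injOn h)
    obtain ⟨y, ⟨y', hy', rfl⟩, -, h1, h2⟩ := hspl (Subtype.val '' T) (by
      rintro _ ⟨x, -, rfl⟩
      exact x.2) hT2
    refine ⟨y', hy', fun h => h1 ?_, fun h => h2 ?_⟩
    · refine ((h.image Subtype.val).union (Set.countable_singleton (y' : M))).mono ?_
      rintro _ ⟨⟨x, hx, rfl⟩, hx2⟩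
      by_cases hxy : (x : M) = y'
      · exact Or.inr hxy
      · exact Or.inl ⟨x, ⟨hx, (hlt y' x).2 ⟨fun h => hxy h.symm, hx2⟩⟩, rfl⟩
    · refine ((h.image Subtype.val).union (Set.countable_singleton (y' : M))).mono ?_
      rintro _ ⟨⟨x, hx, rfl⟩, hx2⟩
      by_cases hxy : (x : M) = y'
      · exact Or.inr hxy
      · refine Or.inl ⟨x, ⟨hx, (hlt x y').2 ⟨hxy, ?_⟩⟩, rfl⟩
        rw [hsym y' x, hx2, hinv])
  refine ⟨fun q => (e q : M), fun a b hab => e.injective (Subtype.ext hab), fun a b hab => ?_⟩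
  exact ((hlt _ _).1 (e.strictMono hab)).2

end HER
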