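import Pool.Agent.HER.St

/-!
# HER: growth of the sequence of the sizes
-/

set_option autoImplicit false

namespace HER

open Set Pool.Agent.Helper5.DU Pool.Agent.Helper6.Str Pool.Agent.Helper79.VC
  Pool.Agent.Helper97.LO Pool.Agent.Helper97.VC

/-- the sizes -/
def NUM_m (f : ℕ → Bool) (n : ℕ) : ℕ := 4 ^ (n + 2) + (if f n then 1 else 0)

theorem NUM_le (f : ℕ → Bool) (n : ℕ) : NUM_m f n ≤ 4 ^ (n + 2) + 1 := by
  unfold NUM_m
  split_ifs <;> omega

theorem NUM_ge (f : ℕ → Bool) (n : ℕ) : 4 ^ (n + 2) ≤ NUM_m f n := Nat.le_add_right _ _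

theorem NUM_16 (n : ℕ) : 16 ≤ 4 ^ (n + 2) := by
  calc 16 = 4 ^ 2 := by norm_num
    _ ≤ 4 ^ (n + 2) := Nat.pow_le_pow_right (by norm_num) (by omega)

theorem NUM_sum (f : ℕ → Bool) (n : ℕ) :
    3 * (∑ j ∈ Finset.range n, NUM_m f j) + 16 ≤ 4 ^ (n + 2) + 3 * n := by
  induction n with
  | zero => simp
  | succ n ih =>
    rw [Finset.sum_range_succ]
    have h1 := NUM_le f n
    have h2 : 4 ^ (n + 1 + 2) = 4 * 4 ^ (n + 2) := by ring
    rw [h2]
    omega

theorem NUM_lin (n : ℕ) : 3 * n + 8 ≤ 4 ^ (n + 2) := by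
  induction n with
  | zero => norm_num
  | succ n ih =>
    have h2 : 4 ^ (n + 1 + 2) = 4 * 4 ^ (n + 2) := by ring
    rw [h2]
    omega

theorem NUM_ub (f : ℕ → Bool) (n α β : ℕ) (hα : α ≤ 1) (hβ : β ≤ 1) :
    NUM_m f n + α * (∑ j ∈ Finset.range n, NUM_m f j) + β * n < 2 * 4 ^ (n + 2) := by
  have h1 := NUM_le f n
  have h2 := NUM_sum f n
  have h3 := NUM_lin n
  have h4 : α * (∑ j ∈ Finset.range n, NUM_m f j) ≤ ∑ j ∈ Finset.range n, NUM_m f j := by
    calc _ ≤ 1 * (∑ j ∈ Finset.range n, NUM_m f j) := Nat.mul_le_mul_right _ hα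
      _ = _ := one_mul _
  have h5 : β * n ≤ n := by
    calc _ ≤ 1 * n := Nat.mul_le_mul_right _ hβ
      _ = _ := one_mul _
  omega

theorem NUM_ne (n n' : ℕ) (h : n < n') : 4 * 4 ^ (n + 2) ≤ 4 ^ (n' + 2) := by
  calc 4 * 4 ^ (n + 2) = 4 ^ (n + 3) := by ring
    _ ≤ 4 ^ (n' + 2) := Nat.pow_le_pow_right (by norm_num) (by omega)

theorem thm_NUM : St_NUM := by
  refine ⟨NUM_m, fun f n => ⟨(NUM_16 n).trans (NUM_ge f n), ?_⟩, ?_⟩
  · calc NUM_m f n ≤ 4 ^ (n + 2) + 1 := NUM_le f n
      _ ≤ 4 ^ (n + 2) + 4 ^ (n + 2) := Nat.add_le_add_left (Nat.one_le_pow _ _ (by norm_num)) _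
      _ = 2 * 4 ^ (n + 2) := by ring
      _ ≤ 5 * 5 ^ (n + 2) := Nat.mul_le_mul (by norm_num) (Nat.pow_le_pow_left (by norm_num) _)
      _ = 5 ^ (n + 3) := by ring
  · intro α β hα hβ f g hfg
    have hex : ∃ n, f n ≠ g n := by
      by_contra h
      push Not at h
      exact hfg (funext h)
    classical
    obtain ⟨n, hn, hmin⟩ : ∃ n, f n ≠ g n ∧ ∀ j < n, f j = g j := by
      refine ⟨Nat.find hex, Nat.find_spec hex, fun j hj => ?_⟩
      have := Nat.find_min hex hj
      simpa using this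
    have hd : NUM_m f n ≠ NUM_m g n := by
      unfold NUM_m
      intro h
      cases hf : f n <;> cases hg : g n <;> simp_all
    refine ⟨n, fun n' => ?_, fun n' => ?_⟩
    · rcases lt_trichotomy n n' with h | h | h
      · have h1 := NUM_ub f n α β hα hβ
        have h2 := NUM_ge g n'
        have h3 := NUM_ne n n' h
        have h4 : 0 < 4 ^ (n + 2) := by positivity
        omega
      · subst h
        have h1 : ∑ j ∈ Finset.range n, NUM_m f j = ∑ j ∈ Finset.range n, NUM_m g j := by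
          refine Finset.sum_congr rfl fun j hj => ?_
          unfold NUM_m
          rw [hmin j (Finset.mem_range.1 hj)]
        rw [h1]
        omega
      · have h1 := NUM_ub g n' α β hα hβ
        have h2 := NUM_ge f n
        have h3 := NUM_ne n' n h
        have h4 : 0 < 4 ^ (n' + 2) := by positivity
        omega
    · have h1 := NUM_16 n
      have h2 := NUM_16 n'
      have h3 := NUM_ge f n
      have h4 := NUM_ge g n'
      have h5 := NUM_le f n
      have h6 := NUM_le g n'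
      rcases lt_trichotomy n n' with h | h | h
      · have h7 := NUM_ne n n' h
        omega
      · subst h
        omega
      · have h7 := NUM_ne n' n h
        omega

end HER
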