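import Pool.Agent.HER.St

/-!
# HER: one pair of colours [PR]
-/

set_option autoImplicit false

namespace HER

theorem thm_PR : St_PR := by
  intro M D _ Q Y hmono hY hQ
  by_contra hcon
  push Not at hcon
  have key : ∀ s : Finset D, ∃ Y1 ⊆ Y, ¬ Y1.Countable ∧ ∀ c ∈ s, ¬ Q c Y1 := by
    classical
    intro s
    induction s using Finset.induction_on with
    | empty => exact ⟨Y, subset_rfl, hY, fun c hc => absurd hc (Finset.notMem_empty c)⟩
    | insert a s _ ih =>
      obtain ⟨Y1, hY1, hu, hc⟩ := ih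
      obtain ⟨Y2, hY2, hu2, hn⟩ := hcon Y1 hY1 hu a
      refine ⟨Y2, hY2.trans hY1, hu2, fun c hcs => ?_⟩
      rcases Finset.mem_insert.1 hcs with rfl | h
      · exact hn
      · exact fun hq => hc c h (hmono c Y2 Y1 hY2 hq)
  have : Fintype D := Fintype.ofFinite D
  obtain ⟨Y1, hY1, hu, hc⟩ := key Finset.univ
  obtain ⟨c, hq⟩ := hQ Y1 hY1 hu
  exact hc c (Finset.mem_univ c) hq

end HER
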