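import Pool.Agent.HER.St

/-!
# HER, module RAM: the infinite Ramsey theorem for pairs
-/

set_option autoImplicit false

namespace HER

open Set

/-- one step of the construction -/
theorem RAM_step {C : Type} [Finite C] (c : ℕ → ℕ → C) (A : {A : Set ℕ // A.Infinite}) :
    ∃ (a : ℕ) (k : C) (A' : {A : Set ℕ // A.Infinite}), a ∈ A.1 ∧ A'.1 ⊆ A.1 ∧
      ∀ x ∈ A'.1, a < x ∧ c a x = k := by
  obtain ⟨a, ha⟩ := A.2.nonempty
  have hB : (A.1 \ Iic a).Infinite := A.2.sdiff (finite_Iic a)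
  have hBi : Infinite ↥(A.1 \ Iic a) := hB.to_subtype
  obtain ⟨k, hk⟩ := Finite.exists_infinite_fiber (fun x : ↥(A.1 \ Iic a) => c a x)
  have hinf : (Subtype.val '' ((fun x : ↥(A.1 \ Iic a) => c a x) ⁻¹' {k})).Infinite :=
    (Set.infinite_coe_iff.1 hk).image Subtype.val_injective.injOn
  refine ⟨a, k, ⟨_, hinf⟩, ha, ?_, ?_⟩
  · rintro _ ⟨x, -, rfl⟩
    exact x.2.1
  · rintro _ ⟨x, hx, rfl⟩
    exact ⟨not_le.1 x.2.2, hx⟩

/-- [RAM] -/
theorem thm_RAM : St_RAM := by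
  intro C _ c
  choose a k A' ha hA hx using RAM_step c
  let S : ℕ → {A : Set ℕ // A.Infinite} := fun n => A'^[n] ⟨univ, infinite_univ⟩
  have hS : ∀ n, S (n + 1) = A' (S n) := fun n => Function.iterate_succ_apply' _ _ _
  have hmono : ∀ m j, (S (m + j)).1 ⊆ (S m).1 := by
    intro m j
    induction j with
    | zero => exact Subset.rfl
    | succ j ih =>
      rw [← Nat.add_assoc, hS]
      exact (hA _).trans ih
  have hlt : ∀ m n, m < n → a (S m) < a (S n) ∧ c (a (S m)) (a (S n)) = k (S m) := by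
    intro m n hmn
    obtain ⟨j, rfl⟩ : ∃ j, n = m + 1 + j := ⟨n - (m + 1), by omega⟩
    apply hx (S m)
    rw [← hS]
    exact hmono (m + 1) j (ha _)
  obtain ⟨κ, hκ⟩ := Finite.exists_infinite_fiber (fun n => k (S n))
  have hinf : ((fun n => k (S n)) ⁻¹' {κ}).Infinite := Set.infinite_coe_iff.1 hκ
  let σ : ℕ → ℕ := Nat.nth (fun n => n ∈ (fun n => k (S n)) ⁻¹' {κ})
  have hσ : StrictMono σ := Nat.nth_strictMono hinf
  have hσ2 : ∀ n, k (S (σ n)) = κ := fun n => Nat.nth_mem_of_infinite hinf n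
  refine ⟨fun n => a (S (σ n)), κ, fun m n hmn => (hlt _ _ (hσ hmn)).1, fun i j hij => ?_⟩
  rw [← hσ2 i]
  exact (hlt _ _ (hσ hij)).2

end HER
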