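import Pool.Agent.HER.St

/-!
# HER: transfinite choice
-/

set_option autoImplicit false

namespace HER

open Set Pool.Agent.Helper5.DU Pool.Agent.Helper6.Str Pool.Agent.Helper79.VC
  Pool.Agent.Helper97.LO Pool.Agent.Helper97.VC

theorem thm_SQ : St_SQ := by
  intro X Y E h
  obtain ⟨x₀, _, _⟩ := h ∅ countable_empty
  have h1 : ∀ D : Set X, ∃ x, D.Countable → x ∈ Y ∧ ∀ y ∈ D, x ∉ E y := by
    intro D
    by_cases hD : D.Countable
    · obtain ⟨x, hx, hx'⟩ := h D hD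
      exact ⟨x, fun _ => ⟨hx, hx'⟩⟩
    · exact ⟨x₀, fun h' => absurd h' hD⟩
  choose F hF using h1
  have hwf : WellFounded ((· < ·) : Om → Om → Prop) := wellFounded_lt
  let s : Om → X := hwf.fix (fun b ih => F {x | ∃ a, ∃ h : a < b, ih a h = x})
  have hs : ∀ b, s b = F (s '' Iio b) := by
    intro b
    have h2 : s b = F {x | ∃ a, ∃ _ : a < b, s a = x} := hwf.fix_eq _ b
    rw [h2]
    congr 1
    ext x
    constructor
    · rintro ⟨a, ha, rfl⟩
      exact ⟨a, ha, rfl⟩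
    · rintro ⟨a, ha, rfl⟩
      exact ⟨a, ha, rfl⟩
  have hc : ∀ b, (s '' Iio b).Countable := fun b => (countable_Iio_om b).image s
  refine ⟨s, fun b => ?_, fun a b hab => ?_⟩
  · rw [hs b]
    exact (hF _ (hc b)).1
  · rw [hs b]
    exact (hF _ (hc b)).2 _ ⟨a, hab, rfl⟩

end HER
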