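import Pool.Agent.HER.St

/-!
# HER, module SS: a set which is not split by its elements
-/

set_option autoImplicit false

namespace HER

open Set Pool.Agent.Helper79.VC

/-- an uncountable set which is a finite union has an uncountable member -/
theorem SS_union {M C : Type} [Finite C] {Y : Set M} (hY : ¬ Y.Countable) (P : C → Set M)
    (h : ∀ y ∈ Y, ∃ c, y ∈ P c) : ∃ c, ¬ {y ∈ Y | y ∈ P c}.Countable := by
  by_contra hcon
  push Not at hcon
  apply hY
  refine (countable_iUnion hcon).mono fun y hy => ?_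
  obtain ⟨c, hc⟩ := h y hy
  exact mem_iUnion.2 ⟨c, hy, hc⟩

/-- [SS] -/
theorem thm_SS (hSQ : St_SQ) : St_SS := by
  intro M C _ inv col Y hCS hY hspl
  have h1 : ∀ y ∈ Y, ∃ k, y ∈ {y : M | {x ∈ Y | col y x ≠ k}.Countable} := by
    intro y hy
    obtain ⟨t, ht⟩ := SS_union hY (fun t => {x : M | col y x = t}) fun x _ => ⟨col y x, rfl⟩
    refine ⟨t, ?_⟩
    show {x ∈ Y | col y x ≠ t}.Countable
    have h2 : ∀ t', t' ≠ t → {x ∈ Y | col y x = t'}.Countable := by
      intro t' ht'
      by_contra hcon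
      exact hspl y hy t t' ⟨ht'.symm, ht, hcon⟩
    have h3 : ∀ t' : {t' : C // t' ≠ t}, {x ∈ Y | col y x = t'.1}.Countable :=
      fun t' => h2 t'.1 t'.2
    refine (countable_iUnion h3).mono fun x hx => ?_
    exact mem_iUnion.2 ⟨⟨col y x, hx.2⟩, hx.1, rfl⟩
  obtain ⟨k, hk⟩ := SS_union hY _ h1
  let Y1 : Set M := {y ∈ Y | y ∈ {y : M | {x ∈ Y | col y x ≠ k}.Countable}}
  have hY1 : ¬ Y1.Countable := hk
  obtain ⟨s, hs1, hs2⟩ := hSQ M Y1 (fun y => {x | x = y ∨ (y ∈ Y1 ∧ x ∈ Y ∧ col y x ≠ k)}) (by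
    intro D hD
    by_contra hcon
    push Not at hcon
    apply hY1
    have h4 : ∀ y ∈ D, {x | x = y ∨ (y ∈ Y1 ∧ x ∈ Y ∧ col y x ≠ k)}.Countable := by
      intro y _
      by_cases hy : y ∈ Y1
      · have h5 : {x ∈ Y | col y x ≠ k}.Countable := hy.2
        refine ((countable_singleton y).union h5).mono ?_
        rintro x (hx | ⟨-, hx⟩)
        · exact Or.inl hx
        · exact Or.inr hx
      · refine (countable_singleton y).mono ?_
        rintro x (hx | ⟨h6, -⟩)
        · exact hx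
        · exact absurd h6 hy
    refine (hD.biUnion h4).mono fun x hx => ?_
    obtain ⟨y, hy, hxy⟩ := hcon x hx
    exact mem_iUnion₂.2 ⟨y, hy, hxy⟩)
  have hne : ∀ a b, a < b → s b ≠ s a := fun a b hab h => hs2 a b hab (Or.inl h)
  have hcol : ∀ a b, a < b → col (s a) (s b) = k := by
    intro a b hab
    by_contra hcon
    exact hs2 a b hab (Or.inr ⟨hs1 a, (hs1 b).1, hcon⟩)
  have hinj : Function.Injective s := by
    intro a b hab
    rcases lt_trichotomy a b with h | h | h
    · exact absurd hab.symm (hne a b h)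
    · exact h
    · exact absurd hab (hne b a h)
  have hk' : inv k = k := hCS.seq1 s k hinj hcol
  refine ⟨range s, ?_, ?_, k, hk', ?_⟩
  · rintro _ ⟨a, rfl⟩
    exact (hs1 a).1
  · intro hc
    apply not_countable_om
    have h5 : (univ : Set Om) = s ⁻¹' range s := by
      ext a
      simp
    rw [h5]
    exact hc.preimage hinj
  · rintro _ ⟨a, rfl⟩ _ ⟨b, rfl⟩ hab
    rcases lt_trichotomy a b with h | h | h
    · exact hcol a b h
    · exact absurd (congrArg s h) hab
    · rw [hCS.sym (s b) (s a), hcol b a h, hk']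

end HER
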