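import Pool.Agent.HER.DC2

/-!
# HER: combs whose elements see the later elements in the colour `p`
-/

set_option autoImplicit false

namespace HER

open Set Pool.Agent.Helper5.DU Pool.Agent.Helper6.Str Pool.Agent.Helper79.VC
  Pool.Agent.Helper97.LO Pool.Agent.Helper97.VC

/-- the number of the indices of a row without one element, possibly with the element of the
spine -/
theorem DC3_card (m : ℕ → ℕ) (i k : ℕ) (A B : Prop) [Decidable A] [Decidable B] (U : Set DC1_J)
    (hk : k < m i) (hl : ∀ j, Sum.inl j ∈ U ↔ j = i ∧ B)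
    (hr : ∀ r, Sum.inr r ∈ U ↔ r.2 < m r.1 ∧ r.1 = i ∧ r.2 ≠ k ∧ A) :
    U.encard = (((if B then 1 else 0) + (if A then m i - 1 else 0) : ℕ) : ℕ∞) := by
  classical
  have h1 : U = ↑(Finset.disjSum (if B then {i} else ∅)
      ((if A then {i} else ∅ : Finset ℕ).sigma fun j => (Finset.range (m j)).erase k) :
        Finset DC1_J) := by
    ext t
    rw [Finset.mem_coe]
    rcases t with j | r
    · rw [hl, Finset.inl_mem_disjSum]
      split_ifs with hB
      · simp [hB]
      · simp [hB]
    · rw [hr, Finset.inr_mem_disjSum, Finset.mem_sigma, Finset.mem_erase, Finset.mem_range]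
      split_ifs with hA
      · rw [Finset.mem_singleton]
        tauto
      · simp [hA]
  rw [h1, Set.encard_coe_eq_coe_finsetCard, Finset.card_disjSum, Finset.card_sigma]
  congr 1
  split_ifs with hB hA hA
  · rw [Finset.sum_singleton, Finset.card_erase_of_mem (Finset.mem_range.2 hk),
      Finset.card_range, Finset.card_singleton]
  · simp
  · rw [Finset.sum_singleton, Finset.card_erase_of_mem (Finset.mem_range.2 hk),
      Finset.card_range, Finset.card_empty]
  · simp

theorem thm_DC3 (hN : St_NUM) : St_DC3 := by
  classical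
  intro M C inv col N p e ρ0 z x hCS hNN hc hpe
  obtain ⟨m, hm, hne⟩ := hN
  have hmN : ∀ f i, m f i ≤ N i := fun f i => (hm f i).2.trans (hNN i)
  -- the colours
  have hzz : ∀ i j, i ≠ j → col (z i) (z j) = p ∨ col (z i) (z j) = inv p := by
    intro i j hij
    rcases lt_or_gt_of_ne hij with h | h
    · exact Or.inl (hc.zz i j h)
    · right
      rw [hCS.sym (z j) (z i), hc.zz j i h]
  have hzx : ∀ i j l, i ≠ j → l < N j → col (z i) (x j l) = p ∨ col (z i) (x j l) = inv p := by
    intro i j l hij hl
    rcases lt_or_gt_of_ne hij with h | h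
    · exact Or.inl (hc.zxp i j l h hl)
    · exact Or.inr (hc.zxd j i l h hl)
  have hxz : ∀ i j l, i ≠ j → l < N j → col (x j l) (z i) = p ∨ col (x j l) (z i) = inv p := by
    intro i j l hij hl
    rw [hCS.sym (z i) (x j l)]
    rcases hzx i j l hij hl with h | h
    · exact Or.inr (congrArg inv h)
    · left
      rw [h, hCS.inv2]
  have hxx : ∀ i j k l, i ≠ j → k < N i → l < N j →
      col (x i k) (x j l) = p ∨ col (x i k) (x j l) = inv p := by
    intro i j k l hij hk hl
    rcases lt_or_gt_of_ne hij with h | h
    · exact Or.inl (hc.xx i j k l h hk hl)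
    · right
      rw [hCS.sym (x j l) (x i k), hc.xx j i l k h hl hk]
  have hxx0 : ∀ i k l, k ≠ l → k < N i → l < N i →
      (col (x i k) (x i l) = p ∨ col (x i k) (x i l) = inv p ↔ ρ0 = p ∨ ρ0 = inv p) := by
    intro i k l hkl hk hl
    rcases lt_or_gt_of_ne hkl with h | h
    · rw [hc.xx0 i k l h hl]
    · rw [hCS.sym (x i l) (x i k), hc.xx0 i l k h hk]
      constructor
      · rintro (h1 | h1)
        · right
          rw [← h1, hCS.inv2]
        · left
          rw [← hCS.inv2 ρ0, h1, hCS.inv2]
      · rintro (h1 | h1)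
        · exact Or.inr (congrArg inv h1)
        · left
          rw [h1, hCS.inv2]
  obtain ⟨f, g, hfg, hcnt⟩ := DC2_core hCS hNN hc m hm (fun c => ¬ (c = p ∨ c = inv p))
  obtain ⟨n, hn, hn'⟩ := hne 0 0 (by simp) (by simp) f g hfg
  by_cases he : e = inv p
  · -- the row sees its spine element in the colours `p`, `inv p`
    refine ⟨fun h => hpe (h.symm.trans he.symm), he, ?_⟩
    by_contra hρ
    have hinl : ∀ (f : ℕ → Bool) (i : ℕ), {t | t ∈ DC1_S (m f) ∧
        DC1_pt z x (Sum.inl i) ≠ DC1_pt z x t ∧
          ¬ (col (DC1_pt z x (Sum.inl i)) (DC1_pt z x t) = p ∨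
            col (DC1_pt z x (Sum.inl i)) (DC1_pt z x t) = inv p)}.encard = 0 := by
      intro f i
      rw [encard_eq_zero, eq_empty_iff_forall_notMem]
      rintro (j | ⟨j, l⟩) ⟨ht, h1, h2⟩
      · exact h2 (hzz i j fun h => h1 (congrArg z h))
      · have hl := ((DC1_S_inr _ _).1 ht).trans_le (hmN f j)
        by_cases hij : i = j
        · subst hij
          exact h2 (Or.inr ((hc.zxe i l hl).trans he))
        · exact h2 (hzx i j l hij hl)
    have hinr : ∀ (f : ℕ → Bool) (i k : ℕ), Sum.inr ⟨i, k⟩ ∈ DC1_S (m f) →
        {t | t ∈ DC1_S (m f) ∧ DC1_pt z x (Sum.inr ⟨i, k⟩) ≠ DC1_pt z x t ∧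
          ¬ (col (DC1_pt z x (Sum.inr ⟨i, k⟩)) (DC1_pt z x t) = p ∨
            col (DC1_pt z x (Sum.inr ⟨i, k⟩)) (DC1_pt z x t) = inv p)}.encard =
          (((if False then 1 else 0) + (if True then m f i - 1 else 0) : ℕ) : ℕ∞) := by
      intro f i k hr
      have hk' := (DC1_S_inr _ _).1 hr
      have hk := hk'.trans_le (hmN f i)
      refine DC3_card (m f) i k True False _ hk' (fun j => ?_) (fun r => ?_)
      · constructor
        · rintro ⟨_, _, h2⟩
          exfalso
          by_cases hij : j = i
          · subst hij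
            apply h2
            left
            change col (x j k) (z j) = p
            rw [hCS.sym (z j) (x j k), hc.zxe j k hk, he, hCS.inv2]
          · exact h2 (hxz j i k hij hk)
        · rintro ⟨_, h⟩
          exact h.elim
      · obtain ⟨j, l⟩ := r
        constructor
        · rintro ⟨ht, h1, h2⟩
          have hl' := (DC1_S_inr _ _).1 ht
          have hl := hl'.trans_le (hmN f j)
          by_cases hij : j = i
          · subst hij
            refine ⟨hl', rfl, fun h3 => h1 ?_, trivial⟩
            change x j k = x j l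
            rw [← h3]
          · exact absurd (hxx i j k l (Ne.symm hij) hk hl) h2
        · rintro ⟨hl', h1, h2, _⟩
          change j = i at h1
          subst h1
          have hl := hl'.trans_le (hmN f j)
          refine ⟨(DC1_S_inr _ _).2 hl', fun h3 => h2 ?_, ?_⟩
          · exact (hc.xinj _ _ _ _ hk hl h3).2.symm
          · intro h3
            exact hρ ((hxx0 j k l (Ne.symm h2) hk hl).1 h3)
    have h0 : (Sum.inr ⟨n, 0⟩ : DC1_J) ∈ DC1_S (m f) := by
      rw [DC1_S_inr]
      have := (hm f n).1
      change 0 < m f n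
      omega
    obtain ⟨s, hsS, hs1⟩ := hcnt _ ⟨_, h0, hinr f n 0 h0⟩
    have h16 := (hm f n).1
    rcases s with n' | ⟨i, k⟩
    · rw [hinl g n'] at hs1
      have h2 : (0 : ℕ) = (if False then 1 else 0) + (if True then m f n - 1 else 0) := by
        exact_mod_cast hs1
      simp only [if_false, if_true, zero_add] at h2
      omega
    · rw [hinr g i k hsS, Nat.cast_inj] at hs1
      simp only [if_false, if_true, zero_add] at hs1
      exact hn' i hs1.symm
  · exfalso
    have hinl : ∀ (f : ℕ → Bool) (i : ℕ), {t | t ∈ DC1_S (m f) ∧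
        DC1_pt z x (Sum.inl i) ≠ DC1_pt z x t ∧
          ¬ (col (DC1_pt z x (Sum.inl i)) (DC1_pt z x t) = p ∨
            col (DC1_pt z x (Sum.inl i)) (DC1_pt z x t) = inv p)}.encard =
        ((m f i + (if False then 1 else 0) * (∑ j ∈ Finset.range i, m f j) +
          (if False then 1 else 0) * i : ℕ) : ℕ∞) := by
      intro f i
      refine DC1_card (m f) i False False _ (fun j => ?_) (fun r => ?_)
      · constructor
        · rintro ⟨_, h1, h2⟩
          exact absurd (hzz i j fun h => h1 (congrArg z h)) h2
        · rintro ⟨_, h⟩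
          exact h.elim
      · obtain ⟨j, l⟩ := r
        constructor
        · rintro ⟨ht, h1, h2⟩
          have hl' := (DC1_S_inr _ _).1 ht
          have hl := hl'.trans_le (hmN f j)
          refine ⟨hl', ?_⟩
          by_cases hij : j = i
          · exact Or.inl hij
          · exact absurd (hzx i j l (Ne.symm hij) hl) h2
        · rintro ⟨hl', h1 | ⟨_, h1⟩⟩
          · change j = i at h1
            subst h1
            have hl := hl'.trans_le (hmN f j)
            refine ⟨(DC1_S_inr _ _).2 hl', hc.zx _ _ _ hl, ?_⟩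
            change ¬ (col (z j) (x j l) = p ∨ col (z j) (x j l) = inv p)
            rw [hc.zxe j l hl]
            rintro (h3 | h3)
            · exact hpe h3.symm
            · exact he h3
          · exact h1.elim
    have hinr : ∀ (f : ℕ → Bool) (i k : ℕ), Sum.inr ⟨i, k⟩ ∈ DC1_S (m f) →
        {t | t ∈ DC1_S (m f) ∧ DC1_pt z x (Sum.inr ⟨i, k⟩) ≠ DC1_pt z x t ∧
          ¬ (col (DC1_pt z x (Sum.inr ⟨i, k⟩)) (DC1_pt z x t) = p ∨
            col (DC1_pt z x (Sum.inr ⟨i, k⟩)) (DC1_pt z x t) = inv p)}.encard =
          (((if True then 1 else 0) +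
            (if ¬ (ρ0 = p ∨ ρ0 = inv p) then m f i - 1 else 0) : ℕ) : ℕ∞) := by
      intro f i k hr
      have hk' := (DC1_S_inr _ _).1 hr
      have hk := hk'.trans_le (hmN f i)
      refine DC3_card (m f) i k (¬ (ρ0 = p ∨ ρ0 = inv p)) True _ hk' (fun j => ?_) (fun r => ?_)
      · constructor
        · rintro ⟨_, _, h2⟩
          refine ⟨?_, trivial⟩
          by_contra hij
          exact h2 (hxz j i k hij hk)
        · rintro ⟨h1, _⟩
          subst h1
          refine ⟨DC1_S_inl _ _, fun h3 => hc.zx _ _ _ hk h3.symm, ?_⟩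
          change ¬ (col (x j k) (z j) = p ∨ col (x j k) (z j) = inv p)
          rw [hCS.sym (z j) (x j k), hc.zxe j k hk]
          rintro (h3 | h3)
          · apply he
            rw [← h3, hCS.inv2]
          · apply hpe
            rw [← hCS.inv2 e, h3, hCS.inv2]
      · obtain ⟨j, l⟩ := r
        constructor
        · rintro ⟨ht, h1, h2⟩
          have hl' := (DC1_S_inr _ _).1 ht
          have hl := hl'.trans_le (hmN f j)
          by_cases hij : j = i
          · subst hij
            have h4 : l ≠ k := by
              intro h3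
              apply h1
              change x j k = x j l
              rw [← h3]
            refine ⟨hl', rfl, h4, fun h5 => h2 ?_⟩
            exact (hxx0 j k l (Ne.symm h4) hk hl).2 h5
          · exact absurd (hxx i j k l (Ne.symm hij) hk hl) h2
        · rintro ⟨hl', h1, h2, h4⟩
          change j = i at h1
          subst h1
          have hl := hl'.trans_le (hmN f j)
          refine ⟨(DC1_S_inr _ _).2 hl', fun h3 => h2 ?_, ?_⟩
          · exact (hc.xinj _ _ _ _ hk hl h3).2.symm
          · intro h3
            exact h4 ((hxx0 j k l (Ne.symm h2) hk hl).1 h3)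
    obtain ⟨s, hsS, hs1⟩ := hcnt _ ⟨_, DC1_S_inl _ _, hinl f n⟩
    have h16 := (hm f n).1
    rcases s with n' | ⟨i, k⟩
    · rw [hinl g n', Nat.cast_inj] at hs1
      apply hn n'
      simp only [if_false, zero_mul, add_zero] at hs1 ⊢
      exact hs1.symm
    · rw [hinr g i k hsS, Nat.cast_inj] at hs1
      have h1 := hn i
      have h16' := (hm g i).1
      simp only [if_false, if_true, zero_mul, add_zero] at hs1 h1
      split_ifs at hs1 with h3
      · omega
      · omega

end HER
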