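import Pool.Agent.HER.St

/-!
# HER [HF]: countable substructures of the large structure
-/

set_option autoImplicit false

namespace HER

open Set Pool.Agent.Helper5.DU Pool.Agent.Helper6.Str Pool.Agent.Helper79.VC
  Pool.Agent.Helper97.LO Pool.Agent.Helper97.VC

theorem thm_HF : St_HF := by
  classical
  intro L _ _ K δ M S hV hK
  by_contra hcon
  have h1 : ∀ F : Finset M, ∃ g : ℕ → M, Function.Injective g ∧ (F : Set M) ⊆ range g ∧
      pl S g ∉ K := by
    intro F
    by_contra h
    push Not at h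
    exact hcon ⟨F, F.finite_toSet, fun g hg hF => h g hg hF⟩
  choose g hg1 hg2 hg3 using h1
  have hκ : ∀ F : Finset M, ∃ T : Set M, T.Countable ∧ ∀ c : M, ∃ c' ∈ T,
      BFR S S univ univ δ (insert (c, c') ((fun a => (a, a)) '' (F : Set M))) := by
    intro F
    obtain ⟨κ, hκ⟩ := countable_classes hV.scat hV.lt hV.lev F
    have hrep : ∀ (m : ℕ), ∃ T : Set M, T.Countable ∧
        ((∃ c, κ c = m) → ∃ c ∈ T, κ c = m) := by
      intro m
      by_cases h : ∃ c, κ c = m
      · obtain ⟨c, hc⟩ := h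
        exact ⟨{c}, countable_singleton _, fun _ => ⟨c, rfl, hc⟩⟩
      · exact ⟨∅, countable_empty, fun h' => absurd h' h⟩
    choose T hT1 hT2 using hrep
    refine ⟨⋃ m, T m, countable_iUnion hT1, fun c => ?_⟩
    obtain ⟨c', hc', hcc⟩ := hT2 (κ c) ⟨c, rfl⟩
    exact ⟨c', mem_iUnion.mpr ⟨κ c, hc'⟩, hκ c c' hcc.symm⟩
  choose T hT1 hT2 using hκ
  obtain ⟨B, hBc, hB⟩ := exists_closed (fun F => T F ∪ range (g F))
    (fun F => (hT1 F).union (countable_range _))
  have hBd : ∀ F : Finset M, (F : Set M) ⊆ B → ∀ c : M, ∃ c' ∈ B,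
      BFR S S univ univ δ (insert (c, c') ((fun a => (a, a)) '' (F : Set M))) := by
    intro F hF c
    obtain ⟨c', hc', h⟩ := hT2 F c
    exact ⟨c', hB F hF (Or.inl hc'), h⟩
  have hinf : Infinite M := infinite_of_lev hV.lev
  obtain ⟨f, hf, hfB⟩ := exists_enum hBc (fun F hF c => by
    obtain ⟨c', hc', h⟩ := hBd F hF c
    exact ⟨c', hc', h.mono (bot_le)⟩)
  have hSB : BFR S (pl S f) univ univ δ ∅ := by
    have h4 : BFR S S univ B δ ∅ := closed_rel hBd δ le_rfl ∅ finite_empty
      (fun a ha => absurd ha (notMem_empty a))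
      (BFR.refl S univ δ fun a ha => absurd ha (notMem_empty a))
    rw [← hfB] at h4
    exact BFR_pl' hf h4 fun a ha => absurd ha (notMem_empty a)
  obtain ⟨S1, hS1, h5⟩ := hV.lev δ hV.lt
  have hfK : pl S f ∈ K := hV.clos S1 hS1 _ (by
    refine BFR.trans (h5.symm (q := ∅) fun a ha => absurd ha (notMem_empty a)) hSB ?_
    exact fun a ha => absurd ha (notMem_empty a))
  obtain ⟨F', hF', hF'K⟩ := hK _ hfK
  have hFB : ((hF'.toFinset.image f : Finset M) : Set M) ⊆ B := by
    rw [← hfB, Finset.coe_image]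
    exact image_subset_range f _
  have hr : range (g (hF'.toFinset.image f)) ⊆ B := fun x hx => hB _ hFB (Or.inr hx)
  have hch : ∀ n, ∃ m, f m = g (hF'.toFinset.image f) n := by
    intro n
    have := hr (mem_range_self n)
    rwa [← hfB] at this
  choose h hh using hch
  have hinj : Function.Injective h := by
    intro a b hab
    apply hg1 (hF'.toFinset.image f)
    rw [← hh, ← hh, hab]
  have hsub : F' ⊆ range h := by
    intro x hx
    have : f x ∈ ((hF'.toFinset.image f : Finset M) : Set M) := by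
      rw [Finset.coe_image, hF'.coe_toFinset]
      exact mem_image_of_mem f hx
    obtain ⟨n, hn⟩ := hg2 _ this
    refine ⟨n, hf ?_⟩
    rw [hh, hn]
  have hfin := hF'K h hinj hsub
  apply hg3 (hF'.toFinset.image f)
  have he : g (hF'.toFinset.image f) = fun n => f (h n) := funext fun n => (hh n).symm
  rw [he]
  exact hfin

end HER
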