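import Pool.Agent.HER.St

/-!
# HER [CNT]: the counting invariants
-/

set_option autoImplicit false

namespace HER

open Set Pool.Agent.Helper5.DU Pool.Agent.Helper6.Str Pool.Agent.Helper79.VC
  Pool.Agent.Helper97.LO Pool.Agent.Helper97.VC

section

variable {L : FirstOrder.Language.{0, 0}} {M : Type} {S : L.Structure M} {F : Set M}

theorem CNT_F {p : Set (M × M)} (hp : AtEq S S p) (hF : ∀ x ∈ F, (x, x) ∈ p) {x x' : M}
    (h : (x, x') ∈ p) : x ∈ F ↔ x' ∈ F := by
  constructor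
  · intro hx
    have h1 := (hp.1 _ h _ (hF x hx)).1 rfl
    simp only at h1
    rw [h1]
    exact hx
  · intro hx
    have h1 := (hp.1 _ h _ (hF x' hx)).2 rfl
    simp only at h1
    rw [h1]
    exact hx

variable {C : Type} {t : C → Set (Σ n, L.Relations n × (Fin n → F ⊕ Bool))}
  {col : {x : M // x ∉ F} → {x : M // x ∉ F} → C}

theorem CNT_col (ht : ∀ x y, t (col x y) = at2 S F x y) (hinj : Function.Injective t)
    {p : Set (M × M)} (hp : AtEq S S p) (hF : ∀ x ∈ F, (x, x) ∈ p) {x x' y y' : {x : M // x ∉ F}}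
    (h : (x.1, x'.1) ∈ p) (h' : (y.1, y'.1) ∈ p) : col x y = col x' y' := by
  apply hinj
  rw [ht, ht]
  ext r
  unfold at2
  simp only [mem_setOf_eq]
  have h1 := hp.2 r.1 r.2.1 (fun i => Sum.elim (fun a : F => ((a : M), (a : M)))
    (fun b => if b then (y.1, y'.1) else (x.1, x'.1)) (r.2.2 i)) (by
      intro i
      rcases r.2.2 i with a | b
      · exact hF a a.2
      · cases b
        · exact h
        · exact h')
  have e1 : (fun i => (Sum.elim (fun a : F => ((a : M), (a : M)))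
      (fun b => if b then (y.1, y'.1) else (x.1, x'.1)) (r.2.2 i)).1) =
      fun i => Sum.elim (fun a : F => (a : M)) (fun b => if b then y.1 else x.1) (r.2.2 i) := by
    funext i
    rcases r.2.2 i with a | b
    · rfl
    · cases b <;> rfl
  have e2 : (fun i => (Sum.elim (fun a : F => ((a : M), (a : M)))
      (fun b => if b then (y.1, y'.1) else (x.1, x'.1)) (r.2.2 i)).2) =
      fun i => Sum.elim (fun a : F => (a : M)) (fun b => if b then y'.1 else x'.1) (r.2.2 i) := by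
    funext i
    rcases r.2.2 i with a | b
    · rfl
    · cases b <;> rfl
  rw [e1, e2] at h1
  exact h1

variable {n : ℕ} {a : Fin n → {x : M // x ∉ F}} {φ : (Fin n → C) → (Fin n → C) → C → Prop}

theorem CNT_rl (ht : ∀ x y, t (col x y) = at2 S F x y) (hinj : Function.Injective t)
    {p : Set (M × M)} (hp : AtEq S S p) (hF : ∀ x ∈ F, (x, x) ∈ p)
    (ha : ∀ i, ((a i).1, (a i).1) ∈ p) {x x' y y' : {x : M // x ∉ F}}
    (h : (x.1, x'.1) ∈ p) (h' : (y.1, y'.1) ∈ p) :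
    Rl col a φ x y ↔ Rl col a φ x' y' := by
  have h1 : x = y ↔ x' = y' := by
    rw [Subtype.ext_iff, Subtype.ext_iff]
    exact hp.1 _ h _ h'
  have h2 : (fun i => col (a i) x) = fun i => col (a i) x' :=
    funext fun i => CNT_col ht hinj hp hF (ha i) h
  have h3 : (fun i => col (a i) y) = fun i => col (a i) y' :=
    funext fun i => CNT_col ht hinj hp hF (ha i) h'
  unfold Rl
  rw [h2, h3, CNT_col ht hinj hp hF h h', ne_eq, ne_eq, h1]

theorem CNT_rg {p : Set (M × M)} (hp : AtEq S S p) (ha : ∀ i, ((a i).1, (a i).1) ∈ p)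
    {x x' : {x : M // x ∉ F}} (h : (x.1, x'.1) ∈ p) : x ∈ range a ↔ x' ∈ range a := by
  constructor
  · rintro ⟨i, hi⟩
    refine ⟨i, ?_⟩
    rw [Subtype.ext_iff] at hi ⊢
    exact (hp.1 _ (ha i) _ h).1 hi
  · rintro ⟨i, hi⟩
    refine ⟨i, ?_⟩
    rw [Subtype.ext_iff] at hi ⊢
    exact (hp.1 _ (ha i) _ h).2 hi

theorem CNT_enum {α : Type} {D : Set α} {m : ℕ} (h : D.encard = (m : ℕ∞)) :
    ∃ w : Fin m → α, Function.Injective w ∧ range w = D := by
  have hfin : D.Finite := by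
    rw [← encard_lt_top_iff, h]
    exact ENat.coe_lt_top m
  have hcard : Nat.card D = m := by
    have h1 := hfin.cast_ncard_eq
    rw [h] at h1
    have h2 : D.ncard = m := by exact_mod_cast h1
    exact h2
  have : Finite D := hfin
  let e := Finite.equivFinOfCardEq hcard
  refine ⟨fun i => (e.symm i : α), fun i j hij => e.symm.injective (Subtype.ext hij), ?_⟩
  ext x
  constructor
  · rintro ⟨i, rfl⟩
    exact (e.symm i).2
  · intro hx
    exact ⟨e ⟨x, hx⟩, by simp⟩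

theorem CNT_encard {α : Type} {m : ℕ} {w : Fin m → α} (hw : Function.Injective w) :
    (range w).encard = (m : ℕ∞) := by
  rw [← image_univ, hw.encard_image, encard_univ]
  simp

/-- an element of the second structure which answers an element outside of `F` -/
theorem CNT_lift {X : Set {x : M // x ∉ F}} {p : Set (M × M)} (hp : AtEq S S p)
    (hF : ∀ x ∈ F, (x, x) ∈ p) {x x' : M} (h : (x, x') ∈ p) (hx : x ∉ F)
    (hX : x' ∈ F ∪ Subtype.val '' X) : ∃ y : {x : M // x ∉ F}, y ∈ X ∧ y.1 = x' := by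
  rcases hX with h1 | ⟨y, hy, rfl⟩
  · exact absurd ((CNT_F hp hF h).2 h1) hx
  · exact ⟨y, hy, rfl⟩

theorem CNT_lift' {X : Set {x : M // x ∉ F}} {p : Set (M × M)} (hp : AtEq S S p)
    (hF : ∀ x ∈ F, (x, x) ∈ p) {x x' : M} (h : (x, x') ∈ p) (hx : x' ∉ F)
    (hX : x ∈ F ∪ Subtype.val '' X) : ∃ y : {x : M // x ∉ F}, y ∈ X ∧ y.1 = x := by
  rcases hX with h1 | ⟨y, hy, rfl⟩
  · exact absurd ((CNT_F hp hF h).1 h1) hx
  · exact ⟨y, hy, rfl⟩

theorem CNT_sub (ht : ∀ x y, t (col x y) = at2 S F x y) (hinj : Function.Injective t)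
    {X Y : Set {x : M // x ∉ F}}
    (h : BFR S S (F ∪ Subtype.val '' X) (F ∪ Subtype.val '' Y) Ordinal.omega0
      (dg (F ∪ range fun i => (a i).1))) :
    Cnt col a φ X ⊆ Cnt col a φ Y ∧ Cmp col a φ X ⊆ Cmp col a φ Y := by
  have hdF : ∀ x ∈ F, (x, x) ∈ dg (F ∪ range fun i => (a i).1) := fun x hx =>
    ⟨x, Or.inl hx, rfl⟩
  have hda : ∀ i, ((a i).1, (a i).1) ∈ dg (F ∪ range fun i => (a i).1) := fun i =>
    ⟨(a i).1, Or.inr ⟨i, rfl⟩, rfl⟩
  constructor
  · rintro m ⟨v, ⟨hvX, hva⟩, hv⟩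
    obtain ⟨w, hwinj, hwr⟩ := CNT_enum hv
    have hwX : ∀ i, w i ∈ X ∧ w i ∉ range a ∧ Rl col a φ v (w i) := by
      intro i
      have h1 : w i ∈ range w := mem_range_self i
      rw [hwr] at h1
      exact ⟨h1.1.1, h1.1.2, h1.2⟩
    obtain ⟨v₁, hv₁, h1⟩ := h.forth (β := ((1 + m : ℕ) : Ordinal.{0}))
      (Ordinal.natCast_lt_omega0 _) (x := v.1) (Or.inr ⟨v, hvX, rfl⟩)
    rw [Nat.cast_add, Nat.cast_one] at h1
    obtain ⟨w₁, hw₁, h2⟩ := BFR.forth_many m h1 (fun i => (w i).1)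
      (fun i => Or.inr ⟨w i, (hwX i).1, rfl⟩)
    set p : Set (M × M) := insert (v.1, v₁) (dg (F ∪ range fun i => (a i).1)) ∪
      range fun i => ((w i).1, w₁ i) with hp
    have hpe := h2.atEq
    have hpF : ∀ x ∈ F, (x, x) ∈ p := fun x hx => Or.inl (mem_insert_of_mem _ (hdF x hx))
    have hpa : ∀ i, ((a i).1, (a i).1) ∈ p := fun i => Or.inl (mem_insert_of_mem _ (hda i))
    have hpv : (v.1, v₁) ∈ p := Or.inl (mem_insert _ _)
    have hpw : ∀ i, ((w i).1, w₁ i) ∈ p := fun i => Or.inr ⟨i, rfl⟩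
    obtain ⟨v', hv'Y, rfl⟩ := CNT_lift hpe hpF hpv v.2 hv₁
    choose w' hw'Y hw'e using fun i => CNT_lift hpe hpF (hpw i) (w i).2 (hw₁ i)
    have hpw' : ∀ i, ((w i).1, (w' i).1) ∈ p := fun i => by rw [hw'e]; exact hpw i
    refine ⟨v', ⟨hv'Y, fun h3 => hva ((CNT_rg hpe hpa hpv).2 h3)⟩, ?_⟩
    have hw'inj : Function.Injective w' := by
      intro i j hij
      apply hwinj
      rw [Subtype.ext_iff] at hij ⊢
      exact (hpe.1 _ (hpw' i) _ (hpw' j)).2 hij
    have hset : {u ∈ Y \ range a | Rl col a φ v' u} = range w' := by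
      ext u
      constructor
      · rintro ⟨⟨huY, hua⟩, hur⟩
        obtain ⟨u₀, hu₀, h3⟩ := h2.back (β := 0) zero_lt_one (y := u.1) (Or.inr ⟨u, huY, rfl⟩)
        have hqe := h3.atEq
        have hqF : ∀ x ∈ F, (x, x) ∈ insert (u₀, u.1) p := fun x hx =>
          mem_insert_of_mem _ (hpF x hx)
        have hqa : ∀ i, ((a i).1, (a i).1) ∈ insert (u₀, u.1) p := fun i =>
          mem_insert_of_mem _ (hpa i)
        have hqu : (u₀, u.1) ∈ insert (u₀, u.1) p := mem_insert _ _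
        obtain ⟨u₁, hu₁X, rfl⟩ := CNT_lift' hqe hqF hqu u.2 hu₀
        have h4 : u₁ ∈ range w := by
          rw [hwr]
          exact ⟨⟨hu₁X, fun h5 => hua ((CNT_rg hqe hqa hqu).1 h5)⟩,
            (CNT_rl ht hinj hqe hqF hqa (mem_insert_of_mem _ hpv) hqu).2 hur⟩
        obtain ⟨i, rfl⟩ := h4
        refine ⟨i, ?_⟩
        rw [Subtype.ext_iff]
        exact (hqe.1 _ (mem_insert_of_mem _ (hpw' i)) _ hqu).1 rfl
      · rintro ⟨i, rfl⟩
        exact ⟨⟨hw'Y i, fun h3 => (hwX i).2.1 ((CNT_rg hpe hpa (hpw' i)).2 h3)⟩,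
          (CNT_rl ht hinj hpe hpF hpa hpv (hpw' i)).1 (hwX i).2.2⟩
    rw [hset]
    exact CNT_encard hw'inj
  · rintro m ⟨D, hDX, hDm, hcon, hout⟩
    obtain ⟨w, hwinj, hwr⟩ := CNT_enum hDm
    have hwX : ∀ i, w i ∈ X ∧ w i ∉ range a := by
      intro i
      have h1 : w i ∈ range w := mem_range_self i
      rw [hwr] at h1
      exact ⟨(hDX h1).1, (hDX h1).2⟩
    have h1 : BFR S S (F ∪ Subtype.val '' X) (F ∪ Subtype.val '' Y)
        ((1 : Ordinal.{0}) + (m : Ordinal.{0})) (dg (F ∪ range fun i => (a i).1)) := by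
      refine h.mono (le_of_lt ?_)
      have h2 := Ordinal.natCast_lt_omega0 (1 + m)
      rwa [Nat.cast_add, Nat.cast_one] at h2
    obtain ⟨w₁, hw₁, h2⟩ := BFR.forth_many m h1 (fun i => (w i).1)
      (fun i => Or.inr ⟨w i, (hwX i).1, rfl⟩)
    set p : Set (M × M) := dg (F ∪ range fun i => (a i).1) ∪
      range fun i => ((w i).1, w₁ i) with hp
    have hpe := h2.atEq
    have hpF : ∀ x ∈ F, (x, x) ∈ p := fun x hx => Or.inl (hdF x hx)
    have hpa : ∀ i, ((a i).1, (a i).1) ∈ p := fun i => Or.inl (hda i)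
    have hpw : ∀ i, ((w i).1, w₁ i) ∈ p := fun i => Or.inr ⟨i, rfl⟩
    choose w' hw'Y hw'e using fun i => CNT_lift hpe hpF (hpw i) (w i).2 (hw₁ i)
    have hpw' : ∀ i, ((w i).1, (w' i).1) ∈ p := fun i => by rw [hw'e]; exact hpw i
    have hw'inj : Function.Injective w' := by
      intro i j hij
      apply hwinj
      rw [Subtype.ext_iff] at hij ⊢
      exact (hpe.1 _ (hpw' i) _ (hpw' j)).2 hij
    refine ⟨range w', ?_, CNT_encard hw'inj, ?_, ?_⟩
    · rintro _ ⟨i, rfl⟩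
      exact ⟨hw'Y i, fun h3 => (hwX i).2 ((CNT_rg hpe hpa (hpw' i)).2 h3)⟩
    · intro D' hD' hne hne'
      obtain ⟨v, hv, u, hu, hvu⟩ := hcon {x | ∃ i, x = w i ∧ w' i ∈ D'} (by
          rintro _ ⟨i, rfl, -⟩
          rw [← hwr]
          exact mem_range_self i) (by
          obtain ⟨x, hx⟩ := hne
          obtain ⟨i, rfl⟩ := hD' hx
          exact ⟨w i, i, rfl, hx⟩) (by
          intro heq
          apply hne'
          refine hD'.antisymm ?_
          rintro _ ⟨i, rfl⟩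
          have h3 : w i ∈ D := by
            rw [← hwr]
            exact mem_range_self i
          rw [← heq] at h3
          obtain ⟨j, hj, hj'⟩ := h3
          rw [hwinj hj]
          exact hj')
      obtain ⟨i, rfl, hi⟩ := hv
      have hu1 := hu.1
      rw [← hwr] at hu1
      obtain ⟨j, rfl⟩ := hu1
      have hj : w' j ∉ D' := fun h3 => hu.2 ⟨j, rfl, h3⟩
      refine ⟨w' i, hi, w' j, ⟨mem_range_self j, hj⟩, ?_⟩
      rcases hvu with h3 | h3
      · exact Or.inl ((CNT_rl ht hinj hpe hpF hpa (hpw' i) (hpw' j)).1 h3)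
      · exact Or.inr ((CNT_rl ht hinj hpe hpF hpa (hpw' j) (hpw' i)).1 h3)
    · rintro _ ⟨i, rfl⟩ u ⟨⟨huY, hua⟩, huD⟩
      obtain ⟨u₀, hu₀, h3⟩ := h2.back (β := 0) zero_lt_one (y := u.1) (Or.inr ⟨u, huY, rfl⟩)
      have hqe := h3.atEq
      have hqF : ∀ x ∈ F, (x, x) ∈ insert (u₀, u.1) p := fun x hx =>
        mem_insert_of_mem _ (hpF x hx)
      have hqa : ∀ i, ((a i).1, (a i).1) ∈ insert (u₀, u.1) p := fun i =>
        mem_insert_of_mem _ (hpa i)
      have hqu : (u₀, u.1) ∈ insert (u₀, u.1) p := mem_insert _ _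
      obtain ⟨u₁, hu₁X, rfl⟩ := CNT_lift' hqe hqF hqu u.2 hu₀
      have h4 : u₁ ∉ D := by
        intro h5
        rw [← hwr] at h5
        obtain ⟨j, rfl⟩ := h5
        apply huD
        refine ⟨j, ?_⟩
        rw [Subtype.ext_iff]
        exact (hqe.1 _ (mem_insert_of_mem _ (hpw' j)) _ hqu).1 rfl
      have h5 := hout (w i) (by rw [← hwr]; exact mem_range_self i) u₁
        ⟨⟨hu₁X, fun h5 => hua ((CNT_rg hqe hqa hqu).1 h5)⟩, h4⟩
      exact ⟨fun h6 => h5.1 ((CNT_rl ht hinj hqe hqF hqa (mem_insert_of_mem _ (hpw' i)) hqu).2 h6),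
        fun h6 => h5.2 ((CNT_rl ht hinj hqe hqF hqa hqu (mem_insert_of_mem _ (hpw' i))).2 h6)⟩

end

theorem thm_CNT : St_CNT := by
  intro L _ M S F _ hF hPig C t col ht hinj n a φ X hX
  have hG : (F ∪ range fun i => (a i).1).Finite := hF.union (finite_range _)
  obtain ⟨f, g, hfg, h⟩ := hPig (fun f => F ∪ Subtype.val '' X f) (F ∪ range fun i => (a i).1)
    Ordinal.omega0 hG subset_union_left omega_lt_om1 (by
      intro f
      refine ⟨hF.countable.union ((hX f).1.image _), ?_, ?_⟩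
      · exact ((hX f).2.1.image Subtype.val_injective.injOn).mono subset_union_right
      · rintro x (hx | ⟨i, rfl⟩)
        · exact Or.inl hx
        · exact Or.inr ⟨a i, (hX f).2.2 (mem_range_self i), rfl⟩)
  have h' := h.symm (q := dg (F ∪ range fun i => (a i).1)) (by
    rintro _ ⟨x, hx, rfl⟩
    exact ⟨x, hx, rfl⟩)
  have h1 := CNT_sub (φ := φ) ht hinj h
  have h2 := CNT_sub (φ := φ) ht hinj h'
  exact ⟨f, g, hfg, h1.1.antisymm h2.1, h1.2.antisymm h2.2⟩

end HER
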