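import Pool.Agent.HER.St

/-!
# HER, [LOF]: a family of linear orders which are different at level `ω`

The order of `f` is the sum over `n` of (the negative rationals, followed by a block of
`2 n + 2 + f n` elements).
-/

set_option autoImplicit false

namespace HER

open Set Pool.Agent.Helper5.DU Pool.Agent.Helper6.Str Pool.Agent.Helper79.VC
  Pool.Agent.Helper97.LO Pool.Agent.Helper97.VC

section

variable {I J : Type} [LinearOrder I] [LinearOrder J]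

theorem LOF_def (γ : Ordinal.{0}) (A : Set I) (B : Set J) : LE γ A B ↔ ∀ β < γ,
    (∀ x ∈ A, ∃ y ∈ B, LE β (A ∩ Iio x) (B ∩ Iio y) ∧ LE β (A ∩ Ioi x) (B ∩ Ioi y)) ∧
    (∀ y ∈ B, ∃ x ∈ A, LE β (A ∩ Iio x) (B ∩ Iio y) ∧ LE β (A ∩ Ioi x) (B ∩ Ioi y)) := by
  rw [LE]

theorem LOF_mono {β γ : Ordinal.{0}} (h : β ≤ γ) {A : Set I} {B : Set J} (hAB : LE γ A B) :
    LE β A B := by
  rw [LOF_def] at hAB ⊢
  exact fun α hα => hAB α (hα.trans_le h)

theorem LOF_symm (γ : Ordinal.{0}) : ∀ {A : Set I} {B : Set J}, LE γ A B → LE γ B A := by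
  induction γ using WellFoundedLT.induction with
  | _ γ ih =>
    intro A B h
    rw [LOF_def] at h ⊢
    intro β hβ
    refine ⟨fun y hy => ?_, fun x hx => ?_⟩
    · obtain ⟨x, hx, h1, h2⟩ := (h β hβ).2 y hy
      exact ⟨x, hx, ih β hβ h1, ih β hβ h2⟩
    · obtain ⟨y, hy, h1, h2⟩ := (h β hβ).1 x hx
      exact ⟨y, hy, ih β hβ h1, ih β hβ h2⟩

theorem LOF_img {φ : I → J} (hφ : StrictMono φ) (γ : Ordinal.{0}) :
    ∀ A : Set I, LE γ A (φ '' A) := by
  have e1 : ∀ (A : Set I) (x : I), φ '' A ∩ Iio (φ x) = φ '' (A ∩ Iio x) := by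
    intro A x
    ext y
    constructor
    · rintro ⟨⟨a, ha, rfl⟩, hy⟩
      exact ⟨a, ⟨ha, hφ.lt_iff_lt.mp hy⟩, rfl⟩
    · rintro ⟨a, ⟨ha, hax⟩, rfl⟩
      exact ⟨⟨a, ha, rfl⟩, hφ hax⟩
  have e2 : ∀ (A : Set I) (x : I), φ '' A ∩ Ioi (φ x) = φ '' (A ∩ Ioi x) := by
    intro A x
    ext y
    constructor
    · rintro ⟨⟨a, ha, rfl⟩, hy⟩
      exact ⟨a, ⟨ha, hφ.lt_iff_lt.mp hy⟩, rfl⟩
    · rintro ⟨a, ⟨ha, hax⟩, rfl⟩
      exact ⟨⟨a, ha, rfl⟩, hφ hax⟩
  induction γ using WellFoundedLT.induction with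
  | _ γ ih =>
    intro A
    rw [LOF_def]
    intro β hβ
    refine ⟨fun x hx => ⟨φ x, ⟨x, hx, rfl⟩, ?_⟩, ?_⟩
    · rw [e1, e2]
      exact ⟨ih β hβ _, ih β hβ _⟩
    · rintro _ ⟨x, hx, rfl⟩
      refine ⟨x, hx, ?_⟩
      rw [e1, e2]
      exact ⟨ih β hβ _, ih β hβ _⟩

/-- no last element -/
def LOF_NL (A : Set I) : Prop := ∀ x ∈ A, (A ∩ Ioi x).Nonempty

/-- no first element -/
def LOF_NF (A : Set I) : Prop := ∀ x ∈ A, (A ∩ Iio x).Nonempty

/-- exactly `m` elements at the beginning -/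
def LOF_S : ℕ → Set I → Prop
  | 0, A => LOF_NF A
  | m + 1, A => ∃ x ∈ A, A ∩ Iio x = ∅ ∧ LOF_S m (A ∩ Ioi x)

/-- a block of exactly `m + 1` elements -/
def LOF_D (m : ℕ) (A : Set I) : Prop := ∃ x ∈ A, LOF_NL (A ∩ Iio x) ∧ LOF_S m (A ∩ Ioi x)

theorem LOF_ne {γ : Ordinal.{0}} (hγ : 0 < γ) {A : Set I} {B : Set J} (h : LE γ A B) :
    A.Nonempty ↔ B.Nonempty := by
  rw [LOF_def] at h
  constructor
  · rintro ⟨x, hx⟩
    obtain ⟨y, hy, -⟩ := (h 0 hγ).1 x hx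
    exact ⟨y, hy⟩
  · rintro ⟨y, hy⟩
    obtain ⟨x, hx, -⟩ := (h 0 hγ).2 y hy
    exact ⟨x, hx⟩

theorem LOF_nl {A : Set I} {B : Set J} (h : LE 2 A B) (hA : LOF_NL A) : LOF_NL B := by
  intro y hy
  rw [LOF_def] at h
  obtain ⟨x, hx, -, h2⟩ := (h 1 (by norm_num)).2 y hy
  exact (LOF_ne zero_lt_one h2).mp (hA x hx)

theorem LOF_nf {A : Set I} {B : Set J} (h : LE 2 A B) (hA : LOF_NF A) : LOF_NF B := by
  intro y hy
  rw [LOF_def] at h
  obtain ⟨x, hx, h1, -⟩ := (h 1 (by norm_num)).2 y hy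
  exact (LOF_ne zero_lt_one h1).mp (hA x hx)

theorem LOF_s (m : ℕ) : ∀ {A : Set I} {B : Set J}, LE ((m + 2 : ℕ) : Ordinal.{0}) A B →
    LOF_S m A → LOF_S m B := by
  induction m with
  | zero =>
    intro A B h hA
    exact LOF_nf (by exact_mod_cast h) hA
  | succ m ih =>
    rintro A B h ⟨x, hx, hx0, hx1⟩
    have h' := (LOF_def _ A B).mp h
    have hlt : ((m + 2 : ℕ) : Ordinal.{0}) < ((m + 1 + 2 : ℕ) : Ordinal.{0}) := by
      exact_mod_cast Nat.lt_succ_self (m + 2)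
    obtain ⟨y, hy, h1, h2⟩ := (h' _ hlt).1 x hx
    refine ⟨y, hy, ?_, ih h2 hx1⟩
    rw [← not_nonempty_iff_eq_empty]
    intro hne
    have h3 := (LOF_ne (by exact_mod_cast Nat.succ_pos (m + 1)) h1).mpr hne
    rw [hx0] at h3
    exact not_nonempty_empty h3

theorem LOF_d (m : ℕ) {A : Set I} {B : Set J} (h : LE Ordinal.omega0 A B) (hA : LOF_D m A) :
    LOF_D m B := by
  obtain ⟨x, hx, h1, h2⟩ := hA
  rw [LOF_def] at h
  obtain ⟨y, hy, h3, h4⟩ := (h _ (Ordinal.natCast_lt_omega0 (m + 2))).1 x hx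
  refine ⟨y, hy, LOF_nl (LOF_mono ?_ h3) h1, LOF_s m h4 h2⟩
  exact_mod_cast Nat.le_add_left 2 m

theorem LOF_uniq (m : ℕ) : ∀ (m' : ℕ) (A : Set I), LOF_S m A → LOF_S m' A → m = m' := by
  induction m with
  | zero =>
    intro m' A h h'
    cases m' with
    | zero => rfl
    | succ m' =>
      obtain ⟨x, hx, hx0, -⟩ := h'
      have h3 := h x hx
      rw [hx0] at h3
      exact absurd h3 not_nonempty_empty
  | succ m ih =>
    intro m' A h h'
    obtain ⟨x, hx, hx0, hx1⟩ := h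
    cases m' with
    | zero =>
      have h3 := h' x hx
      rw [hx0] at h3
      exact absurd h3 not_nonempty_empty
    | succ m' =>
      obtain ⟨x', hx', hx0', hx1'⟩ := h'
      have e : x = x' := by
        rcases lt_trichotomy x x' with h3 | h3 | h3
        · have : x ∈ A ∩ Iio x' := ⟨hx, h3⟩
          rw [hx0'] at this
          exact absurd this (notMem_empty x)
        · exact h3
        · have : x' ∈ A ∩ Iio x := ⟨hx', h3⟩
          rw [hx0] at this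
          exact absurd this (notMem_empty x')
      subst e
      rw [ih m' _ hx1 hx1']

end

/-! ### the orders -/

/-- the sum over `n` of (negative rationals, block of `m n + 1` elements) -/
def LOF_A (m : ℕ → ℕ) : Set (ℕ ×ₗ ℚ) :=
  {p | (ofLex p).2 < 0 ∨ ∃ k : ℕ, k ≤ m (ofLex p).1 ∧ (ofLex p).2 = k}

theorem LOF_neg {m : ℕ → ℕ} (n : ℕ) {q : ℚ} (hq : q < 0) : toLex (n, q) ∈ LOF_A m := Or.inl hq

theorem LOF_nat {m : ℕ → ℕ} {n k : ℕ} (hk : k ≤ m n) : toLex (n, (k : ℚ)) ∈ LOF_A m :=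
  Or.inr ⟨k, hk, rfl⟩

theorem LOF_gap {m : ℕ → ℕ} {n k : ℕ} {p : ℕ ×ₗ ℚ} (hp : p ∈ LOF_A m)
    (h1 : toLex (n, (k : ℚ)) < p) (h2 : p < toLex (n, ((k + 1 : ℕ) : ℚ))) : False := by
  obtain ⟨⟨a, q⟩, rfl⟩ := toLex.surjective p
  rw [Prod.Lex.toLex_lt_toLex] at h1 h2
  simp only at h1 h2
  have ha : a = n := by
    rcases h1 with h1 | h1 <;> rcases h2 with h2 | h2 <;> omega
  subst ha
  have h1' : (k : ℚ) < q := by
    rcases h1 with h1 | h1
    · exact absurd h1 (lt_irrefl _)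
    · exact h1.2
  have h2' : q < ((k + 1 : ℕ) : ℚ) := by
    rcases h2 with h2 | h2
    · exact absurd h2 (lt_irrefl _)
    · exact h2.2
  rcases hp with hq | ⟨l, -, hq⟩
  · have hq' : q < 0 := hq
    have : (0 : ℚ) ≤ k := Nat.cast_nonneg k
    linarith
  · have hq' : q = l := hq
    rw [hq'] at h1' h2'
    have h3 : k < l := by exact_mod_cast h1'
    have h4 : l < k + 1 := by exact_mod_cast h2'
    omega

theorem LOF_block {m : ℕ → ℕ} (n : ℕ) (j : ℕ) : ∀ k, k + j = m n →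
    LOF_S j (LOF_A m ∩ Ioi (toLex (n, (k : ℚ)))) := by
  induction j with
  | zero =>
    intro k hk
    rintro p ⟨hp, hlt⟩
    obtain ⟨⟨a, q⟩, rfl⟩ := toLex.surjective p
    have hlt' : toLex (n, (k : ℚ)) < toLex (a, q) := hlt
    rw [Prod.Lex.toLex_lt_toLex] at hlt'
    simp only at hlt'
    have ha : n < a := by
      rcases hlt' with h | ⟨h, h'⟩
      · exact h
      · exfalso
        subst h
        rcases hp with hq | ⟨l, hl, hq⟩
        · have hq' : q < 0 := hq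
          have : (0 : ℚ) ≤ k := Nat.cast_nonneg k
          linarith
        · have hq' : q = l := hq
          have hl' : l ≤ m n := hl
          rw [hq'] at h'
          have h3 : k < l := by exact_mod_cast h'
          omega
    refine ⟨toLex (a, min q 0 - 1), ⟨LOF_neg a ?_, ?_⟩, ?_⟩
    · have := min_le_right q 0
      linarith
    · show toLex (n, (k : ℚ)) < toLex (a, min q 0 - 1)
      rw [Prod.Lex.toLex_lt_toLex]
      exact Or.inl ha
    · show toLex (a, min q 0 - 1) < toLex (a, q)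
      rw [Prod.Lex.toLex_lt_toLex]
      refine Or.inr ⟨rfl, ?_⟩
      show min q 0 - 1 < q
      have := min_le_left q 0
      linarith
  | succ j ih =>
    intro k hk
    have hlt : toLex (n, (k : ℚ)) < toLex (n, ((k + 1 : ℕ) : ℚ)) := by
      rw [Prod.Lex.toLex_lt_toLex]
      refine Or.inr ⟨rfl, ?_⟩
      show (k : ℚ) < ((k + 1 : ℕ) : ℚ)
      exact_mod_cast Nat.lt_succ_self k
    refine ⟨toLex (n, ((k + 1 : ℕ) : ℚ)), ⟨LOF_nat (by omega), hlt⟩, ?_, ?_⟩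
    · rw [eq_empty_iff_forall_notMem]
      rintro p ⟨⟨hp, hp1⟩, hp2⟩
      exact LOF_gap hp hp1 hp2
    · have e : LOF_A m ∩ Ioi (toLex (n, (k : ℚ))) ∩ Ioi (toLex (n, ((k + 1 : ℕ) : ℚ))) =
          LOF_A m ∩ Ioi (toLex (n, ((k + 1 : ℕ) : ℚ))) := by
        ext p
        exact ⟨fun h => ⟨h.1.1, h.2⟩, fun h => ⟨⟨h.1, hlt.trans h.2⟩, h.2⟩⟩
      rw [e]
      exact ih (k + 1) (by omega)

theorem LOF_yes (m : ℕ → ℕ) (n : ℕ) : LOF_D (m n) (LOF_A m) := by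
  refine ⟨toLex (n, ((0 : ℕ) : ℚ)), LOF_nat (Nat.zero_le _), ?_,
    LOF_block n (m n) 0 (Nat.zero_add _)⟩
  rintro p ⟨hp, hlt⟩
  obtain ⟨⟨a, q⟩, rfl⟩ := toLex.surjective p
  have hlt' : toLex (a, q) < toLex (n, ((0 : ℕ) : ℚ)) := hlt
  rw [Prod.Lex.toLex_lt_toLex] at hlt'
  simp only at hlt'
  rcases hlt' with h | ⟨h, h'⟩
  · refine ⟨toLex (n, -1), ⟨LOF_neg n (by norm_num), ?_⟩, ?_⟩
    · show toLex (n, (-1 : ℚ)) < toLex (n, ((0 : ℕ) : ℚ))
      rw [Prod.Lex.toLex_lt_toLex]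
      exact Or.inr ⟨rfl, by norm_num⟩
    · show toLex (a, q) < toLex (n, (-1 : ℚ))
      rw [Prod.Lex.toLex_lt_toLex]
      exact Or.inl h
  · subst h
    rw [Nat.cast_zero] at h'
    refine ⟨toLex (a, q / 2), ⟨LOF_neg a (by linarith), ?_⟩, ?_⟩
    · show toLex (a, q / 2) < toLex (a, ((0 : ℕ) : ℚ))
      rw [Prod.Lex.toLex_lt_toLex]
      refine Or.inr ⟨rfl, ?_⟩
      show q / 2 < ((0 : ℕ) : ℚ)
      rw [Nat.cast_zero]
      linarith
    · show toLex (a, q) < toLex (a, q / 2)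
      rw [Prod.Lex.toLex_lt_toLex]
      refine Or.inr ⟨rfl, ?_⟩
      show q < q / 2
      linarith

theorem LOF_no (m : ℕ → ℕ) (j : ℕ) (h : LOF_D (j + 1) (LOF_A m)) : ∃ n, j + 1 = m n := by
  obtain ⟨p, hp, h1, h2⟩ := h
  obtain ⟨⟨n, q⟩, rfl⟩ := toLex.surjective p
  refine ⟨n, ?_⟩
  rcases hp with hq | ⟨k, hk, hq⟩
  · exfalso
    have hq' : q < 0 := hq
    obtain ⟨y, ⟨hyA, hy⟩, hy0, -⟩ := h2
    obtain ⟨⟨a, q'⟩, rfl⟩ := toLex.surjective y
    have hy' : toLex (n, q) < toLex (a, q') := hy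
    rw [Prod.Lex.toLex_lt_toLex] at hy'
    simp only at hy'
    obtain ⟨z, hz1, hz2⟩ : ∃ z : ℚ, (z < 0 ∧ q < z) ∧ toLex (n, z) < toLex (a, q') := by
      rcases hy' with h3 | ⟨h3, h4⟩
      · refine ⟨q / 2, ⟨by linarith, by linarith⟩, ?_⟩
        rw [Prod.Lex.toLex_lt_toLex]
        exact Or.inl h3
      · obtain ⟨z, hz1, hz2⟩ := exists_between (lt_min h4 hq')
        refine ⟨z, ⟨hz2.trans_le (min_le_right _ _), hz1⟩, ?_⟩
        rw [Prod.Lex.toLex_lt_toLex]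
        exact Or.inr ⟨h3, hz2.trans_le (min_le_left _ _)⟩
    have hmem : toLex (n, z) ∈ LOF_A m ∩ Ioi (toLex (n, q)) ∩ Iio (toLex (a, q')) := by
      refine ⟨⟨LOF_neg n hz1.1, ?_⟩, hz2⟩
      show toLex (n, q) < toLex (n, z)
      rw [Prod.Lex.toLex_lt_toLex]
      exact Or.inr ⟨rfl, hz1.2⟩
    rw [hy0] at hmem
    exact notMem_empty _ hmem
  · have hq' : q = k := hq
    have hk' : k ≤ m n := hk
    subst hq'
    cases k with
    | zero => exact LOF_uniq (j + 1) (m n) _ h2 (LOF_block n (m n) 0 (Nat.zero_add _))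
    | succ k =>
      exfalso
      have hlt : toLex (n, (k : ℚ)) < toLex (n, ((k + 1 : ℕ) : ℚ)) := by
        rw [Prod.Lex.toLex_lt_toLex]
        refine Or.inr ⟨rfl, ?_⟩
        show (k : ℚ) < ((k + 1 : ℕ) : ℚ)
        exact_mod_cast Nat.lt_succ_self k
      obtain ⟨w, ⟨hw1, hw2⟩, hw3⟩ := h1 (toLex (n, (k : ℚ))) ⟨LOF_nat (by omega), hlt⟩
      exact LOF_gap hw1 hw3 hw2

/-- [LOF] a family of linear orders which are different at a countable level -/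
theorem thm_LOF : St_LOF := by
  obtain ⟨φ⟩ : Nonempty ((ℕ ×ₗ ℚ) ↪o Ioo (0 : ℚ) 1) := by
    have : Nontrivial (Ioo (0 : ℚ) 1) :=
      ⟨⟨⟨1 / 2, by norm_num, by norm_num⟩, ⟨1 / 3, by norm_num, by norm_num⟩, by
        intro h
        have := congrArg Subtype.val h
        norm_num at this⟩⟩
    have hc : Countable (ℕ ×ₗ ℚ) := inferInstanceAs (Countable (ℕ × ℚ))
    exact Order.embedding_from_countable_to_dense _ _
  let ψ : ℕ ×ₗ ℚ → ℚ := fun p => (φ p : ℚ)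
  have hψ : StrictMono ψ := fun a b hab => Subtype.coe_lt_coe.mpr (φ.lt_iff_lt.mpr hab)
  let m : (ℕ → Bool) → ℕ → ℕ := fun f n => 2 * n + 1 + (if f n then 1 else 0)
  refine ⟨fun f => ψ '' LOF_A (m f), Ordinal.omega0, omega_lt_om1, fun f => ⟨?_, ?_⟩, ?_⟩
  · refine Set.Infinite.image hψ.injective.injOn ?_
    have h : (range fun n : ℕ => (toLex (n, (-1 : ℚ)) : ℕ ×ₗ ℚ)).Infinite := by
      refine infinite_range_of_injective fun a b hab => ?_
      have h1 : ((a, (-1 : ℚ)) : ℕ × ℚ) = (b, -1) := toLex.injective hab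
      exact congrArg Prod.fst h1
    refine h.mono ?_
    rintro _ ⟨n, rfl⟩
    exact LOF_neg n (by norm_num)
  · rintro _ ⟨p, -, rfl⟩
    exact (φ p).2
  · intro f g h
    funext n
    have h1 : LOF_D (m f n) (LOF_A (m f)) := LOF_yes (m f) n
    have h2 := LOF_d _ (LOF_img hψ _ (LOF_A (m f))) h1
    have h3 := LOF_d _ h h2
    have h4 := LOF_d _ (LOF_symm _ (LOF_img hψ _ (LOF_A (m g)))) h3
    have e : m f n = 2 * n + (if f n then 1 else 0) + 1 := by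
      show 2 * n + 1 + (if f n then 1 else 0) = _
      ring
    rw [e] at h4
    obtain ⟨n', hn'⟩ := LOF_no _ _ h4
    have hn2 : 2 * n + (if f n then 1 else 0) + 1 = 2 * n' + 1 + (if g n' then 1 else 0) := hn'
    have hnn : n = n' := by
      split_ifs at hn2 <;> omega
    subst hnn
    cases hf : f n <;> cases hg : g n <;> rw [hf, hg] at hn2 <;> simp at hn2 ⊢

end HER
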