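import Pool.Agent.HER.St

/-!
# HER: [BK2] the blocks are bounded
-/

set_option autoImplicit false

namespace HER

open Set

private def BK2_Edge {M C I : Type} (col : M → M → C) (cl : M → I) (s : I → I → C) (v w : M) :
    Prop := col v w ≠ s (cl v) (cl w)

private def BK2_Conn {M C I : Type} (col : M → M → C) (cl : M → I) (s : I → I → C) (D : Set M) :
    Prop :=
  ∀ D' ⊆ D, D'.Nonempty → D' ≠ D → ∃ v ∈ D', ∃ w ∈ D \ D', BK2_Edge col cl s v w

private theorem BK2_edge_symm {M C I : Type} {col : M → M → C} {cl : M → I} {s : I → I → C}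
    {inv : C → C} (hi : ∀ c, inv (inv c) = c) (hs : ∀ x y, col y x = inv (col x y))
    (hs' : ∀ i j, s j i = inv (s i j)) {v w : M} (h : BK2_Edge col cl s v w) :
    BK2_Edge col cl s w v := by
  intro h1
  apply h
  have h2 : inv (col v w) = inv (s (cl v) (cl w)) := by rw [← hs, ← hs']; exact h1
  have h3 := congrArg inv h2
  rwa [hi, hi] at h3

/-- growing connected subsets of a block -/
private theorem BK2_grow {M C I : Type} {col : M → M → C} {cl : M → I} {s : I → I → C}
    (hsym : ∀ v w, BK2_Edge col cl s v w → BK2_Edge col cl s w v) {Bx : Set M} {x : M}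
    (hx : x ∈ Bx)
    (hB : ∀ D ⊆ Bx, D.Nonempty → D ≠ Bx → ∃ v ∈ D, ∃ w ∈ Bx \ D, BK2_Edge col cl s v w) :
    ∀ m : ℕ, ((m : ℕ) : ℕ∞) < Bx.encard →
      ∃ D ⊆ Bx, D.Nonempty ∧ D.encard = ((m + 1 : ℕ) : ℕ∞) ∧ BK2_Conn col cl s D := by
  intro m
  induction m with
  | zero =>
    intro _
    refine ⟨{x}, by simpa using hx, ⟨x, rfl⟩, by simp, ?_⟩
    intro D' hD' hne hne'
    exfalso
    apply hne'
    rcases hne with ⟨y, hy⟩
    apply Subset.antisymm hD'
    intro z hz
    rw [mem_singleton_iff] at hz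
    subst hz
    have := hD' hy
    rw [mem_singleton_iff] at this
    subst this
    exact hy
  | succ m ih =>
    intro hm
    obtain ⟨D, hD, hDne, hcard, hconn⟩ := ih (lt_of_le_of_lt (by exact_mod_cast Nat.le_succ m) hm)
    have hne : D ≠ Bx := by
      rintro rfl
      rw [hcard] at hm
      exact lt_irrefl _ hm
    obtain ⟨v, hv, w, hw, he⟩ := hB D hD hDne hne
    refine ⟨insert w D, ?_, ⟨w, mem_insert _ _⟩, ?_, ?_⟩
    · intro z hz
      rcases hz with rfl | hz
      · exact hw.1
      · exact hD hz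
    · rw [encard_insert_of_notMem hw.2, hcard]
      push_cast
      rfl
    · intro D' hD' hne1 hne2
      by_cases hwD : w ∈ D'
      · by_cases hempty : (D' \ {w}).Nonempty
        · have hsub : D' \ {w} ⊆ D := by
            intro z hz
            rcases hD' hz.1 with rfl | h
            · exact absurd rfl hz.2
            · exact h
          have hneq : D' \ {w} ≠ D := by
            intro h
            apply hne2
            apply Subset.antisymm hD'
            intro z hz
            rcases hz with rfl | hz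
            · exact hwD
            · rw [← h] at hz
              exact hz.1
          obtain ⟨a, ha, c, hc, hac⟩ := hconn _ hsub hempty hneq
          refine ⟨a, ha.1, c, ⟨mem_insert_of_mem _ hc.1, ?_⟩, hac⟩
          intro hcD
          apply hc.2
          refine ⟨hcD, ?_⟩
          intro hcw
          rw [mem_singleton_iff] at hcw
          subst hcw
          exact hw.2 hc.1
        · have hDw : ∀ z ∈ D', z = w := by
            intro z hz
            by_contra hzw
            exact hempty ⟨z, hz, hzw⟩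
          refine ⟨w, hwD, v, ⟨mem_insert_of_mem _ hv, ?_⟩, hsym _ _ he⟩
          intro hvD
          have := hDw v hvD
          subst this
          exact hw.2 hv
      · have hsub : D' ⊆ D := by
          intro z hz
          rcases hD' hz with rfl | h
          · exact absurd hz hwD
          · exact h
        by_cases hDD : D' = D
        · subst hDD
          exact ⟨v, hv, w, ⟨mem_insert _ _, hwD⟩, he⟩
        · obtain ⟨a, ha, c, hc, hac⟩ := hconn _ hsub hne1 hDD
          exact ⟨a, ha, c, ⟨mem_insert_of_mem _ hc.1, hc.2⟩, hac⟩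

theorem thm_BK2 : St_BK2 := by
  intro M C I q inv col A b cl g s A' B hCS hStr hAA hBlk hconn
  by_contra hcon
  push Not at hcon
  have hsym : ∀ v w, BK2_Edge col cl s v w → BK2_Edge col cl s w v :=
    fun v w h => BK2_edge_symm hCS.inv2 hCS.sym hStr.sym h
  -- distinct large blocks
  obtain ⟨F, hF, hFr⟩ := exists_seq_of_forall_finset_exists
    (α := ℕ × M)
    (fun p => p.2 ∉ A' ∧ ((2 * p.1 + 3 : ℕ) : ℕ∞) < (B p.2).encard)
    (fun p p' => p.1 < p'.1 ∧ B p.2 ≠ B p'.2) (by
      intro S _
      obtain ⟨k, hk⟩ : ∃ k : ℕ, ∀ p ∈ S, p.1 < k := by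
        refine ⟨S.sup (fun p => p.1) + 1, fun p hp => ?_⟩
        exact Nat.lt_succ_of_le (Finset.le_sup (f := fun p : ℕ × M => p.1) hp)
      have hinf := hcon (2 * k + 3)
      have hfin : ((fun p : ℕ × M => B p.2) '' (S : Set (ℕ × M))).Finite :=
        S.finite_toSet.image _
      obtain ⟨D, hD, hD'⟩ := Set.Infinite.exists_notMem_finite hinf hfin
      obtain ⟨x, hx, rfl, hx2⟩ := hD
      refine ⟨(k, x), ⟨hx, hx2⟩, fun p hp => ⟨hk p hp, ?_⟩⟩
      intro h
      exact hD' ⟨p, hp, h⟩)
  have hmono : StrictMono (fun n => (F n).1) := fun m n hmn => (hFr m n hmn).1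
  have hge : ∀ n, n ≤ (F n).1 := fun n => hmono.le_apply
  let x : ℕ → M := fun n => (F n).2
  have hxA : ∀ n, x n ∉ A' := fun n => (hF n).1
  have hxc : ∀ n, ((2 * n + 3 : ℕ) : ℕ∞) < (B (x n)).encard := fun n =>
    lt_of_le_of_lt (by exact_mod_cast (by have := hge n; omega)) (hF n).2
  have hxne : ∀ m n, m ≠ n → B (x m) ≠ B (x n) := by
    intro m n hmn
    rcases lt_or_gt_of_ne hmn with h | h
    · exact (hFr m n h).2
    · exact fun h' => (hFr n m h).2 h'.symm
  -- connected subsets
  have hD : ∀ (n : ℕ) (t : Bool), ∃ D ⊆ B (x n), D.Nonempty ∧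
      D.encard = ((2 * n + 2 + t.toNat : ℕ) : ℕ∞) ∧ BK2_Conn col cl s D := by
    intro n t
    have h1 : ((2 * n + 1 + t.toNat : ℕ) : ℕ∞) < (B (x n)).encard := by
      refine lt_of_le_of_lt ?_ (hxc n)
      have : t.toNat ≤ 1 := Bool.toNat_le t
      exact_mod_cast (by omega)
    obtain ⟨D, h2, h3, h4, h5⟩ := BK2_grow hsym (hBlk.self _ (hxA n)) (hconn _ (hxA n)) _ h1
    refine ⟨D, h2, h3, ?_, h5⟩
    rw [h4]
    congr 1
    omega
  choose D hDB hDne hDc hDconn using hD
  have hDA' : ∀ n t, ∀ v ∈ D n t, v ∉ A' := fun n t v hv => (hBlk.out _ (hxA n) v (hDB n t hv)).1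
  have hDB' : ∀ n t, ∀ v ∈ D n t, B v = B (x n) := fun n t v hv =>
    (hBlk.out _ (hxA n) v (hDB n t hv)).2
  have hdisj : ∀ m n t t', ∀ v ∈ D m t, v ∈ D n t' → m = n := by
    intro m n t t' v hv hv'
    by_contra hmn
    exact hxne m n hmn ((hDB' m t v hv).symm.trans (hDB' n t' v hv'))
  let X : (ℕ → Bool) → Set M := fun f => range b ∪ ⋃ n, D n (f n)
  let φ : (Fin q → C) → (Fin q → C) → C → Prop := fun cv cw c =>
    ∃ i j, cv = (fun k => g i (b k)) ∧ cw = (fun k => g j (b k)) ∧ c ≠ s i j
  have hRl : ∀ v w, v ∉ A' → w ∉ A' → (Rl col b φ v w ↔ v ≠ w ∧ BK2_Edge col cl s v w) := by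
    intro v w hv hw
    have hv' : (fun k => col (b k) v) = fun k => g (cl v) (b k) := by
      funext k
      exact hStr.bcl v (fun h => hv (hAA h)) k
    have hw' : (fun k => col (b k) w) = fun k => g (cl w) (b k) := by
      funext k
      exact hStr.bcl w (fun h => hw (hAA h)) k
    unfold Rl BK2_Edge
    constructor
    · rintro ⟨h1, i, j, h2, h3, h4⟩
      refine ⟨h1, ?_⟩
      rw [hv'] at h2
      rw [hw'] at h3
      have hi : cl v = i := by
        by_contra hne
        obtain ⟨k, hk⟩ := hStr.sep _ _ hne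
        exact hk (congrFun h2 k)
      have hj : cl w = j := by
        by_contra hne
        obtain ⟨k, hk⟩ := hStr.sep _ _ hne
        exact hk (congrFun h3 k)
      rw [hi, hj]
      exact h4
    · rintro ⟨h1, h2⟩
      exact ⟨h1, cl v, cl w, hv', hw', h2⟩
  have hXsub : ∀ f, ∀ v ∈ X f \ range b, ∃ n, v ∈ D n (f n) := by
    intro f v hv
    rcases hv.1 with h | h
    · exact absurd h hv.2
    · simpa using h
  have hXsub' : ∀ f n, D n (f n) ⊆ X f \ range b := by
    intro f n v hv
    refine ⟨Or.inr (mem_iUnion.2 ⟨n, hv⟩), ?_⟩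
    intro h
    exact hDA' n _ v hv (hAA (hStr.bA h))
  have hnoedge : ∀ (f : ℕ → Bool) m n v w, m ≠ n → v ∈ D m (f m) → w ∈ D n (f n) →
      ¬ BK2_Edge col cl s v w := by
    intro f m n v w hmn hv hw he
    apply he
    apply hBlk.gB v (hDA' m _ v hv) w (hDA' n _ w hw)
    intro hwB
    have h1 := (hBlk.out v (hDA' m _ v hv) w hwB).2
    rw [hDB' m _ v hv, hDB' n _ w hw] at h1
    exact hxne n m hmn.symm h1
  obtain ⟨f, f', hne, heq⟩ := hCS.cmp q b φ X (by
    intro f
    refine ⟨?_, ?_, subset_union_left⟩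
    · refine (countable_range b).union (countable_iUnion fun n => ?_)
      apply Set.Finite.countable
      rw [← Set.encard_lt_top_iff, hDc]
      exact ENat.natCast_lt_top _
    · apply Set.Infinite.mono (subset_union_right)
      choose y hy using fun n => hDne n (f n)
      apply Set.infinite_of_injective_forall_mem (f := y)
      · intro m n hmn
        have h1 := hy m
        have h2 := hy n
        rw [hmn] at h1
        exact hdisj m n _ _ _ h1 h2
      · intro n
        exact mem_iUnion.2 ⟨n, hy n⟩)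
  have hin : ∀ f n, (2 * n + 2 + (f n).toNat) ∈ Cmp col b φ (X f) := by
    intro f n
    refine ⟨D n (f n), hXsub' f n, hDc n (f n), ?_, ?_⟩
    · intro D' hD' h1 h2
      obtain ⟨v, hv, w, hw, he⟩ := hDconn n (f n) D' hD' h1 h2
      refine ⟨v, hv, w, hw, Or.inl ?_⟩
      rw [hRl v w (hDA' n _ v (hD' hv)) (hDA' n _ w hw.1)]
      refine ⟨?_, he⟩
      rintro rfl
      exact hw.2 hv
    · intro v hv w hw
      obtain ⟨m, hm⟩ := hXsub f w hw.1
      have hmn : n ≠ m := by
        rintro rfl
        exact hw.2 hm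
      rw [hRl v w (hDA' n _ v hv) (hDA' m _ w hm), hRl w v (hDA' m _ w hm) (hDA' n _ v hv)]
      exact ⟨fun h => hnoedge f n m v w hmn hv hm h.2,
        fun h => hnoedge f m n w v hmn.symm hm hv h.2⟩
  have hout : ∀ f m, m ∈ Cmp col b φ (X f) → m = 0 ∨ ∃ n, m = 2 * n + 2 + (f n).toNat := by
    intro f m hm
    obtain ⟨E, hE, hEc, hE1, hE2⟩ := hm
    rcases E.eq_empty_or_nonempty with rfl | ⟨v, hv⟩
    · left
      rw [encard_empty] at hEc
      exact_mod_cast hEc.symm
    · right
      obtain ⟨n, hn⟩ := hXsub f v (hE hv)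
      refine ⟨n, ?_⟩
      have hsub : E ⊆ D n (f n) := by
        by_contra hns
        have h1 : E ∩ D n (f n) ≠ E := by
          intro h
          exact hns (inter_eq_left.1 h)
        obtain ⟨a, ha, c, hc, hac⟩ := hE1 (E ∩ D n (f n)) inter_subset_left ⟨v, hv, hn⟩ h1
        obtain ⟨k, hk⟩ := hXsub f c (hE hc.1)
        have hnk : n ≠ k := by
          rintro rfl
          exact hc.2 ⟨hc.1, hk⟩
        rw [hRl a c (hDA' n _ a ha.2) (hDA' k _ c hk), hRl c a (hDA' k _ c hk)
          (hDA' n _ a ha.2)] at hac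
        rcases hac with h | h
        · exact hnoedge f n k a c hnk ha.2 hk h.2
        · exact hnoedge f k n c a hnk.symm hk ha.2 h.2
      have hEq : E = D n (f n) := by
        by_contra hne'
        obtain ⟨a, ha, c, hc, hac⟩ := hDconn n (f n) E hsub ⟨v, hv⟩ hne'
        have h1 := (hE2 a ha c ⟨hXsub' f n hc.1, hc.2⟩).1
        apply h1
        rw [hRl a c (hDA' n _ a (hsub ha)) (hDA' n _ c hc.1)]
        refine ⟨?_, hac⟩
        rintro rfl
        exact hc.2 ha
      rw [hEq, hDc] at hEc
      exact_mod_cast hEc.symm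
  apply hne
  funext n
  have h1 := hin f n
  rw [heq] at h1
  rcases hout f' _ h1 with h2 | ⟨k, hk⟩
  · omega
  · have h3 : (f n).toNat ≤ 1 := Bool.toNat_le _
    have h4 : (f' k).toNat ≤ 1 := Bool.toNat_le _
    have h5 : n = k := by omega
    subst h5
    have h6 : (f n).toNat = (f' n).toNat := by omega
    revert h6
    cases f n <;> cases f' n <;> simp

end HER
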