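import Pool.Agent.HER.St

/-!
# HER: [BK3] finite blocks, each of uncountably many occurrences (helper40)
-/

set_option autoImplicit false

namespace HER

open Set

/-- the isomorphism types of a block with at most `n` elements and an element of it -/
private def BK3T (n : ℕ) (I C : Type) : Type :=
  Σ k : Fin (n + 1), (Fin (k : ℕ) → I) × (Fin (k : ℕ) → Fin (k : ℕ) → C) × Fin (k : ℕ)

private def BK3R {M C I : Type} {n : ℕ} (col : M → M → C) (cl : M → I) (B : M → Set M) (x : M)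
    (τ : BK3T n I C) : Prop :=
  ∃ e : Fin (τ.1 : ℕ) → M, Function.Injective e ∧ range e = B x ∧ e τ.2.2.2 = x ∧
    (∀ i, cl (e i) = τ.2.1 i) ∧ ∀ i j, col (e i) (e j) = τ.2.2.1 i j

private theorem BK3_ex {M C I : Type} {n : ℕ} (col : M → M → C) (cl : M → I) (B : M → Set M)
    (x : M) (hx : x ∈ B x) (hn : (B x).encard ≤ n) : ∃ τ : BK3T n I C, BK3R col cl B x τ := by
  have hfin : (B x).Finite := finite_of_encard_le_coe hn
  have : Fintype (B x) := hfin.fintype
  have hk : Fintype.card (B x) ≤ n := by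
    have h1 : (B x).encard = (Fintype.card (B x) : ℕ∞) := by
      rw [← Set.coe_fintypeCard]
    rw [h1] at hn
    exact_mod_cast hn
  let e₀ := (Fintype.equivFin (B x)).symm
  refine ⟨⟨⟨Fintype.card (B x), by omega⟩, fun i => cl (e₀ i), fun i j => col (e₀ i) (e₀ j),
    e₀.symm ⟨x, hx⟩⟩, fun i => (e₀ i : M), ?_, ?_, ?_, fun i => rfl, fun i j => rfl⟩
  · intro i j hij
    exact e₀.injective (Subtype.ext hij)
  · ext y
    constructor
    · rintro ⟨i, rfl⟩
      exact (e₀ i).2
    · intro hy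
      refine ⟨e₀.symm ⟨y, hy⟩, ?_⟩
      show ((e₀ (e₀.symm ⟨y, hy⟩) : B x) : M) = y
      rw [Equiv.apply_symm_apply]
  · show ((e₀ (e₀.symm ⟨x, hx⟩) : B x) : M) = x
    rw [Equiv.apply_symm_apply]

private theorem BK3_iso {M C I : Type} {n : ℕ} (col : M → M → C) (cl : M → I) (B : M → Set M)
    (x y : M) (τ : BK3T n I C) (hx : BK3R col cl B x τ) (hy : BK3R col cl B y τ) :
    BIso col cl B x y := by
  classical
  obtain ⟨e, he, hr, hp, hc, hd⟩ := hx
  obtain ⟨f, hf, hr', hp', hc', hd'⟩ := hy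
  let h : M → M := fun u => if hu : u ∈ range e then f hu.choose else u
  have hh : ∀ i, h (e i) = f i := by
    intro i
    have hi : e i ∈ range e := ⟨i, rfl⟩
    show (if hu : e i ∈ range e then f hu.choose else e i) = f i
    rw [dif_pos hi]
    congr 1
    exact he hi.choose_spec
  refine ⟨h, ⟨?_, ?_, ?_⟩, ?_, ?_, ?_⟩
  · intro u hu
    rw [← hr] at hu
    obtain ⟨i, rfl⟩ := hu
    rw [hh, ← hr']
    exact ⟨i, rfl⟩
  · intro u hu v hv huv
    rw [← hr] at hu hv
    obtain ⟨i, rfl⟩ := hu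
    obtain ⟨j, rfl⟩ := hv
    rw [hh, hh] at huv
    rw [hf huv]
  · intro v hv
    rw [← hr'] at hv
    obtain ⟨i, rfl⟩ := hv
    refine ⟨e i, ?_, hh i⟩
    rw [← hr]
    exact ⟨i, rfl⟩
  · rw [← hp, hh, hp']
  · intro u hu
    rw [← hr] at hu
    obtain ⟨i, rfl⟩ := hu
    rw [hh, hc, hc']
  · intro u hu v hv _
    rw [← hr] at hu hv
    obtain ⟨i, rfl⟩ := hu
    obtain ⟨j, rfl⟩ := hv
    rw [hh, hh, hd, hd']

theorem thm_BK3 (hS : St_STR) (h1 : St_BK1) (h2 : St_BK2) : St_BK3 := by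
  classical
  intro M C _ inv col hCS
  by_cases hM : (univ : Set M).Countable
  · have key : ∀ (I : Type) (cl : M → I) (g : I → M → C) (s : I → I → C), Finite I →
        ∃ (I : Type) (A : Set M) (cl : M → I) (g : I → M → C) (s : I → I → C) (B : M → Set M),
          Finite I ∧ Blk col A cl g s B ∧ (∀ x ∉ A, (B x).Finite) ∧
          ∀ x ∉ A, ¬ {y | y ∉ A ∧ BIso col cl B x y}.Countable := by
      intro I cl g s hI
      refine ⟨I, univ, cl, g, s, fun _ => univ, hI, ⟨hM, ?_, ?_, ?_, ?_⟩, ?_, ?_⟩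
      · exact fun x hx => absurd (mem_univ x) hx
      · exact fun x hx => absurd (mem_univ x) hx
      · exact fun a _ x hx => absurd (mem_univ x) hx
      · exact fun x hx => absurd (mem_univ x) hx
      · exact fun x hx => absurd (mem_univ x) hx
      · exact fun x hx => absurd (mem_univ x) hx
    rcases isEmpty_or_nonempty M with hE | ⟨⟨x₀⟩⟩
    · exact key Empty (fun x => (hE.false x).elim) (fun i => i.elim) (fun i => i.elim)
        inferInstance
    · exact key Unit (fun _ => ()) (fun _ _ => col x₀ x₀) (fun _ _ => col x₀ x₀) inferInstance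
  · obtain ⟨I, q, A, b, cl, g, s, hI, hStr⟩ := hS M C inv col hCS hM
    obtain ⟨A', B, hAA', hB, hBc, hBconn⟩ := h1 M C I q inv col A b cl g s hCS.inv2 hCS.sym hStr
    obtain ⟨n, hn⟩ := h2 M C I q inv col A b cl g s A' B hCS hStr hAA' hB hBconn
    -- removing the large blocks
    set A1 : Set M := A' ∪ {x | (n : ℕ∞) < (B x).encard} with hA1
    have hA1n : ∀ x, x ∉ A1 ↔ x ∉ A' ∧ (B x).encard ≤ n := by
      intro x
      rw [hA1, mem_union, not_or, mem_ofPred_eq, not_lt]
    have hA1c : A1.Countable := by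
      have h3 : A1 ⊆ A' ∪ ⋃₀ {D : Set M | ∃ x ∉ A', D = B x ∧ (n : ℕ∞) < D.encard} := by
        intro x hx
        by_cases hxA : x ∈ A'
        · exact Or.inl hxA
        · rcases hx with hx | hx
          · exact Or.inl hx
          · exact Or.inr ⟨B x, ⟨x, hxA, rfl, hx⟩, hB.self x hxA⟩
      refine (hB.ctbl.union (hn.countable.sUnion ?_)).mono h3
      rintro D ⟨x, hx, rfl, -⟩
      exact hBc x hx
    have hout1 : ∀ x ∉ A1, ∀ y ∈ B x, y ∉ A1 ∧ B y = B x := by
      intro x hx y hy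
      rw [hA1n] at hx
      obtain ⟨h3, h4⟩ := hB.out x hx.1 y hy
      refine ⟨(hA1n y).mpr ⟨h3, ?_⟩, h4⟩
      rw [h4]
      exact hx.2
    have hself1 : ∀ x ∉ A1, x ∈ B x := fun x hx => hB.self x ((hA1n x).mp hx).1
    -- the rare isomorphism types
    set W : Set M := {x | x ∉ A1 ∧ {y | y ∉ A1 ∧ BIso col cl B x y}.Countable} with hW
    have hWblk : ∀ x ∈ W, ∀ x' ∈ B x, x' ∈ W := by
      intro x hx x' hx'
      obtain ⟨h3, h4⟩ := hout1 x hx.1 x' hx'
      refine ⟨h3, ?_⟩
      have h5 : {y | y ∉ A1 ∧ BIso col cl B x' y} ⊆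
          ⋃ y ∈ {y | y ∉ A1 ∧ BIso col cl B x y}, B y := by
        rintro y' ⟨hy', h, hbij, hhx, hcl, hcol⟩
        rw [h4] at hbij hcl hcol
        have hxB : x ∈ B x := hself1 x hx.1
        have h6 : h x ∈ B y' := hbij.mapsTo hxB
        obtain ⟨h7, h8⟩ := hout1 y' hy' (h x) h6
        refine mem_biUnion (x := h x) ⟨h7, h, ?_, rfl, hcl, hcol⟩ ?_
        · rw [h8]
          exact hbij
        · show y' ∈ B (h x)
          rw [h8]
          exact hself1 y' hy'
      refine (Countable.biUnion hx.2 fun y hy => ?_).mono h5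
      exact hBc y ((hA1n y).mp hy.1).1
    have hWc : W.Countable := by
      have hfin : Finite (BK3T n I C) := by
        unfold BK3T
        infer_instance
      have h3 : W ⊆ ⋃ τ : BK3T n I C, {x | x ∈ W ∧ BK3R col cl B x τ} := by
        intro x hx
        obtain ⟨τ, hτ⟩ := BK3_ex col cl B x (hself1 x hx.1) ((hA1n x).mp hx.1).2
        exact mem_iUnion.mpr ⟨τ, hx, hτ⟩
      refine (countable_iUnion fun τ => ?_).mono h3
      rcases eq_empty_or_nonempty {x | x ∈ W ∧ BK3R col cl B x τ} with h4 | ⟨x₀, hx₀, hτ₀⟩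
      · rw [h4]
        exact countable_empty
      · refine hx₀.2.mono ?_
        rintro y ⟨hy, hτ⟩
        exact ⟨hy.1, BK3_iso col cl B x₀ y τ hτ₀ hτ⟩
    set A2 : Set M := A1 ∪ W with hA2
    have hA2n : ∀ x, x ∉ A2 ↔ x ∉ A1 ∧ x ∉ W := by
      intro x
      rw [hA2, mem_union, not_or]
    have hout2 : ∀ x ∉ A2, ∀ y ∈ B x, y ∉ A2 ∧ B y = B x := by
      intro x hx y hy
      rw [hA2n] at hx
      obtain ⟨h3, h4⟩ := hout1 x hx.1 y hy
      refine ⟨(hA2n y).mpr ⟨h3, fun h5 => hx.2 ?_⟩, h4⟩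
      refine hWblk y h5 x ?_
      rw [h4]
      exact hself1 x hx.1
    have hA2A' : ∀ x ∉ A2, x ∉ A' := fun x hx => ((hA1n x).mp ((hA2n x).mp hx).1).1
    refine ⟨I, A2, cl, g, s, B, hI, ⟨hA1c.union hWc, ?_, hout2, ?_, ?_⟩, ?_, ?_⟩
    · intro x hx
      exact hB.self x (hA2A' x hx)
    · intro a ha x hx
      by_cases haA : a ∈ A'
      · exact hB.gA a haA x (hA2A' x hx)
      · have h3 : x ∉ B a := by
          intro h4
          obtain ⟨-, h5⟩ := hB.out a haA x h4
          have h6 : a ∈ B x := by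
            rw [h5]
            exact hB.self a haA
          exact (hout2 x hx a h6).1 ha
        rw [hB.gB a haA x (hA2A' x hx) h3, hStr.gs a (fun h4 => haA (hAA' h4))]
    · intro x hx y hy hxy
      exact hB.gB x (hA2A' x hx) y (hA2A' y hy) hxy
    · intro x hx
      exact finite_of_encard_le_coe ((hA1n x).mp ((hA2n x).mp hx).1).2
    · intro x hx hcount
      have hx' := (hA2n x).mp hx
      apply hx'.2
      refine ⟨hx'.1, ?_⟩
      refine (hcount.union hWc).mono ?_
      rintro y ⟨hy, hiso⟩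
      by_cases hyW : y ∈ W
      · exact Or.inr hyW
      · exact Or.inl ⟨(hA2n y).mpr ⟨hy, hyW⟩, hiso⟩

end HER
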