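import Pool.Agent.HER.St

/-!
# HER, module CBC: combs over homogeneous sets
-/

set_option autoImplicit false

namespace HER

open Set Pool.Agent.Helper5.DU Pool.Agent.Helper6.Str Pool.Agent.Helper79.VC
  Pool.Agent.Helper97.LO Pool.Agent.Helper97.VC

theorem CBC_inf {M : Type} {X : Set M} (h : ¬ X.Countable) : X.Infinite := fun hf =>
  h hf.countable

theorem thm_CBC (hT : St_THIN) : St_CBC := by
  classical
  intro M C _ inv col Y κ p e _ _ hY _ hH hS
  -- the splitting elements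
  have h1 : ∀ W : {W : Set M // W ⊆ Y ∧ ¬ W.Countable}, ∃ z, Spl col z W.1 p e := fun W =>
    hS W.1 W.2.1 W.2.2
  choose zf hzf using h1
  let nx : {W : Set M // W ⊆ Y ∧ ¬ W.Countable} → {W : Set M // W ⊆ Y ∧ ¬ W.Countable} :=
    fun W => ⟨{v ∈ W.1 | col (zf W) v = p}, (fun v hv => W.2.1 hv.1), (hzf W).2.1⟩
  let Ys : ℕ → {W : Set M // W ⊆ Y ∧ ¬ W.Countable} := fun n => nx^[n] ⟨Y, subset_rfl, hY⟩
  have hYs : ∀ n, (Ys (n + 1)).1 = {v ∈ (Ys n).1 | col (zf (Ys n)) v = p} := by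
    intro n
    show (nx^[n + 1] _).1 = _
    rw [Function.iterate_succ_apply']
  have hanti : ∀ i j, i ≤ j → (Ys j).1 ⊆ (Ys i).1 := by
    intro i j hij
    induction hij with
    | refl => exact subset_rfl
    | step _ ih =>
      rw [hYs]
      exact fun v hv => ih hv.1
  have hpc : ∀ i j, i < j → ∀ v ∈ (Ys j).1, col (zf (Ys i)) v = p := by
    intro i j hij v hv
    have h2 := hanti (i + 1) j hij hv
    rw [hYs] at h2
    exact h2.2
  -- the rows
  have h2 : ∀ n, {v ∈ (Ys n).1 | col (zf (Ys n)) v = e}.Infinite := fun n =>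
    CBC_inf (hzf (Ys n)).2.2
  let x : ℕ → ℕ → M := fun n k => ((h2 n).natEmbedding _ k : M)
  have hx : ∀ n k, x n k ∈ (Ys n).1 ∧ col (zf (Ys n)) (x n k) = e := fun n k =>
    ((h2 n).natEmbedding _ k).2
  have hxi : ∀ n, Function.Injective (x n) := fun n k l h =>
    ((h2 n).natEmbedding _).injective (Subtype.ext h)
  have hpe : p ≠ e := (hzf (Ys 0)).1
  have hxx : ∀ i j k l, i < j → x i k ≠ x j l := by
    intro i j k l hij h
    have h3 := hpc i j hij (x j l) (hx j l).1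
    rw [← h, (hx i k).2] at h3
    exact hpe h3.symm
  have hxY : ∀ i k, x i k ∈ Y := fun i k => (Ys i).2.1 (hx i k).1
  -- the spine
  have hzz : ∀ i j, i < j → zf (Ys i) ≠ zf (Ys j) := by
    intro i j hij h
    obtain ⟨v, hv⟩ := (CBC_inf (hzf (Ys j)).2.2).nonempty
    have h3 := hpc i j hij v hv.1
    rw [h, hv.2] at h3
    exact hpe h3.symm
  have hzY : ∀ i, zf (Ys i) ∉ Y := by
    intro i hi
    have key : ∀ c, ¬ {v ∈ (Ys i).1 | col (zf (Ys i)) v = c}.Countable → c = κ := by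
      intro c hc
      have h3 : ({v ∈ (Ys i).1 | col (zf (Ys i)) v = c} \ {zf (Ys i)}).Infinite :=
        (CBC_inf hc).diff (finite_singleton _)
      obtain ⟨v, ⟨hv1, hv2⟩, hv3⟩ := h3.nonempty
      rw [← hv2]
      exact hH _ hi _ ((Ys i).2.1 hv1) fun h => hv3 h.symm
    exact hpe ((key p (hzf (Ys i)).2.1).trans (key e (hzf (Ys i)).2.2).symm)
  -- thinning
  obtain ⟨φ, ψ, τ, d, hφ, hψ, hτ, hd⟩ := hT C C (fun i j => col (zf (Ys i)) (zf (Ys j)))
    (fun j i k => col (zf (Ys j)) (x i k))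
  refine ⟨τ, d, fun i => zf (Ys (φ i)), fun i k => x (φ i) (ψ i k), ?_⟩
  have hinj : ∀ i k j l, x (φ i) (ψ i k) = x (φ j) (ψ j l) → i = j ∧ k = l := by
    intro i k j l h
    rcases lt_trichotomy i j with hij | rfl | hij
    · exact absurd h (hxx _ _ _ _ (hφ hij))
    · exact ⟨rfl, hψ i (hxi _ h)⟩
    · exact absurd h.symm (hxx _ _ _ _ (hφ hij))
  constructor
  · intro i j h
    rcases lt_trichotomy i j with hij | rfl | hij
    · exact absurd h (hzz _ _ (hφ hij))
    · rfl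
    · exact absurd h.symm (hzz _ _ (hφ hij))
  · intro i k j l _ _ h
    exact hinj i k j l h
  · intro i j l _ h
    apply hzY (φ i)
    have h3 : zf (Ys (φ i)) = x (φ j) (ψ j l) := h
    rw [h3]
    exact hxY _ _
  · exact hτ
  · intro i j l hij _
    exact hpc _ _ (hφ hij) _ (hx _ _).1
  · intro i k _
    exact (hx _ _).2
  · intro i j k hij hk
    exact hd i j k hij (Nat.lt_succ_iff.mp hk)
  · intro i j k l hij _ _
    exact hH _ (hxY _ _) _ (hxY _ _) (hxx _ _ _ _ (hφ hij))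
  · intro i k l hkl _
    refine hH _ (hxY _ _) _ (hxY _ _) fun h => ?_
    exact absurd (hinj i k i l h).2 hkl.ne

end HER
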