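import Pool.Agent.HER.St

/-!
# HER, module CCA: cross relations of good sets
-/

set_option autoImplicit false

namespace HER

open Set Pool.Agent.Helper79.VC

/-- an uncountable set which is a finite union has an uncountable member -/
theorem CCA_union {M C : Type} [Finite C] {Y : Set M} (hY : ¬ Y.Countable) (P : C → Set M)
    (h : ∀ y ∈ Y, ∃ c, y ∈ P c) : ∃ c, ¬ {y ∈ Y | y ∈ P c}.Countable := by
  by_contra hcon
  push Not at hcon
  apply hY
  refine (countable_iUnion hcon).mono fun y hy => ?_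
  obtain ⟨c, hc⟩ := h y hy
  exact mem_iUnion.2 ⟨c, hy, hc⟩

/-- an uncountable set is not covered by a countable one -/
theorem CCA_diff {M : Type} {V B : Set M} (hV : ¬ V.Countable) (hB : B.Countable) :
    ∃ x ∈ V, x ∉ B := by
  by_contra hcon
  push Not at hcon
  exact hV (hB.mono hcon)

/-- the claim -/
theorem CCA_key (hSQ : St_SQ) {M C : Type} {inv : C → C} {col : M → M → C} {Y Y' : Set M}
    {κ κ' : C} {g g' : M → C} (hCS : CS inv col) (hY : IsGd inv col Y κ g)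
    (hY' : IsGd inv col Y' κ' g') {v w : C} (hV : ¬ {y ∈ Y | g' y = v}.Countable)
    (hW : ¬ {y ∈ Y' | g y = w}.Countable) : v = inv w := by
  obtain ⟨-, hκ, hH, hg⟩ := hY
  obtain ⟨-, hκ', hH', hg'⟩ := hY'
  let P : Set (M × M) := {q | (q.1 ∈ Y ∧ g' q.1 = v) ∧ (q.2 ∈ Y' ∧ g q.2 = w) ∧ q.1 ≠ q.2}
  obtain ⟨s, hs1, hs2⟩ := hSQ (M × M) P
    (fun q => {q' | q ∈ P ∧ (q'.1 = q.1 ∨ q'.1 = q.2 ∨ q'.2 = q.1 ∨ q'.2 = q.2 ∨
      col q.1 q'.2 ≠ v ∨ col q.2 q'.1 ≠ w)}) (by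
    intro D hD
    have hD' : (D ∩ P).Countable := hD.mono inter_subset_left
    have hB1 : (⋃ q ∈ D ∩ P, ({q.1, q.2} ∪ {x ∈ Y | col q.2 x ≠ w})).Countable := by
      refine hD'.biUnion fun q hq => ?_
      refine ((countable_singleton q.2).insert q.1).union ?_
      have h1 := hg q.2
      rw [hq.2.2.1.2] at h1
      exact h1
    have hB2 : (⋃ q ∈ D ∩ P, ({q.1, q.2} ∪ {x ∈ Y' | col q.1 x ≠ v})).Countable := by
      refine hD'.biUnion fun q hq => ?_
      refine ((countable_singleton q.2).insert q.1).union ?_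
      have h1 := hg' q.1
      rw [hq.2.1.2] at h1
      exact h1
    obtain ⟨c, hc, hcB⟩ := CCA_diff hV hB1
    obtain ⟨d, hd, hdB⟩ := CCA_diff hW (hB2.insert c)
    have hdc : d ≠ c := fun h => hdB (Or.inl h)
    refine ⟨(c, d), ⟨hc, hd, hdc.symm⟩, fun q hq hE => ?_⟩
    obtain ⟨hqP, hE⟩ := hE
    have h1 : ∀ x, x ∈ ({q.1, q.2} : Set M) ∪ {x ∈ Y | col q.2 x ≠ w} → x ≠ c := by
      rintro x hx rfl
      exact hcB (mem_iUnion₂.2 ⟨q, ⟨hq, hqP⟩, hx⟩)
    have h2 : ∀ x, x ∈ ({q.1, q.2} : Set M) ∪ {x ∈ Y' | col q.1 x ≠ v} → x ≠ d := by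
      rintro x hx rfl
      exact hdB (Or.inr (mem_iUnion₂.2 ⟨q, ⟨hq, hqP⟩, hx⟩))
    rcases hE with h | h | h | h | h | h
    · exact h1 q.1 (Or.inl (Or.inl rfl)) h.symm
    · exact h1 q.2 (Or.inl (Or.inr rfl)) h.symm
    · exact h2 q.1 (Or.inl (Or.inl rfl)) h.symm
    · exact h2 q.2 (Or.inl (Or.inr rfl)) h.symm
    · exact h2 d (Or.inr ⟨hd.1, h⟩) rfl
    · exact h1 c (Or.inr ⟨hc.1, h⟩) rfl)
  have hst : ∀ a b, a < b → (s b).1 ≠ (s a).1 ∧ (s b).1 ≠ (s a).2 ∧ (s b).2 ≠ (s a).1 ∧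
      (s b).2 ≠ (s a).2 ∧ col (s a).1 (s b).2 = v ∧ col (s a).2 (s b).1 = w := by
    intro a b hab
    have h := hs2 a b hab
    by_contra hcon
    apply h
    refine ⟨hs1 a, ?_⟩
    by_contra hcon2
    push Not at hcon2
    exact hcon hcon2
  refine hCS.seq2 (fun a => (s a).1) (fun a => (s a).2) κ κ' v (inv w) ?_ ?_ ?_ hκ hκ' ?_
  · intro a b hab
    rcases lt_trichotomy a b with h | h | h
    · exact absurd hab.symm (hst a b h).1
    · exact h
    · exact absurd hab (hst b a h).1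
  · intro a b hab
    rcases lt_trichotomy a b with h | h | h
    · exact absurd hab.symm (hst a b h).2.2.2.1
    · exact h
    · exact absurd hab (hst b a h).2.2.2.1
  · intro a b hab
    rcases lt_trichotomy a b with h | h | h
    · exact (hst a b h).2.2.1 hab.symm
    · subst h
      exact (hs1 a).2.2 hab
    · exact (hst b a h).2.1 hab
  · intro a b hab
    obtain ⟨h1, -, -, h4, h5, h6⟩ := hst a b hab
    refine ⟨hH _ (hs1 a).1.1 _ (hs1 b).1.1 h1.symm, hH' _ (hs1 a).2.1.1 _ (hs1 b).2.1.1 h4.symm,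
      h5, ?_⟩
    show col (s b).1 (s a).2 = inv w
    rw [hCS.sym (s a).2 (s b).1, h6]

/-- [CCA] -/
theorem thm_CCA (hSQ : St_SQ) : St_CCA := by
  intro M C _ inv col Y Y' κ κ' g g' hCS hY hY'
  obtain ⟨v, hv⟩ := CCA_union hY.1 (fun v => {y | g' y = v}) fun y _ => ⟨g' y, rfl⟩
  obtain ⟨w, hw⟩ := CCA_union hY'.1 (fun w => {y | g y = w}) fun y _ => ⟨g y, rfl⟩
  have hvw : v = inv w := CCA_key hSQ hCS hY hY' hv hw
  refine ⟨v, ?_, ?_⟩
  · by_contra hcon
    obtain ⟨v', hv'⟩ := CCA_union hcon (fun v => {y | g' y = v}) fun y _ => ⟨g' y, rfl⟩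
    have h1 : ¬ {y ∈ Y | g' y = v'}.Countable := by
      intro h
      apply hv'
      refine h.mono ?_
      intro y hy
      exact ⟨hy.1.1, hy.2⟩
    have h2 : v' = v := (CCA_key hSQ hCS hY hY' h1 hw).trans hvw.symm
    apply hv'
    have h3 : {y | y ∈ {y ∈ Y | g' y ≠ v} ∧ y ∈ {y | g' y = v'}} = ∅ := by
      ext y
      simp only [mem_ofPred_eq, mem_empty_iff_false, iff_false, not_and]
      rintro h4 h5
      exact h4.2 (h5.trans h2)
    rw [h3]
    exact countable_empty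
  · by_contra hcon
    obtain ⟨w', hw'⟩ := CCA_union hcon (fun w => {y | g y = w}) fun y _ => ⟨g y, rfl⟩
    have h1 : ¬ {y ∈ Y' | g y = w'}.Countable := by
      intro h
      apply hw'
      refine h.mono ?_
      intro y hy
      exact ⟨hy.1.1, hy.2⟩
    have h2 : v = inv w' := CCA_key hSQ hCS hY hY' hv h1
    have h2' : w' = inv v := by rw [h2, hCS.inv2]
    apply hw'
    have h3 : {y | y ∈ {y ∈ Y' | g y ≠ inv v} ∧ y ∈ {y | g y = w'}} = ∅ := by
      ext y
      simp only [mem_ofPred_eq, mem_empty_iff_false, iff_false, not_and]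
      rintro h4 h5
      exact h4.2 (h5.trans h2')
    rw [h3]
    exact countable_empty

end HER
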