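import Pool.Agent.HER.St

/-!
# HER [CCC]: combs from good sets
-/

set_option autoImplicit false

namespace HER

open Set

/-- choice of a sequence whose elements avoid sets given by the earlier elements -/
theorem CCC_seq {X : Type} (Y : ℕ → Set X) (E : ℕ → X → Set X)
    (h : ∀ (n : ℕ) (D : Set X), D.Finite → ∃ x ∈ Y n, ∀ y ∈ D, x ∉ E n y) :
    ∃ w : ℕ → X, (∀ n, w n ∈ Y n) ∧ ∀ m n, m < n → w n ∉ E n (w m) := by
  classical
  have h' : ∀ (n : ℕ) (D : Finset X), ∃ x ∈ Y n, ∀ y ∈ D, x ∉ E n y := fun n D =>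
    h n D D.finite_toSet
  choose f hf1 hf2 using h'
  let st : ℕ → Finset X := fun n => Nat.rec ∅ (fun n D => insert (f n D) D) n
  have hst : ∀ n, st (n + 1) = insert (f n (st n)) (st n) := fun n => rfl
  have hmem : ∀ m n, m < n → f m (st m) ∈ st n := by
    intro m n
    induction n with
    | zero => intro h; exact absurd h (Nat.not_lt_zero _)
    | succ n ih =>
      intro h
      rw [hst]
      rcases Nat.lt_succ_iff_lt_or_eq.1 h with h1 | h1
      · exact Finset.mem_insert_of_mem (ih h1)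
      · subst h1
        exact Finset.mem_insert_self _ _
  exact ⟨fun n => f n (st n), fun n => hf1 n (st n), fun m n hmn => hf2 n (st n) _ (hmem m n hmn)⟩

theorem thm_CCC (hT : St_THIN) (hA : St_CCA) : St_CCC := by
  intro M C _ inv col h z p e hCS hpe hgd hze hzp
  classical
  choose Y κ hY using hgd
  have hcr : ∀ i j, ∃ s, {y ∈ Y i | h j y ≠ s}.Countable ∧ {y ∈ Y j | h i y ≠ inv s}.Countable :=
    fun i j => hA M C inv col (Y i) (Y j) (κ i) (κ j) (h i) (h j) hCS (hY i) (hY j)
  choose s hs1 hs2 using hcr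
  set Bad : ℕ → Set M := fun i => ⋃ j, ((({y ∈ Y i | h j y ≠ s i j} ∪
    {y ∈ Y i | h j y ≠ inv (s j i)}) ∪ {z j}) ∪ {y ∈ Y i | col (z j) y ≠ h i (z j)}) with hBad
  have hBadc : ∀ i, (Bad i).Countable := fun i => countable_iUnion fun j =>
    (((hs1 i j).union (hs2 j i)).union (countable_singleton _)).union ((hY i).2.2.2 (z j))
  set E : ℕ → M → Set M := fun i u => {y ∈ Y i | col u y ≠ h i u} ∪ {u} with hE
  have hEc : ∀ i u, (E i u).Countable := fun i u =>
    ((hY i).2.2.2 u).union (countable_singleton _)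
  obtain ⟨w, hw1, hw2⟩ := CCC_seq (fun n => Y (Nat.unpair n).1 \ Bad (Nat.unpair n).1)
    (fun n => E (Nat.unpair n).1) (by
      intro n D hD
      by_contra hcon
      push Not at hcon
      have hc : (Bad (Nat.unpair n).1 ∪ ⋃ y ∈ D, E (Nat.unpair n).1 y).Countable :=
        (hBadc _).union (hD.countable.biUnion fun y _ => hEc _ y)
      refine (hY (Nat.unpair n).1).1 (hc.mono fun x hx => ?_)
      by_cases hxB : x ∈ Bad (Nat.unpair n).1
      · exact Or.inl hxB
      · obtain ⟨y, hy, hxy⟩ := hcon x ⟨hx, hxB⟩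
        exact Or.inr (mem_iUnion₂.2 ⟨y, hy, hxy⟩))
  set x : ℕ → ℕ → M := fun i k => w (Nat.pair i k) with hx
  have hxY : ∀ i k, x i k ∈ Y i ∧ x i k ∉ Bad i := by
    intro i k
    have h1 := hw1 (Nat.pair i k)
    simp only [Nat.unpair_pair] at h1
    exact h1
  have hxE : ∀ i k j l, Nat.pair i k < Nat.pair j l → x j l ∉ E j (x i k) := by
    intro i k j l hlt
    have h1 := hw2 _ _ hlt
    simp only [Nat.unpair_pair] at h1
    exact h1
  have hwinj : ∀ m n, w m = w n → m = n := by
    have key : ∀ m n, m < n → w m ≠ w n := by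
      intro m n hmn heq
      exact hw2 m n hmn (Or.inr heq.symm)
    intro m n heq
    rcases lt_trichotomy m n with h1 | h1 | h1
    · exact absurd heq (key m n h1)
    · exact h1
    · exact absurd heq.symm (key n m h1)
  have hxinj : ∀ i k j l, x i k = x j l → i = j ∧ k = l := by
    intro i k j l heq
    exact Nat.pair_eq_pair.1 (hwinj _ _ heq)
  -- properties of the points
  have hb1 : ∀ i k j, h j (x i k) = s i j := by
    intro i k j
    by_contra hc
    exact (hxY i k).2 (mem_iUnion.2 ⟨j, Or.inl (Or.inl (Or.inl ⟨(hxY i k).1, hc⟩))⟩)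
  have hb2 : ∀ i k j, h j (x i k) = inv (s j i) := by
    intro i k j
    by_contra hc
    exact (hxY i k).2 (mem_iUnion.2 ⟨j, Or.inl (Or.inl (Or.inr ⟨(hxY i k).1, hc⟩))⟩)
  have hb3 : ∀ i k j, z j ≠ x i k := by
    intro i k j hc
    exact (hxY i k).2 (mem_iUnion.2 ⟨j, Or.inl (Or.inr hc.symm)⟩)
  have hb4 : ∀ i k j, col (z j) (x i k) = h i (z j) := by
    intro i k j
    by_contra hc
    exact (hxY i k).2 (mem_iUnion.2 ⟨j, Or.inr ⟨(hxY i k).1, hc⟩⟩)
  have hlt : ∀ i k j l, Nat.pair i k < Nat.pair j l → col (x i k) (x j l) = s i j := by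
    intro i k j l hlt
    rw [← hb1 i k j]
    by_contra hc
    exact hxE i k j l hlt (Or.inl ⟨(hxY j l).1, hc⟩)
  have hcross : ∀ i k j l, i ≠ j → col (x i k) (x j l) = s i j := by
    intro i k j l hij
    rcases lt_trichotomy (Nat.pair i k) (Nat.pair j l) with h1 | h1 | h1
    · exact hlt i k j l h1
    · exact absurd (Nat.pair_eq_pair.1 h1).1 hij
    · rw [hCS.sym (x j l) (x i k), hlt j l i k h1]
      have h2 := hb1 j l i
      have h3 := hb2 j l i
      rw [← h2, h3, hCS.inv2]
  have hzinj : Function.Injective z := by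
    have key : ∀ i j, i < j → z i ≠ z j := by
      intro i j hij heq
      apply hpe
      rw [← hzp i j hij, ← hze j, heq]
    intro i j heq
    rcases lt_trichotomy i j with h1 | h1 | h1
    · exact absurd heq (key i j h1)
    · exact h1
    · exact absurd heq.symm (key j i h1)
  obtain ⟨φ, ψ, τ, d, hφ, hψ, hc, hd⟩ := hT (C × C × C) C
    (fun i j => (col (z i) (z j), s i j, κ j)) (fun j i k => col (z j) (x i k))
  refine ⟨τ.1, d, τ.2.1, τ.2.2, fun i => z (φ i), fun i k => x (φ i) (ψ i k), ?_, ?_⟩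
  · have h1 := hc 0 1 (by norm_num)
    rw [← h1]
    exact (hY (φ 1)).2.1
  · refine ⟨?_, ?_, ?_, ?_, ?_, ?_, ?_, ?_, ?_⟩
    · exact hzinj.comp hφ.injective
    · intro i k j l _ _ heq
      obtain ⟨h1, h2⟩ := hxinj _ _ _ _ heq
      have h3 := hφ.injective h1
      subst h3
      exact ⟨rfl, hψ i h2⟩
    · intro i j l _
      exact hb3 _ _ _
    · intro i j hij
      rw [← hc i j hij]
    · intro i j l hij _
      show col (z (φ i)) (x (φ j) (ψ j l)) = p
      rw [hb4]
      exact hzp _ _ (hφ hij)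
    · intro i k _
      show col (z (φ i)) (x (φ i) (ψ i k)) = e
      rw [hb4]
      exact hze _
    · intro i j k hij hk
      exact hd i j k hij (Nat.lt_succ_iff.1 hk)
    · intro i j k l hij _ _
      show col (x (φ i) (ψ i k)) (x (φ j) (ψ j l)) = τ.2.1
      rw [hcross _ _ _ _ (hφ hij).ne, ← hc i j hij]
    · intro i k l hkl hl
      have hi : 0 < i := by omega
      show col (x (φ i) (ψ i k)) (x (φ i) (ψ i l)) = τ.2.2
      have h1 := hc 0 i hi
      rw [← h1]
      refine (hY (φ i)).2.2.1 _ (hxY _ _).1 _ (hxY _ _).1 fun heq => ?_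
      have h2 := (hxinj _ _ _ _ heq).2
      have h3 := hψ i h2
      omega

end HER
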