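import Pool.Agent.HER.St

/-!
# HER: uncountable sets contain uncountable homogeneous symmetric sets [CLA]
-/

set_option autoImplicit false

namespace HER

open Set

/-- the hypothesis of `St_CMB` for one set -/
private def CLA_Q {M C : Type} (col : M → M → C) (p e : C) (ρ0 : C) (Y' : Set M) : Prop :=
  ∃ y ∈ Y', ¬ {v ∈ Y' | col y v = p}.Countable ∧
    ∃ x : ℕ → M, Function.Injective x ∧ (∀ k, x k ∈ Y' ∧ x k ≠ y ∧ col y (x k) = e) ∧
      ∀ k l, k < l → col (x k) (x l) = ρ0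

private theorem CLA_sub {M : Type} {Y' Y'' : Set M} (h : Y' ⊆ Y'') (P : M → Prop) :
    {v ∈ Y' | P v} ⊆ {v ∈ Y'' | P v} := fun _ hv => ⟨h hv.1, hv.2⟩

private theorem CLA_Qmono {M C : Type} (col : M → M → C) (p e : C) (ρ0 : C) {Y' Y'' : Set M}
    (h : Y' ⊆ Y'') (hq : CLA_Q col p e ρ0 Y') : CLA_Q col p e ρ0 Y'' := by
  obtain ⟨y, hy, hu, x, hx, hk, hc⟩ := hq
  exact ⟨y, h hy, fun hcn => hu (hcn.mono (CLA_sub h _)), x, hx,
    fun k => ⟨h (hk k).1, (hk k).2⟩, hc⟩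

private theorem CLA_rows (hP : St_PR) (hD : St_DCD) (hC : St_CMB) {M C : Type} [Finite C]
    {inv : C → C} {col : M → M → C} (hcs : CS inv col) (Y1 : Set M) (hu : ¬ Y1.Countable)
    (p e : C) (hpe : p ≠ e) (P : C → Prop)
    (h : ∀ Y' ⊆ Y1, ¬ Y'.Countable → ∃ c, P c ∧ CLA_Q col p e c Y') :
    ∃ c, P c ∧ inv p ≠ p ∧ e = inv p ∧ (c = p ∨ c = inv p) := by
  obtain ⟨Y2, hY2, hu2, c, hc⟩ := hP M C (fun c Y' => P c ∧ CLA_Q col p e c Y') Y1
    (fun c Y' Y'' hs hq => ⟨hq.1, CLA_Qmono col p e c hs hq.2⟩) hu h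
  obtain ⟨r, z, x, hcomb⟩ := hC M C inv col Y2 p e c hcs.inv2 hcs.sym hu2
    (fun Y' hY' hu' => (hc Y' hY' hu').2)
  obtain ⟨-, -, -, h1, h2, h3⟩ := hD M C inv col p p e (inv r) r c z x hcs hcomb hpe
  exact ⟨c, (hc Y2 subset_rfl hu2).1, h1, h2, h3⟩

private theorem CLA_rem {M : Type} {S : Set M} (y : M) (h : ¬ S.Countable) :
    ¬ {v ∈ S | v ≠ y}.Countable := by
  intro hc
  apply h
  refine (hc.union (countable_singleton y)).mono fun v hv => ?_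
  by_cases hvy : v = y
  · exact Or.inr hvy
  · exact Or.inl ⟨hv, hvy⟩

theorem thm_CLA (hR : St_RAM) (hP : St_PR) (hDM : St_DM) (hD : St_DCD) (hS : St_SS)
    (hC : St_CMB) (hT : St_TF) : St_CLA := by
  intro M C _ inv col Y hcs hY
  by_contra hno
  -- self-split
  have hsplit : ∀ Y' ⊆ Y, ¬ Y'.Countable → ∃ c : C × C, ∃ y ∈ Y', Spl col y Y' c.1 c.2 := by
    intro Y' hY' hu
    by_contra hcon
    obtain ⟨Y'', h1, h2, h3⟩ := hS M C inv col Y' hcs hu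
      (fun y hy t t' hs => hcon ⟨(t, t'), y, hy, hs⟩)
    exact hno ⟨Y'', h1.trans hY', h2, h3⟩
  obtain ⟨Y1, hY1, hu1, ⟨p, e⟩, hpe⟩ := hP M (C × C)
    (fun c Y' => ∃ y ∈ Y', Spl col y Y' c.1 c.2) Y
    (fun c Y' Y'' hs hq => by
      obtain ⟨y, hy, h0, h1, h2⟩ := hq
      exact ⟨y, hs hy, h0, fun hc => h1 (hc.mono (CLA_sub hs _)),
        fun hc => h2 (hc.mono (CLA_sub hs _))⟩) hY hsplit
  simp only at hpe
  have hne : p ≠ e := by
    obtain ⟨y, -, h0, -, -⟩ := hpe Y1 subset_rfl hu1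
    exact h0
  -- rows
  obtain ⟨-, -, hinv, he, -⟩ := CLA_rows hP hD hC hcs Y1 hu1 p e hne (fun _ => True)
    (fun Y' hY' hu => by
      obtain ⟨y, hy, h0, h1, h2⟩ := hpe Y' hY' hu
      have hinf : {v ∈ {v ∈ Y' | col y v = e} | v ≠ y}.Infinite :=
        fun hf => CLA_rem y h2 hf.countable
      have hx := (Set.Infinite.natEmbedding _ hinf)
      obtain ⟨φ, κ, hφ, hκ⟩ := hR C (fun i j => col (hx i : M) (hx j : M))
      refine ⟨κ, trivial, y, hy, h1, fun k => (hx (φ k) : M), ?_, ?_, ?_⟩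
      · intro a b hab
        exact hφ.injective (hx.injective (Subtype.ext hab))
      · intro k
        exact ⟨(hx (φ k)).2.1.1, (hx (φ k)).2.2, (hx (φ k)).2.1.2⟩
      · intro k l hkl
        exact hκ k l hkl)
  subst he
  -- the graph
  set G : M → M → Prop := fun x y => col x y ≠ p ∧ col x y ≠ inv p with hG
  have hGs : ∀ x y, G x y → G y x := by
    intro x y hxy
    refine ⟨fun h => hxy.2 ?_, fun h => hxy.1 ?_⟩
    · rw [← hcs.inv2 (col x y), ← hcs.sym x y, h]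
    · rw [← hcs.inv2 (col x y), ← hcs.sym x y, h, hcs.inv2]
  have hclq : ∀ Y' ⊆ Y1, ¬ Y'.Countable → ∃ x : ℕ → M, Function.Injective x ∧
      (∀ k, x k ∈ Y') ∧ ∀ k l, k < l → G (x k) (x l) := by
    intro Y' hY' hu
    by_contra hcon
    obtain ⟨T, hT1, hT2, hT3⟩ := hDM M G Y' hGs hu hcon
    refine hT M C inv col p T hcs hinv hT2 (fun x hx y hy hxy => ?_)
      (fun T' hT' hu' => hpe T' (hT'.trans (hT1.trans hY')) hu')
    have := hT3 x hx y hy hxy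
    simp only [hG, not_and_or, not_not] at this
    exact this
  obtain ⟨c, hc1, -, -, hc2⟩ := CLA_rows hP hD hC hcs Y1 hu1 p (inv p) hne
    (fun c => c ≠ p ∧ c ≠ inv p)
    (fun Y' hY' hu => by
      obtain ⟨y, hy, h0, h1, h2⟩ := hpe Y' hY' hu
      obtain ⟨x, hx1, hx2, hx3⟩ := hclq {v ∈ {v ∈ Y' | col y v = inv p} | v ≠ y}
        (fun v hv => hY' hv.1.1) (CLA_rem y h2)
      obtain ⟨φ, κ, hφ, hκ⟩ := hR C (fun i j => col (x i) (x j))
      refine ⟨κ, ?_, y, hy, h1, fun k => x (φ k), hx1.comp hφ.injective, ?_, ?_⟩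
      · rw [← hκ 0 1 one_pos]
        exact hx3 _ _ (hφ one_pos)
      · intro k
        exact ⟨(hx2 (φ k)).1.1, (hx2 (φ k)).2, (hx2 (φ k)).1.2⟩
      · intro k l hkl
        exact hκ k l hkl)
  rcases hc2 with h | h
  · exact hc1.1 h
  · exact hc1.2 h

end HER
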