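import Pool.Agent.HER.St

/-!
# HER, module CLB: uncountable sets contain good sets
-/

set_option autoImplicit false

namespace HER

open Set Pool.Agent.Helper79.VC

/-- an uncountable set which is a finite union has an uncountable member -/
theorem CLB_union {M C : Type} [Finite C] {Y : Set M} (hY : ¬ Y.Countable) (P : C → Set M)
    (h : ∀ y ∈ Y, ∃ c, y ∈ P c) : ∃ c, ¬ {y ∈ Y | y ∈ P c}.Countable := by
  by_contra hcon
  push Not at hcon
  apply hY
  refine (countable_iUnion hcon).mono fun y hy => ?_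
  obtain ⟨c, hc⟩ := h y hy
  exact mem_iUnion.2 ⟨c, hy, hc⟩

/-- [CLB] -/
theorem thm_CLB (hP : St_PR) (hD : St_DCD) (hA : St_CLA) (hB : St_CBC) : St_CLB := by
  intro M C _ inv col Y hCS hY
  obtain ⟨Y1, hY1, hY1c, κ, hκ, hH⟩ := hA M C inv col Y hCS hY
  by_cases hs : ∃ Y' ⊆ Y1, ¬ Y'.Countable ∧ ∀ z t t', ¬ Spl col z Y' t t'
  · obtain ⟨Y', hY', hY'c, hspl⟩ := hs
    have h1 : ∀ z, ∃ k, {x ∈ Y' | col z x ≠ k}.Countable := by
      intro z
      obtain ⟨t, ht⟩ := CLB_union hY'c (fun t => {x : M | col z x = t}) fun x _ => ⟨col z x, rfl⟩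
      refine ⟨t, ?_⟩
      have h3 : ∀ t' : {t' : C // t' ≠ t}, {x ∈ Y' | col z x = t'.1}.Countable := by
        intro t'
        by_contra hcon
        exact hspl z t t'.1 ⟨t'.2.symm, ht, hcon⟩
      refine (countable_iUnion h3).mono fun x hx => ?_
      exact mem_iUnion.2 ⟨⟨col z x, hx.2⟩, hx.1, rfl⟩
    choose g hg using h1
    exact ⟨Y', hY'.trans hY1, κ, g, hY'c, hκ,
      fun x hx y hy hxy => hH x (hY' hx) y (hY' hy) hxy, hg⟩
  · exfalso
    push Not at hs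
    obtain ⟨Y2, hY2, hY2c, c, hc⟩ := hP M (C × C) (fun c Y' => ∃ z, Spl col z Y' c.1 c.2) Y1
      (by
        rintro c Y' Y'' hsub ⟨z, h1, h2, h3⟩
        refine ⟨z, h1, fun h4 => h2 (h4.mono ?_), fun h4 => h3 (h4.mono ?_)⟩
        · exact fun x hx => ⟨hsub hx.1, hx.2⟩
        · exact fun x hx => ⟨hsub hx.1, hx.2⟩) hY1c (by
        intro Y' hY' hY'c
        obtain ⟨z, t, t', h⟩ := hs Y' hY' hY'c
        exact ⟨(t, t'), z, h⟩)
    have hne : c.1 ≠ c.2 := by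
      obtain ⟨z, h, -⟩ := hc Y2 Subset.rfl hY2c
      exact h
    obtain ⟨τ, d, z, x, hcomb⟩ := hB M C inv col Y2 κ c.1 c.2 hCS.inv2 hCS.sym hY2c hκ
      (fun x hx y hy hxy => hH x (hY2 hx) y (hY2 hy) hxy) hc
    obtain ⟨-, -, h1, h2, -⟩ := hD M C inv col τ c.1 c.2 d κ κ z x hCS hcomb hne
    apply h2
    rw [← h1]
    exact hκ

end HER
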