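import Pool.Agent.HER.St

/-!
# HER, module CLC: finitely many generic types
-/

set_option autoImplicit false

namespace HER

open Set

theorem thm_CLC (hD : St_DCD) (hB : St_CCB) (hC : St_CCC) : St_CLC := by
  intro M C _ inv col hcs
  by_contra hinf
  obtain ⟨h, z, p, e, hpe, hG, hze, hzp⟩ := hB M C _ hinf
  obtain ⟨τ, d, s, κ, z', x, hκ, hcomb⟩ := hC M C inv col h z p e hcs hpe hG hze hzp
  obtain ⟨-, -, -, hp, -, hκp⟩ := hD M C inv col τ p e d s κ z' x hcs hcomb hpe
  rcases hκp with h1 | h1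
  · rw [h1] at hκ
    exact hp hκ
  · rw [h1, hcs.inv2] at hκ
    exact hp hκ.symm

end HER
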