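import Pool.Agent.HER.St

/-!
# HER, module CSS: the large structure as coloured complete graph
-/

set_option autoImplicit false
set_option linter.unusedSectionVars false
set_option linter.unusedVariables false

namespace HER

open Set Pool.Agent.Helper5.DU Pool.Agent.Helper6.Str Pool.Agent.Helper79.VC
  Pool.Agent.Helper97.LO Pool.Agent.Helper97.VC

/-! ### Pairs -/

section pairs

variable {L : FirstOrder.Language.{0, 0}} {M N O : Type}

/-- the pattern of a pair -/
private def CSS_p {A : Type} (x y : A) (b : Bool) : A := if b then y else x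

private theorem CSS_pair_iff {S : L.Structure M} {T : L.Structure N} {x x' : M} {y y' : N} :
    AtEq S T {(x, y), (x', y')} ↔ (x = x' ↔ y = y') ∧
      ∀ (n : ℕ) (R : L.Relations n) (u : Fin n → Bool),
        S.RelMap R (fun i => CSS_p x x' (u i)) ↔ T.RelMap R (fun i => CSS_p y y' (u i)) := by
  constructor
  · intro h
    refine ⟨h.1 (x, y) (by simp) (x', y') (by simp), fun n R u => ?_⟩
    have h1 := h.2 n R (fun i => (CSS_p x x' (u i), CSS_p y y' (u i))) (fun i => by
      cases u i <;> simp [CSS_p])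
    exact h1
  · rintro ⟨h1, h2⟩
    refine ⟨?_, ?_⟩
    · intro p hp q hq
      simp only [mem_insert_iff, mem_singleton_iff] at hp hq
      rcases hp with rfl | rfl <;> rcases hq with rfl | rfl
      · simp
      · exact h1
      · exact ⟨fun h => (h1.mp h.symm).symm, fun h => (h1.mpr h.symm).symm⟩
      · simp
    · intro n R v hv
      have h3 : ∀ i, ∃ b : Bool, v i = (CSS_p x x' b, CSS_p y y' b) := by
        intro i
        have := hv i
        simp only [mem_insert_iff, mem_singleton_iff] at this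
        rcases this with h | h
        · exact ⟨false, by rw [h]; simp [CSS_p]⟩
        · exact ⟨true, by rw [h]; simp [CSS_p]⟩
      choose u hu using h3
      simp only [hu]
      exact h2 n R u

private theorem CSS_pair_symm {S : L.Structure M} {T : L.Structure N} {x x' : M} {y y' : N}
    (h : AtEq S T {(x, y), (x', y')}) : AtEq T S {(y, x), (y', x')} := by
  rw [CSS_pair_iff] at h ⊢
  exact ⟨h.1.symm, fun n R u => (h.2 n R u).symm⟩

private theorem CSS_pair_comm {S : L.Structure M} {T : L.Structure N} {x x' : M} {y y' : N}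
    (h : AtEq S T {(x, y), (x', y')}) : AtEq S T {(x', y'), (x, y)} := by
  rw [Set.pair_comm]
  exact h

private theorem CSS_pair_trans {S : L.Structure M} {T : L.Structure N} {U : L.Structure O}
    {x x' : M} {y y' : N} {z z' : O} (h : AtEq S T {(x, y), (x', y')})
    (h' : AtEq T U {(y, z), (y', z')}) : AtEq S U {(x, z), (x', z')} := by
  rw [CSS_pair_iff] at h h' ⊢
  exact ⟨h.1.trans h'.1, fun n R u => (h.2 n R u).trans (h'.2 n R u)⟩

/-! ### Atomic types over `F` -/

variable {S : L.Structure M} {F : Set M}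

/-- equal types give local isomorphisms -/
private theorem CSS_atEq {x y x' y' : M} (hx : x ∉ F) (hy : y ∉ F) (hx' : x' ∉ F) (hy' : y' ∉ F)
    (he : x = y ↔ x' = y') (h : at2 S F x y = at2 S F x' y') :
    AtEq S S (dg F ∪ {(x, x'), (y, y')}) := by
  refine ⟨?_, ?_⟩
  · intro p hp q hq
    simp only [mem_union, mem_image, mem_insert_iff, mem_singleton_iff] at hp hq
    rcases hp with ⟨a, ha, rfl⟩ | rfl | rfl <;> rcases hq with ⟨b, hb, rfl⟩ | rfl | rfl
    · exact Iff.rfl
    · exact ⟨fun h => absurd ((show a = x from h) ▸ ha) hx,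
        fun h => absurd ((show a = x' from h) ▸ ha) hx'⟩
    · exact ⟨fun h => absurd ((show a = y from h) ▸ ha) hy,
        fun h => absurd ((show a = y' from h) ▸ ha) hy'⟩
    · exact ⟨fun h => absurd ((show x = b from h) ▸ hb) hx,
        fun h => absurd ((show x' = b from h) ▸ hb) hx'⟩
    · simp
    · exact he
    · exact ⟨fun h => absurd ((show y = b from h) ▸ hb) hy,
        fun h => absurd ((show y' = b from h) ▸ hb) hy'⟩
    · exact ⟨fun h => (he.mp h.symm).symm, fun h => (he.mpr h.symm).symm⟩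
    · simp
  · intro n R v hv
    have h3 : ∀ i, ∃ b : F ⊕ Bool, v i = (Sum.elim (fun a : F => (a : M))
        (fun b => if b then y else x) b, Sum.elim (fun a : F => (a : M))
        (fun b => if b then y' else x') b) := by
      intro i
      have := hv i
      simp only [mem_union, mem_image, mem_insert_iff, mem_singleton_iff] at this
      rcases this with ⟨a, ha, h⟩ | h | h
      · exact ⟨Sum.inl ⟨a, ha⟩, by rw [← h]; simp⟩
      · exact ⟨Sum.inr false, by rw [h]; simp⟩
      · exact ⟨Sum.inr true, by rw [h]; simp⟩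
    choose u hu using h3
    simp only [hu]
    have h4 : (⟨n, R, u⟩ : Σ n, L.Relations n × (Fin n → F ⊕ Bool)) ∈ at2 S F x y ↔
        (⟨n, R, u⟩ : Σ n, L.Relations n × (Fin n → F ⊕ Bool)) ∈ at2 S F x' y' := by rw [h]
    exact h4

/-- and conversely, since all symbols are unary or binary -/
private theorem CSS_at2 (hL : Ar2 L) {x y x' y' : M} (h1 : AtEq S S (dg F ∪ {(x, x')}))
    (h2 : AtEq S S (dg F ∪ {(y, y')})) (h3 : AtEq S S {(x, x'), (y, y')}) :
    at2 S F x y = at2 S F x' y' := by
  ext ⟨n, R, u⟩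
  change S.RelMap R (fun i => Sum.elim (fun a : F => (a : M)) (fun b => if b then y else x) (u i))
    ↔ S.RelMap R (fun i => Sum.elim (fun a : F => (a : M)) (fun b => if b then y' else x') (u i))
  by_cases ht : ∃ i, u i = Sum.inr true
  · by_cases hf : ∃ i, u i = Sum.inr false
    · obtain ⟨i, hi⟩ := ht
      obtain ⟨j, hj⟩ := hf
      have hij : i ≠ j := by
        rintro rfl
        rw [hi] at hj
        simp at hj
      have hn : n = 2 := by
        by_contra hn
        by_cases hn1 : n = 1
        · subst hn1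
          exact hij (Subsingleton.elim _ _)
        · exact (hL n hn1 hn).elim R
      subst hn
      have h4 : ∀ k, u k = Sum.inr true ∨ u k = Sum.inr false := by
        intro k
        have : k = i ∨ k = j := by
          have h5 := i.isLt
          have h6 := j.isLt
          have h7 := k.isLt
          have h8 : (i : ℕ) ≠ j := fun h => hij (Fin.ext h)
          rcases (by omega : (k : ℕ) = i ∨ (k : ℕ) = j) with h | h
          · exact Or.inl (Fin.ext h)
          · exact Or.inr (Fin.ext h)
        rcases this with rfl | rfl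
        · exact Or.inl hi
        · exact Or.inr hj
      refine h3.2 2 R (fun i => (_, _)) fun k => ?_
      rcases h4 k with h | h
      · rw [h]; simp
      · rw [h]; simp
    · refine h2.2 n R (fun i => (_, _)) fun k => ?_
      rcases hk : u k with a | b
      · left
        exact ⟨a, a.2, rfl⟩
      · cases b
        · exact absurd ⟨k, hk⟩ hf
        · right
          simp
  · refine h1.2 n R (fun i => (_, _)) fun k => ?_
    rcases hk : u k with a | b
    · left
      exact ⟨a, a.2, rfl⟩
    · cases b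
      · right
        simp
      · exact absurd ⟨k, hk⟩ ht

/-- reversal of the types -/
private def CSS_rev (A : Set (Σ n, L.Relations n × (Fin n → F ⊕ Bool))) :
    Set (Σ n, L.Relations n × (Fin n → F ⊕ Bool)) :=
  {r | (⟨r.1, r.2.1, fun i => Sum.map id not (r.2.2 i)⟩ :
    Σ n, L.Relations n × (Fin n → F ⊕ Bool)) ∈ A}

private theorem CSS_rev_at2 (x y : M) : CSS_rev (at2 S F x y) = at2 S F y x := by
  ext ⟨n, R, u⟩
  change S.RelMap R (fun i => Sum.elim (fun a : F => (a : M)) (fun b => if b then y else x)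
      (Sum.map id not (u i)))
    ↔ S.RelMap R (fun i => Sum.elim (fun a : F => (a : M)) (fun b => if b then x else y) (u i))
  have : (fun i => Sum.elim (fun a : F => (a : M)) (fun b => if b then y else x)
      (Sum.map id not (u i))) =
      (fun i => Sum.elim (fun a : F => (a : M)) (fun b => if b then x else y) (u i)) := by
    funext i
    rcases u i with a | b
    · rfl
    · cases b <;> rfl
  rw [this]

end pairs

/-! ### Sequences of blocks -/

section blocks

variable {L : FirstOrder.Language.{0, 0}} {M : Type} {S : L.Structure M} {F : Set M}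

/-- sequences of blocks with constant types -/
private theorem CSS_seq {J : Type} [LinearOrder J] (hJ : ∀ i : J, ∃ j, i < j) {b : ℕ}
    (w : J → Fin b → M) (hF : ∀ i p, w i p ∉ F)
    (hw : ∀ i p j q, w i p = w j q → i = j ∧ p = q)
    (h1 : ∀ i j i' j' p q, i < j → i' < j' →
      at2 S F (w i p) (w j q) = at2 S F (w i' p) (w j' q))
    (h2 : ∀ i i' p q, p ≠ q → at2 S F (w i p) (w i q) = at2 S F (w i' p) (w i' q)) :
    Seq S w ∧ (∀ i i' p q, AtEq S S (dg F ∪ {(w i p, w i' p), (w i q, w i' q)})) ∧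
    (∀ i i' j j' p q, i < j → i' < j' →
      AtEq S S (dg F ∪ {(w i p, w i' p), (w j q, w j' q)})) := by
  have k3 : ∀ i i' j j' p q, i < j → i' < j' →
      AtEq S S (dg F ∪ {(w i p, w i' p), (w j q, w j' q)}) := by
    intro i i' j j' p q hij hij'
    refine CSS_atEq (hF _ _) (hF _ _) (hF _ _) (hF _ _) ?_ (h1 i j i' j' p q hij hij')
    exact ⟨fun h => absurd (hw _ _ _ _ h).1 hij.ne, fun h => absurd (hw _ _ _ _ h).1 hij'.ne⟩
  have k1 : ∀ i i' p, AtEq S S (dg F ∪ {(w i p, w i' p)}) := by
    intro i i' p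
    obtain ⟨j, hj⟩ := hJ i
    obtain ⟨j', hj'⟩ := hJ i'
    refine AtEq.anti ?_ (k3 i i' j j' p p hj hj')
    intro r hr
    rcases hr with hr | hr
    · exact Or.inl hr
    · exact Or.inr (Or.inl hr)
  have k2 : ∀ i i' p q, AtEq S S (dg F ∪ {(w i p, w i' p), (w i q, w i' q)}) := by
    intro i i' p q
    by_cases hpq : p = q
    · subst hpq
      have := k1 i i' p
      rwa [Set.pair_eq_singleton]
    · refine CSS_atEq (hF _ _) (hF _ _) (hF _ _) (hF _ _) ?_ (h2 i i' p q hpq)
      exact ⟨fun h => absurd (hw _ _ _ _ h).2 hpq, fun h => absurd (hw _ _ _ _ h).2 hpq⟩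
  exact ⟨⟨hw, fun i j p q => AtEq.anti subset_union_right (k2 i j p q),
    fun i i' j j' p q h h' => AtEq.anti subset_union_right (k3 i i' j j' p q h h')⟩, k2, k3⟩

private theorem CSS_om_lt (i : Om) : ∃ j, i < j := by
  obtain ⟨j, hj⟩ := od_surj (add_one_lt_om1 (od_lt i))
  refine ⟨j, od_lt_od.mp ?_⟩
  rw [hj]
  exact lt_add_one (od i)

private theorem CSS_two_mul {γ : Ordinal.{0}} (h : γ < om1) : 2 * γ < om1 := by
  rw [lt_om1_iff] at h ⊢
  rw [Ordinal.card_mul]
  have h2 : Ordinal.card 2 ≤ Cardinal.aleph0 := by simp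
  calc Ordinal.card 2 * γ.card ≤ Cardinal.aleph0 * Cardinal.aleph0 := mul_le_mul' h2 h
    _ = Cardinal.aleph0 := Cardinal.aleph0_mul_aleph0

/-- two interleaved increasing maps -/
private theorem CSS_e : ∃ e0 e1 : Om → Om, (∀ a, e0 a < e1 a) ∧ ∀ a b, a < b → e1 a < e0 b := by
  have h0 : ∀ a : Om, ∃ w : Om, od w = 2 * od a := fun a => od_surj (CSS_two_mul (od_lt a))
  have h1 : ∀ a : Om, ∃ w : Om, od w = 2 * od a + 1 :=
    fun a => od_surj (add_one_lt_om1 (CSS_two_mul (od_lt a)))
  choose e0 he0 using h0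
  choose e1 he1 using h1
  refine ⟨e0, e1, fun a => od_lt_od.mp ?_, fun a b hab => od_lt_od.mp ?_⟩
  · rw [he0, he1]
    exact lt_add_one _
  · rw [he0, he1]
    have h2 : od a + 1 ≤ od b := Order.add_one_le_of_lt (od_lt_od.mpr hab)
    calc 2 * od a + 1 < 2 * od a + 2 := by
          gcongr
          norm_num
      _ = 2 * (od a + 1) := by rw [mul_add, mul_one]
      _ ≤ 2 * od b := by gcongr

end blocks

/-! ### The theorem -/

theorem thm_CSS (hF : St_HF) (hP : St_PIG) (hFT : St_FT) (hC : St_CNT) (h1 : St_LD1)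
    (h2 : St_LD2) (hS : St_SQN) : St_CSS := by
  intro L _ _ K δ M S hL hV hK
  obtain ⟨F, hFf, hHer⟩ := hF L K δ M S hV hK
  have hPig := hP L K M S F hV.scat hHer
  have hM : Infinite M := infinite_of_lev hV.lev
  have hfin := hFT L M S F hL hFf hM hPig
  -- the colours
  obtain ⟨Rg, hRg⟩ : ∃ Rg, Rg = (range fun r : {r : M × M // r.1 ∉ F ∧ r.2 ∉ F} =>
      at2 S F r.1.1 r.1.2) := ⟨_, rfl⟩
  rw [← hRg] at hfin
  have hmem : ∀ x y : {x : M // x ∉ F}, at2 S F x y ∈ Rg := by
    intro x y
    rw [hRg]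
    exact ⟨⟨(x, y), x.2, y.2⟩, rfl⟩
  have hinv : ∀ c : Rg, CSS_rev (c : Set _) ∈ Rg := by
    rintro ⟨c, hc⟩
    rw [hRg] at hc
    obtain ⟨⟨⟨x, y⟩, hx, hy⟩, rfl⟩ := hc
    change CSS_rev (at2 S F x y) ∈ Rg
    rw [CSS_rev_at2]
    exact hmem ⟨y, hy⟩ ⟨x, hx⟩
  let C : Type := Rg
  let t : C → Set (Σ n, L.Relations n × (Fin n → F ⊕ Bool)) := Subtype.val
  let inv : C → C := fun c => ⟨CSS_rev (c : Set _), hinv c⟩
  let col : {x : M // x ∉ F} → {x : M // x ∉ F} → C := fun x y => ⟨at2 S F x y, hmem x y⟩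
  have ht : Function.Injective t := Subtype.val_injective
  have hcol : ∀ x y, t (col x y) = at2 S F x y := fun _ _ => rfl
  have hsym : ∀ x y, col y x = inv (col x y) := by
    intro x y
    apply ht
    change at2 S F y x = CSS_rev (at2 S F x y)
    rw [CSS_rev_at2]
  have hinv2 : ∀ c, inv (inv c) = c := by
    rintro ⟨c, hc⟩
    have hc' := hc
    rw [hRg] at hc'
    obtain ⟨⟨⟨x, y⟩, hx, hy⟩, hxy⟩ := hc'
    apply ht
    change CSS_rev (CSS_rev c) = c
    rw [← hxy]
    change CSS_rev (CSS_rev (at2 S F x y)) = at2 S F x y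
    rw [CSS_rev_at2, CSS_rev_at2]
  have hty : ∀ {x y x' y' : {x : M // x ∉ F}}, col x y = col x' y' →
      at2 S F x y = at2 S F x' y' := fun h => congrArg t h
  have hty' : ∀ {x y x' y' : {x : M // x ∉ F}}, at2 S F x y = at2 S F x' y' →
      col x y = col x' y' := fun h => ht h
  refine ⟨F, C, t, inv, col, hFf, hfin.to_subtype, ht, hcol, ⟨hinv2, hsym, ?_, ?_, ?_, ?_, ?_⟩⟩
  · intro n a φ X hX
    obtain ⟨f, g, hfg, h, -⟩ := hC L M S F hL hFf hPig C t col hcol ht n a φ X hX
    exact ⟨f, g, hfg, h⟩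
  · intro n a φ X hX
    obtain ⟨f, g, hfg, -, h⟩ := hC L M S F hL hFf hPig C t col hcol ht n a φ X hX
    exact ⟨f, g, hfg, h⟩
  · -- the rationals
    intro i κ hi hκ
    by_contra hne
    have hw : ∀ (a : ℚ) (p : Fin 1) (b : ℚ) (q : Fin 1),
        ((i a : {x : M // x ∉ F}) : M) = (i b : M) → a = b ∧ p = q :=
      fun a p b q h => ⟨hi (Subtype.ext h), Subsingleton.elim _ _⟩
    obtain ⟨k1, k2, k3⟩ := CSS_seq (S := S) (F := F) (J := ℚ) (fun a => ⟨a + 1, by linarith⟩)
      (fun a (_ : Fin 1) => (i a : M)) (fun a _ => (i a).2) hw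
      (fun a b a' b' p q h h' => hty ((hκ a b h).trans (hκ a' b' h').symm))
      (fun a a' p q h => absurd (Subsingleton.elim _ _) h)
    refine h1 L M S F hL hFf hPig ⟨_, k1, fun a b hab h => hne ?_⟩
    have e1 := k2 a b 0 0
    have e2 := k2 b a 0 0
    rw [Set.pair_eq_singleton] at e1 e2
    have h3 : col (i a) (i b) = col (i b) (i a) := hty' (CSS_at2 hL e1 e2 h)
    rw [hsym (i a) (i b), hκ a b hab] at h3
    exact h3.symm
  · -- one sequence
    intro s κ hs hκ
    by_contra hne
    have hw : ∀ (a : Om) (p : Fin 1) (b : Om) (q : Fin 1),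
        ((s a : {x : M // x ∉ F}) : M) = (s b : M) → a = b ∧ p = q :=
      fun a p b q h => ⟨hs (Subtype.ext h), Subsingleton.elim _ _⟩
    obtain ⟨k1, k2, k3⟩ := CSS_seq (S := S) (F := F) (J := Om) CSS_om_lt
      (fun a (_ : Fin 1) => (s a : M)) (fun a _ => (s a).2) hw
      (fun a b a' b' p q h h' => hty ((hκ a b h).trans (hκ a' b' h').symm))
      (fun a a' p q h => absurd (Subsingleton.elim _ _) h)
    have hasy : ∀ a b, a < b → ¬ AtEq S S {((s a : M), (s b : M)), ((s b : M), (s a : M))} := by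
      intro a b hab h
      have e1 := k2 a b 0 0
      have e2 := k2 b a 0 0
      rw [Set.pair_eq_singleton] at e1 e2
      have h3 : col (s a) (s b) = col (s b) (s a) := hty' (CSS_at2 hL e1 e2 h)
      rw [hsym (s a) (s b), hκ a b hab] at h3
      exact hne h3.symm
    obtain ⟨T, F', u, hF', hPT, hSu, hTr⟩ := hS L K δ M S F 1 (fun a _ => (s a : M)) hL hV hK hFf
      hHer one_pos (fun a _ => (s a).2) k1 k2 k3
    obtain ⟨a, -⟩ : ∃ a : Om, od a = 0 := od_surj (Ordinal.omega_pos 1)
    obtain ⟨b, hab⟩ := CSS_om_lt a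
    refine h1 L ℕ T F' hL hF' hPT ⟨u, hSu, fun p q hpq h => hasy a b hab ?_⟩
    have e1 := hTr a b p q hab hpq 0 0
    have e2 := CSS_pair_trans e1 h
    exact CSS_pair_trans e2 (CSS_pair_symm (CSS_pair_comm e1))
  · -- pairs
    intro c d κ l s1 s2 hc hd hcd hκ hl hcol2
    by_contra hne
    obtain ⟨e0, e1, he, he'⟩ := CSS_e
    have he0 : ∀ a b, a < b → e0 a < e0 b := fun a b h => (he a).trans (he' a b h)
    have he1 : ∀ a b, a < b → e1 a < e1 b := fun a b h => (he' a b h).trans (he b)
    have i0 : Function.Injective e0 := by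
      intro a b h
      rcases lt_trichotomy a b with h' | h' | h'
      · exact absurd h (he0 a b h').ne
      · exact h'
      · exact absurd h.symm (he0 b a h').ne
    have i1 : Function.Injective e1 := by
      intro a b h
      rcases lt_trichotomy a b with h' | h' | h'
      · exact absurd h (he1 a b h').ne
      · exact h'
      · exact absurd h.symm (he1 b a h').ne
    obtain ⟨W, hW0, hW1⟩ : ∃ W : Om → Fin 2 → {x : M // x ∉ F}, (∀ a, W a 0 = c (e0 a)) ∧
        ∀ a, W a 1 = d (e1 a) := ⟨fun a => ![c (e0 a), d (e1 a)], fun _ => rfl, fun _ => rfl⟩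
    have hw : ∀ (a : Om) (p : Fin 2) (b : Om) (q : Fin 2),
        (W a p : M) = (W b q : M) → a = b ∧ p = q := by
      intro a p b q h
      have h' : W a p = W b q := Subtype.ext h
      fin_cases p <;> fin_cases q
      · change W a 0 = W b 0 at h'
        rw [hW0, hW0] at h'
        exact ⟨i0 (hc h'), rfl⟩
      · change W a 0 = W b 1 at h'
        rw [hW0, hW1] at h'
        exact absurd h' (hcd _ _)
      · change W a 1 = W b 0 at h'
        rw [hW0, hW1] at h'
        exact absurd h'.symm (hcd _ _)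
      · change W a 1 = W b 1 at h'
        rw [hW1, hW1] at h'
        exact ⟨i1 (hd h'), rfl⟩
    have c00 : ∀ a b, a < b → col (W a 0) (W b 0) = κ := fun a b h => by
      rw [hW0, hW0]
      exact (hcol2 _ _ (he0 a b h)).1
    have c11 : ∀ a b, a < b → col (W a 1) (W b 1) = l := fun a b h => by
      rw [hW1, hW1]
      exact (hcol2 _ _ (he1 a b h)).2.1
    have c01 : ∀ a b, a < b → col (W a 0) (W b 1) = s1 := fun a b h => by
      rw [hW0, hW1]
      exact (hcol2 _ _ ((he a).trans (he1 a b h))).2.2.1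
    have c10' : ∀ a b, a < b → col (W b 0) (W a 1) = s2 := fun a b h => by
      rw [hW0, hW1]
      exact (hcol2 _ _ (he' a b h)).2.2.2
    have c10 : ∀ a b, a < b → col (W a 1) (W b 0) = inv s2 := fun a b h => by
      rw [hsym (W b 0) (W a 1), c10' a b h]
    have d01 : ∀ a, col (W a 0) (W a 1) = s1 := fun a => by
      rw [hW0, hW1]
      exact (hcol2 _ _ (he a)).2.2.1
    have d10 : ∀ a, col (W a 1) (W a 0) = inv s1 := fun a => by
      rw [hsym (W a 0) (W a 1), d01 a]
    obtain ⟨k1, k2, k3⟩ := CSS_seq (S := S) (F := F) (J := Om) CSS_om_lt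
      (fun a p => (W a p : M)) (fun a p => (W a p).2) hw
      (fun a b a' b' p q h h' => by
        fin_cases p <;> fin_cases q
        · exact hty ((c00 a b h).trans (c00 a' b' h').symm)
        · exact hty ((c01 a b h).trans (c01 a' b' h').symm)
        · exact hty ((c10 a b h).trans (c10 a' b' h').symm)
        · exact hty ((c11 a b h).trans (c11 a' b' h').symm))
      (fun a a' p q h => by
        fin_cases p <;> fin_cases q
        · exact absurd rfl h
        · exact hty ((d01 a).trans (d01 a').symm)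
        · exact hty ((d10 a).trans (d10 a').symm)
        · exact absurd rfl h)
    have kk : ∀ a b p, AtEq S S (dg F ∪ {((W a p : M), (W b p : M))}) := by
      intro a b p
      have e1 := k2 a b p p
      rwa [Set.pair_eq_singleton] at e1
    have m0 : ∀ a b, a < b → AtEq S S {((W a 0 : M), (W b 0 : M)), ((W b 0 : M), (W a 0 : M))} := by
      intro a b hab
      have h3 : at2 S F (W a 0) (W b 0) = at2 S F (W b 0) (W a 0) := by
        refine hty ?_
        rw [hsym (W a 0) (W b 0), c00 a b hab, hκ]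
      refine AtEq.anti subset_union_right (CSS_atEq (W a 0).2 (W b 0).2 (W b 0).2 (W a 0).2
        ⟨fun h => h.symm, fun h => h.symm⟩ h3)
    have m1 : ∀ a b, a < b → AtEq S S {((W a 1 : M), (W b 1 : M)), ((W b 1 : M), (W a 1 : M))} := by
      intro a b hab
      have h3 : at2 S F (W a 1) (W b 1) = at2 S F (W b 1) (W a 1) := by
        refine hty ?_
        rw [hsym (W a 1) (W b 1), c11 a b hab, hl]
      refine AtEq.anti subset_union_right (CSS_atEq (W a 1).2 (W b 1).2 (W b 1).2 (W a 1).2
        ⟨fun h => h.symm, fun h => h.symm⟩ h3)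
    have m : ∀ a b, a < b → ∀ p,
        AtEq S S {((W a p : M), (W b p : M)), ((W b p : M), (W a p : M))} := by
      intro a b hab p
      fin_cases p
      · exact m0 a b hab
      · exact m1 a b hab
    have mn : ∀ a b, a < b →
        ¬ AtEq S S {((W a 0 : M), (W b 0 : M)), ((W b 1 : M), (W a 1 : M))} := by
      intro a b hab h
      have h3 : col (W a 0) (W b 1) = col (W b 0) (W a 1) :=
        hty' (CSS_at2 hL (kk a b 0) (kk b a 1) h)
      rw [c01 a b hab, c10' a b hab] at h3
      exact hne h3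
    obtain ⟨T, F', u, hF', hPT, hSu, hTr⟩ := hS L K δ M S F 2 (fun a p => (W a p : M)) hL hV hK
      hFf hHer two_pos (fun a p => (W a p).2) k1 k2 k3
    obtain ⟨a, -⟩ : ∃ a : Om, od a = 0 := od_surj (Ordinal.omega_pos 1)
    obtain ⟨b, hab⟩ := CSS_om_lt a
    refine h2 L ℕ T F' hL hF' hPT ⟨u, hSu, fun p q hpq => ⟨fun r => ?_, fun h => mn a b hab ?_⟩⟩
    · have e1 := hTr a b p q hab hpq r r
      have e2 := CSS_pair_trans (CSS_pair_symm e1) (m a b hab r)
      exact CSS_pair_trans e2 (CSS_pair_comm e1)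
    · have e1 := hTr a b p q hab hpq 0 1
      have e2 := CSS_pair_trans e1 h
      have e3 := hTr a b p q hab hpq 1 0
      exact CSS_pair_trans e2 (CSS_pair_symm (CSS_pair_comm e3))

end HER
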