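import Pool.Agent.HER.St

/-!
# HER: combs whose spine sees spine and rows differently
-/

set_option autoImplicit false

namespace HER

open Set Pool.Agent.Helper5.DU Pool.Agent.Helper6.Str Pool.Agent.Helper79.VC
  Pool.Agent.Helper97.LO Pool.Agent.Helper97.VC

/-- the indices of the elements of a comb -/
abbrev DC1_J : Type := ℕ ⊕ (Σ _ : ℕ, ℕ)

/-- the elements of a comb -/
def DC1_pt {M : Type} (z : ℕ → M) (x : ℕ → ℕ → M) : DC1_J → M :=
  Sum.elim z (fun r => x r.1 r.2)

/-- the indices of the elements of a comb with rows of lengths `m` -/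
def DC1_S (m : ℕ → ℕ) : Set DC1_J := {t | ∀ r, t = Sum.inr r → r.2 < m r.1}

theorem DC1_S_inl (m : ℕ → ℕ) (i : ℕ) : (Sum.inl i : DC1_J) ∈ DC1_S m := by
  intro r hr
  cases hr

theorem DC1_S_inr (m : ℕ → ℕ) (r : Σ _ : ℕ, ℕ) : (Sum.inr r : DC1_J) ∈ DC1_S m ↔ r.2 < m r.1 := by
  constructor
  · intro h
    exact h r rfl
  · intro h r' hr'
    cases hr'
    exact h

section

variable {M C : Type} {col : M → M → C} {N : ℕ → ℕ} {τ p e d ρ ρ0 : C} {z : ℕ → M}
  {x : ℕ → ℕ → M}

theorem DC1_inj (hc : Comb col N τ p e d ρ ρ0 z x) {m : ℕ → ℕ} (hm : ∀ i, m i ≤ N i) :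
    InjOn (DC1_pt z x) (DC1_S m) := by
  rintro (i | ⟨i, k⟩) hi (j | ⟨j, l⟩) hj h
  · exact congrArg Sum.inl (hc.zinj h)
  · exact absurd h (hc.zx _ _ _ (((DC1_S_inr m _).1 hj).trans_le (hm j)))
  · exact absurd h.symm (hc.zx _ _ _ (((DC1_S_inr m _).1 hi).trans_le (hm i)))
  · have h1 := hc.xinj _ _ _ _ (((DC1_S_inr m _).1 hi).trans_le (hm i))
      (((DC1_S_inr m _).1 hj).trans_le (hm j)) h
    obtain ⟨rfl, rfl⟩ := h1
    rfl

theorem DC1_shift (hc : Comb col N τ p e d ρ ρ0 z x) :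
    Comb col (fun i => N (i + 1)) τ p e d ρ ρ0 (fun i => z (i + 1)) (fun i => x (i + 1)) where
  zinj := fun i j h => by
    have := hc.zinj h
    omega
  xinj := fun i k j l hk hl h => by
    have := hc.xinj _ _ _ _ hk hl h
    omega
  zx := fun i j l hl => hc.zx _ _ _ hl
  zz := fun i j hij => hc.zz _ _ (by omega)
  zxp := fun i j l hij hl => hc.zxp _ _ _ (by omega) hl
  zxe := fun i k hk => hc.zxe _ _ hk
  zxd := fun i j k hij hk => hc.zxd _ _ _ (by omega) hk
  xx := fun i j k l hij hk hl => hc.xx _ _ _ _ (by omega) hk hl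
  xx0 := fun i k l hkl hl => hc.xx0 _ _ _ hkl hl

end

theorem DC1_cnt {M C : Type} (col : M → M → C) {n : ℕ} (a : Fin n → M)
    (φ : (Fin n → C) → (Fin n → C) → C → Prop) (X : Set M) (pt : DC1_J → M) (m : ℕ → ℕ)
    (hinj : InjOn pt (DC1_S m)) (hX : X \ range a = pt '' DC1_S m) (k : ℕ) :
    k ∈ Cnt col a φ X ↔
      ∃ s ∈ DC1_S m, {t | t ∈ DC1_S m ∧ Rl col a φ (pt s) (pt t)}.encard = (k : ℕ∞) := by
  have h1 : ∀ v, {w ∈ X \ range a | Rl col a φ v w}.encard =
      {t | t ∈ DC1_S m ∧ Rl col a φ v (pt t)}.encard := by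
    intro v
    have h2 : {w ∈ X \ range a | Rl col a φ v w} =
        pt '' {t | t ∈ DC1_S m ∧ Rl col a φ v (pt t)} := by
      rw [hX]
      ext w
      constructor
      · rintro ⟨⟨t, ht, rfl⟩, hR⟩
        exact ⟨t, ⟨ht, hR⟩, rfl⟩
      · rintro ⟨t, ⟨ht, hR⟩, rfl⟩
        exact ⟨⟨t, ht, rfl⟩, hR⟩
    rw [h2]
    exact (hinj.mono fun t ht => ht.1).encard_image
  constructor
  · rintro ⟨v, hv, hk⟩
    rw [hX] at hv
    obtain ⟨s, hs, rfl⟩ := hv
    exact ⟨s, hs, by rw [← h1, hk]⟩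
  · rintro ⟨s, hs, hk⟩
    refine ⟨pt s, ?_, by rw [h1, hk]⟩
    rw [hX]
    exact ⟨s, hs, rfl⟩

/-- the number of the indices of a row and possibly the previous rows, the previous elements of
the spine -/
theorem DC1_card (m : ℕ → ℕ) (i : ℕ) (A B : Prop) [Decidable A] [Decidable B] (U : Set DC1_J)
    (hl : ∀ j, Sum.inl j ∈ U ↔ j < i ∧ B)
    (hr : ∀ r, Sum.inr r ∈ U ↔ r.2 < m r.1 ∧ (r.1 = i ∨ r.1 < i ∧ A)) :
    U.encard = ((m i + (if A then 1 else 0) * (∑ j ∈ Finset.range i, m j) +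
      (if B then 1 else 0) * i : ℕ) : ℕ∞) := by
  classical
  have h1 : U = ↑(Finset.disjSum (if B then Finset.range i else ∅)
      ((if A then Finset.range (i + 1) else {i}).sigma fun j => Finset.range (m j)) :
        Finset DC1_J) := by
    ext t
    rw [Finset.mem_coe]
    rcases t with j | r
    · rw [hl, Finset.inl_mem_disjSum]
      split_ifs with hB
      · simp [hB]
      · simp [hB]
    · rw [hr, Finset.inr_mem_disjSum, Finset.mem_sigma, Finset.mem_range]
      split_ifs with hA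
      · rw [Finset.mem_range]
        constructor
        · rintro ⟨h2, h3 | h3⟩
          · exact ⟨by omega, h2⟩
          · exact ⟨by omega, h2⟩
        · rintro ⟨h2, h3⟩
          refine ⟨h3, ?_⟩
          by_cases h4 : r.1 = i
          · exact Or.inl h4
          · exact Or.inr ⟨by omega, hA⟩
      · rw [Finset.mem_singleton]
        constructor
        · rintro ⟨h2, h3 | h3⟩
          · exact ⟨h3, h2⟩
          · exact absurd h3.2 hA
        · rintro ⟨h2, h3⟩
          exact ⟨h3, Or.inl h2⟩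
  rw [h1, Set.encard_coe_eq_coe_finsetCard, Finset.card_disjSum, Finset.card_sigma]
  congr 1
  split_ifs with hB hA hA
  · rw [Finset.sum_range_succ]
    simp only [Finset.card_range]
    ring
  · simp only [Finset.sum_singleton, Finset.card_range]
    ring
  · rw [Finset.sum_range_succ]
    simp only [Finset.card_range, Finset.card_empty]
    ring
  · simp only [Finset.sum_singleton, Finset.card_range, Finset.card_empty]
    ring

theorem DC1_inf {M : Type} {z : ℕ → M} {x : ℕ → ℕ → M} (hz : Function.Injective z) (m : ℕ → ℕ) :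
    (DC1_pt z x '' DC1_S m).Infinite := by
  refine (infinite_range_of_injective hz).mono ?_
  rintro _ ⟨i, rfl⟩
  exact ⟨Sum.inl i, DC1_S_inl m i, rfl⟩

theorem thm_DC1 (hN : St_NUM) : St_DC1 := by
  classical
  intro M C inv col N τ p e d ρ ρ0 z x hCS hNN hc hpe
  by_contra hτ
  obtain ⟨m, hm, hne⟩ := hN
  have hs := DC1_shift hc
  have hmN : ∀ f i, m f i ≤ N (i + 1) := by
    intro f i
    calc m f i ≤ 5 ^ (i + 3) := (hm f i).2
      _ ≤ 5 ^ (i + 1 + 3) := Nat.pow_le_pow_right (by norm_num) (by omega)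
      _ ≤ N (i + 1) := hNN (i + 1)
  set pt : DC1_J → M := DC1_pt (fun i => z (i + 1)) (fun i => x (i + 1)) with hpt
  have hinj : ∀ f, InjOn pt (DC1_S (m f)) := fun f => DC1_inj hs (hmN f)
  have hz0 : ∀ f, ∀ t ∈ DC1_S (m f), pt t ≠ z 0 := by
    rintro f (j | ⟨j, l⟩) ht h
    · have := hc.zinj h
      omega
    · exact hc.zx 0 (j + 1) l (((DC1_S_inr _ _).1 ht).trans_le (hmN f j)) h.symm
  set a : Fin 1 → M := fun _ => z 0 with ha
  have hra : range a = {z 0} := by
    rw [ha]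
    exact range_const
  set X : (ℕ → Bool) → Set M := fun f => insert (z 0) (pt '' DC1_S (m f)) with hX
  have hXd : ∀ f, X f \ range a = pt '' DC1_S (m f) := by
    intro f
    rw [hra, hX]
    ext w
    constructor
    · rintro ⟨h1 | h1, h2⟩
      · exact absurd h1 h2
      · exact h1
    · intro h1
      refine ⟨Or.inr h1, ?_⟩
      obtain ⟨t, ht, rfl⟩ := h1
      exact hz0 f t ht
  obtain ⟨f, g, hfg, hcnt⟩ := hCS.cnt 1 a (fun cv cw c => cv 0 = τ ∧ cw 0 = p ∧ c ≠ p) X (by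
    intro f
    refine ⟨((to_countable _).image pt).insert _, ?_, ?_⟩
    · exact (DC1_inf hs.zinj (m f)).mono (subset_insert _ _)
    · rw [hra]
      exact singleton_subset_iff.2 (mem_insert _ _))
  obtain ⟨n, hn, _⟩ := hne (if d ≠ p then 1 else 0) 0 (by split_ifs <;> simp) (by simp) f g hfg
  have hinl : ∀ (f : ℕ → Bool) (i : ℕ), {t | t ∈ DC1_S (m f) ∧
      Rl col a (fun cv cw c => cv 0 = τ ∧ cw 0 = p ∧ c ≠ p) (pt (Sum.inl i)) (pt t)}.encard =
      ((m f i + (if d ≠ p then 1 else 0) * (∑ j ∈ Finset.range i, m f j) +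
        (if False then 1 else 0) * i : ℕ) : ℕ∞) := by
    intro f i
    refine DC1_card (m f) i (d ≠ p) False _ (fun j => ?_) (fun r => ?_)
    · constructor
      · rintro ⟨_, _, _, h1, _⟩
        exact absurd ((hc.zz 0 (j + 1) (by omega)).symm.trans h1) hτ
      · rintro ⟨_, h⟩
        exact h.elim
    · obtain ⟨j, l⟩ := r
      constructor
      · rintro ⟨ht, _, _, _, h1⟩
        rw [DC1_S_inr] at ht
        refine ⟨ht, ?_⟩
        rcases lt_trichotomy i j with h2 | h2 | h2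
        · exact absurd (hs.zxp i j l h2 (ht.trans_le (hmN f j))) h1
        · exact Or.inl h2.symm
        · refine Or.inr ⟨h2, ?_⟩
          have h3 := hs.zxd j i l h2 (ht.trans_le (hmN f j))
          rw [← h3]
          exact h1
      · rintro ⟨ht, h1⟩
        have hl := ht.trans_le (hmN f j)
        refine ⟨(DC1_S_inr _ _).2 ht, hs.zx _ _ _ hl, hc.zz 0 (i + 1) (by omega),
          hc.zxp 0 (j + 1) l (by omega) hl, ?_⟩
        rcases h1 with h1 | ⟨h1, h2⟩
        · change j = i at h1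
          subst h1
          intro h3
          exact hpe (h3.symm.trans (hs.zxe j l hl))
        · intro h3
          exact h2 ((hs.zxd j i l h1 hl).symm.trans h3)
  have hinr : ∀ (f : ℕ → Bool) (r : Σ _ : ℕ, ℕ), Sum.inr r ∈ DC1_S (m f) →
      {t | t ∈ DC1_S (m f) ∧
      Rl col a (fun cv cw c => cv 0 = τ ∧ cw 0 = p ∧ c ≠ p) (pt (Sum.inr r)) (pt t)}.encard =
      0 := by
    intro f r hr
    rw [encard_eq_zero, eq_empty_iff_forall_notMem]
    rintro t ⟨_, _, h1, _⟩
    apply hτ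
    rw [← h1]
    exact hc.zxp 0 (r.1 + 1) r.2 (by omega) (((DC1_S_inr _ _).1 hr).trans_le (hmN f r.1))
  have hmem : m f n + (if d ≠ p then 1 else 0) * (∑ j ∈ Finset.range n, m f j) ∈
      Cnt col a (fun cv cw c => cv 0 = τ ∧ cw 0 = p ∧ c ≠ p) (X f) := by
    rw [DC1_cnt col a _ (X f) pt (m f) (hinj f) (hXd f)]
    refine ⟨Sum.inl n, DC1_S_inl _ _, ?_⟩
    rw [hinl f n]
    simp
  rw [hcnt, DC1_cnt col a _ (X g) pt (m g) (hinj g) (hXd g)] at hmem
  obtain ⟨s, hsS, hs1⟩ := hmem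
  rcases s with n' | r
  · rw [hinl g n', Nat.cast_inj] at hs1
    refine hn n' ?_
    simp only [if_false, zero_mul, add_zero] at hs1 ⊢
    exact hs1.symm
  · rw [hinr g r hsS] at hs1
    have h1 := (hm f n).1
    have h2 : (0 : ℕ) = m f n + (if d ≠ p then 1 else 0) * (∑ j ∈ Finset.range n, m f j) := by
      exact_mod_cast hs1
    omega

end HER
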