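import Pool.Agent.HER.DC1

/-!
# HER: combs whose rows see infinitely many elements which are not of the colour `p`
-/

set_option autoImplicit false

namespace HER

open Set Pool.Agent.Helper5.DU Pool.Agent.Helper6.Str Pool.Agent.Helper79.VC
  Pool.Agent.Helper97.LO Pool.Agent.Helper97.VC

/-- counting without constants -/
theorem DC2_core {M C : Type} {inv : C → C} {col : M → M → C} {N : ℕ → ℕ}
    {τ p e d ρ ρ0 : C} {z : ℕ → M} {x : ℕ → ℕ → M} (hCS : CS inv col)
    (hNN : ∀ n, 5 ^ (n + 3) ≤ N n) (hc : Comb col N τ p e d ρ ρ0 z x)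
    (m : (ℕ → Bool) → ℕ → ℕ) (hm : ∀ f n, 16 ≤ m f n ∧ m f n ≤ 5 ^ (n + 3)) (P : C → Prop) :
    ∃ f g, f ≠ g ∧ ∀ k : ℕ, (∃ s ∈ DC1_S (m f), {t | t ∈ DC1_S (m f) ∧
        DC1_pt z x s ≠ DC1_pt z x t ∧ P (col (DC1_pt z x s) (DC1_pt z x t))}.encard = (k : ℕ∞)) →
      ∃ s ∈ DC1_S (m g), {t | t ∈ DC1_S (m g) ∧
        DC1_pt z x s ≠ DC1_pt z x t ∧ P (col (DC1_pt z x s) (DC1_pt z x t))}.encard =
          (k : ℕ∞) := by
  have hmN : ∀ f i, m f i ≤ N i := fun f i => (hm f i).2.trans (hNN i)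
  have hinj : ∀ f, InjOn (DC1_pt z x) (DC1_S (m f)) := fun f => DC1_inj hc (hmN f)
  set a : Fin 0 → M := fun i => i.elim0 with ha
  have hra : range a = ∅ := range_eq_empty a
  have hXd : ∀ f, (DC1_pt z x '' DC1_S (m f)) \ range a = DC1_pt z x '' DC1_S (m f) := by
    intro f
    rw [hra, sdiff_empty]
  obtain ⟨f, g, hfg, hcnt⟩ := hCS.cnt 0 a (fun _ _ c => P c)
    (fun f => DC1_pt z x '' DC1_S (m f)) (by
      intro f
      refine ⟨(to_countable _).image _, DC1_inf hc.zinj (m f), ?_⟩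
      rw [hra]
      exact empty_subset _)
  refine ⟨f, g, hfg, fun k hk => ?_⟩
  have h1 := (DC1_cnt col a (fun _ _ c => P c) _ _ (m f) (hinj f) (hXd f) k).2 hk
  rw [hcnt] at h1
  exact (DC1_cnt col a (fun _ _ c => P c) _ _ (m g) (hinj g) (hXd g) k).1 h1

theorem thm_DC2 (hN : St_NUM) : St_DC2 := by
  classical
  intro M C inv col N p e d ρ ρ0 z x hCS hNN hc hpe
  by_contra hcon
  obtain ⟨m, hm, hne⟩ := hN
  have hmN : ∀ f i, m f i ≤ N i := fun f i => (hm f i).2.trans (hNN i)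
  obtain ⟨f, g, hfg, hcnt⟩ := DC2_core hCS hNN hc m hm (fun c => c ≠ p)
  obtain ⟨n, hn, _⟩ := hne (if d ≠ p then 1 else 0) (if inv p ≠ p then 1 else 0)
    (by split_ifs <;> simp) (by split_ifs <;> simp) f g hfg
  have hinl : ∀ (f : ℕ → Bool) (i : ℕ), {t | t ∈ DC1_S (m f) ∧
      DC1_pt z x (Sum.inl i) ≠ DC1_pt z x t ∧
        col (DC1_pt z x (Sum.inl i)) (DC1_pt z x t) ≠ p}.encard =
      ((m f i + (if d ≠ p then 1 else 0) * (∑ j ∈ Finset.range i, m f j) +
        (if inv p ≠ p then 1 else 0) * i : ℕ) : ℕ∞) := by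
    intro f i
    refine DC1_card (m f) i (d ≠ p) (inv p ≠ p) _ (fun j => ?_) (fun r => ?_)
    · constructor
      · rintro ⟨_, h1, h2⟩
        rcases lt_trichotomy i j with h3 | h3 | h3
        · exact absurd (hc.zz i j h3) h2
        · exact absurd (congrArg z h3) h1
        · refine ⟨h3, fun h4 => h2 ?_⟩
          change col (z i) (z j) = p
          rw [hCS.sym (z j) (z i), hc.zz j i h3, h4]
      · rintro ⟨h1, h2⟩
        refine ⟨DC1_S_inl _ _, fun h3 => ?_, fun h3 => ?_⟩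
        · have := hc.zinj h3
          omega
        · apply h2
          change col (z i) (z j) = p at h3
          rw [hCS.sym (z j) (z i), hc.zz j i h1] at h3
          exact h3
    · obtain ⟨j, l⟩ := r
      constructor
      · rintro ⟨ht, _, h1⟩
        rw [DC1_S_inr] at ht
        refine ⟨ht, ?_⟩
        rcases lt_trichotomy i j with h2 | h2 | h2
        · exact absurd (hc.zxp i j l h2 (ht.trans_le (hmN f j))) h1
        · exact Or.inl h2.symm
        · refine Or.inr ⟨h2, fun h3 => h1 ?_⟩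
          rw [← h3]
          exact hc.zxd j i l h2 (ht.trans_le (hmN f j))
      · rintro ⟨ht, h1⟩
        have hl := ht.trans_le (hmN f j)
        refine ⟨(DC1_S_inr _ _).2 ht, hc.zx _ _ _ hl, ?_⟩
        rcases h1 with h1 | ⟨h1, h2⟩
        · change j = i at h1
          subst h1
          intro h3
          exact hpe (h3.symm.trans (hc.zxe j l hl))
        · intro h3
          exact h2 ((hc.zxd j i l h1 hl).symm.trans h3)
  have hinr : ∀ (f : ℕ → Bool) (r : Σ _ : ℕ, ℕ), Sum.inr r ∈ DC1_S (m f) →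
      {t | t ∈ DC1_S (m f) ∧ DC1_pt z x (Sum.inr r) ≠ DC1_pt z x t ∧
        col (DC1_pt z x (Sum.inr r)) (DC1_pt z x t) ≠ p}.Infinite := by
    rintro f ⟨i, k⟩ hr
    have hk := ((DC1_S_inr _ _).1 hr).trans_le (hmN f i)
    by_cases hd : d = inv p
    · have hρ : ρ ≠ p := fun h => hcon ⟨hd, h⟩
      have h1 : (range fun j : ℕ => (Sum.inr ⟨i + 1 + j, 0⟩ : DC1_J)).Infinite := by
        refine infinite_range_of_injective fun j j' hj => ?_
        have := congrArg Sigma.fst (Sum.inr.inj hj)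
        simp only at this
        omega
      refine h1.mono ?_
      rintro _ ⟨j, rfl⟩
      have h2 : 0 < m f (i + 1 + j) := by
        have := (hm f (i + 1 + j)).1
        omega
      have h3 := h2.trans_le (hmN f (i + 1 + j))
      refine ⟨(DC1_S_inr _ _).2 h2, fun h4 => ?_, fun h4 => ?_⟩
      · have := hc.xinj _ _ _ _ hk h3 h4
        omega
      · exact hρ ((hc.xx i (i + 1 + j) k 0 (by omega) hk h3).symm.trans h4)
    · have hd' : inv d ≠ p := fun h => hd (by rw [← h, hCS.inv2])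
      have h1 : (range fun j : ℕ => (Sum.inl (i + 1 + j) : DC1_J)).Infinite := by
        refine infinite_range_of_injective fun j j' hj => ?_
        have := Sum.inl.inj hj
        omega
      refine h1.mono ?_
      rintro _ ⟨j, rfl⟩
      refine ⟨DC1_S_inl _ _, fun h4 => ?_, fun h4 => ?_⟩
      · exact hc.zx _ _ _ hk h4.symm
      · apply hd'
        rw [← hc.zxd i (i + 1 + j) k (by omega) hk, ← hCS.sym]
        exact h4
  obtain ⟨s, hsS, hs1⟩ := hcnt _ ⟨Sum.inl n, DC1_S_inl _ _, hinl f n⟩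
  rcases s with n' | r
  · rw [hinl g n', Nat.cast_inj] at hs1
    exact hn n' hs1.symm
  · rw [(hinr g r hsS).encard_eq] at hs1
    exact ENat.natCast_ne_top _ hs1.symm

end HER
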