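import Pool.Agent.HER.St

/-!
# HER, module DCD: combs which are not decoded
-/

set_option autoImplicit false

namespace HER

open Set

/-- [DCD] -/
theorem thm_DCD (hC : St_CSB) (h1 : St_DC1) (h2 : St_DC2) (h3 : St_DC3) : St_DCD := by
  intro M C inv col τ p e d ρ ρ0 z x hCS hcomb hpe
  obtain ⟨z', x', hc⟩ := hC M C col τ p e d ρ ρ0 z x (fun n => 5 ^ (n + 3)) hcomb
  have hN : ∀ n, 5 ^ (n + 3) ≤ (fun n => 5 ^ (n + 3)) n := fun n => le_rfl
  have e1 := h1 M C inv col _ τ p e d ρ ρ0 z' x' hCS hN hc hpe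
  rw [e1] at hc
  have e2 := h2 M C inv col _ p e d ρ ρ0 z' x' hCS hN hc hpe
  rw [e2.1, e2.2] at hc
  have e3 := h3 M C inv col _ p e ρ0 z' x' hCS hN hc hpe
  exact ⟨e1, e2.1, e2.2, e3.1, e3.2.1, e3.2.2⟩

end HER
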