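import Pool.Agent.HER.St

/-!
# HER, module FT: finitely many types of pairs
-/

set_option autoImplicit false

namespace HER

open Set Filter Pool.Agent.Helper5.DU Pool.Agent.Helper6.Str Pool.Agent.Helper79.VC
  Pool.Agent.Helper97.LO Pool.Agent.Helper97.VC

section FT

/-! ### thinning -/

theorem FT_thin (R : ℕ → ℕ → ℕ → Prop) (N : ℕ)
    (hR : ∀ m n, m ≠ n → ∀ s : Finset ℕ, (∀ k ∈ s, R k m n) → s.card ≤ N) :
    ∃ j : ℕ → ℕ, StrictMono j ∧ ∀ p q r, p < q → q < r → ¬ R (j p) (j q) (j r) := by
  classical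
  let U : Ultrafilter ℕ := hyperfilter ℕ
  have hgt : ∀ m, ∀ᶠ n in (U : Filter ℕ), m < n := fun m =>
    Nat.hyperfilter_le_atTop (eventually_gt_atTop m)
  let D : ℕ → Prop := fun k => ∀ᶠ m in (U : Filter ℕ), ∀ᶠ n in (U : Filter ℕ), R k m n
  have hD : {k | D k}.Finite := by
    by_contra hinf
    obtain ⟨s, hs, hcard⟩ := Set.Infinite.exists_subset_card_eq hinf (N + 1)
    have h1 : ∀ᶠ m in (U : Filter ℕ), ∀ᶠ n in (U : Filter ℕ), ∀ k ∈ s, R k m n := by
      have h2 : ∀ᶠ m in (U : Filter ℕ), ∀ k ∈ s, ∀ᶠ n in (U : Filter ℕ), R k m n :=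
        (Filter.eventually_all_finset s).mpr fun k hk => hs hk
      exact h2.mono fun m hm => (Filter.eventually_all_finset s).mpr hm
    obtain ⟨m, hm⟩ := h1.exists
    obtain ⟨n, hn, hmn⟩ := (hm.and (hgt m)).exists
    have h3 := hR m n hmn.ne s hn
    omega
  have hD' : ∀ᶠ n in (U : Filter ℕ), ¬ D n := hD.compl_mem_hyperfilter
  let good : Finset ℕ → Prop := fun s => (∀ k ∈ s, ¬ D k) ∧
    (∀ k ∈ s, ∀ m ∈ s, k < m → ∀ᶠ n in (U : Filter ℕ), ¬ R k m n) ∧
    ∀ k ∈ s, ∀ m ∈ s, ∀ n ∈ s, k < m → m < n → ¬ R k m n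
  have hext : ∀ s, good s → ∃ n, (∀ k ∈ s, k < n) ∧ good (insert n s) := by
    intro s hs
    obtain ⟨g1, g2, g3⟩ := hs
    have e1 : ∀ᶠ n in (U : Filter ℕ), ∀ k ∈ s, k < n :=
      (Filter.eventually_all_finset s).mpr fun k _ => hgt k
    have e3 : ∀ᶠ n in (U : Filter ℕ), ∀ k ∈ s, ∀ᶠ n' in (U : Filter ℕ), ¬ R k n n' := by
      refine (Filter.eventually_all_finset s).mpr fun k hk => ?_
      have h4 := g1 k hk
      have h5 : ∀ᶠ m in (U : Filter ℕ), ¬ ∀ᶠ n in (U : Filter ℕ), R k m n :=
        Ultrafilter.eventually_not.mpr h4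
      exact h5.mono fun m hm => Ultrafilter.eventually_not.mpr hm
    have e4 : ∀ᶠ n in (U : Filter ℕ), ∀ k ∈ s, ∀ m ∈ s, k < m → ¬ R k m n := by
      refine (Filter.eventually_all_finset s).mpr fun k hk => ?_
      refine (Filter.eventually_all_finset s).mpr fun m hm => ?_
      by_cases hkm : k < m
      · exact (g2 k hk m hm hkm).mono fun n hn _ => hn
      · exact Eventually.of_forall fun n h => absurd h hkm
    obtain ⟨n, ⟨⟨h1, h2⟩, h3⟩, h4⟩ := (((e1.and hD').and e3).and e4).exists
    refine ⟨n, h1, ?_, ?_, ?_⟩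
    · intro k hk
      rcases Finset.mem_insert.mp hk with rfl | hk
      · exact h2
      · exact g1 k hk
    · intro k hk m hm hkm
      rcases Finset.mem_insert.mp hk with hk | hk
      · rcases Finset.mem_insert.mp hm with hm | hm
        · omega
        · have := h1 m hm
          omega
      · rcases Finset.mem_insert.mp hm with hm | hm
        · rw [hm]
          exact h3 k hk
        · exact g2 k hk m hm hkm
    · intro k hk m hm n' hn' hkm hmn
      have hm' : m ∈ s := by
        rcases Finset.mem_insert.mp hm with hm | hm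
        · rcases Finset.mem_insert.mp hn' with hn' | hn'
          · omega
          · have := h1 n' hn'
            omega
        · exact hm
      have hk' : k ∈ s := by
        rcases Finset.mem_insert.mp hk with hk | hk
        · have := h1 m hm'
          omega
        · exact hk
      rcases Finset.mem_insert.mp hn' with hn' | hn'
      · rw [hn']
        exact h4 k hk' m hm' hkm
      · exact g3 k hk' m hm' n' hn' hkm hmn
  have h0 : good ∅ := ⟨fun k hk => absurd hk (Finset.notMem_empty k),
    fun k hk => absurd hk (Finset.notMem_empty k), fun k hk => absurd hk (Finset.notMem_empty k)⟩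
  choose! nx hnx1 hnx2 using hext
  let st : ℕ → {s : Finset ℕ // good s} := fun t =>
    Nat.rec ⟨∅, h0⟩ (fun _ s => ⟨insert (nx s.1) s.1, hnx2 s.1 s.2⟩) t
  have hst : ∀ t, (st (t + 1)).1 = insert (nx (st t).1) (st t).1 := fun t => rfl
  have hsub : ∀ t t', t ≤ t' → (st t).1 ⊆ (st t').1 := by
    intro t t' htt
    induction htt with
    | refl => exact subset_rfl
    | step _ ih =>
      refine ih.trans ?_
      rw [hst]
      exact Finset.subset_insert _ _
  have hmem : ∀ t, nx (st t).1 ∈ (st (t + 1)).1 := fun t => by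
    rw [hst]
    exact Finset.mem_insert_self _ _
  refine ⟨fun t => nx (st t).1, strictMono_nat_of_lt_succ fun t => ?_, fun p q r hpq hqr => ?_⟩
  · exact hnx1 (st (t + 1)).1 (st (t + 1)).2 _ (hmem t)
  · have hmono : StrictMono fun t => nx (st t).1 :=
      strictMono_nat_of_lt_succ fun t => hnx1 (st (t + 1)).1 (st (t + 1)).2 _ (hmem t)
    exact (st (r + 1)).2.2.2 _ (hsub (p + 1) (r + 1) (by omega) (hmem p)) _
      (hsub (q + 1) (r + 1) (by omega) (hmem q)) _ (hmem r) (hmono hpq) (hmono hqr)

variable {L : FirstOrder.Language.{0, 0}} {M : Type}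

/-! ### types of pairs -/

/-- renaming of the variables of a type -/
def FT_ren {F : Set M} (h : Bool → Bool) (T : Set (Σ n, L.Relations n × (Fin n → F ⊕ Bool))) :
    Set (Σ n, L.Relations n × (Fin n → F ⊕ Bool)) :=
  {r | (⟨r.1, r.2.1, fun i => Sum.map id h (r.2.2 i)⟩ :
    Σ n, L.Relations n × (Fin n → F ⊕ Bool)) ∈ T}

theorem FT_ren_at2 (S : L.Structure M) (F : Set M) (h : Bool → Bool) (x y : M) :
    FT_ren h (at2 S F x y) = at2 S F (if h false then y else x) (if h true then y else x) := by
  ext ⟨n, R, v⟩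
  simp only [FT_ren, at2, mem_ofPred_eq]
  have h1 : (fun i => Sum.elim (fun a : F => (a : M)) (fun b => if b then y else x)
      (Sum.map id h (v i))) = fun i => Sum.elim (fun a : F => (a : M))
      (fun b => if b then (if h true then y else x) else (if h false then y else x)) (v i) := by
    funext i
    rcases v i with a | b
    · rfl
    · cases b <;> rfl
  rw [h1]

theorem FT_swap (S : L.Structure M) (F : Set M) (x y : M) :
    FT_ren not (at2 S F x y) = at2 S F y x := by
  rw [FT_ren_at2]
  rfl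

theorem FT_diag (S : L.Structure M) (F : Set M) (x y : M) :
    FT_ren (fun _ => false) (at2 S F x y) = at2 S F x x := by
  rw [FT_ren_at2]
  rfl

theorem FT_eq {S : L.Structure M} {F : Set M} {Γ : Set (M × M)} {x y x' y' : M}
    (h : AtEq S S Γ) (hF : dg F ⊆ Γ) (hx : (x, x') ∈ Γ) (hy : (y, y') ∈ Γ) :
    at2 S F x y = at2 S F x' y' := by
  ext ⟨n, R, v⟩
  simp only [at2, mem_ofPred_eq]
  have h1 := h.2 n R (fun i => Sum.elim (fun a : F => ((a : M), (a : M)))
    (fun b => if b then (y, y') else (x, x')) (v i)) (fun i => by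
      rcases v i with a | b
      · exact hF ⟨a, a.2, rfl⟩
      · cases b
        · exact hx
        · exact hy)
  have h2 : (fun i => (Sum.elim (fun a : F => ((a : M), (a : M)))
      (fun b => if b then (y, y') else (x, x')) (v i)).1) =
      fun i => Sum.elim (fun a : F => (a : M)) (fun b => if b then y else x) (v i) := by
    funext i
    rcases v i with a | b
    · rfl
    · cases b <;> rfl
  have h3 : (fun i => (Sum.elim (fun a : F => ((a : M), (a : M)))
      (fun b => if b then (y, y') else (x, x')) (v i)).2) =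
      fun i => Sum.elim (fun a : F => (a : M)) (fun b => if b then y' else x') (v i) := by
    funext i
    rcases v i with a | b
    · rfl
    · cases b <;> rfl
  rw [h2, h3] at h1
  exact h1

theorem FT_dg_mem {F : Set M} {a : M} (ha : a ∈ F) : (a, a) ∈ dg F := ⟨a, ha, rfl⟩

theorem FT_swap_dg {S : L.Structure M} {U V G : Set M} {γ : Ordinal.{0}}
    (h : BFR S S U V γ (dg G)) : BFR S S V U γ (dg G) := by
  refine BFR.anti ?_ (BFR.swap h)
  rintro _ ⟨a, ha, rfl⟩
  exact ⟨a, ha, rfl⟩

/-- an element outside of `F` is matched with an element outside of `F` -/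
theorem FT_out {S : L.Structure M} {F : Set M} {Γ : Set (M × M)} {x x' : M}
    (h : AtEq S S Γ) (hF : dg F ⊆ Γ) (hx : (x, x') ∈ Γ) (hxF : x ∉ F) : x' ∉ F := by
  intro hx'
  have h1 := (h.1 _ hx _ (hF (FT_dg_mem hx'))).mpr rfl
  have h2 : x = x' := h1
  exact hxF (h2 ▸ hx')

/-- the palettes are finite -/
theorem FT_pal {S : L.Structure M} {F : Set M} (hF : F.Finite) (hP : Pig S F) {a : M}
    (_ha : a ∉ F) : {t | ∃ b, b ∉ F ∧ b ≠ a ∧ at2 S F a b = t}.Finite := by
  by_contra hinf
  have hinf' : {t | ∃ b, b ∉ F ∧ b ≠ a ∧ at2 S F a b = t}.Infinite := hinf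
  let e := hinf'.natEmbedding
  choose b hbF hba hbt using fun n => (e n).2
  have hinj : ∀ m n, at2 S F a (b m) = at2 S F a (b n) → m = n := by
    intro m n hmn
    rw [hbt, hbt] at hmn
    exact e.injective (Subtype.ext hmn)
  have hbinj : Function.Injective b := fun m n h => hinj m n (by rw [h])
  let N : (ℕ → Bool) → Set ℕ := fun f => {n | n % 2 = 0 ∨ f (n / 2) = true}
  let X : (ℕ → Bool) → Set M := fun f => insert a F ∪ b '' N f
  have hX : ∀ f, (X f).Countable ∧ (X f).Infinite ∧ insert a F ⊆ X f := by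
    intro f
    refine ⟨((hF.insert a).countable).union ((to_countable (N f)).image b), ?_,
      subset_union_left⟩
    refine Infinite.mono subset_union_right ?_
    refine Infinite.image hbinj.injOn ?_
    refine Set.infinite_of_injective_forall_mem (f := fun i : ℕ => 2 * i) (fun i j hij => ?_)
      (fun i => Or.inl ?_)
    · have : 2 * i = 2 * j := hij
      omega
    · omega
  have key : ∀ f g, BFR S S (X f) (X g) 1 (dg (insert a F)) → ∀ i, f i = true → g i = true := by
    intro f g hB i hi
    have hmem : b (2 * i + 1) ∈ X f := Or.inr ⟨2 * i + 1, Or.inr (by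
      rw [show (2 * i + 1) / 2 = i by omega]
      exact hi), rfl⟩
    obtain ⟨y, hy, h1⟩ := hB.forth (zero_lt_one) hmem
    have h2 := h1.atEq
    have hsub : dg (insert a F) ⊆ insert (b (2 * i + 1), y) (dg (insert a F)) := subset_insert _ _
    have hFs : dg F ⊆ insert (b (2 * i + 1), y) (dg (insert a F)) :=
      (image_mono (subset_insert a F)).trans hsub
    have hty : at2 S F a (b (2 * i + 1)) = at2 S F a y :=
      FT_eq h2 hFs (hsub (FT_dg_mem (mem_insert a F))) (mem_insert _ _)
    have hout : y ∉ insert a F := FT_out h2 hsub (mem_insert _ _) (by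
      rintro (h | h)
      · exact hba _ h
      · exact hbF _ h)
    rcases hy with hy | ⟨m, hm, rfl⟩
    · exact absurd hy hout
    · have h3 := hinj _ _ hty
      subst h3
      rcases hm with hm | hm
      · omega
      · rw [show (2 * i + 1) / 2 = i by omega] at hm
        exact hm
  obtain ⟨f, g, hne, hB⟩ := hP X (insert a F) 1 (hF.insert a) (subset_insert a F) one_lt_om1 hX
  apply hne
  funext i
  exact Bool.eq_iff_iff.mpr ⟨key f g hB i, key g f (FT_swap_dg hB) i⟩

/-- types of pairs with first or second element `u` -/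
def FT_P (S : L.Structure M) (F : Set M) (u : M) :
    Set (Set (Σ n, L.Relations n × (Fin n → F ⊕ Bool))) :=
  {t | ∃ v, v ∉ F ∧ v ≠ u ∧ (at2 S F u v = t ∨ at2 S F v u = t)}

theorem FT_P_fin {S : L.Structure M} {F : Set M} (hF : F.Finite) (hP : Pig S F) {u : M}
    (hu : u ∉ F) : (FT_P S F u).Finite := by
  refine ((FT_pal hF hP hu).union ((FT_pal hF hP hu).image (FT_ren not))).subset ?_
  rintro t ⟨v, hv, hvu, h | h⟩
  · exact Or.inl ⟨v, hv, hvu, h⟩
  · exact Or.inr ⟨at2 S F u v, ⟨v, hv, hvu, rfl⟩, by rw [FT_swap, h]⟩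

theorem FT_P_swap {S : L.Structure M} {F : Set M} {u : M}
    {t : Set (Σ n, L.Relations n × (Fin n → F ⊕ Bool))} (h : t ∈ FT_P S F u) :
    FT_ren not t ∈ FT_P S F u := by
  obtain ⟨v, hv, hvu, rfl | rfl⟩ := h
  · exact ⟨v, hv, hvu, Or.inr (FT_swap S F u v).symm⟩
  · exact ⟨v, hv, hvu, Or.inl (FT_swap S F v u).symm⟩

theorem FT_ren_not_not {F : Set M} (T : Set (Σ n, L.Relations n × (Fin n → F ⊕ Bool))) :
    FT_ren not (FT_ren not T) = T := by
  ext ⟨n, R, v⟩
  simp only [FT_ren, mem_ofPred_eq]
  have h1 : (fun i => Sum.map id not (Sum.map id not (v i))) = v := by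
    funext i
    rcases v i with a | b
    · rfl
    · cases b <;> rfl
  rw [h1]

/-- finitely many types of pairs of different elements -/
theorem FT_ne {S : L.Structure M} {F : Set M} (hF : F.Finite) (hP : Pig S F) :
    {t | ∃ x y, x ∉ F ∧ y ∉ F ∧ x ≠ y ∧ at2 S F x y = t}.Finite := by
  classical
  by_contra hinf
  obtain ⟨e, he, hr⟩ := exists_seq_of_forall_finset_exists
    (fun e : M × M => e.1 ∉ F ∧ e.2 ∉ F ∧ e.1 ≠ e.2)
    (fun e e' => at2 S F e'.1 e'.2 ∉ FT_P S F e.1 ∪ FT_P S F e.2) (by
      intro s hs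
      have hfin : (⋃ x ∈ s, (FT_P S F x.1 ∪ FT_P S F x.2)).Finite := by
        refine Set.Finite.biUnion s.finite_toSet fun x hx => ?_
        exact (FT_P_fin hF hP (hs x hx).1).union (FT_P_fin hF hP (hs x hx).2.1)
      obtain ⟨t, ⟨x, y, hx, hy, hxy, rfl⟩, ht⟩ := (Set.Infinite.sdiff hinf hfin).nonempty
      refine ⟨(x, y), ⟨hx, hy, hxy⟩, fun z hz h => ht ?_⟩
      exact mem_biUnion (Finset.mem_coe.mpr hz) h)
  let el : ℕ → Bool → M := fun n t => if t then (e n).2 else (e n).1
  let c : ℕ → Set (Σ n, L.Relations n × (Fin n → F ⊕ Bool)) := fun n => at2 S F (e n).1 (e n).2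
  have helF : ∀ n t, el n t ∉ F := by
    intro n t
    cases t
    · exact (he n).1
    · exact (he n).2.1
  have hcP : ∀ m t, c m ∈ FT_P S F (el m t) := by
    intro m t
    cases t
    · exact ⟨(e m).2, (he m).2.1, (he m).2.2.symm, Or.inl rfl⟩
    · exact ⟨(e m).1, (he m).1, (he m).2.2, Or.inr rfl⟩
  have hlt : ∀ m t k, c k ∈ FT_P S F (el m t) → k ≤ m := by
    intro m t k hk
    by_contra hmk
    push Not at hmk
    have h1 := hr m k hmk
    cases t
    · exact h1 (Or.inl hk)
    · exact h1 (Or.inr hk)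
  have hcinj : Function.Injective c := by
    intro m k hmk
    have h1 := hlt m false k (hmk ▸ hcP m false)
    have h2 := hlt k false m (hmk ▸ hcP k false)
    omega
  have helne : ∀ m n s t, m ≠ n → el m s ≠ el n t := by
    have h1 : ∀ m n s t, m < n → el m s ≠ el n t := by
      intro m n s t hmn hel
      have h2 := hcP n t
      rw [← hel] at h2
      have h3 := hlt m s n h2
      omega
    intro m n s t hmn
    rcases lt_or_gt_of_ne hmn with h | h
    · exact h1 m n s t h
    · exact (h1 n m t s h).symm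
  have helinj : ∀ m s t, s ≠ t → el m s ≠ el m t := by
    intro m s t hst
    cases s <;> cases t
    · exact absurd rfl hst
    · exact (he m).2.2
    · exact (he m).2.2.symm
    · exact absurd rfl hst
  have hin : ∀ m s t k, s ≠ t → at2 S F (el m s) (el m t) = c k → k = m := by
    intro m s t k hst hk
    have h1 : c k ∈ FT_P S F (el m s) :=
      ⟨el m t, helF m t, (helinj m s t hst).symm, Or.inl hk⟩
    have h2 := hlt m s k h1
    by_contra hkm
    have h3 : k < m := by omega
    have h4 : c m = c k ∨ c m = FT_ren not (c k) := by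
      cases s <;> cases t
      · exact absurd rfl hst
      · exact Or.inl hk
      · right
        rw [← hk, FT_swap]
        rfl
      · exact absurd rfl hst
    have h5 : c m ∈ FT_P S F (el k false) := by
      rcases h4 with h4 | h4
      · rw [h4]
        exact hcP k false
      · rw [h4]
        exact FT_P_swap (hcP k false)
    have h6 := hlt k false m h5
    omega
  have hcr : ∀ m n s t k, m ≠ n → at2 S F (el m s) (el n t) = c k → k ≤ m ∧ k ≤ n := by
    intro m n s t k hmn hk
    exact ⟨hlt m s k ⟨el n t, helF n t, (helne m n s t hmn).symm, Or.inl hk⟩,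
      hlt n t k ⟨el m s, helF m s, helne m n s t hmn, Or.inr hk⟩⟩
  let R : ℕ → ℕ → ℕ → Prop := fun k m n =>
    ∃ o s t, (if o = true then at2 S F (el m s) (el n t) else at2 S F (el n t) (el m s)) = c k
  obtain ⟨j, hj, hthin⟩ := FT_thin R 8 (by
    intro m n hmn s hs
    by_contra hcard
    push Not at hcard
    choose! o u v huv using hs
    have h1 : (Finset.univ : Finset (Bool × Bool × Bool)).card < s.card := by
      have : (Finset.univ : Finset (Bool × Bool × Bool)).card = 8 := rfl
      omega
    obtain ⟨k, hk, k', hk', hne, heq⟩ := Finset.exists_ne_map_eq_of_card_lt_of_maps_to h1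
      (f := fun k => (o k, u k, v k)) (fun k _ => Finset.mem_coe.mpr (Finset.mem_univ _))
    apply hne
    apply hcinj
    simp only [Prod.mk.injEq] at heq
    rw [← huv k hk, ← huv k' hk', heq.1, heq.2.1, heq.2.2])
  let N : (ℕ → Bool) → Set ℕ := fun f => {n | n % 2 = 0 ∨ f (n / 2) = true}
  let X : (ℕ → Bool) → Set M := fun f => F ∪ ⋃ t : Bool, (fun n => el (j n) t) '' N f
  have hX : ∀ f, (X f).Countable ∧ (X f).Infinite ∧ F ⊆ X f := by
    intro f
    refine ⟨hF.countable.union (countable_iUnion fun t => (to_countable (N f)).image _), ?_,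
      subset_union_left⟩
    refine Infinite.mono ((subset_iUnion (fun t => (fun n => el (j n) t) '' N f) false).trans
      subset_union_right) ?_
    refine Infinite.image (fun m _ n _ hmn => ?_) ?_
    · by_contra hne
      exact helne (j m) (j n) false false (fun h => hne (hj.injective h)) hmn
    refine Set.infinite_of_injective_forall_mem (f := fun i : ℕ => 2 * i) (fun i j hij => ?_)
      (fun i => Or.inl ?_)
    · have : 2 * i = 2 * j := hij
      omega
    · omega
  have hXm : ∀ f n t, n ∈ N f → el (j n) t ∈ X f := fun f n t hn =>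
    Or.inr (mem_iUnion.mpr ⟨t, n, hn, rfl⟩)
  have hreal : ∀ f i x y, x ∈ X f → y ∈ X f → x ∉ F → y ∉ F → x ≠ y →
      at2 S F x y = c (j i) → i ∈ N f := by
    intro f i x y hx hy hxF hyF hxy hc
    rcases hx with hx | hx
    · exact absurd hx hxF
    rcases hy with hy | hy
    · exact absurd hy hyF
    obtain ⟨s, p, hp, rfl⟩ := mem_iUnion.mp hx
    obtain ⟨t, q, hq, rfl⟩ := mem_iUnion.mp hy
    have hc' : at2 S F (el (j p) s) (el (j q) t) = c (j i) := hc
    by_cases hpq : p = q
    · subst hpq
      have hst : s ≠ t := by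
        intro h
        exact hxy (by rw [h])
      have h1 := hin _ _ _ _ hst hc'
      rw [hj.injective h1]
      exact hp
    · have hne : j p ≠ j q := fun h => hpq (hj.injective h)
      obtain ⟨h1, h2⟩ := hcr _ _ _ _ _ hne hc'
      have h1' : i ≤ p := hj.le_iff_le.mp h1
      have h2' : i ≤ q := hj.le_iff_le.mp h2
      rcases eq_or_lt_of_le h1' with h3 | h3
      · rw [h3]
        exact hp
      rcases eq_or_lt_of_le h2' with h4 | h4
      · rw [h4]
        exact hq
      exfalso
      rcases lt_or_gt_of_ne hpq with h5 | h5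
      · exact hthin i p q h3 h5 ⟨true, s, t, by simpa using hc'⟩
      · exact hthin i q p h4 h5 ⟨false, t, s, by simpa using hc'⟩
  have key : ∀ f g, BFR S S (X f) (X g) 2 (dg F) → ∀ i, f i = true → g i = true := by
    intro f g hB i hi
    have hn : 2 * i + 1 ∈ N f := Or.inr (by
      rw [show (2 * i + 1) / 2 = i by omega]
      exact hi)
    obtain ⟨x, hx, h1⟩ := hB.forth (β := 1) (by norm_num) (hXm f (2 * i + 1) false hn)
    obtain ⟨y, hy, h2⟩ := h1.forth (β := 0) zero_lt_one (hXm f (2 * i + 1) true hn)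
    have h3 := h2.atEq
    have hsub : dg F ⊆ insert (el (j (2 * i + 1)) true, y)
        (insert (el (j (2 * i + 1)) false, x) (dg F)) :=
      (subset_insert _ _).trans (subset_insert _ _)
    have hm1 : (el (j (2 * i + 1)) false, x) ∈ insert (el (j (2 * i + 1)) true, y)
        (insert (el (j (2 * i + 1)) false, x) (dg F)) := mem_insert_of_mem _ (mem_insert _ _)
    have hm2 : (el (j (2 * i + 1)) true, y) ∈ insert (el (j (2 * i + 1)) true, y)
        (insert (el (j (2 * i + 1)) false, x) (dg F)) := mem_insert _ _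
    have hty := FT_eq h3 hsub hm1 hm2
    have hxF := FT_out h3 hsub hm1 (helF _ _)
    have hyF := FT_out h3 hsub hm2 (helF _ _)
    have hxy : x ≠ y := by
      intro h
      have h4 := (h3.1 _ hm1 _ hm2).mpr h
      exact helinj (j (2 * i + 1)) false true (by decide) h4
    have h5 := hreal g (2 * i + 1) x y hx hy hxF hyF hxy (by rw [← hty]; rfl)
    rcases h5 with h5 | h5
    · omega
    · rw [show (2 * i + 1) / 2 = i by omega] at h5
      exact h5
  obtain ⟨f, g, hne, hB⟩ := hP X F 2 hF subset_rfl (natCast_lt_om1 2) hX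
  apply hne
  funext i
  exact Bool.eq_iff_iff.mpr ⟨key f g hB i, key g f (FT_swap_dg hB) i⟩

end FT

theorem thm_FT (_hR : St_RAM) : St_FT := by
  intro L _ M S F _ hF hM hP
  have h1 := FT_ne hF hP
  refine (h1.union (h1.image (FT_ren fun _ => false))).subset ?_
  rintro _ ⟨⟨⟨x, y⟩, hx, hy⟩, rfl⟩
  by_cases hxy : x = y
  · subst hxy
    right
    obtain ⟨z, hz⟩ := (hF.insert x).infinite_compl.nonempty
    have hzx : z ≠ x := fun h => hz (Or.inl h)
    have hzF : z ∉ F := fun h => hz (Or.inr h)
    exact ⟨at2 S F x z, ⟨x, z, hx, hzF, hzx.symm, rfl⟩, FT_diag S F x z⟩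
  · exact Or.inl ⟨x, y, hx, hy, hxy, rfl⟩

end HER
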