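import Pool.Agent.HER.St

set_option autoImplicit false

/-!
# HER, module KAR: a countable well-order which is equivalent to an order containing the rationals
-/

namespace HER

open Set Ordinal Pool.Agent.Helper79.VC

universe u v w

/-- universe polymorphic version of `LE` -/
def KAR_LE {I : Type u} {J : Type v} [LinearOrder I] [LinearOrder J] (γ : Ordinal.{0})
    (A : Set I) (B : Set J) : Prop :=
  ∀ β, (h : β < γ) →
    (∀ x ∈ A, ∃ y ∈ B, KAR_LE β (A ∩ Iio x) (B ∩ Iio y) ∧ KAR_LE β (A ∩ Ioi x) (B ∩ Ioi y)) ∧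
    (∀ y ∈ B, ∃ x ∈ A, KAR_LE β (A ∩ Iio x) (B ∩ Iio y) ∧ KAR_LE β (A ∩ Ioi x) (B ∩ Ioi y))
termination_by γ
decreasing_by all_goals exact h

section basic

variable {I : Type u} {J : Type v} {I' : Type w} [LinearOrder I] [LinearOrder J] [LinearOrder I']

theorem KAR_iff (γ : Ordinal.{0}) (A : Set I) (B : Set J) : KAR_LE γ A B ↔ ∀ β < γ,
    (∀ x ∈ A, ∃ y ∈ B, KAR_LE β (A ∩ Iio x) (B ∩ Iio y) ∧ KAR_LE β (A ∩ Ioi x) (B ∩ Ioi y)) ∧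
    (∀ y ∈ B, ∃ x ∈ A, KAR_LE β (A ∩ Iio x) (B ∩ Iio y) ∧ KAR_LE β (A ∩ Ioi x) (B ∩ Ioi y)) := by
  rw [KAR_LE]

theorem KAR_mono {β γ : Ordinal.{0}} (h : β ≤ γ) {A : Set I} {B : Set J}
    (hγ : KAR_LE γ A B) : KAR_LE β A B := by
  rw [KAR_iff] at hγ ⊢
  exact fun β' hβ' => hγ β' (hβ'.trans_le h)

theorem KAR_symm (γ : Ordinal.{0}) : ∀ (A : Set I) (B : Set J), KAR_LE γ A B → KAR_LE γ B A := by
  induction γ using WellFoundedLT.induction with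
  | ind γ ih =>
    intro A B h
    rw [KAR_iff] at h ⊢
    intro β hβ
    obtain ⟨h1, h2⟩ := h β hβ
    refine ⟨fun y hy => ?_, fun x hx => ?_⟩
    · obtain ⟨x, hx, h3, h4⟩ := h2 y hy
      exact ⟨x, hx, ih β hβ _ _ h3, ih β hβ _ _ h4⟩
    · obtain ⟨y, hy, h3, h4⟩ := h1 x hx
      exact ⟨y, hy, ih β hβ _ _ h3, ih β hβ _ _ h4⟩

theorem KAR_refl (γ : Ordinal.{0}) : ∀ A : Set I, KAR_LE γ A A := by
  induction γ using WellFoundedLT.induction with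
  | ind γ ih =>
    intro A
    rw [KAR_iff]
    exact fun β hβ => ⟨fun x hx => ⟨x, hx, ih β hβ _, ih β hβ _⟩,
      fun x hx => ⟨x, hx, ih β hβ _, ih β hβ _⟩⟩

theorem KAR_im1 {f : I → I'} {A : Set I} (hf : StrictMonoOn f A) {x : I} (hx : x ∈ A) :
    f '' A ∩ Iio (f x) = f '' (A ∩ Iio x) := by
  ext y
  constructor
  · rintro ⟨⟨a, ha, rfl⟩, hy⟩
    exact ⟨a, ⟨ha, (hf.lt_iff_lt ha hx).1 hy⟩, rfl⟩
  · rintro ⟨a, ⟨ha, hax⟩, rfl⟩
    exact ⟨⟨a, ha, rfl⟩, (hf.lt_iff_lt ha hx).2 hax⟩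

theorem KAR_im2 {f : I → I'} {A : Set I} (hf : StrictMonoOn f A) {x : I} (hx : x ∈ A) :
    f '' A ∩ Ioi (f x) = f '' (A ∩ Ioi x) := by
  ext y
  constructor
  · rintro ⟨⟨a, ha, rfl⟩, hy⟩
    exact ⟨a, ⟨ha, (hf.lt_iff_lt hx ha).1 hy⟩, rfl⟩
  · rintro ⟨a, ⟨ha, hax⟩, rfl⟩
    exact ⟨⟨a, ha, rfl⟩, (hf.lt_iff_lt hx ha).2 hax⟩

/-- invariance under strictly monotone maps -/
theorem KAR_image (f : I → I') (γ : Ordinal.{0}) : ∀ (A : Set I) (B : Set J),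
    StrictMonoOn f A → (KAR_LE γ (f '' A) B ↔ KAR_LE γ A B) := by
  induction γ using WellFoundedLT.induction with
  | ind γ ih =>
    intro A B hf
    have key : ∀ β < γ, ∀ x ∈ A, ∀ y : J,
        (KAR_LE β (f '' A ∩ Iio (f x)) (B ∩ Iio y) ∧ KAR_LE β (f '' A ∩ Ioi (f x)) (B ∩ Ioi y)) ↔
        (KAR_LE β (A ∩ Iio x) (B ∩ Iio y) ∧ KAR_LE β (A ∩ Ioi x) (B ∩ Ioi y)) := by
      intro β hβ x hx y
      rw [KAR_im1 hf hx, KAR_im2 hf hx, ih β hβ _ _ (hf.mono inter_subset_left),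
        ih β hβ _ _ (hf.mono inter_subset_left)]
    rw [KAR_iff, KAR_iff]
    refine forall₂_congr fun β hβ => and_congr ?_ ?_
    · rw [forall_mem_image]
      refine forall₂_congr fun x hx => exists_congr fun y => and_congr_right fun _ => ?_
      exact key β hβ x hx y
    · refine forall₂_congr fun y hy => ?_
      rw [exists_mem_image]
      exact exists_congr fun x => and_congr_right fun hx => key β hβ x hx y

theorem KAR_image' (f : I → I') (γ : Ordinal.{0}) (A : Set I) (B : Set J)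
    (hf : StrictMonoOn f A) : KAR_LE γ B (f '' A) ↔ KAR_LE γ B A :=
  ⟨fun h => KAR_symm γ _ _ ((KAR_image f γ A B hf).1 (KAR_symm γ _ _ h)),
    fun h => KAR_symm γ _ _ ((KAR_image f γ A B hf).2 (KAR_symm γ _ _ h))⟩

theorem KAR_split (S T : Set I) (hST : ∀ a ∈ S, ∀ a' ∈ T, a < a') :
    (∀ x ∈ S, (S ∪ T) ∩ Iio x = S ∩ Iio x ∧ (S ∪ T) ∩ Ioi x = (S ∩ Ioi x) ∪ T) ∧
      ∀ x ∈ T, (S ∪ T) ∩ Iio x = S ∪ (T ∩ Iio x) ∧ (S ∪ T) ∩ Ioi x = T ∩ Ioi x := by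
  refine ⟨fun x hx => ⟨?_, ?_⟩, fun x hx => ⟨?_, ?_⟩⟩ <;> ext y <;>
    simp only [mem_inter_iff, mem_union, mem_Iio, mem_Ioi]
  · constructor
    · rintro ⟨h | h, h'⟩
      · exact ⟨h, h'⟩
      · exact absurd h' (hST x hx y h).le.not_gt
    · rintro ⟨h, h'⟩
      exact ⟨Or.inl h, h'⟩
  · constructor
    · rintro ⟨h | h, h'⟩
      · exact Or.inl ⟨h, h'⟩
      · exact Or.inr h
    · rintro (⟨h, h'⟩ | h)
      · exact ⟨Or.inl h, h'⟩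
      · exact ⟨Or.inr h, hST x hx y h⟩
  · constructor
    · rintro ⟨h | h, h'⟩
      · exact Or.inl h
      · exact Or.inr ⟨h, h'⟩
    · rintro (h | ⟨h, h'⟩)
      · exact ⟨Or.inl h, hST y h x hx⟩
      · exact ⟨Or.inr h, h'⟩
  · constructor
    · rintro ⟨h | h, h'⟩
      · exact absurd h' (hST y h x hx).le.not_gt
      · exact ⟨h, h'⟩
    · rintro ⟨h, h'⟩
      exact ⟨Or.inr h, h'⟩

/-- sums -/
theorem KAR_sum (γ : Ordinal.{0}) : ∀ (A₁ A₂ : Set I) (B₁ B₂ : Set J),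
    (∀ a ∈ A₁, ∀ a' ∈ A₂, a < a') → (∀ b ∈ B₁, ∀ b' ∈ B₂, b < b') → KAR_LE γ A₁ B₁ →
    KAR_LE γ A₂ B₂ → KAR_LE γ (A₁ ∪ A₂) (B₁ ∪ B₂) := by
  induction γ using WellFoundedLT.induction with
  | ind γ ih =>
    intro A₁ A₂ B₁ B₂ hA hB h1 h2
    obtain ⟨sA1, sA2⟩ := KAR_split A₁ A₂ hA
    obtain ⟨sB1, sB2⟩ := KAR_split B₁ B₂ hB
    have h1' := h1
    have h2' := h2
    rw [KAR_iff] at h1' h2' ⊢
    intro β hβ
    have m1 := KAR_mono hβ.le h1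
    have m2 := KAR_mono hβ.le h2
    have k1 : ∀ x ∈ A₁, ∀ y ∈ B₁, KAR_LE β (A₁ ∩ Iio x) (B₁ ∩ Iio y) ∧
        KAR_LE β (A₁ ∩ Ioi x) (B₁ ∩ Ioi y) → KAR_LE β ((A₁ ∪ A₂) ∩ Iio x) ((B₁ ∪ B₂) ∩ Iio y) ∧
        KAR_LE β ((A₁ ∪ A₂) ∩ Ioi x) ((B₁ ∪ B₂) ∩ Ioi y) := by
      rintro x hx y hy ⟨h3, h4⟩
      rw [(sA1 x hx).1, (sA1 x hx).2, (sB1 y hy).1, (sB1 y hy).2]
      exact ⟨h3, ih β hβ _ _ _ _ (fun a ha => hA a ha.1) (fun b hb => hB b hb.1) h4 m2⟩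
    have k2 : ∀ x ∈ A₂, ∀ y ∈ B₂, KAR_LE β (A₂ ∩ Iio x) (B₂ ∩ Iio y) ∧
        KAR_LE β (A₂ ∩ Ioi x) (B₂ ∩ Ioi y) → KAR_LE β ((A₁ ∪ A₂) ∩ Iio x) ((B₁ ∪ B₂) ∩ Iio y) ∧
        KAR_LE β ((A₁ ∪ A₂) ∩ Ioi x) ((B₁ ∪ B₂) ∩ Ioi y) := by
      rintro x hx y hy ⟨h3, h4⟩
      rw [(sA2 x hx).1, (sA2 x hx).2, (sB2 y hy).1, (sB2 y hy).2]
      exact ⟨ih β hβ _ _ _ _ (fun a ha a' ha' => hA a ha a' ha'.1)
        (fun b hb b' hb' => hB b hb b' hb'.1) m1 h3, h4⟩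
    refine ⟨?_, ?_⟩
    · rintro x (hx | hx)
      · obtain ⟨y, hy, h3⟩ := (h1' β hβ).1 x hx
        exact ⟨y, Or.inl hy, k1 x hx y hy h3⟩
      · obtain ⟨y, hy, h3⟩ := (h2' β hβ).1 x hx
        exact ⟨y, Or.inr hy, k2 x hx y hy h3⟩
    · rintro y (hy | hy)
      · obtain ⟨x, hx, h3⟩ := (h1' β hβ).2 y hy
        exact ⟨x, Or.inl hx, k1 x hx y hy h3⟩
      · obtain ⟨x, hx, h3⟩ := (h2' β hβ).2 y hy
        exact ⟨x, Or.inr hx, k2 x hx y hy h3⟩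

end basic

/-! ## Multiples of powers of `ω` -/

section mul

variable {X Y : Type 1} [LinearOrder X] [LinearOrder Y]

/-- the elements after `z` of the multiple `D` of `ω ^ β` -/
def KAR_T (β : Ordinal.{0}) (D : Set X) (z : X ×ₗ Ordinal.{0}) : Set (X ×ₗ Ordinal.{0}) :=
  {p | (ofLex p).1 ∈ D ∧ (ofLex p).2 < ω ^ β ∧ z ≤ p}

/-- segments -/
def KAR_S (x : X) (a b : Ordinal.{0}) : Set (X ×ₗ Ordinal.{0}) :=
  {p | (ofLex p).1 = x ∧ a ≤ (ofLex p).2 ∧ (ofLex p).2 < b}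

theorem KAR_lt {x x' : X} {a a' : Ordinal.{0}} :
    (toLex (x, a) < toLex (x', a')) ↔ x < x' ∨ x = x' ∧ a < a' := Prod.Lex.toLex_lt_toLex

theorem KAR_le {x x' : X} {a a' : Ordinal.{0}} :
    (toLex (x, a) ≤ toLex (x', a')) ↔ x < x' ∨ x = x' ∧ a ≤ a' := Prod.Lex.toLex_le_toLex

omit [LinearOrder X] in
theorem KAR_S_eq (x : X) (a δ : Ordinal.{0}) :
    KAR_S x a (a + δ) = (fun α : Ordinal.{0} => toLex (x, a + α)) '' Iio δ := by
  ext p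
  induction p with
  | _ p =>
    obtain ⟨y, b⟩ := p
    simp only [KAR_S, mem_ofPred_eq, ofLex_toLex, mem_image, mem_Iio]
    constructor
    · rintro ⟨rfl, h1, h2⟩
      refine ⟨b - a, ?_, ?_⟩
      · exact (Ordinal.sub_lt_of_le h1).2 h2
      · rw [Ordinal.add_sub_cancel_of_le h1]
    · rintro ⟨α, hα, h⟩
      have h1 : (x, a + α) = (y, b) := toLex.injective h
      rw [Prod.mk.injEq] at h1
      obtain ⟨rfl, rfl⟩ := h1
      exact ⟨rfl, le_self_add, by gcongr⟩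

theorem KAR_S_mono (x : X) (a : Ordinal.{0}) (A : Set Ordinal.{0}) :
    StrictMonoOn (fun α : Ordinal.{0} => toLex (x, a + α)) A := by
  intro α _ α' _ h
  exact KAR_lt.2 (Or.inr ⟨rfl, by gcongr⟩)

theorem KAR_S_iff {J : Type v} [LinearOrder J] (γ : Ordinal.{0}) (A : Set J) (x : X)
    (a δ : Ordinal.{0}) : KAR_LE γ A (KAR_S x a (a + δ)) ↔ KAR_LE γ A (Iio δ) := by
  rw [KAR_S_eq]
  exact KAR_image' _ γ _ A (KAR_S_mono x a _)

theorem KAR_S_S (γ : Ordinal.{0}) (x : X) (y : Y) (a b δ : Ordinal.{0}) :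
    KAR_LE γ (KAR_S x a (a + δ)) (KAR_S y b (b + δ)) := by
  rw [KAR_S_iff]
  apply KAR_symm
  rw [KAR_S_iff]
  exact KAR_refl γ _

omit [LinearOrder X] in
theorem KAR_S_union (x : X) (a b c : Ordinal.{0}) (h1 : a ≤ b) (h2 : b ≤ c) :
    KAR_S x a c = KAR_S x a b ∪ KAR_S x b c := by
  ext p
  simp only [KAR_S, mem_ofPred_eq, mem_union]
  constructor
  · rintro ⟨h3, h4, h5⟩
    rcases lt_or_ge (ofLex p).2 b with h | h
    · exact Or.inl ⟨h3, h4, h⟩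
    · exact Or.inr ⟨h3, h, h5⟩
  · rintro (⟨h3, h4, h5⟩ | ⟨h3, h4, h5⟩)
    · exact ⟨h3, h4, h5.trans_le h2⟩
    · exact ⟨h3, h1.trans h4, h5⟩

theorem KAR_S_lt (x : X) (a b c : Ordinal.{0}) :
    ∀ p ∈ KAR_S x a b, ∀ q ∈ KAR_S x b c, p < q := by
  rintro p ⟨h1, _, h2⟩ q ⟨h3, h4, _⟩
  exact KAR_lt.2 (Or.inr ⟨h1.trans h3.symm, h2.trans_le h4⟩)

/-- a multiple of `ω ^ γ` is a multiple of `ω ^ β` -/
theorem KAR_assoc {β γ : Ordinal.{0}} (h : β ≤ γ) (D : Set X) (z : X ×ₗ Ordinal.{0})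
    (hz1 : (ofLex z).1 ∈ D) (hz2 : (ofLex z).2 < ω ^ γ) :
    ∃ (D' : Set (X ×ₗ Ordinal.{0})) (z' : (X ×ₗ Ordinal.{0}) ×ₗ Ordinal.{0})
      (f : (X ×ₗ Ordinal.{0}) ×ₗ Ordinal.{0} → X ×ₗ Ordinal.{0}), (ofLex z').1 ∈ D' ∧
      (ofLex z').2 < ω ^ β ∧ StrictMonoOn f (KAR_T β D' z') ∧
      f '' KAR_T β D' z' = KAR_T γ D z := by
  have hω : (ω ^ β : Ordinal.{0}) ≠ 0 := (Ordinal.opow_pos β Ordinal.omega0_pos).ne'
  have hγ : (ω ^ γ : Ordinal.{0}) = ω ^ β * ω ^ (γ - β) := by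
    rw [← Ordinal.opow_add, Ordinal.add_sub_cancel_of_le h]
  set f : (X ×ₗ Ordinal.{0}) ×ₗ Ordinal.{0} → X ×ₗ Ordinal.{0} := fun p =>
    toLex ((ofLex (ofLex p).1).1, ω ^ β * (ofLex (ofLex p).1).2 + (ofLex p).2) with hf
  have hmono : StrictMonoOn f {p | (ofLex p).2 < ω ^ β} := by
    intro p hp q hq hpq
    have h1 : (ofLex p).1 < (ofLex q).1 ∨ (ofLex p).1 = (ofLex q).1 ∧ (ofLex p).2 < (ofLex q).2 :=
      Prod.Lex.toLex_lt_toLex.1 hpq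
    rcases h1 with h1 | ⟨h1, h2⟩
    · have h3 : (ofLex (ofLex p).1).1 < (ofLex (ofLex q).1).1 ∨
          (ofLex (ofLex p).1).1 = (ofLex (ofLex q).1).1 ∧
          (ofLex (ofLex p).1).2 < (ofLex (ofLex q).1).2 := Prod.Lex.toLex_lt_toLex.1 h1
      rcases h3 with h3 | ⟨h3, h4⟩
      · exact KAR_lt.2 (Or.inl h3)
      · refine KAR_lt.2 (Or.inr ⟨h3, ?_⟩)
        calc ω ^ β * (ofLex (ofLex p).1).2 + (ofLex p).2
            < ω ^ β * (ofLex (ofLex p).1).2 + ω ^ β := by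
              have := hp
              gcongr
              exact hp
          _ = ω ^ β * ((ofLex (ofLex p).1).2 + 1) := by rw [mul_add_one]
          _ ≤ ω ^ β * (ofLex (ofLex q).1).2 := by
              gcongr
              exact Order.add_one_le_of_lt h4
          _ ≤ ω ^ β * (ofLex (ofLex q).1).2 + (ofLex q).2 := le_self_add
    · refine KAR_lt.2 (Or.inr ⟨by rw [h1], ?_⟩)
      rw [h1]
      gcongr
  refine ⟨{q | (ofLex q).1 ∈ D ∧ (ofLex q).2 < ω ^ (γ - β)},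
    toLex (toLex ((ofLex z).1, (ofLex z).2 / ω ^ β), (ofLex z).2 % ω ^ β), f, ⟨hz1, ?_⟩, ?_,
    hmono.mono fun p hp => hp.2.1, ?_⟩
  · show (ofLex z).2 / ω ^ β < ω ^ (γ - β)
    rw [← Ordinal.lt_mul_iff_div_lt hω, ← hγ]
    exact hz2
  · exact Ordinal.mod_lt _ hω
  · have hfz : ∀ (x : X) (a : Ordinal.{0}),
        f (toLex (toLex (x, a / ω ^ β), a % ω ^ β)) = toLex (x, a) := by
      intro x a
      show toLex (x, ω ^ β * (a / ω ^ β) + a % ω ^ β) = toLex (x, a)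
      rw [Ordinal.div_add_mod]
    have hfz' : f (toLex (toLex ((ofLex z).1, (ofLex z).2 / ω ^ β), (ofLex z).2 % ω ^ β)) = z :=
      hfz _ _
    have hzm : toLex (toLex ((ofLex z).1, (ofLex z).2 / ω ^ β), (ofLex z).2 % ω ^ β) ∈
        {p : (X ×ₗ Ordinal.{0}) ×ₗ Ordinal.{0} | (ofLex p).2 < ω ^ β} := Ordinal.mod_lt _ hω
    ext q
    constructor
    · rintro ⟨p, ⟨⟨h1, h2⟩, h3, h4⟩, rfl⟩
      refine ⟨h1, ?_, ?_⟩
      · show ω ^ β * (ofLex (ofLex p).1).2 + (ofLex p).2 < ω ^ γ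
        rw [hγ]
        calc ω ^ β * (ofLex (ofLex p).1).2 + (ofLex p).2
            < ω ^ β * (ofLex (ofLex p).1).2 + ω ^ β := by
              gcongr
          _ = ω ^ β * ((ofLex (ofLex p).1).2 + 1) := by rw [mul_add_one]
          _ ≤ ω ^ β * ω ^ (γ - β) := by
              gcongr
              exact Order.add_one_le_of_lt h2
      · rw [← hfz']
        exact (hmono.le_iff_le hzm h3).2 h4
    · rintro ⟨h1, h2, h3⟩
      refine ⟨toLex (toLex ((ofLex q).1, (ofLex q).2 / ω ^ β), (ofLex q).2 % ω ^ β),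
        ⟨⟨h1, ?_⟩, Ordinal.mod_lt _ hω, ?_⟩, hfz _ _⟩
      · show (ofLex q).2 / ω ^ β < ω ^ (γ - β)
        rw [← Ordinal.lt_mul_iff_div_lt hω, ← hγ]
        exact h2
      · rw [← hmono.le_iff_le hzm (Ordinal.mod_lt _ hω : (ofLex q).2 % ω ^ β < ω ^ β), hfz']
        exact h3.trans_eq (hfz _ _).symm

/-- right parts -/
theorem KAR_T_right {β : Ordinal.{0}} (hβ : 0 < β) (D : Set X) (z z' : X ×ₗ Ordinal.{0})
    (h : z' ∈ KAR_T β D z) :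
    KAR_T β D z ∩ Ioi z' = KAR_T β D (toLex ((ofLex z').1, (ofLex z').2 + 1)) ∧
      (ofLex z').2 + 1 < ω ^ β := by
  have h1 : (1 : Ordinal.{0}) < ω ^ β := by
    rw [← Ordinal.opow_zero ω]
    exact (Ordinal.opow_lt_opow_iff_right Ordinal.one_lt_omega0).2 hβ
  refine ⟨?_, Ordinal.isPrincipal_add_omega0_opow β h.2.1 h1⟩
  ext p
  constructor
  · rintro ⟨⟨h2, h3, h4⟩, h5⟩
    refine ⟨h2, h3, ?_⟩
    have h6 : (ofLex z').1 < (ofLex p).1 ∨ (ofLex z').1 = (ofLex p).1 ∧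
        (ofLex z').2 < (ofLex p).2 := KAR_lt.1 h5
    rcases h6 with h6 | ⟨h6, h7⟩
    · exact KAR_le.2 (Or.inl h6)
    · exact KAR_le.2 (Or.inr ⟨h6, Order.add_one_le_of_lt h7⟩)
  · rintro ⟨h2, h3, h4⟩
    have h5 : z' < toLex ((ofLex z').1, (ofLex z').2 + 1) :=
      KAR_lt.2 (Or.inr ⟨rfl, Order.lt_add_one_iff.2 le_rfl⟩)
    exact ⟨⟨h2, h3, h.2.2.trans (h5.le.trans h4)⟩, h5.trans_le h4⟩

/-- left parts in the first block -/
theorem KAR_T_left (β : Ordinal.{0}) (D : Set X) (x : X) (a b : Ordinal.{0}) (hx : x ∈ D)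
    (hb : b < ω ^ β) :
    KAR_T β D (toLex (x, a)) ∩ Iio (toLex (x, b)) = KAR_S x a b := by
  ext p
  constructor
  · rintro ⟨⟨h2, h3, h4⟩, h5⟩
    have h6 : x < (ofLex p).1 ∨ x = (ofLex p).1 ∧ a ≤ (ofLex p).2 := KAR_le.1 h4
    have h7 : (ofLex p).1 < x ∨ (ofLex p).1 = x ∧ (ofLex p).2 < b := KAR_lt.1 h5
    rcases h6 with h6 | ⟨h6, h6'⟩
    · rcases h7 with h7 | ⟨h7, h7'⟩
      · exact absurd h6 h7.not_gt
      · exact absurd h7 h6.ne'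
    · rcases h7 with h7 | ⟨h7, h7'⟩
      · exact absurd h6 h7.ne'
      · exact ⟨h7, h6', h7'⟩
  · rintro ⟨h1, h2, h3⟩
    refine ⟨⟨by rw [h1]; exact hx, h3.trans hb, ?_⟩, ?_⟩
    · exact KAR_le.2 (Or.inr ⟨h1.symm, h2⟩)
    · exact KAR_lt.2 (Or.inr ⟨h1, h3⟩)

/-- left parts after the first block -/
theorem KAR_T_left2 (β : Ordinal.{0}) (D : Set X) (z : X ×ₗ Ordinal.{0}) (x : X)
    (b : Ordinal.{0}) (hx : x ∈ D) (hb : b < ω ^ β) (hz : (ofLex z).1 < x) :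
    KAR_T β D z ∩ Iio (toLex (x, b)) = KAR_T β (D ∩ Iio x) z ∪ KAR_S x 0 b := by
  ext p
  constructor
  · rintro ⟨⟨h2, h3, h4⟩, h5⟩
    have h7 : (ofLex p).1 < x ∨ (ofLex p).1 = x ∧ (ofLex p).2 < b := KAR_lt.1 h5
    rcases h7 with h7 | ⟨h7, h7'⟩
    · exact Or.inl ⟨⟨h2, h7⟩, h3, h4⟩
    · exact Or.inr ⟨h7, zero_le, h7'⟩
  · rintro (⟨⟨h2, h2'⟩, h3, h4⟩ | ⟨h1, -, h3⟩)
    · exact ⟨⟨h2, h3, h4⟩, KAR_lt.2 (Or.inl h2')⟩
    · refine ⟨⟨by rw [h1]; exact hx, h3.trans hb, ?_⟩, ?_⟩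
      · exact KAR_le.2 (Or.inl (lt_of_lt_of_eq hz h1.symm))
      · exact KAR_lt.2 (Or.inr ⟨h1, h3⟩)

end mul

/-- all multiples of `ω ^ β` are equivalent at level `β` -/
def KAR_P (β : Ordinal.{0}) : Prop :=
  ∀ (X Y : Type 1) [LinearOrder X] [LinearOrder Y] (D : Set X) (E : Set Y)
    (z : X ×ₗ Ordinal.{0}) (u : Y ×ₗ Ordinal.{0}), (ofLex z).1 ∈ D → (ofLex z).2 < ω ^ β →
    (ofLex u).1 ∈ E → (ofLex u).2 < ω ^ β → KAR_LE β (KAR_T β D z) (KAR_T β E u)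

theorem KAR_C {β : Ordinal.{0}} (h : KAR_P β) {γ γ' : Ordinal.{0}} (hγ : β ≤ γ) (hγ' : β ≤ γ')
    {X Y : Type 1} [LinearOrder X] [LinearOrder Y] (D : Set X) (E : Set Y)
    (z : X ×ₗ Ordinal.{0}) (u : Y ×ₗ Ordinal.{0}) (hz1 : (ofLex z).1 ∈ D)
    (hz2 : (ofLex z).2 < ω ^ γ) (hu1 : (ofLex u).1 ∈ E) (hu2 : (ofLex u).2 < ω ^ γ') :
    KAR_LE β (KAR_T γ D z) (KAR_T γ' E u) := by
  obtain ⟨D', z', f, h1, h2, h3, h4⟩ := KAR_assoc hγ D z hz1 hz2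
  obtain ⟨E', u', f', h1', h2', h3', h4'⟩ := KAR_assoc hγ' E u hu1 hu2
  rw [← h4, ← h4', KAR_image f β _ _ h3, KAR_image' f' β _ _ h3']
  exact h _ _ D' E' z' u' h1 h2 h1' h2'

/-- one move -/
theorem KAR_move {β γ : Ordinal.{0}} (h : KAR_P β) (hβ : β < γ) {X Y : Type 1} [LinearOrder X]
    [LinearOrder Y] (D : Set X) (E : Set Y) (z : X ×ₗ Ordinal.{0}) (u : Y ×ₗ Ordinal.{0})
    (hzD : (ofLex z).1 ∈ D) (hzγ : (ofLex z).2 < ω ^ γ) (hu1 : (ofLex u).1 ∈ E)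
    (hu2 : (ofLex u).2 < ω ^ γ) :
    ∀ z' ∈ KAR_T γ D z, ∃ u' ∈ KAR_T γ E u,
      KAR_LE β (KAR_T γ D z ∩ Iio z') (KAR_T γ E u ∩ Iio u') ∧
      KAR_LE β (KAR_T γ D z ∩ Ioi z') (KAR_T γ E u ∩ Ioi u') := by
  intro z' hz'
  have h0 : 0 < γ := (zero_le).trans_lt hβ
  have hlt : (ω ^ β : Ordinal.{0}) < ω ^ γ :=
    (Ordinal.opow_lt_opow_iff_right Ordinal.one_lt_omega0).2 hβ
  have hP := Ordinal.isPrincipal_add_omega0_opow γ
  obtain ⟨y, b⟩ := u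
  have hu1' : y ∈ E := hu1
  have hu2' : b < ω ^ γ := hu2
  -- the answer is given by the order type of the left part
  have key : ∀ δ : Ordinal.{0}, δ < ω ^ γ →
      KAR_LE β (KAR_T γ D z ∩ Iio z') (KAR_S y b (b + δ)) →
      ∃ u' ∈ KAR_T γ E (toLex (y, b)),
      KAR_LE β (KAR_T γ D z ∩ Iio z') (KAR_T γ E (toLex (y, b)) ∩ Iio u') ∧
      KAR_LE β (KAR_T γ D z ∩ Ioi z') (KAR_T γ E (toLex (y, b)) ∩ Ioi u') := by
    intro δ hδ hL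
    have h1 : b + δ < ω ^ γ := hP hu2' hδ
    have h2 : toLex (y, b + δ) ∈ KAR_T γ E (toLex (y, b)) :=
      ⟨hu1', h1, KAR_le.2 (Or.inr ⟨rfl, le_self_add⟩)⟩
    refine ⟨toLex (y, b + δ), h2, ?_, ?_⟩
    · rw [KAR_T_left γ E y b (b + δ) hu1' h1]
      exact hL
    · obtain ⟨h3, h4⟩ := KAR_T_right h0 D z z' hz'
      obtain ⟨h5, h6⟩ := KAR_T_right h0 E (toLex (y, b)) _ h2
      rw [h3, h5]
      exact KAR_C h hβ.le hβ.le _ _ _ _ hz'.1 h4 hu1' h6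
  have hz1 : (ofLex z).1 < (ofLex z').1 ∨ (ofLex z).1 = (ofLex z').1 ∧
      (ofLex z).2 ≤ (ofLex z').2 := KAR_le.1 hz'.2.2
  rcases hz1 with hz1 | ⟨hz1, hz2⟩
  · refine key (ω ^ β + (ofLex z').2) (hP hlt hz'.2.1) ?_
    have h1 := KAR_T_left2 γ D z (ofLex z').1 (ofLex z').2 hz'.1 hz'.2.1 hz1
    have h2 : (toLex ((ofLex z').1, (ofLex z').2) : X ×ₗ Ordinal.{0}) = z' := rfl
    rw [h2] at h1
    rw [h1, ← add_assoc, KAR_S_union y b (b + ω ^ β) _ le_self_add le_self_add]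
    refine KAR_sum β _ _ _ _ ?_ (KAR_S_lt y b _ _) ?_ ?_
    · rintro p ⟨⟨-, h3⟩, -, -⟩ q ⟨h4, -, -⟩
      exact KAR_lt.2 (Or.inl (lt_of_lt_of_eq h3 h4.symm))
    · rw [KAR_S_iff, ← KAR_S_iff β _ (PUnit.unit : PUnit.{2}) 0]
      have h3 : KAR_S (PUnit.unit : PUnit.{2}) 0 (0 + ω ^ β) =
          KAR_T β univ (toLex (PUnit.unit, 0)) := by
        ext p
        constructor
        · rintro ⟨-, -, h3⟩
          rw [zero_add] at h3
          exact ⟨mem_univ _, h3, KAR_le.2 (Or.inr ⟨rfl, zero_le⟩)⟩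
        · rintro ⟨-, h3, -⟩
          refine ⟨rfl, zero_le, ?_⟩
          rw [zero_add]
          exact h3
      rw [h3]
      exact KAR_C h hβ.le le_rfl _ _ _ _ ⟨hzD, hz1⟩ hzγ (mem_univ _)
        (Ordinal.opow_pos β Ordinal.omega0_pos)
    · have h3 := KAR_S_S β (ofLex z').1 y 0 (b + ω ^ β) (ofLex z').2
      rwa [zero_add] at h3
  · obtain ⟨δ, hδ⟩ : ∃ δ, (ofLex z').2 = (ofLex z).2 + δ :=
      ⟨(ofLex z').2 - (ofLex z).2, (Ordinal.add_sub_cancel_of_le hz2).symm⟩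
    refine key δ ?_ ?_
    · have h1 := hz'.2.1
      rw [hδ] at h1
      exact le_add_self.trans_lt h1
    · have h1 := KAR_T_left γ D (ofLex z').1 (ofLex z).2 (ofLex z').2 hz'.1 hz'.2.1
      have h2 : (toLex ((ofLex z').1, (ofLex z').2) : X ×ₗ Ordinal.{0}) = z' := rfl
      have h3 : (toLex ((ofLex z').1, (ofLex z).2) : X ×ₗ Ordinal.{0}) = z := by
        rw [← hz1]
        rfl
      rw [h2, h3] at h1
      rw [h1, hδ]
      exact KAR_S_S β _ _ _ _ _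

theorem KAR_main (γ : Ordinal.{0}) : KAR_P γ := by
  induction γ using WellFoundedLT.induction with
  | ind γ ih =>
    intro X Y _ _ D E z u hz1 hz2 hu1 hu2
    rw [KAR_iff]
    refine fun β hβ => ⟨KAR_move (ih β hβ) hβ D E z u hz1 hz2 hu1 hu2, fun y hy => ?_⟩
    obtain ⟨x, hx, h1, h2⟩ := KAR_move (ih β hβ) hβ E D u z hu1 hu2 hz1 hz2 y hy
    exact ⟨x, hx, KAR_symm _ _ _ h1, KAR_symm _ _ _ h2⟩

theorem KAR_LE_iff {I J : Type} [LinearOrder I] [LinearOrder J] (γ : Ordinal.{0}) :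
    ∀ (A : Set I) (B : Set J), KAR_LE γ A B → LE γ A B := by
  induction γ using WellFoundedLT.induction with
  | ind γ ih =>
    intro A B h
    rw [KAR_iff] at h
    rw [LE]
    intro β hβ
    obtain ⟨h1, h2⟩ := h β hβ
    refine ⟨fun x hx => ?_, fun y hy => ?_⟩
    · obtain ⟨y, hy, h3, h4⟩ := h1 x hx
      exact ⟨y, hy, ih β hβ _ _ h3, ih β hβ _ _ h4⟩
    · obtain ⟨x, hx, h3, h4⟩ := h2 y hy
      exact ⟨x, hx, ih β hβ _ _ h3, ih β hβ _ _ h4⟩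

/-- the product with `ω ^ γ` as a multiple of `ω ^ γ` -/
theorem KAR_univ {J : Type v} [LinearOrder J] {X : Type} [LinearOrder X] (x₀ : X)
    (h₀ : ∀ x, x₀ ≤ x) (γ δ : Ordinal.{0}) (B : Set J) :
    KAR_LE δ B (univ : Set (X ×ₗ (ω ^ γ : Ordinal.{0}).ToType)) ↔
      KAR_LE δ B (KAR_T γ (univ : Set (ULift.{1} X)) (toLex (ULift.up x₀, 0))) := by
  set f : X ×ₗ (ω ^ γ : Ordinal.{0}).ToType → ULift.{1} X ×ₗ Ordinal.{0} := fun p =>
    toLex (ULift.up (ofLex p).1, (Ordinal.ToType.mk.symm (ofLex p).2).1) with hf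
  have hmono : StrictMonoOn f univ := by
    intro p _ q _ hpq
    have h1 : (ofLex p).1 < (ofLex q).1 ∨ (ofLex p).1 = (ofLex q).1 ∧ (ofLex p).2 < (ofLex q).2 :=
      Prod.Lex.toLex_lt_toLex.1 hpq
    rcases h1 with h1 | ⟨h1, h2⟩
    · exact KAR_lt.2 (Or.inl h1)
    · refine KAR_lt.2 (Or.inr ⟨congrArg ULift.up h1, ?_⟩)
      exact (Ordinal.ToType.mk.symm).lt_iff_lt.2 h2
  have himg : f '' univ = KAR_T γ (univ : Set (ULift.{1} X)) (toLex (ULift.up x₀, 0)) := by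
    ext q
    constructor
    · rintro ⟨p, -, rfl⟩
      refine ⟨mem_univ _, (Ordinal.ToType.mk.symm (ofLex p).2).2, KAR_le.2 ?_⟩
      rcases (h₀ (ofLex p).1).lt_or_eq with h | h
      · exact Or.inl h
      · exact Or.inr ⟨congrArg ULift.up h, zero_le⟩
    · rintro ⟨-, h1, -⟩
      refine ⟨toLex ((ofLex q).1.down, Ordinal.ToType.mk ⟨(ofLex q).2, h1⟩), mem_univ _, ?_⟩
      show toLex (ULift.up (ofLex q).1.down,
        (Ordinal.ToType.mk.symm (Ordinal.ToType.mk ⟨(ofLex q).2, h1⟩)).1) = q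
      rw [OrderIso.symm_apply_apply]
      rfl
  rw [← himg]
  exact (KAR_image' f δ univ B hmono).symm

theorem KAR_count {γ : Ordinal.{0}} (h : γ < om1) : (ω ^ γ : Ordinal.{0}) < om1 := by
  rw [lt_om1_iff] at h ⊢
  refine (Ordinal.card_opow_le _ _).trans ?_
  simp [h]

theorem thm_KAR : St_KAR := by
  intro γ hγ
  have hγ' : γ + 1 < om1 := add_one_lt_om1 hγ
  have hc := KAR_count hγ'
  have hpos : (0 : Ordinal.{0}) < ω ^ (γ + 1) := Ordinal.opow_pos _ Ordinal.omega0_pos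
  have hω : (ω : Ordinal.{0}) ≤ ω ^ (γ + 1) := by
    calc (ω : Ordinal.{0}) = ω ^ (1 : Ordinal.{0}) := (Ordinal.opow_one ω).symm
      _ ≤ ω ^ (γ + 1) := Ordinal.opow_le_opow_right Ordinal.omega0_pos le_add_self
  have hI : Countable (ω ^ (γ + 1) : Ordinal.{0}).ToType := by
    have h1 : Countable (Iio (ω ^ (γ + 1) : Ordinal.{0})) := (countable_Iio hc).to_subtype
    exact (Ordinal.ToType.mk.symm).toEquiv.injective.countable
  have hI2 : Infinite (ω ^ (γ + 1) : Ordinal.{0}).ToType := by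
    refine Infinite.of_injective (fun n : ℕ => Ordinal.ToType.mk
      ⟨(n : Ordinal.{0}), (Ordinal.natCast_lt_omega0 n).trans_le hω⟩) ?_
    intro n m h
    have h1 := Ordinal.ToType.mk.injective h
    have h2 := congrArg Subtype.val h1
    exact Nat.cast_injective h2
  refine ⟨(ω ^ (γ + 1) : Ordinal.{0}).ToType, WithBot ℚ ×ₗ (ω ^ (γ + 1) : Ordinal.{0}).ToType,
    inferInstance, inferInstance, hI, hI2, ?_, inferInstance, ?_, ?_⟩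
  · have : Countable (WithBot ℚ × (ω ^ (γ + 1) : Ordinal.{0}).ToType) := inferInstance
    exact this
  · refine ⟨OrderEmbedding.ofStrictMono
      (fun q : ℚ => toLex ((q : WithBot ℚ), Ordinal.ToType.mk ⟨0, hpos⟩)) ?_⟩
    intro p q h
    exact Prod.Lex.toLex_lt_toLex.2 (Or.inl (WithBot.coe_lt_coe.2 h))
  · apply KAR_LE_iff
    apply KAR_mono (le_self_add : γ ≤ γ + 1)
    rw [KAR_univ (⊥ : WithBot ℚ) (fun x => bot_le)]
    have h1 : (univ : Set (PUnit.{1} ×ₗ (ω ^ (γ + 1) : Ordinal.{0}).ToType)) =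
        (fun w => toLex (PUnit.unit, w)) '' univ := by
      ext p
      simp only [mem_univ, true_iff, image_univ, mem_range]
      exact ⟨(ofLex p).2, rfl⟩
    have h2 : StrictMonoOn (fun w : (ω ^ (γ + 1) : Ordinal.{0}).ToType =>
        (toLex (PUnit.unit, w) : PUnit.{1} ×ₗ (ω ^ (γ + 1) : Ordinal.{0}).ToType)) univ := by
      intro a _ b _ h
      exact Prod.Lex.toLex_lt_toLex.2 (Or.inr ⟨rfl, h⟩)
    rw [← KAR_image _ _ _ _ h2, ← h1]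
    apply KAR_symm
    rw [KAR_univ (PUnit.unit : PUnit.{1}) (fun x => le_rfl)]
    exact KAR_main _ _ _ _ _ _ _ (mem_univ _) hpos (mem_univ _) hpos

end HER
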