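import Pool.Agent.HER.St

/-!
# HER, module LD1: linear orders are decoded
-/

set_option autoImplicit false

namespace HER

open Set Pool.Agent.Helper5.DU Pool.Agent.Helper6.Str Pool.Agent.Helper79.VC
  Pool.Agent.Helper97.LO Pool.Agent.Helper97.VC

section

variable {L : FirstOrder.Language.{0, 0}} {M N P : Type} {S : L.Structure M}
  {S' : L.Structure N} {S'' : L.Structure P}

theorem LD1_bfr0 {U : Set M} {V : Set N} {p : Set (M × N)} (h : AtEq S S' p) :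
    BFR S S' U V 0 p := by
  rw [BFR.def]
  exact ⟨h, fun β hβ => absurd hβ (not_lt.mpr zero_le)⟩

theorem LD1_trans {p : Set (M × N)} {q : Set (N × P)} {r : Set (M × P)} (h1 : AtEq S S' p)
    (h2 : AtEq S' S'' q) (hr : ∀ a ∈ r, ∃ b, (a.1, b) ∈ p ∧ (b, a.2) ∈ q) : AtEq S S'' r :=
  ((LD1_bfr0 (U := univ) (V := univ) h1).trans (LD1_bfr0 (U := univ) (V := univ) h2) hr).atEq

theorem LD1_symm {p : Set (M × N)} {q : Set (N × M)} (h : AtEq S S' p)
    (hq : ∀ a ∈ q, (a.2, a.1) ∈ p) : AtEq S' S q :=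
  ((LD1_bfr0 (U := univ) (V := univ) h).symm hq).atEq

/-- matched points of two coded linear orders give equivalent linear orders -/
theorem LD1_core {X Y : Set M} (e : ℚ → M) (A₀ B₀ : Set ℚ)
    (p₀ : Set (M × M)) (ρ : Ordinal.{0}) (hX : ∀ a ∈ A₀, e a ∈ X) (hY : ∀ b ∈ B₀, e b ∈ Y)
    (h1 : ∀ p, p₀ ⊆ p → ∀ a ∈ A₀, ∀ y ∈ Y, BFR S S X Y ρ (insert (e a, y) p) →
      ∃ b ∈ B₀, y = e b)
    (h2 : ∀ p, p₀ ⊆ p → ∀ b ∈ B₀, ∀ x ∈ X, BFR S S X Y ρ (insert (x, e b) p) →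
      ∃ a ∈ A₀, x = e a)
    (h3 : ∀ p, p₀ ⊆ p → ∀ a ∈ A₀, ∀ a' ∈ A₀, ∀ b ∈ B₀, ∀ b' ∈ B₀, (e a, e b) ∈ p →
      (e a', e b') ∈ p → BFR S S X Y ρ p → (a' < a ↔ b' < b)) (γ : Ordinal.{0}) :
    ∀ (A B : Set ℚ) (p : Set (M × M)), A ⊆ A₀ → B ⊆ B₀ → p₀ ⊆ p →
      (∀ a ∈ A₀, ∀ b ∈ B₀, BFR S S X Y ρ (insert (e a, e b) p) → (a ∈ A ↔ b ∈ B)) →
      BFR S S X Y (ρ + γ) p → LE γ A B := by
  induction γ using WellFoundedLT.induction with
  | _ γ ih =>
    intro A B p hA hB hp hAB hb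
    -- the step for a new matched pair
    have key : ∀ β < γ, ∀ a ∈ A₀, ∀ b ∈ B₀, BFR S S X Y (ρ + β) (insert (e a, e b) p) →
        LE β (A ∩ Iio a) (B ∩ Iio b) ∧ LE β (A ∩ Ioi a) (B ∩ Ioi b) := by
      intro β hβ a ha b hb' hab
      have hmem : ∀ z, (e a, e b) ∈ insert z (insert (e a, e b) p) := fun z =>
        mem_insert_of_mem _ (mem_insert _ _)
      have hsub : ∀ z, p₀ ⊆ insert z (insert (e a, e b) p) := fun z =>
        hp.trans ((subset_insert _ _).trans (subset_insert _ _))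
      constructor
      · refine ih β hβ _ _ _ (inter_subset_left.trans hA) (inter_subset_left.trans hB)
          (hp.trans (subset_insert _ _)) (fun a' ha' b' hb'' h => ?_) hab
        have e1 := hAB a' ha' b' hb'' (BFR.anti (insert_subset_insert (subset_insert _ _)) h)
        have e2 := h3 _ (hsub _) a ha a' ha' b hb' b' hb'' (hmem _) (mem_insert _ _) h
        exact and_congr e1 e2
      · refine ih β hβ _ _ _ (inter_subset_left.trans hA) (inter_subset_left.trans hB)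
          (hp.trans (subset_insert _ _)) (fun a' ha' b' hb'' h => ?_) hab
        have e1 := hAB a' ha' b' hb'' (BFR.anti (insert_subset_insert (subset_insert _ _)) h)
        have e2 := h3 _ (hsub _) a' ha' a ha b' hb'' b hb' (mem_insert _ _) (hmem _) h
        exact and_congr e1 e2
    rw [LE]
    intro β hβ
    have hlt : ρ + β < ρ + γ := add_lt_add_right hβ ρ
    have hle : ρ ≤ ρ + β := le_self_add
    constructor
    · intro x hx
      obtain ⟨y, hy, h⟩ := hb.forth hlt (hX x (hA hx))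
      obtain ⟨b, hb', rfl⟩ := h1 p hp x (hA hx) y hy (h.mono hle)
      exact ⟨b, (hAB x (hA hx) b hb' (h.mono hle)).mp hx, key β hβ x (hA hx) b hb' h⟩
    · intro y hy
      obtain ⟨x, hx, h⟩ := hb.back hlt (hY y (hB hy))
      obtain ⟨a, ha, rfl⟩ := h2 p hp y (hB hy) x hx (h.mono hle)
      exact ⟨a, (hAB a ha y (hB hy) (h.mono hle)).mpr hy, key β hβ a ha y (hB hy) h⟩

theorem LD1_shift {b : ℕ} {w : ℚ → Fin b → M} (hw : Seq S w) (u : ℚ) :
    Seq S fun q => w (u + q) where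
  inj := fun i p j q h => by
    obtain ⟨h1, h2⟩ := hw.inj _ _ _ _ h
    exact ⟨add_left_cancel h1, h2⟩
  atb := fun i j p q => hw.atb _ _ _ _
  atc := fun i i' j j' p q h h' => hw.atc _ _ _ _ _ _ (add_lt_add_right h u)
    (add_lt_add_right h' u)

/-- all late blocks are disjoint from `F` -/
theorem LD1_late {b : ℕ} {w : ℚ → Fin b → M} (hw : Seq S w) {F : Set M} (hF : F.Finite) :
    ∃ u : ℚ, ∀ q, 0 ≤ q → ∀ p, w (u + q) p ∉ F := by
  have h1 : {z : ℚ × Fin b | w z.1 z.2 ∈ F}.Finite := by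
    refine Set.Finite.preimage (f := fun z : ℚ × Fin b => w z.1 z.2) ?_ hF
    intro z _ z' _ h
    obtain ⟨h2, h3⟩ := hw.inj _ _ _ _ h
    exact Prod.ext h2 h3
  obtain ⟨u, hu⟩ := (h1.image Prod.fst).bddAbove
  refine ⟨u + 1, fun q hq p hp => ?_⟩
  have h2 : u + 1 + q ≤ u := hu ⟨(u + 1 + q, p), hp, rfl⟩
  linarith

theorem LD1_lt {w : ℚ → Fin 1 → M} (hw : Seq S w) (ha : Asy1 S w) {p : Set (M × M)}
    (hp : AtEq S S p) {a a' b b' : ℚ} (h : (w a 0, w b 0) ∈ p) (h' : (w a' 0, w b' 0) ∈ p)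
    (hlt : a' < a) : b' < b := by
  rcases lt_trichotomy b' b with h1 | h1 | h1
  · exact h1
  · exfalso
    have h2 := (hp.1 _ h _ h').mpr (by rw [h1])
    have h3 := (hw.inj _ _ _ _ h2).1
    exact hlt.ne' h3
  · exfalso
    have h2 := hw.atc b a' b' a 0 0 h1 hlt
    refine ha b b' h1 (LD1_trans h2 hp ?_)
    rintro z (rfl | rfl)
    · exact ⟨w a' 0, Or.inl rfl, h'⟩
    · exact ⟨w a 0, Or.inr rfl, h⟩

end

theorem thm_LD1 (hL : St_LOF) : St_LD1 := by
  intro L _ M S F hAr hF hP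
  rintro ⟨w₀, hw₀, ha₀⟩
  obtain ⟨I, γ, hγ, hI, hinj⟩ := hL
  obtain ⟨u, hu⟩ := LD1_late hw₀ hF
  have hw := LD1_shift hw₀ u
  have ha : Asy1 S fun q => w₀ (u + q) := fun i j hij => ha₀ _ _ (add_lt_add_right hij u)
  set w : ℚ → Fin 1 → M := fun q => w₀ (u + q) with hwdef
  have hwF : ∀ q, 0 ≤ q → w q 0 ∉ F := fun q hq => hu q hq 0
  have hinjw : Function.Injective fun q => w q 0 := fun a b h => (hw.inj _ _ _ _ h).1
  let X : (ℕ → Bool) → Set M := fun f => F ∪ (fun q => w q 0) '' I f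
  obtain ⟨f, g, hfg, h⟩ := hP X F γ hF Subset.rfl hγ fun f =>
    ⟨hF.countable.union ((Set.to_countable _).image _),
      ((hI f).1.image hinjw.injOn).mono subset_union_right, subset_union_left⟩
  apply hfg
  apply hinj
  refine LD1_core (S := S) (X := X f) (Y := X g) (fun q => w q 0) (I f) (I g) (dg F) 0
    (fun a ha => Or.inr ⟨a, ha, rfl⟩) (fun b hb => Or.inr ⟨b, hb, rfl⟩) ?_ ?_ ?_ γ (I f) (I g)
    (dg F) Subset.rfl Subset.rfl Subset.rfl (fun a ha b hb _ => ⟨fun _ => hb, fun _ => ha⟩)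
    (by rwa [zero_add])
  · rintro p hp a haI y (hy | ⟨b, hb, rfl⟩) hbf
    · exfalso
      have h1 := (hbf.atEq.1 _ (mem_insert _ _) (y, y)
        (mem_insert_of_mem _ (hp ⟨y, hy, rfl⟩))).mpr rfl
      have h2 : w a 0 = y := h1
      rw [← h2] at hy
      exact hwF a ((hI f).2 haI).1.le hy
    · exact ⟨b, hb, rfl⟩
  · rintro p hp b hbI x (hx | ⟨a, ha, rfl⟩) hbf
    · exfalso
      have h1 := (hbf.atEq.1 _ (mem_insert _ _) (x, x)
        (mem_insert_of_mem _ (hp ⟨x, hx, rfl⟩))).mp rfl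
      have h2 : w b 0 = x := h1
      rw [← h2] at hx
      exact hwF b ((hI g).2 hbI).1.le hx
    · exact ⟨a, ha, rfl⟩
  · intro p hp a _ a' _ b _ b' _ h1 h2 hbf
    constructor
    · exact LD1_lt hw ha hbf.atEq h1 h2
    · exact LD1_lt hw ha (p := Prod.swap ⁻¹' p) (LD1_symm hbf.atEq fun z hz => hz) h1 h2

end HER
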