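import Pool.Agent.HER.LD1

/-!
# HER, module LD2: linear orders are decoded from asymmetric pairs
-/

set_option autoImplicit false

namespace HER

open Set Pool.Agent.Helper5.DU Pool.Agent.Helper6.Str Pool.Agent.Helper79.VC
  Pool.Agent.Helper97.LO Pool.Agent.Helper97.VC

section

variable {L : FirstOrder.Language.{0, 0}} {M : Type} {S : L.Structure M}

/-- the pairs `(x, y)` and `(x', y')` have the same atomic type -/
def LD2_T (S : L.Structure M) (x y x' y' : M) : Prop := AtEq S S {(x, x'), (y, y')}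

theorem LD2_T.symm {x y x' y' : M} (h : LD2_T S x y x' y') : LD2_T S x' y' x y := by
  refine LD1_symm h ?_
  rintro z (rfl | rfl)
  · exact Or.inl rfl
  · exact Or.inr rfl

theorem LD2_T.trans {x y x' y' x'' y'' : M} (h : LD2_T S x y x' y')
    (h' : LD2_T S x' y' x'' y'') : LD2_T S x y x'' y'' := by
  refine LD1_trans h h' ?_
  rintro z (rfl | rfl)
  · exact ⟨x', Or.inl rfl, Or.inl rfl⟩
  · exact ⟨y', Or.inr rfl, Or.inr rfl⟩

theorem LD2_T.swap {x y x' y' : M} (h : LD2_T S x y x' y') : LD2_T S y x y' x' := by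
  unfold LD2_T at h ⊢
  rwa [Set.pair_comm]

theorem LD2_T.of {p : Set (M × M)} (hp : AtEq S S p) {x y x' y' : M} (h : (x, x') ∈ p)
    (h' : (y, y') ∈ p) : LD2_T S x y x' y' := by
  refine hp.anti ?_
  rintro z (rfl | rfl)
  · exact h
  · exact h'

variable {w : ℚ → Fin 2 → M}

/-- types of pairs of elements of the blocks depend on the order only -/
theorem LD2_cd {i j i' j' : ℚ} (hw : Seq S w) (p q : Fin 2) (h : i < j) (h' : i' < j') :
    LD2_T S (w i p) (w j q) (w i' p) (w j' q) := hw.atc i i' j j' p q h h'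

theorem LD2_dc {i j i' j' : ℚ} (hw : Seq S w) (p q : Fin 2) (h : j < i) (h' : j' < i') :
    LD2_T S (w i p) (w j q) (w i' p) (w j' q) :=
  LD2_T.swap (hw.atc j j' i i' q p h h')

theorem LD2_ee {i i' : ℚ} (hw : Seq S w) (p q : Fin 2) :
    LD2_T S (w i p) (w i q) (w i' p) (w i' q) := hw.atb i i' p q

theorem LD2_ne {i j : ℚ} (ha : Asy2 S w) (h : i < j) :
    ¬ LD2_T S (w i 0) (w j 1) (w j 0) (w i 1) := (ha i j h).2

theorem LD2_cc {i j : ℚ} (ha : Asy2 S w) (h : i < j) (p : Fin 2) :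
    LD2_T S (w i p) (w j p) (w j p) (w i p) := (ha i j h).1 p

/-- the sorts are preserved -/
theorem LD2_sort (hw : Seq S w) (ha : Asy2 S w) {p : Set (M × M)} (hp : AtEq S S p)
    {u v i m : ℚ} (huv : u < v) (hui : u < i) (hiv : i < v) (hum : u < m) (hmv : m < v)
    (hu : (w u 0, w u 0) ∈ p) (hv : (w v 0, w v 0) ∈ p) : (w i 0, w m 1) ∉ p := by
  intro h
  have h1 : LD2_T S (w u 0) (w i 0) (w u 0) (w m 1) := LD2_T.of hp hu h
  have h2 : LD2_T S (w v 0) (w i 0) (w v 0) (w m 1) := LD2_T.of hp hv h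
  have e1 : LD2_T S (w u 0) (w v 1) (w u 0) (w m 1) := LD2_cd hw 0 1 huv hum
  have e2 : LD2_T S (w i 0) (w v 0) (w u 0) (w i 0) := LD2_cd hw 0 0 hiv hui
  have e3 : LD2_T S (w v 0) (w i 0) (w i 0) (w v 0) := (LD2_cc ha hiv 0).symm
  have e4 : LD2_T S (w v 0) (w m 1) (w v 0) (w u 1) := LD2_dc hw 0 1 hmv huv
  -- `c_u, d_v ~ c_u, d_m ~ c_u, c_i ~ c_i, c_v ~ c_v, c_i ~ c_v, d_m ~ c_v, d_u`
  exact LD2_ne ha huv (e1.trans (h1.symm.trans (e2.symm.trans (e3.symm.trans (h2.trans e4)))))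

/-- the order is preserved if the partners are mapped -/
theorem LD2_ord (hw : Seq S w) (ha : Asy2 S w) {p : Set (M × M)} (hp : AtEq S S p)
    {i j i' j' : ℚ} (hi : (w i 0, w i' 0) ∈ p) (hj : (w j 0, w j' 0) ∈ p) (hij : i < j)
    (hs : (∃ m, (w j 1, w m 1) ∈ p ∧ ∀ k l k' : ℚ, k < l →
        ¬ LD2_T S (w k 0) (w l 1) (w k' 0) (w k' 1)) ∨
      (∃ m, (w i 1, w m 1) ∈ p ∧ ∀ k l k' : ℚ, k < l →
        ¬ LD2_T S (w l 0) (w k 1) (w k' 0) (w k' 1))) : i' < j' := by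
  rcases lt_trichotomy i' j' with h0 | h0 | h0
  · exact h0
  · exfalso
    have h2 := (hp.1 _ hi _ hj).mpr (by rw [h0])
    exact hij.ne (hw.inj _ _ _ _ h2).1
  · exfalso
    rcases hs with ⟨m, hm, hne⟩ | ⟨m, hm, hne⟩
    · have h1 : LD2_T S (w i 0) (w j 1) (w i' 0) (w m 1) := LD2_T.of hp hi hm
      have h2 : LD2_T S (w j 0) (w j 1) (w j' 0) (w m 1) := LD2_T.of hp hj hm
      rcases lt_trichotomy i' m with h3 | h3 | h3
      · have h4 : LD2_T S (w j' 0) (w m 1) (w i 0) (w j 1) :=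
          LD2_cd hw 0 1 (h0.trans h3) hij
        exact hne i j j hij (h2.trans h4).symm
      · subst h3
        exact hne i j i' hij h1
      · have h4 : LD2_T S (w i' 0) (w m 1) (w j 0) (w i 1) := LD2_dc hw 0 1 h3 hij
        exact LD2_ne ha hij (h1.trans h4)
    · have h1 : LD2_T S (w i 0) (w i 1) (w i' 0) (w m 1) := LD2_T.of hp hi hm
      have h2 : LD2_T S (w j 0) (w i 1) (w j' 0) (w m 1) := LD2_T.of hp hj hm
      rcases lt_trichotomy j' m with h3 | h3 | h3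
      · have h4 : LD2_T S (w j' 0) (w m 1) (w i 0) (w j 1) := LD2_cd hw 0 1 h3 hij
        exact LD2_ne ha hij (h2.trans h4).symm
      · subst h3
        exact hne i j j' hij h2
      · have h4 : LD2_T S (w i' 0) (w m 1) (w j 0) (w i 1) :=
          LD2_dc hw 0 1 (h3.trans h0) hij
        exact hne i j i hij (h1.trans h4).symm

/-- one of the two types of pairs is different from the type in the blocks -/
theorem LD2_or (hw : Seq S w) (ha : Asy2 S w) :
    (∀ k l k' : ℚ, k < l → ¬ LD2_T S (w k 0) (w l 1) (w k' 0) (w k' 1)) ∨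
      (∀ k l k' : ℚ, k < l → ¬ LD2_T S (w l 0) (w k 1) (w k' 0) (w k' 1)) := by
  by_contra hcon
  rw [not_or] at hcon
  obtain ⟨h1, h2⟩ := hcon
  push Not at h1 h2
  obtain ⟨k, l, k', hkl, h1⟩ := h1
  obtain ⟨i, j, i', hij, h2⟩ := h2
  have h3 : LD2_T S (w k' 0) (w k' 1) (w i' 0) (w i' 1) := LD2_ee hw 0 1
  have h4 : LD2_T S (w j 0) (w i 1) (w l 0) (w k 1) := LD2_dc hw 0 1 hij hkl
  exact LD2_ne ha hkl (h1.trans (h3.trans (h2.symm.trans h4)))

end

theorem thm_LD2 (hL : St_LOF) : St_LD2 := by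
  intro L _ M S F hAr hF hP
  rintro ⟨w₀, hw₀, ha₀⟩
  obtain ⟨I, γ, hγ, hI, hinj⟩ := hL
  obtain ⟨u, hu⟩ := LD1_late hw₀ hF
  have hw := LD1_shift hw₀ u
  have ha : Asy2 S fun q => w₀ (u + q) := fun i j hij => ha₀ _ _ (add_lt_add_right hij u)
  set w : ℚ → Fin 2 → M := fun q => w₀ (u + q) with hwdef
  have hwF : ∀ q, 0 ≤ q → ∀ p, w q p ∉ F := hu
  have hinjw : ∀ p, Function.Injective fun q => w q p := fun p a b h => (hw.inj _ _ _ _ h).1
  let G : Set M := F ∪ {w 0 0, w 1 0}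
  let X : (ℕ → Bool) → Set M := fun f =>
    G ∪ ((fun q => w q 0) '' I f ∪ (fun q => w q 1) '' I f)
  have hG : G.Finite := hF.union ((finite_singleton _).insert _)
  have hγ' : 1 + γ < om1 := add_lt_om1 one_lt_om1 hγ
  obtain ⟨f, g, hfg, h⟩ := hP X G (1 + γ) hG subset_union_left hγ' fun f =>
    ⟨hG.countable.union (((Set.to_countable _).image _).union ((Set.to_countable _).image _)),
      (((hI f).1.image (hinjw 0).injOn).mono subset_union_left).mono subset_union_right,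
      subset_union_left⟩
  apply hfg
  apply hinj
  -- the elements of the middle blocks are not in `G`
  have hmid : ∀ q, 0 < q → q < 1 → ∀ p, w q p ∉ G := by
    rintro q h0 h1 p (h | h | h)
    · exact hwF q h0.le p h
    · exact h0.ne' (hw.inj _ _ _ _ h).1
    · exact h1.ne (hw.inj _ _ _ _ h).1
  have hfix : ∀ {p : Set (M × M)}, dg G ⊆ p → AtEq S S p → ∀ x y, (x, y) ∈ p →
      (x ∈ G ↔ y ∈ G) := by
    intro p hp hat x y hxy
    constructor
    · intro hx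
      have h1 := (hat.1 _ hxy (x, x) (hp ⟨x, hx, rfl⟩)).mp rfl
      have h2 : y = x := h1
      rwa [h2]
    · intro hy
      have h1 := (hat.1 _ hxy (y, y) (hp ⟨y, hy, rfl⟩)).mpr rfl
      have h2 : x = y := h1
      rwa [h2]
  have hg0 : (w 0 0, w 0 0) ∈ dg G := ⟨w 0 0, Or.inr (Or.inl rfl), rfl⟩
  have hg1 : (w 1 0, w 1 0) ∈ dg G := ⟨w 1 0, Or.inr (Or.inr rfl), rfl⟩
  have hsort : ∀ {p : Set (M × M)}, dg G ⊆ p → AtEq S S p → ∀ i m : ℚ, 0 < i → i < 1 → 0 < m →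
      m < 1 → (w i 0, w m 1) ∉ p := fun hp hat i m h1 h2 h3 h4 =>
    LD2_sort hw ha hat zero_lt_one h1 h2 h3 h4 (hp hg0) (hp hg1)
  have hsort' : ∀ {p : Set (M × M)}, dg G ⊆ p → AtEq S S p → ∀ i m : ℚ, 0 < i → i < 1 → 0 < m →
      m < 1 → (w m 1, w i 0) ∉ p := by
    intro p hp hat i m h1 h2 h3 h4
    refine hsort (p := Prod.swap ⁻¹' p) ?_ (LD1_symm hat fun z hz => hz) i m h1 h2 h3 h4
    rintro _ ⟨z, hz, rfl⟩
    exact hp ⟨z, hz, rfl⟩
  -- images of the elements `d`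
  have hd : ∀ {p : Set (M × M)}, dg G ⊆ p → BFR S S (X f) (X g) 1 p → ∀ i ∈ I f,
      ∃ m ∈ I g, AtEq S S (insert (w i 1, w m 1) p) := by
    intro p hp hbf i hi
    obtain ⟨y, hy, h1⟩ := hbf.forth zero_lt_one (x := w i 1) (Or.inr (Or.inr ⟨i, hi, rfl⟩))
    have hat := h1.atEq
    have hi' := (hI f).2 hi
    rcases hy with hy | ⟨m, hm, rfl⟩ | ⟨m, hm, rfl⟩
    · exact absurd ((hfix (hp.trans (subset_insert _ _)) hat _ _ (mem_insert _ _)).mpr hy)
        (hmid i hi'.1 hi'.2 1)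
    · have hm' := (hI g).2 hm
      exact absurd (mem_insert _ _) (hsort' (hp.trans (subset_insert _ _)) hat m i hm'.1 hm'.2
        hi'.1 hi'.2)
    · exact ⟨m, hm, hat⟩
  have hd' : ∀ {p : Set (M × M)}, dg G ⊆ p → BFR S S (X f) (X g) 1 p → ∀ i ∈ I g,
      ∃ m ∈ I f, AtEq S S (insert (w m 1, w i 1) p) := by
    intro p hp hbf i hi
    obtain ⟨y, hy, h1⟩ := hbf.back zero_lt_one (y := w i 1) (Or.inr (Or.inr ⟨i, hi, rfl⟩))
    have hat := h1.atEq
    have hi' := (hI g).2 hi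
    rcases hy with hy | ⟨m, hm, rfl⟩ | ⟨m, hm, rfl⟩
    · exact absurd ((hfix (hp.trans (subset_insert _ _)) hat _ _ (mem_insert _ _)).mp hy)
        (hmid i hi'.1 hi'.2 1)
    · have hm' := (hI f).2 hm
      exact absurd (mem_insert _ _) (hsort (hp.trans (subset_insert _ _)) hat m i hm'.1 hm'.2
        hi'.1 hi'.2)
    · exact ⟨m, hm, hat⟩
  refine LD1_core (S := S) (X := X f) (Y := X g) (fun q => w q 0) (I f) (I g) (dg G) 1
    (fun a ha => Or.inr (Or.inl ⟨a, ha, rfl⟩)) (fun b hb => Or.inr (Or.inl ⟨b, hb, rfl⟩))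
    ?_ ?_ ?_ γ (I f) (I g) (dg G) Subset.rfl Subset.rfl Subset.rfl
    (fun a ha b hb _ => ⟨fun _ => hb, fun _ => ha⟩) h
  · intro p hp a haI y hy hbf
    have hat := hbf.atEq
    have ha' := (hI f).2 haI
    rcases hy with hy | ⟨m, hm, rfl⟩ | ⟨m, hm, rfl⟩
    · exact absurd ((hfix (hp.trans (subset_insert _ _)) hat _ _ (mem_insert _ _)).mpr hy)
        (hmid a ha'.1 ha'.2 0)
    · exact ⟨m, hm, rfl⟩
    · have hm' := (hI g).2 hm
      exact absurd (mem_insert _ _) (hsort (hp.trans (subset_insert _ _)) hat a m ha'.1 ha'.2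
        hm'.1 hm'.2)
  · intro p hp a haI y hy hbf
    have hat := hbf.atEq
    have ha' := (hI g).2 haI
    rcases hy with hy | ⟨m, hm, rfl⟩ | ⟨m, hm, rfl⟩
    · exact absurd ((hfix (hp.trans (subset_insert _ _)) hat _ _ (mem_insert _ _)).mp hy)
        (hmid a ha'.1 ha'.2 0)
    · exact ⟨m, hm, rfl⟩
    · have hm' := (hI f).2 hm
      exact absurd (mem_insert _ _) (hsort' (hp.trans (subset_insert _ _)) hat a m ha'.1 ha'.2
        hm'.1 hm'.2)
  · intro p hp a haI a' haI' b hbI b' hbI' h1 h2 hbf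
    have hs1 : ∀ {z : M × M}, (w a 0, w b 0) ∈ insert z p := mem_insert_of_mem _ h1
    have hs2 : ∀ {z : M × M}, (w a' 0, w b' 0) ∈ insert z p := mem_insert_of_mem _ h2
    constructor
    · intro hlt
      rcases LD2_or hw ha with hor | hor
      · obtain ⟨m, -, hm⟩ := hd hp hbf a haI
        exact LD2_ord hw ha hm hs2 hs1 hlt (Or.inl ⟨m, mem_insert _ _, hor⟩)
      · obtain ⟨m, -, hm⟩ := hd hp hbf a' haI'
        exact LD2_ord hw ha hm hs2 hs1 hlt (Or.inr ⟨m, mem_insert _ _, hor⟩)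
    · intro hlt
      rcases LD2_or hw ha with hor | hor
      · obtain ⟨m, -, hm⟩ := hd' hp hbf b hbI
        exact LD2_ord hw ha (p := Prod.swap ⁻¹' insert (w m 1, w b 1) p)
          (LD1_symm hm fun z hz => hz) hs2 hs1 hlt (Or.inl ⟨m, mem_insert _ _, hor⟩)
      · obtain ⟨m, -, hm⟩ := hd' hp hbf b' hbI'
        exact LD2_ord hw ha (p := Prod.swap ⁻¹' insert (w m 1, w b' 1) p)
          (LD1_symm hm fun z hz => hz) hs2 hs1 hlt (Or.inr ⟨m, mem_insert _ _, hor⟩)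

end HER
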