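import Pool.Agent.HER.St

/-!
# HER, module MAIN: the large structure of a hereditary class is tame
-/

set_option autoImplicit false

namespace HER

open Set Pool.Agent.Helper5.DU Pool.Agent.Helper6.Str Pool.Agent.Helper79.VC
  Pool.Agent.Helper97.LO Pool.Agent.Helper97.VC

theorem thm_MAIN (h1 : St_CSS) (h2 : St_BK3) (h3 : St_TAM) : St_MAIN := by
  intro L _ _ K δ M S hL hS hK
  obtain ⟨F, C, t, inv, col, hF, hC, ht, hcol, hcs⟩ := h1 L K δ M S hL hS hK
  have := hC
  obtain ⟨I, A, cl, g, s, B, hI, hB, hfin, hunc⟩ := h2 {x : M // x ∉ F} C inv col hcs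
  exact h3 L M S F C I t col A cl g s B hL hF hC hI ht hcol hB hfin hunc

end HER
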