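import Pool.Agent.HER.St

/-!
# HER: the structure given by a linear order and a sequence
-/

set_option autoImplicit false

namespace HER

open Set Pool.Agent.Helper5.DU Pool.Agent.Helper6.Str Pool.Agent.Helper79.VC
  Pool.Agent.Helper97.LO Pool.Agent.Helper97.VC

/-- evaluation of the elements of the new structure -/
def NS_ev {M : Type} {F : Set M} {J : Type} {b : ℕ} (w : Om → Fin b → M) (h : J → Om) :
    F ⊕ J × Fin b → M
  | Sum.inl a => a
  | Sum.inr jp => w (h jp.1) jp.2

/-- the indices used by a tuple -/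
def NS_co {M : Type} {F : Set M} {J : Type} {b n : ℕ} (u : Fin n → F ⊕ J × Fin b) : Set J :=
  {j | ∃ i p, u i = Sum.inr (j, p)}

theorem NS_set {L : FirstOrder.Language.{0, 0}} {M : Type} {S : L.Structure M} {F : Set M}
    {J : Type} [LinearOrder J] {b : ℕ} {w : Om → Fin b → M}
    (h3 : ∀ i j p, AtEq S S (dg F ∪ {(w i p, w j p)}))
    (h4 : ∀ i i' j j' p q, i < j → i' < j' →
      AtEq S S (dg F ∪ {(w i p, w i' p), (w j q, w j' q)}))
    (h5 : ∀ i i' p q, AtEq S S (dg F ∪ {(w i p, w i' p), (w i q, w i' q)}))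
    (hne : AtEq S S (dg F)) (h h' : J → Om) (x y : F ⊕ J × Fin b) (D : Set J)
    (hh : StrictMonoOn h D) (hh' : StrictMonoOn h' D)
    (hx : ∀ j p, x = Sum.inr (j, p) → j ∈ D) (hy : ∀ j p, y = Sum.inr (j, p) → j ∈ D) :
    ∃ Γ : Set (M × M), AtEq S S Γ ∧ (NS_ev w h x, NS_ev w h' x) ∈ Γ ∧
      (NS_ev w h y, NS_ev w h' y) ∈ Γ := by
  rcases x with a | ⟨j, p⟩
  · rcases y with a' | ⟨j', p'⟩
    · exact ⟨dg F, hne, ⟨a, a.2, rfl⟩, ⟨a', a'.2, rfl⟩⟩
    · exact ⟨_, h3 (h j') (h' j') p', Or.inl ⟨a, a.2, rfl⟩, Or.inr rfl⟩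
  · rcases y with a' | ⟨j', p'⟩
    · exact ⟨_, h3 (h j) (h' j) p, Or.inr rfl, Or.inl ⟨a', a'.2, rfl⟩⟩
    · have hj := hx j p rfl
      have hj' := hy j' p' rfl
      rcases lt_trichotomy j j' with hlt | rfl | hlt
      · exact ⟨_, h4 (h j) (h' j) (h j') (h' j') p p' (hh hj hj' hlt) (hh' hj hj' hlt),
          Or.inr (Or.inl rfl), Or.inr (Or.inr rfl)⟩
      · exact ⟨_, h5 (h j) (h' j) p p', Or.inr (Or.inl rfl), Or.inr (Or.inr rfl)⟩
      · exact ⟨_, h4 (h j') (h' j') (h j) (h' j) p' p (hh hj' hj hlt) (hh' hj' hj hlt),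
          Or.inr (Or.inr rfl), Or.inr (Or.inl rfl)⟩

theorem thm_NS : St_NS := by
  classical
  intro L _ M S F b w J _ har hb hwF hseq h3 h4 h5
  have hne : AtEq S S (dg F) := by
    refine ⟨?_, fun n R v hv => ?_⟩
    · rintro _ ⟨x, -, rfl⟩ _ ⟨y, -, rfl⟩
      exact Iff.rfl
    · have h0 : (fun i => (v i).1) = fun i => (v i).2 := by
        funext i
        obtain ⟨x, -, hx⟩ := hv i
        rw [← hx]
      rw [h0]
  let T : L.Structure (F ⊕ J × Fin b) :=
    { funMap := fun {n} f => isEmptyElim f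
      RelMap := fun {n} R v => ∃ h : J → Om, StrictMonoOn h (NS_co v) ∧
        S.RelMap R (fun i => NS_ev w h (v i)) }
  refine ⟨T, fun D h hD => ⟨?_, ?_⟩⟩
  · rintro r hr r' hr'
    rcases hr with ⟨a, rfl⟩ | ⟨j, hj, p, rfl⟩
    · rcases hr' with ⟨a', rfl⟩ | ⟨j', hj', p', rfl⟩
      · simp [Subtype.ext_iff]
      · constructor
        · intro h0
          simp at h0
        · intro h0
          exact absurd a.2 (by
            have h1 : (a : M) = w (h j') p' := h0
            rw [h1]
            exact hwF _ _)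
    · rcases hr' with ⟨a', rfl⟩ | ⟨j', hj', p', rfl⟩
      · constructor
        · intro h0
          simp at h0
        · intro h0
          exact absurd a'.2 (by
            have h1 : w (h j) p = (a' : M) := h0
            rw [← h1]
            exact hwF _ _)
      · constructor
        · intro h0
          have h1 := Sum.inr_injective h0
          rw [Prod.mk.injEq] at h1
          obtain ⟨rfl, rfl⟩ := h1
          rfl
        · intro h0
          obtain ⟨h1, h2⟩ := hseq.inj _ _ _ _ h0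
          have h6 := hD.injOn hj hj' h1
          show Sum.inr (j, p) = Sum.inr (j', p')
          rw [h6, h2]
  · intro n R v hv
    have hev : ∀ i, (v i).2 = NS_ev w h (v i).1 := by
      intro i
      rcases hv i with ⟨a, ha⟩ | ⟨j, hj, p, ha⟩
      · rw [ha]
        rfl
      · rw [ha]
        rfl
    have hco : NS_co (fun i => (v i).1) ⊆ D := by
      rintro j ⟨i, p, hi0⟩
      have hi : (v i).1 = Sum.inr (j, p) := hi0
      rcases hv i with ⟨a, ha⟩ | ⟨j', hj', p', ha⟩
      · rw [ha] at hi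
        simp at hi
      · rw [ha] at hi
        have h1 := Sum.inr_injective hi
        rw [Prod.mk.injEq] at h1
        rw [← h1.1]
        exact hj'
    have hmono := hD.mono hco
    have e2 : (fun i => (v i).2) = fun i => NS_ev w h (v i).1 := funext hev
    rw [e2]
    constructor
    · rintro ⟨h', hh', hS⟩
      set u : Fin n → F ⊕ J × Fin b := fun i => (v i).1 with hu
      have key : ∃ Γ : Set (M × M), AtEq S S Γ ∧
          ∀ i, (NS_ev w h' (u i), NS_ev w h (u i)) ∈ Γ := by
        by_cases hn1 : n = 1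
        · subst hn1
          obtain ⟨Γ, hΓ, h6, -⟩ := NS_set h3 h4 h5 hne h' h (u 0) (u 0) (NS_co u) hh' hmono
            (fun j p hj => ⟨0, p, hj⟩) (fun j p hj => ⟨0, p, hj⟩)
          refine ⟨Γ, hΓ, fun i => ?_⟩
          rw [Subsingleton.elim i 0]
          exact h6
        · by_cases hn2 : n = 2
          · subst hn2
            obtain ⟨Γ, hΓ, h6, h7⟩ := NS_set h3 h4 h5 hne h' h (u 0) (u 1) (NS_co u) hh' hmono
              (fun j p hj => ⟨0, p, hj⟩) (fun j p hj => ⟨1, p, hj⟩)
            refine ⟨Γ, hΓ, fun i => ?_⟩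
            fin_cases i
            · exact h6
            · exact h7
          · exact ((har n hn1 hn2).false R).elim
      obtain ⟨Γ, hΓ, hΓ'⟩ := key
      exact (hΓ.2 n R (fun i => (NS_ev w h' (u i), NS_ev w h (u i))) hΓ').mp hS
    · intro hS
      exact ⟨h, hmono, hS⟩

end HER
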