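import Pool.Agent.HER.St

/-!
# HER [NT]: transfer of the equivalence of linear orders
-/

set_option autoImplicit false

namespace HER

open Set Pool.Agent.Helper5.DU Pool.Agent.Helper6.Str Pool.Agent.Helper79.VC
  Pool.Agent.Helper97.LO Pool.Agent.Helper97.VC

theorem NT_LE_def {I J : Type} [LinearOrder I] [LinearOrder J] {γ : Ordinal.{0}} {A : Set I}
    {B : Set J} : LE γ A B ↔ ∀ β < γ,
    (∀ x ∈ A, ∃ y ∈ B, LE β (A ∩ Iio x) (B ∩ Iio y) ∧ LE β (A ∩ Ioi x) (B ∩ Ioi y)) ∧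
    (∀ y ∈ B, ∃ x ∈ A, LE β (A ∩ Iio x) (B ∩ Iio y) ∧ LE β (A ∩ Ioi x) (B ∩ Ioi y)) := by
  rw [LE]

theorem NT_LE_mono {I J : Type} [LinearOrder I] [LinearOrder J] {γ β : Ordinal.{0}} {A : Set I}
    {B : Set J} (h : β ≤ γ) (hL : LE γ A B) : LE β A B := by
  rw [NT_LE_def] at hL ⊢
  exact fun α hα => hL α (hα.trans_le h)

theorem NT_LE_symm {I J : Type} [LinearOrder I] [LinearOrder J] {γ : Ordinal.{0}} :
    ∀ {A : Set I} {B : Set J}, LE γ A B → LE γ B A := by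
  induction γ using WellFoundedLT.induction with
  | _ γ ih =>
    intro A B h
    rw [NT_LE_def] at h ⊢
    intro β hβ
    refine ⟨fun y hy => ?_, fun x hx => ?_⟩
    · obtain ⟨x, hx, h1, h2⟩ := (h β hβ).2 y hy
      exact ⟨x, hx, ih β hβ h1, ih β hβ h2⟩
    · obtain ⟨y, hy, h1, h2⟩ := (h β hβ).1 x hx
      exact ⟨y, hy, ih β hβ h1, ih β hβ h2⟩

/-- the gap of the cut `E` of `D` -/
def NT_gp {P J : Type} [LinearOrder J] (f : P → J) (E D : Set P) : Set J :=
  {z | (∀ d ∈ E, f d < z) ∧ ∀ d ∈ D, d ∉ E → z < f d}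

/-- the matching `D` preserves the order, and the gaps are equivalent -/
def NT_good {P J J' : Type} [LinearOrder J] [LinearOrder J'] (f : P → J) (f' : P → J')
    (γ : Ordinal.{0}) (D : Set P) : Prop :=
  (∀ d ∈ D, ∀ e ∈ D, (f d < f e ↔ f' d < f' e)) ∧
    ∀ E ⊆ D, (∀ d ∈ E, ∀ e ∈ D, e ∉ E → f d < f e) → LE γ (NT_gp f E D) (NT_gp f' E D)

theorem NT_gpA {P J : Type} [LinearOrder J] {f : P → J} {p : P} {D E : Set P}
    (hE : E ⊆ insert p D) (hp : p ∈ E) :
    NT_gp f E (insert p D) = NT_gp f (E ∩ D) D ∩ Ioi (f p) := by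
  ext z
  constructor
  · rintro ⟨h1, h2⟩
    exact ⟨⟨fun d hd => h1 d hd.1, fun d hd hdE => h2 d (mem_insert_of_mem _ hd)
      (fun h => hdE ⟨h, hd⟩)⟩, h1 p hp⟩
  · rintro ⟨⟨h1, h2⟩, h3⟩
    refine ⟨fun d hd => ?_, fun d hd hdE => ?_⟩
    · rcases hE hd with rfl | h4
      · exact h3
      · exact h1 d ⟨hd, h4⟩
    · rcases hd with rfl | h4
      · exact absurd hp hdE
      · exact h2 d h4 (fun h => hdE h.1)

theorem NT_gpB {P J : Type} [LinearOrder J] {f : P → J} {p : P} {D E : Set P} (hp : p ∉ E) :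
    NT_gp f E (insert p D) = NT_gp f E D ∩ Iio (f p) := by
  ext z
  constructor
  · rintro ⟨h1, h2⟩
    exact ⟨⟨h1, fun d hd hdE => h2 d (mem_insert_of_mem _ hd) hdE⟩, h2 p (mem_insert _ _) hp⟩
  · rintro ⟨⟨h1, h2⟩, h3⟩
    refine ⟨h1, fun d hd hdE => ?_⟩
    rcases hd with rfl | h4
    · exact h3
    · exact h2 d h4 hdE

theorem NT_good_mono {P J J' : Type} [LinearOrder J] [LinearOrder J'] {f : P → J} {f' : P → J'}
    {γ β : Ordinal.{0}} {D : Set P} (h : β ≤ γ) (hg : NT_good f f' γ D) : NT_good f f' β D :=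
  ⟨hg.1, fun E hE hc => NT_LE_mono h (hg.2 E hE hc)⟩

theorem NT_good_symm {P J J' : Type} [LinearOrder J] [LinearOrder J'] {f : P → J} {f' : P → J'}
    {γ : Ordinal.{0}} {D : Set P} (hg : NT_good f f' γ D) : NT_good f' f γ D :=
  ⟨fun d hd e he => (hg.1 d hd e he).symm, fun E hE hc => NT_LE_symm (hg.2 E hE
    fun d hd e he hne => (hg.1 d (hE hd) e he).2 (hc d hd e he hne))⟩

theorem NT_step {P J J' : Type} [LinearOrder J] [LinearOrder J'] {f : P → J} {f' : P → J'}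
    (mk : J → J' → P) (h1 : ∀ x y, f (mk x y) = x) (h2 : ∀ x y, f' (mk x y) = y)
    {γ β : Ordinal.{0}} {D : Set P} (hβ : β < γ) (hg : NT_good f f' γ D) (x : J)
    (hx : ∀ d ∈ D, f d ≠ x) : ∃ y, NT_good f f' β (insert (mk x y) D) := by
  obtain ⟨g1, g2⟩ := hg
  set E : Set P := {d ∈ D | f d < x} with hE
  have hED : E ⊆ D := fun d hd => hd.1
  have hgt : ∀ d ∈ D, d ∉ E → x < f d := by
    intro d hd hdE
    have : ¬ f d < x := fun h => hdE ⟨hd, h⟩
    exact lt_of_le_of_ne (not_lt.1 this) (hx d hd).symm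
  have hc : ∀ d ∈ E, ∀ e ∈ D, e ∉ E → f d < f e := fun d hd e he hne => hd.2.trans (hgt e he hne)
  have hxE : x ∈ NT_gp f E D := ⟨fun d hd => hd.2, hgt⟩
  obtain ⟨y, hyE, hL, hR⟩ := ((NT_LE_def.1 (g2 E hED hc)) β hβ).1 x hxE
  refine ⟨y, ?_, ?_⟩
  · have key : ∀ e ∈ D, (x < f e ↔ y < f' e) ∧ (f e < x ↔ f' e < y) := by
      intro e he
      by_cases heE : e ∈ E
      · have a1 : f e < x := heE.2
        have a2 : f' e < y := hyE.1 e heE
        exact ⟨⟨fun h => absurd h a1.not_gt, fun h => absurd h a2.not_gt⟩,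
          ⟨fun _ => a2, fun _ => a1⟩⟩
      · have a1 : x < f e := hgt e he heE
        have a2 : y < f' e := hyE.2 e he heE
        exact ⟨⟨fun _ => a2, fun _ => a1⟩,
          ⟨fun h => absurd h a1.not_gt, fun h => absurd h a2.not_gt⟩⟩
    rintro d (rfl | hd) e (rfl | he)
    · simp
    · rw [h1, h2]
      exact (key e he).1
    · rw [h1, h2]
      exact (key d hd).2
    · exact g1 d hd e he
  · intro E' hE' hc'
    by_cases hp : mk x y ∈ E'
    · rw [NT_gpA hE' hp, NT_gpA hE' hp, h1, h2]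
      have hsub : E ⊆ E' ∩ D := by
        intro d hd
        refine ⟨?_, hd.1⟩
        by_contra hdE'
        have := hc' _ hp d (mem_insert_of_mem _ hd.1) hdE'
        rw [h1] at this
        exact this.not_gt hd.2
      by_cases hEE : E' ∩ D = E
      · rw [hEE]
        exact hR
      · obtain ⟨e, he, heE⟩ : ∃ e ∈ E' ∩ D, e ∉ E := by
          by_contra hcon
          push Not at hcon
          exact hEE (Subset.antisymm hcon hsub)
        have a1 : x < f e := hgt e he.2 heE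
        have a2 : y < f' e := hyE.2 e he.2 heE
        have b1 : NT_gp f (E' ∩ D) D ⊆ Ioi x := fun z hz => a1.trans (hz.1 e he)
        have b2 : NT_gp f' (E' ∩ D) D ⊆ Ioi y := fun z hz => a2.trans (hz.1 e he)
        rw [inter_eq_left.2 b1, inter_eq_left.2 b2]
        refine NT_LE_mono hβ.le (g2 (E' ∩ D) inter_subset_right fun d hd u hu huE => ?_)
        exact hc' d hd.1 u (mem_insert_of_mem _ hu) fun h => huE ⟨h, hu⟩
    · rw [NT_gpB hp, NT_gpB hp, h1, h2]
      have hE'D : E' ⊆ D := by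
        intro d hd
        rcases hE' hd with rfl | h4
        · exact absurd hd hp
        · exact h4
      have hsub : E' ⊆ E := by
        intro d hd
        have := hc' d hd _ (mem_insert _ _) hp
        rw [h1] at this
        exact ⟨hE'D hd, this⟩
      by_cases hEE : E' = E
      · rw [hEE]
        exact hL
      · obtain ⟨e, he, heE⟩ : ∃ e ∈ E, e ∉ E' := by
          by_contra hcon
          push Not at hcon
          exact hEE (Subset.antisymm hsub hcon)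
        have a1 : f e < x := he.2
        have a2 : f' e < y := hyE.1 e he
        have b1 : NT_gp f E' D ⊆ Iio x := fun z hz => (hz.2 e he.1 heE).trans a1
        have b2 : NT_gp f' E' D ⊆ Iio y := fun z hz => (hz.2 e he.1 heE).trans a2
        rw [inter_eq_left.2 b1, inter_eq_left.2 b2]
        exact NT_LE_mono hβ.le (g2 E' hE'D fun d hd u hu huE =>
          hc' d hd u (mem_insert_of_mem _ hu) huE)

/-- the matching of the structures given by a matching of the orders -/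
def NT_ps (Q : Type) (b : ℕ) {J J' : Type} (D : Set (J × J')) :
    Set ((Q ⊕ J × Fin b) × (Q ⊕ J' × Fin b)) :=
  {r | (∃ a : Q, r = (Sum.inl a, Sum.inl a)) ∨
    ∃ d ∈ D, ∃ p, r = (Sum.inr (d.1, p), Sum.inr (d.2, p))}

theorem NT_two {Q : Type} {b : ℕ} {J J' : Type} [LinearOrder J] [LinearOrder J'] [Nonempty J]
    [Nonempty J'] {D : Set (J × J')}
    (hD : ∀ d ∈ D, ∀ e ∈ D, (d.1 < e.1 ↔ d.2 < e.2)) {r s}
    (hr : r ∈ NT_ps Q b D) (hs : s ∈ NT_ps Q b D) :
    ∃ (j : Fin 2 → J) (j' : Fin 2 → J'), (j 0 < j 1 ↔ j' 0 < j' 1) ∧ (j 1 < j 0 ↔ j' 1 < j' 0) ∧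
      ∀ t ∈ ({r, s} : Set _), t ∈ {r : (Q ⊕ J × Fin b) × (Q ⊕ J' × Fin b) |
        (∃ a : Q, r = (Sum.inl a, Sum.inl a)) ∨
          ∃ i p, r = (Sum.inr (j i, p), Sum.inr (j' i, p))} := by
  rcases hr with ⟨a, rfl⟩ | ⟨d, hd, p, rfl⟩ <;> rcases hs with ⟨a', rfl⟩ | ⟨e, he, p', rfl⟩
  · obtain ⟨j0⟩ := ‹Nonempty J›
    obtain ⟨j0'⟩ := ‹Nonempty J'›
    refine ⟨fun _ => j0, fun _ => j0', by simp, by simp, ?_⟩
    rintro t (rfl | rfl)
    · exact Or.inl ⟨a, rfl⟩
    · exact Or.inl ⟨a', rfl⟩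
  · refine ⟨fun _ => e.1, fun _ => e.2, by simp, by simp, ?_⟩
    rintro t (rfl | rfl)
    · exact Or.inl ⟨a, rfl⟩
    · exact Or.inr ⟨0, p', rfl⟩
  · refine ⟨fun _ => d.1, fun _ => d.2, by simp, by simp, ?_⟩
    rintro t (rfl | rfl)
    · exact Or.inr ⟨0, p, rfl⟩
    · exact Or.inl ⟨a', rfl⟩
  · refine ⟨![d.1, e.1], ![d.2, e.2], hD d hd e he, hD e he d hd, ?_⟩
    rintro t (rfl | rfl)
    · exact Or.inr ⟨0, p, rfl⟩
    · exact Or.inr ⟨1, p', rfl⟩

theorem NT_bfr {L : FirstOrder.Language.{0, 0}} {Q : Type} {b : ℕ} {J J' : Type}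
    [LinearOrder J] [LinearOrder J'] [Nonempty J] [Nonempty J']
    {T : L.Structure (Q ⊕ J × Fin b)} {T' : L.Structure (Q ⊕ J' × Fin b)} (hA : Ar2 L)
    (hT : ∀ (j : Fin 2 → J) (j' : Fin 2 → J'), (j 0 < j 1 ↔ j' 0 < j' 1) →
      (j 1 < j 0 ↔ j' 1 < j' 0) →
      AtEq T T' {r | (∃ a : Q, r = (Sum.inl a, Sum.inl a)) ∨
        ∃ i p, r = (Sum.inr (j i, p), Sum.inr (j' i, p))}) {γ : Ordinal.{0}} :
    ∀ {D : Set (J × J')}, NT_good Prod.fst Prod.snd γ D →
      BFR T T' univ univ γ (NT_ps Q b D) := by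
  induction γ using WellFoundedLT.induction with
  | _ γ ih =>
    intro D hg
    rw [BFR.def]
    refine ⟨⟨fun r hr s hs => ?_, fun n R v hv => ?_⟩, fun β hβ => ⟨fun x _ => ?_, fun y _ => ?_⟩⟩
    · obtain ⟨j, j', h1, h2, h3⟩ := NT_two hg.1 hr hs
      exact (hT j j' h1 h2).1 r (h3 r (mem_insert _ _)) s
        (h3 s (mem_insert_of_mem _ (mem_singleton _)))
    · by_cases hn1 : n = 1
      · subst hn1
        obtain ⟨j, j', h1, h2, h3⟩ := NT_two hg.1 (hv 0) (hv 0)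
        refine (hT j j' h1 h2).2 1 R v fun i => ?_
        rw [Subsingleton.elim i 0]
        exact h3 _ (mem_insert _ _)
      · by_cases hn2 : n = 2
        · subst hn2
          obtain ⟨j, j', h1, h2, h3⟩ := NT_two hg.1 (hv 0) (hv 1)
          refine (hT j j' h1 h2).2 2 R v fun i => ?_
          fin_cases i
          · exact h3 _ (mem_insert _ _)
          · exact h3 _ (mem_insert_of_mem _ (mem_singleton _))
        · exact (hA n hn1 hn2).elim R
    · rcases x with a | ⟨j, p⟩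
      · refine ⟨Sum.inl a, mem_univ _, BFR.anti ?_ (ih β hβ (NT_good_mono hβ.le hg))⟩
        rintro t (rfl | ht)
        · exact Or.inl ⟨a, rfl⟩
        · exact ht
      · by_cases hj : ∃ d ∈ D, d.1 = j
        · obtain ⟨d, hd, rfl⟩ := hj
          refine ⟨Sum.inr (d.2, p), mem_univ _, BFR.anti ?_ (ih β hβ (NT_good_mono hβ.le hg))⟩
          rintro t (rfl | ht)
          · exact Or.inr ⟨d, hd, p, rfl⟩
          · exact ht
        · push Not at hj
          obtain ⟨y, hy⟩ := NT_step (f := Prod.fst) (f' := Prod.snd)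
            (fun (x : J) (y : J') => (x, y)) (fun _ _ => rfl) (fun _ _ => rfl) hβ hg j hj
          refine ⟨Sum.inr (y, p), mem_univ _, BFR.anti ?_ (ih β hβ hy)⟩
          rintro t (rfl | ⟨a, rfl⟩ | ⟨d, hd, q, rfl⟩)
          · exact Or.inr ⟨(j, y), mem_insert _ _, p, rfl⟩
          · exact Or.inl ⟨a, rfl⟩
          · exact Or.inr ⟨d, mem_insert_of_mem _ hd, q, rfl⟩
    · rcases y with a | ⟨j, p⟩
      · refine ⟨Sum.inl a, mem_univ _, BFR.anti ?_ (ih β hβ (NT_good_mono hβ.le hg))⟩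
        rintro t (rfl | ht)
        · exact Or.inl ⟨a, rfl⟩
        · exact ht
      · by_cases hj : ∃ d ∈ D, d.2 = j
        · obtain ⟨d, hd, rfl⟩ := hj
          refine ⟨Sum.inr (d.1, p), mem_univ _, BFR.anti ?_ (ih β hβ (NT_good_mono hβ.le hg))⟩
          rintro t (rfl | ht)
          · exact Or.inr ⟨d, hd, p, rfl⟩
          · exact ht
        · push Not at hj
          obtain ⟨x, hx⟩ := NT_step (f := Prod.snd) (f' := Prod.fst)
            (fun (y : J') (x : J) => (x, y)) (fun _ _ => rfl) (fun _ _ => rfl) hβ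
            (NT_good_symm hg) j hj
          refine ⟨Sum.inr (x, p), mem_univ _, BFR.anti ?_ (ih β hβ (NT_good_symm hx))⟩
          rintro t (rfl | ⟨a, rfl⟩ | ⟨d, hd, q, rfl⟩)
          · exact Or.inr ⟨(x, j), mem_insert _ _, p, rfl⟩
          · exact Or.inl ⟨a, rfl⟩
          · exact Or.inr ⟨d, mem_insert_of_mem _ hd, q, rfl⟩

theorem NT_good_empty {J J' : Type} [LinearOrder J] [LinearOrder J'] {γ : Ordinal.{0}}
    (h : LE γ (univ : Set J) (univ : Set J')) :
    NT_good (Prod.fst : J × J' → J) Prod.snd γ ∅ := by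
  refine ⟨fun d hd => absurd hd (notMem_empty d), fun E hE _ => ?_⟩
  have hE0 : E = ∅ := subset_empty_iff.1 hE
  subst hE0
  have e1 : NT_gp (Prod.fst : J × J' → J) ∅ ∅ = univ := by
    ext z
    simp [NT_gp]
  have e2 : NT_gp (Prod.snd : J × J' → J') ∅ ∅ = univ := by
    ext z
    simp [NT_gp]
  rw [e1, e2]
  exact h

theorem NT_main (L : FirstOrder.Language.{0, 0}) (Q : Type) (b : ℕ) (J J' : Type) [LinearOrder J]
    [LinearOrder J'] [Nonempty J] [Nonempty J'] (T : L.Structure (Q ⊕ J × Fin b))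
    (T' : L.Structure (Q ⊕ J' × Fin b)) (γ : Ordinal.{0}) (hA : Ar2 L)
    (hT : ∀ (j : Fin 2 → J) (j' : Fin 2 → J'), (j 0 < j 1 ↔ j' 0 < j' 1) →
      (j 1 < j 0 ↔ j' 1 < j' 0) →
      AtEq T T' {r | (∃ a : Q, r = (Sum.inl a, Sum.inl a)) ∨
        ∃ i p, r = (Sum.inr (j i, p), Sum.inr (j' i, p))})
    (hL : LE γ (univ : Set J) (univ : Set J')) :
    BFR T T' univ univ γ {r | ∃ a : Q, r = (Sum.inl a, Sum.inl a)} := by
  refine BFR.anti ?_ (NT_bfr (b := b) hA hT (NT_good_empty hL))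
  rintro t ⟨a, rfl⟩
  exact Or.inl ⟨a, rfl⟩

theorem thm_NT : St_NT := by
  intro L _ Q b J J' _ _ _ _ T T' γ hA hT hL
  exact NT_main L Q b J J' T T' γ hA hT hL

end HER
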