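import Pool.Agent.HER.St

/-!
# HER: [SQN] no asymmetric sequences of length `ω₁` (helper40)
-/

set_option autoImplicit false

namespace HER

open Set Pool.Agent.Helper5.DU Pool.Agent.Helper6.Str Pool.Agent.Helper79.VC
  Pool.Agent.Helper97.LO Pool.Agent.Helper97.VC

section

variable {L : FirstOrder.Language.{0, 0}} {M N P : Type}

/-- composition through a common structure -/
private theorem SQN_comp {A : L.Structure M} {B : L.Structure N} {S : L.Structure P}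
    {Γ₁ : Set (M × P)} {Γ₂ : Set (N × P)} (h₁ : AtEq A S Γ₁) (h₂ : AtEq B S Γ₂)
    {Γ : Set (M × N)} (h : ∀ a ∈ Γ, ∃ z, (a.1, z) ∈ Γ₁ ∧ (a.2, z) ∈ Γ₂) : AtEq A B Γ := by
  choose z hz1 hz2 using h
  refine ⟨fun p hp q hq => ?_, fun n R v hv => ?_⟩
  · exact (h₁.1 _ (hz1 p hp) _ (hz1 q hq)).trans (h₂.1 _ (hz2 p hp) _ (hz2 q hq)).symm
  · exact (h₁.2 n R (fun i => ((v i).1, z (v i) (hv i))) fun i => hz1 _ (hv i)).trans
      (h₂.2 n R (fun i => ((v i).2, z (v i) (hv i))) fun i => hz2 _ (hv i)).symm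

/-- symmetry -/
private theorem SQN_swap {A : L.Structure M} {B : L.Structure N} {Γ : Set (M × N)}
    (h : AtEq A B Γ) {Γ' : Set (N × M)} (h' : ∀ a ∈ Γ', (a.2, a.1) ∈ Γ) : AtEq B A Γ' := by
  refine ⟨fun p hp q hq => ?_, fun n R v hv => ?_⟩
  · exact (h.1 _ (h' p hp) _ (h' q hq)).symm
  · exact (h.2 n R (fun i => ((v i).2, (v i).1)) fun i => h' _ (hv i)).symm

/-- pulling back along an injective map -/
private theorem SQN_pl [∀ n, IsEmpty (L.Functions n)] {T : L.Structure N} {S : L.Structure P}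
    {f : M → N} (hf : Function.Injective f) {Γ : Set (N × P)} (h : AtEq T S Γ)
    {Γ' : Set (M × P)} (h' : ∀ a ∈ Γ', (f a.1, a.2) ∈ Γ) : AtEq (pl T f) S Γ' := by
  refine ⟨fun p hp q hq => ?_, fun n R v hv => ?_⟩
  · exact hf.eq_iff.symm.trans (h.1 _ (h' p hp) _ (h' q hq))
  · exact h.2 n R (fun i => (f (v i).1, (v i).2)) fun i => h' _ (hv i)

variable {J : Type} [LinearOrder J]

private theorem SQN_h2 {x y : J} (hxy : x < y) {α β : Om} (h : α < β) :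
    ∃ f : J → Om, StrictMonoOn f {x, y} ∧ f x = α ∧ f y = β := by
  classical
  refine ⟨fun z => if z = x then α else β, ?_, if_pos rfl, if_neg hxy.ne'⟩
  intro u hu v hv huv
  rcases hu with rfl | rfl <;> rcases hv with rfl | rfl
  · exact absurd huv (lt_irrefl _)
  · show (if u = u then α else β) < (if v = u then α else β)
    rw [if_pos rfl, if_neg huv.ne']
    exact h
  · exact absurd huv (not_lt.mpr hxy.le)
  · exact absurd huv (lt_irrefl _)

private theorem SQN_h1 (x : J) (α : Om) :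
    ∃ f : J → Om, StrictMonoOn f {x} ∧ f x = α := by
  refine ⟨fun _ => α, ?_, rfl⟩
  intro u hu v hv huv
  rw [mem_singleton_iff] at hu hv
  rw [hu, hv] at huv
  exact absurd huv (lt_irrefl _)

variable {S : L.Structure M} {F : Set M} {b : ℕ} {w : Om → Fin b → M}
  {T : L.Structure (F ⊕ J × Fin b)}

/-- two different elements of the order -/
private theorem SQN_two (hT : ∀ (D : Set J) (h : J → Om), StrictMonoOn h D →
      AtEq T S {r | (∃ a : F, r = (Sum.inl a, (a : M))) ∨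
        ∃ j ∈ D, ∃ p, r = (Sum.inr (j, p), w (h j) p)})
    {x y : J} (hxy : x < y) {α β : Om} (h : α < β) :
    AtEq T S {r | (∃ a : F, r = (Sum.inl a, (a : M))) ∨
      ∃ p, r = (Sum.inr (x, p), w α p) ∨ r = (Sum.inr (y, p), w β p)} := by
  obtain ⟨f, hf, hx, hy⟩ := SQN_h2 hxy h
  refine AtEq.anti ?_ (hT {x, y} f hf)
  rintro r (hr | ⟨p, rfl | rfl⟩)
  · exact Or.inl hr
  · exact Or.inr ⟨x, Or.inl rfl, p, by rw [hx]⟩
  · exact Or.inr ⟨y, Or.inr rfl, p, by rw [hy]⟩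

/-- one element of the order -/
private theorem SQN_one (hT : ∀ (D : Set J) (h : J → Om), StrictMonoOn h D →
      AtEq T S {r | (∃ a : F, r = (Sum.inl a, (a : M))) ∨
        ∃ j ∈ D, ∃ p, r = (Sum.inr (j, p), w (h j) p)})
    (x : J) (α : Om) :
    AtEq T S {r | (∃ a : F, r = (Sum.inl a, (a : M))) ∨ ∃ p, r = (Sum.inr (x, p), w α p)} := by
  obtain ⟨f, hf, hx⟩ := SQN_h1 x α
  refine AtEq.anti ?_ (hT {x} f hf)
  rintro r (hr | ⟨p, rfl⟩)
  · exact Or.inl hr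
  · exact Or.inr ⟨x, rfl, p, by rw [hx]⟩

end

/-- countable well-orders embed in `Om` -/
private theorem SQN_wo (I : Type) [LinearOrder I] [Countable I] [WellFoundedLT I] :
    ∃ h : I → Om, StrictMono h := by
  have h1 : Ordinal.type (fun x y : I => x < y) < Ordinal.type (fun x y : Om => x < y) := by
    have h2 : Ordinal.type (fun x y : Om => x < y) = om1 := Ordinal.type_toType om1
    rw [h2, lt_om1_iff, Ordinal.card_type]
    exact Cardinal.mk_le_aleph0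
  obtain ⟨f⟩ := Ordinal.type_lt_iff.mp h1
  exact ⟨f, fun x y hxy => f.map_rel_iff.mpr hxy⟩

/-- a copy on the natural numbers -/
private theorem SQN_enum {M : Type} (F : Set M) (hF : F.Finite) (J : Type) [Countable J]
    [Infinite J] (b : ℕ) (hb : 0 < b) : Nonempty (ℕ ≃ F ⊕ J × Fin b) := by
  have h1 : Countable F := hF.countable.to_subtype
  have h2 : Nonempty (Fin b) := ⟨⟨0, hb⟩⟩
  have h3 : Infinite (J × Fin b) := inferInstance
  have h4 : Infinite (F ⊕ J × Fin b) := inferInstance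
  obtain ⟨e⟩ := nonempty_equiv_of_countable (α := ℕ) (β := F ⊕ J × Fin b)
  exact ⟨e⟩

theorem thm_SQN (hP : St_PIG) (hK : St_KAR) (hN : St_NS) (hT : St_NT) : St_SQN := by
  intro L _ _ K δ M S F b w hAr hV hH hF hHS hb hwF hw hw1 hw2
  obtain ⟨I, J, _, _, hIc, hIi, hJc, hIw, ⟨i⟩, hLE⟩ := hK δ hV.lt
  have hJi : Infinite J := Infinite.of_injective i i.injective
  have hw0 : ∀ i j p, AtEq S S (dg F ∪ {(w i p, w j p)}) := fun i j p =>
    AtEq.anti (union_subset_union_right _ (by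
      rintro r hr
      exact Or.inl hr)) (hw1 i j p p)
  obtain ⟨TI, hTI⟩ := hN L M S F b w I hAr hb hwF hw hw0 hw2 hw1
  obtain ⟨TJ, hTJ⟩ := hN L M S F b w J hAr hb hwF hw hw0 hw2 hw1
  obtain ⟨h, hh⟩ := SQN_wo I
  obtain ⟨eI⟩ := SQN_enum F hF I b hb
  obtain ⟨eJ⟩ := SQN_enum F hF J b hb
  -- the structure of the well-order is in `K`
  have hA := hTI univ h (hh.strictMonoOn univ)
  let φ : F ⊕ I × Fin b → M := Sum.elim (fun a => (a : M)) (fun r => w (h r.1) r.2)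
  have hφ : ∀ z, (z, φ z) ∈ {r : (F ⊕ I × Fin b) × M | (∃ a : F, r = (Sum.inl a, (a : M))) ∨
      ∃ j ∈ (univ : Set I), ∃ p, r = (Sum.inr (j, p), w (h j) p)} := by
    rintro (a | ⟨j, p⟩)
    · exact Or.inl ⟨a, rfl⟩
    · exact Or.inr ⟨j, mem_univ j, p, rfl⟩
  have hφi : Function.Injective φ := fun z z' hz => (hA.1 _ (hφ z) _ (hφ z')).mpr hz
  have hmem : pl S (φ ∘ eI) ∈ K := by
    refine hHS (φ ∘ eI) (hφi.comp eI.injective) fun a ha => ?_
    refine ⟨eI.symm (Sum.inl ⟨a, ha⟩), ?_⟩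
    rw [Function.comp_apply, Equiv.apply_symm_apply]
    rfl
  have hB1 : BFR (pl S (φ ∘ eI)) TI univ univ δ ∅ := by
    refine BFR.of_relIso (e := eI) (fun n R v => ?_) δ fun a ha => absurd ha (notMem_empty a)
    exact (hA.2 n R (fun i => (eI (v i), φ (eI (v i)))) fun i => hφ _).symm
  -- transfer
  have hB2 : BFR TI TJ univ univ δ {r | ∃ a : F, r = (Sum.inl a, Sum.inl a)} := by
    refine hT L F b I J TI TJ δ hAr (fun j j' h1 h2 => ?_) hLE
    obtain ⟨α, β, hαβ⟩ : ∃ α β : Om, α < β := by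
      obtain ⟨α, hα⟩ := od_surj (Ordinal.omega_pos 1 : (0 : Ordinal.{0}) < om1)
      obtain ⟨β, hβ⟩ := od_surj one_lt_om1
      refine ⟨α, β, od_lt_od.mp ?_⟩
      rw [hα, hβ]
      exact zero_lt_one
    rcases lt_trichotomy (j 0) (j 1) with h3 | h3 | h3
    · have h4 := h1.mp h3
      refine SQN_comp (SQN_two hTI h3 hαβ) (SQN_two hTJ h4 hαβ) ?_
      rintro r (⟨a, rfl⟩ | ⟨k, p, rfl⟩)
      · exact ⟨a, Or.inl ⟨a, rfl⟩, Or.inl ⟨a, rfl⟩⟩
      · revert k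
        rw [Fin.forall_fin_two]
        exact ⟨⟨w α p, Or.inr ⟨p, Or.inl rfl⟩, Or.inr ⟨p, Or.inl rfl⟩⟩,
          ⟨w β p, Or.inr ⟨p, Or.inr rfl⟩, Or.inr ⟨p, Or.inr rfl⟩⟩⟩
    · have h4 : j' 0 = j' 1 := le_antisymm (not_lt.mp fun h5 => (h2.mpr h5).ne' h3)
        (not_lt.mp fun h5 => (h1.mpr h5).ne h3)
      refine SQN_comp (SQN_one hTI (j 0) α) (SQN_one hTJ (j' 0) α) ?_
      rintro r (⟨a, rfl⟩ | ⟨k, p, rfl⟩)
      · exact ⟨a, Or.inl ⟨a, rfl⟩, Or.inl ⟨a, rfl⟩⟩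
      · revert k
        rw [Fin.forall_fin_two, ← h3, ← h4]
        exact ⟨⟨w α p, Or.inr ⟨p, rfl⟩, Or.inr ⟨p, rfl⟩⟩,
          ⟨w α p, Or.inr ⟨p, rfl⟩, Or.inr ⟨p, rfl⟩⟩⟩
    · have h4 := h2.mp h3
      refine SQN_comp (SQN_two hTI h3 hαβ) (SQN_two hTJ h4 hαβ) ?_
      rintro r (⟨a, rfl⟩ | ⟨k, p, rfl⟩)
      · exact ⟨a, Or.inl ⟨a, rfl⟩, Or.inl ⟨a, rfl⟩⟩
      · revert k
        rw [Fin.forall_fin_two]
        exact ⟨⟨w β p, Or.inr ⟨p, Or.inr rfl⟩, Or.inr ⟨p, Or.inr rfl⟩⟩,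
          ⟨w α p, Or.inr ⟨p, Or.inl rfl⟩, Or.inr ⟨p, Or.inl rfl⟩⟩⟩
  have hB3 : BFR TJ (pl TJ eJ) univ univ δ ∅ := by
    have h1 : BFR (pl TJ eJ) TJ univ (range eJ) δ ∅ :=
      BFR_pl eJ.injective δ fun a ha => absurd ha (notMem_empty a)
    rw [eJ.surjective.range_eq] at h1
    exact h1.symm fun a ha => absurd ha (notMem_empty a)
  have hTK : pl TJ eJ ∈ K := by
    refine hV.clos _ hmem _ ?_
    have h1 : BFR TI TJ univ univ δ ∅ := BFR.anti (empty_subset _) hB2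
    have h2 := hB1.trans h1 (r := ∅) fun a ha => absurd ha (notMem_empty a)
    exact h2.trans hB3 (r := ∅) fun a ha => absurd ha (notMem_empty a)
  obtain ⟨F', hF', hHF⟩ := hH _ hTK
  have hpig : Pig (pl TJ eJ) F' := hP L K ℕ (pl TJ eJ) F' hV.scat hHF
  let u : ℚ → Fin b → ℕ := fun q p => eJ.symm (Sum.inr (i q, p))
  have heu : ∀ q p, eJ (u q p) = Sum.inr (i q, p) := fun q p => Equiv.apply_symm_apply _ _
  -- the sequence
  have key : ∀ {x y : ℚ}, x < y → ∀ {α β : Om}, α < β → ∀ p q,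
      AtEq (pl TJ eJ) S {(u x p, w α p), (u y q, w β q)} := by
    intro x y hxy α β hαβ p q
    refine SQN_pl eJ.injective (SQN_two hTJ (i.lt_iff_lt.mpr hxy) hαβ) ?_
    rintro r (rfl | rfl)
    · exact Or.inr ⟨p, Or.inl (by rw [heu])⟩
    · exact Or.inr ⟨q, Or.inr (by rw [heu])⟩
  have key1 : ∀ (x : ℚ) (α : Om) (p q : Fin b),
      AtEq (pl TJ eJ) S {(u x p, w α p), (u x q, w α q)} := by
    intro x α p q
    refine SQN_pl eJ.injective (SQN_one hTJ (i x) α) ?_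
    rintro r (rfl | rfl)
    · exact Or.inr ⟨p, by rw [heu]⟩
    · exact Or.inr ⟨q, by rw [heu]⟩
  obtain ⟨α₀, β₀, hαβ₀⟩ : ∃ α β : Om, α < β := by
    obtain ⟨α, hα⟩ := od_surj (Ordinal.omega_pos 1 : (0 : Ordinal.{0}) < om1)
    obtain ⟨β, hβ⟩ := od_surj one_lt_om1
    refine ⟨α, β, od_lt_od.mp ?_⟩
    rw [hα, hβ]
    exact zero_lt_one
  refine ⟨pl TJ eJ, F', u, hF', hpig, ⟨?_, ?_, ?_⟩, ?_⟩
  · intro x p y q hxy
    have h1 := congrArg eJ hxy
    rw [heu, heu] at h1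
    have h2 := Sum.inr_injective h1
    rw [Prod.mk.injEq] at h2
    exact ⟨i.injective h2.1, h2.2⟩
  · intro x y p q
    refine SQN_comp (key1 x α₀ p q) (key1 y α₀ p q) ?_
    rintro r (rfl | rfl)
    · exact ⟨w α₀ p, Or.inl rfl, Or.inl rfl⟩
    · exact ⟨w α₀ q, Or.inr rfl, Or.inr rfl⟩
  · intro x x' y y' p q hxy hxy'
    refine SQN_comp (key hxy hαβ₀ p q) (key hxy' hαβ₀ p q) ?_
    rintro r (rfl | rfl)
    · exact ⟨w α₀ p, Or.inl rfl, Or.inl rfl⟩
    · exact ⟨w β₀ q, Or.inr rfl, Or.inr rfl⟩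
  · intro α β x y hαβ hxy p q
    refine SQN_swap (key hxy hαβ p q) ?_
    rintro r (rfl | rfl)
    · exact Or.inl rfl
    · exact Or.inr rfl

end HER
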