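import Pool.Agent.HER.St

/-!
# HER [ST]: tournaments, the out-neighbourhoods
-/

set_option autoImplicit false

namespace HER

open Set

private theorem ST_seq {M C : Type} {col : M → M → C} {p : C} {T : Set M}
    (hT : ¬ T.Countable)
    (h : ∀ T' ⊆ T, ¬ T'.Countable → ∃ x ∈ T', ∃ y ∈ T', x ≠ y ∧ col x y = p ∧
      ¬ {z ∈ T' | col y z = p ∧ col z x = p}.Countable) :
    ∃ xs ys : ℕ → M, (∀ i, col (xs i) (ys i) = p) ∧
      (∀ i j, i < j → col (ys i) (ys j) = p ∧ col (ys i) (xs j) = p ∧ col (ys j) (xs i) = p ∧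
        col (xs j) (xs i) = p) := by
  have h' : ∀ S : {S : Set M // S ⊆ T ∧ ¬ S.Countable}, ∃ x y : M, x ∈ S.1 ∧ y ∈ S.1 ∧
      col x y = p ∧ ¬ {z ∈ S.1 | col y z = p ∧ col z x = p}.Countable := by
    intro S
    obtain ⟨x, hx, y, hy, -, h1, h2⟩ := h S.1 S.2.1 S.2.2
    exact ⟨x, y, hx, hy, h1, h2⟩
  choose x y hx hy hxy hun using h'
  let next : {S : Set M // S ⊆ T ∧ ¬ S.Countable} → {S : Set M // S ⊆ T ∧ ¬ S.Countable} :=
    fun S => ⟨{z ∈ S.1 | col (y S) z = p ∧ col z (x S) = p},
      fun z hz => S.2.1 hz.1, hun S⟩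
  let Tn : ℕ → {S : Set M // S ⊆ T ∧ ¬ S.Countable} := fun n => next^[n] ⟨T, Subset.rfl, hT⟩
  have hTn : ∀ n, Tn (n + 1) = next (Tn n) := fun n => Function.iterate_succ_apply' _ _ _
  have hsub : ∀ n, (Tn (n + 1)).1 ⊆ (Tn n).1 := by
    intro n
    rw [hTn]
    exact fun z hz => hz.1
  have hanti : Antitone fun n => (Tn n).1 := antitone_nat_of_succ_le hsub
  have key : ∀ i j, i < j → ∀ z ∈ (Tn j).1, col (y (Tn i)) z = p ∧ col z (x (Tn i)) = p := by
    intro i j hij z hz
    have h1 : z ∈ (Tn (i + 1)).1 := hanti (Nat.succ_le_of_lt hij) hz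
    rw [hTn] at h1
    exact h1.2
  refine ⟨fun n => x (Tn n), fun n => y (Tn n), fun i => hxy _, fun i j hij => ?_⟩
  have h1 := key i j hij _ (hx (Tn j))
  have h2 := key i j hij _ (hy (Tn j))
  exact ⟨h2.1, h1.1, h2.2, h1.2⟩

/-- the substructure belonging to `g` -/
private def ST_B {M : Type} (xs ys : ℕ → M) (g : ℕ → Bool) : Set M :=
  range ys ∪ {v | ∃ n, g n = true ∧ v = xs (3 * n + 1)}

theorem thm_ST : St_ST := by
  intro M C inv col p T hCS hp hT _
  by_contra hcon
  push Not at hcon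
  obtain ⟨xs, ys, hxy, hlt⟩ := ST_seq (p := p) hT (by
    intro T' hT' hT'2
    obtain ⟨x, hx, y, hy, hne, h1, h2⟩ := hcon T' hT' hT'2
    exact ⟨x, hx, y, hy, hne, h1, h2⟩)
  have hinv : ∀ {v w : M}, col v w = p → col w v = inv p := by
    intro v w h
    rw [hCS.sym v w, h]
  have hne : ∀ {v w : M}, col v w = p → v ≠ w := by
    rintro v w h rfl
    exact hp ((hinv h).symm.trans h)
  have hyinj : Function.Injective ys := by
    intro i j hij
    rcases lt_trichotomy i j with h | h | h
    · exact absurd hij (hne (hlt i j h).1)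
    · exact h
    · exact absurd hij.symm (hne (hlt j i h).1)
  have hyx : ∀ i j, i ≠ j → col (ys j) (xs i) = p := by
    intro i j hij
    rcases lt_or_gt_of_ne hij with h | h
    · exact (hlt i j h).2.2.1
    · exact (hlt j i h).2.1
  have hyxne : ∀ i j, ys j ≠ xs i := by
    intro i j
    by_cases hij : i = j
    · subst hij
      exact (hne (hxy i)).symm
    · exact hne (hyx i j hij)
  -- the sets
  let a : Fin 0 → M := Fin.elim0
  have ha : range a = ∅ := range_eq_empty a
  let φ : (Fin 0 → C) → (Fin 0 → C) → C → Prop := fun _ _ c => c = inv p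
  obtain ⟨f, g, hfg, hcnt⟩ := hCS.cnt 0 a φ (ST_B xs ys) (by
    intro g
    refine ⟨?_, ?_, ?_⟩
    · refine (countable_range ys).union ?_
      refine (countable_range fun n : ℕ => xs (3 * n + 1)).mono ?_
      rintro v ⟨n, -, rfl⟩
      exact ⟨n, rfl⟩
    · exact (infinite_range_of_injective hyinj).mono subset_union_left
    · rw [ha]
      exact empty_subset _)
  -- the number
  have hset : ∀ (g : ℕ → Bool) (i : ℕ),
      {w ∈ ST_B xs ys g \ range a | Rl col a φ (ys i) w} =
        ys '' {j | j < i} ∪ {w | w = xs i ∧ ∃ n, i = 3 * n + 1 ∧ g n = true} := by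
    intro g i
    ext w
    rw [ha, sdiff_empty]
    constructor
    · rintro ⟨hw | ⟨n, hn, rfl⟩, h1, h2⟩
      · obtain ⟨j, rfl⟩ := hw
        left
        refine ⟨j, ?_, rfl⟩
        change j < i
        rcases lt_trichotomy i j with h | h | h
        · exact absurd (h2.symm.trans (hlt i j h).1) hp
        · exact absurd (congrArg ys h) h1
        · exact h
      · right
        by_cases hi : i = 3 * n + 1
        · exact ⟨by rw [hi], n, hi, hn⟩
        · exact absurd (h2.symm.trans (hyx _ _ (Ne.symm hi))) hp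
    · rintro (⟨j, hj, rfl⟩ | ⟨rfl, n, hn, hg⟩)
      · exact ⟨Or.inl ⟨j, rfl⟩, (hne (hlt j i hj).1).symm, hinv (hlt j i hj).1⟩
      · exact ⟨Or.inr ⟨n, hg, by rw [hn]⟩, hyxne i i, hinv (hxy i)⟩
  have hinf : ∀ (g : ℕ → Bool) (i : ℕ),
      {w ∈ ST_B xs ys g \ range a | Rl col a φ (xs i) w}.Infinite := by
    intro g i
    have h1 : (ys '' {j | i < j}).Infinite := (Set.Ioi_infinite i).image hyinj.injOn
    refine h1.mono ?_
    rintro _ ⟨j, hj, rfl⟩
    rw [ha, sdiff_empty]
    exact ⟨Or.inl ⟨j, rfl⟩, (hyxne i j).symm, hinv (hlt i j hj).2.2.1⟩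
  have hcard1 : ∀ i : ℕ, (ys '' {j | j < i}).encard = (i : ℕ∞) := by
    intro i
    rw [hyinj.injOn.encard_image]
    have : ({j | j < i} : Set ℕ) = (Finset.range i : Set ℕ) := by
      ext j
      simp
    rw [this, encard_coe_eq_coe_finsetCard, Finset.card_range]
  have hdis : ∀ (g : ℕ → Bool) (i : ℕ), Disjoint (ys '' {j | j < i})
      {w | w = xs i ∧ ∃ n, i = 3 * n + 1 ∧ g n = true} := by
    intro g i
    rw [Set.disjoint_left]
    rintro _ ⟨j, -, rfl⟩ ⟨h, -⟩
    exact hyxne i j h
  have hmem : ∀ (g : ℕ → Bool) (n : ℕ), 3 * n + 1 ∈ Cnt col a φ (ST_B xs ys g) ↔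
      g n = false := by
    intro g n
    constructor
    · rintro ⟨v, hv, hv2⟩
      rw [ha, sdiff_empty] at hv
      rcases hv with ⟨i, rfl⟩ | ⟨m, -, rfl⟩
      · rw [hset, encard_union_eq (hdis g i), hcard1] at hv2
        by_cases hi : ∃ n, i = 3 * n + 1 ∧ g n = true
        · have h1 : {w | w = xs i ∧ ∃ n, i = 3 * n + 1 ∧ g n = true} = {xs i} := by
            ext w
            exact ⟨fun h => h.1, fun h => ⟨h, hi⟩⟩
          rw [h1, encard_singleton] at hv2
          have h2 : i + 1 = 3 * n + 1 := by exact_mod_cast hv2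
          obtain ⟨m, hm, -⟩ := hi
          omega
        · have h1 : {w | w = xs i ∧ ∃ n, i = 3 * n + 1 ∧ g n = true} = ∅ := by
            ext w
            exact ⟨fun h => absurd h.2 hi, fun h => absurd h (notMem_empty w)⟩
          rw [h1, encard_empty, add_zero] at hv2
          have h2 : i = 3 * n + 1 := by exact_mod_cast hv2
          by_contra hgn
          exact hi ⟨n, h2, by simpa using hgn⟩
      · exfalso
        have h1 := (hinf g (3 * m + 1)).encard_eq
        rw [h1] at hv2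
        exact (ENat.natCast_ne_top _) hv2.symm
    · intro hg
      refine ⟨ys (3 * n + 1), ?_, ?_⟩
      · rw [ha, sdiff_empty]
        exact Or.inl ⟨_, rfl⟩
      · rw [hset, encard_union_eq (hdis g _), hcard1]
        have h1 : {w | w = xs (3 * n + 1) ∧ ∃ m, 3 * n + 1 = 3 * m + 1 ∧ g m = true} = ∅ := by
          ext w
          refine ⟨fun h => ?_, fun h => absurd h (notMem_empty w)⟩
          obtain ⟨-, m, hm, hgm⟩ := h
          have h2 : n = m := by omega
          subst h2
          rw [hg] at hgm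
          exact absurd hgm (by decide)
        rw [h1, encard_empty, add_zero]
  apply hfg
  funext n
  have h1 := hmem f n
  have h2 := hmem g n
  rw [hcnt, h2] at h1
  cases hf : f n <;> cases hg : g n
  · rfl
  · rw [hf, hg] at h1
    exact absurd (h1.2 rfl) (by decide)
  · rw [hf, hg] at h1
    exact absurd (h1.1 rfl) (by decide)
  · rfl

end HER
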