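import Pool.Agent.HER.St

/-!
# HER, [STR]: the structure of the large structure
-/

set_option autoImplicit false

namespace HER

open Set Pool.Agent.Helper5.DU Pool.Agent.Helper6.Str Pool.Agent.Helper79.VC
  Pool.Agent.Helper97.LO Pool.Agent.Helper97.VC

private theorem STR_two {M : Type} {Z : Set M} (hZ : ¬ Z.Countable) {P Q : M → Prop}
    (hP : {y ∈ Z | ¬ P y}.Countable) (hQ : {y ∈ Z | ¬ Q y}.Countable) :
    ∃ y ∈ Z, P y ∧ Q y := by
  by_contra hcon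
  push Not at hcon
  refine hZ ((hP.union hQ).mono fun y hy => ?_)
  by_cases h : P y
  · exact Or.inr ⟨hy, hcon y hy h⟩
  · exact Or.inl ⟨hy, h⟩

theorem thm_STR (hB : St_CLB) (hA : St_CCA) (hC : St_CLC) : St_STR := by
  intro M C _ inv col hCS hM
  classical
  let I : Type := {g : M → C // ∃ Y κ, IsGd inv col Y κ g}
  have hI : Finite I := (hC M C inv col hCS).to_subtype
  obtain ⟨i₀⟩ : Nonempty I := by
    obtain ⟨Y', -, κ, g, h⟩ := hB M C inv col univ hCS hM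
    exact ⟨⟨g, Y', κ, h⟩⟩
  have hIg : ∀ i : I, ∃ Y κ, IsGd inv col Y κ i.1 := fun i => i.2
  choose Y κ hY using hIg
  have hs : ∀ i j : I, ∃ s, {y ∈ Y i | ¬ j.1 y = s}.Countable ∧
      {y ∈ Y j | ¬ i.1 y = inv s}.Countable := fun i j =>
    hA M C inv col (Y i) (Y j) (κ i) (κ j) i.1 j.1 hCS (hY i) (hY j)
  choose s hs1 hs2 using hs
  -- separating elements
  have hz : ∀ p : {p : I × I // p.1 ≠ p.2}, ∃ z, p.1.1.1 z ≠ p.1.2.1 z := by
    rintro ⟨⟨i, j⟩, hij⟩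
    by_contra hcon
    push Not at hcon
    exact hij (Subtype.ext (funext hcon))
  choose z hz using hz
  obtain ⟨q, ⟨e⟩⟩ := Finite.exists_equiv_fin {p : I × I // p.1 ≠ p.2}
  let b : Fin q → M := fun k => z (e.symm k)
  have hsep : ∀ i j : I, i ≠ j → ∃ k, i.1 (b k) ≠ j.1 (b k) := by
    intro i j hij
    refine ⟨e ⟨(i, j), hij⟩, ?_⟩
    show i.1 (z (e.symm (e ⟨(i, j), hij⟩))) ≠ j.1 (z (e.symm (e ⟨(i, j), hij⟩)))
    rw [e.symm_apply_apply]
    exact hz ⟨(i, j), hij⟩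
  -- classes
  have hcl : ∀ x, ∃ i : I, (∃ j : I, ∀ k, col (b k) x = j.1 (b k)) →
      ∀ k, col (b k) x = i.1 (b k) := by
    intro x
    by_cases h : ∃ j : I, ∀ k, col (b k) x = j.1 (b k)
    · obtain ⟨j, hj⟩ := h
      exact ⟨j, fun _ => hj⟩
    · exact ⟨i₀, fun h' => absurd h' h⟩
  choose cl hcl using hcl
  have hcl' : ∀ x (i : I), (∀ k, col (b k) x = i.1 (b k)) → cl x = i := by
    intro x i hi
    by_contra hne
    obtain ⟨k, hk⟩ := hsep _ _ hne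
    exact hk ((hcl x ⟨i, hi⟩ k).symm.trans (hi k))
  -- every uncountable set contains a good set of one class
  have key : ∀ Z : Set M, ¬ Z.Countable → ∃ Y' ⊆ Z, ∃ (κ' : C) (i : I), IsGd inv col Y' κ' i.1 ∧
      {x ∈ Y' | ¬ ∀ k, col (b k) x = i.1 (b k)}.Countable := by
    intro Z hZ
    obtain ⟨Y', hY', κ', g, h⟩ := hB M C inv col Z hCS hZ
    refine ⟨Y', hY', κ', ⟨g, Y', κ', h⟩, h, ?_⟩
    refine (countable_iUnion fun k : Fin q => h.2.2.2 (b k)).mono ?_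
    rintro x ⟨hx, hx'⟩
    push Not at hx'
    obtain ⟨k, hk⟩ := hx'
    exact mem_iUnion.mpr ⟨k, hx, hk⟩
  have hsj : ∀ (Y' : Set M) (κ' : C) (i : I), IsGd inv col Y' κ' i.1 → ∀ j : I,
      {x ∈ Y' | ¬ j.1 x = s i j}.Countable := by
    intro Y' κ' i h j
    obtain ⟨t, ht1, ht2⟩ := hA M C inv col Y' (Y j) κ' (κ j) i.1 j.1 hCS h (hY j)
    obtain ⟨y, -, hy1, hy2⟩ := STR_two (hY j).1 (P := fun y => i.1 y = inv t)
      (Q := fun y => i.1 y = inv (s i j)) ht2 (hs2 i j)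
    have e1 : t = s i j := by
      rw [← hCS.inv2 t, ← hy1, hy2, hCS.inv2]
    rw [e1] at ht1
    exact ht1
  have hA1 : {x | ¬ ∃ j : I, ∀ k, col (b k) x = j.1 (b k)}.Countable := by
    by_contra hcon
    obtain ⟨Y', hY', κ', i, h1, h2⟩ := key _ hcon
    obtain ⟨y, hy, hy1, -⟩ := STR_two h1.1 h2 h2
    exact hY' hy ⟨i, hy1⟩
  have hA2 : {x | ∃ j : I, ¬ j.1 x = s (cl x) j}.Countable := by
    by_contra hcon
    obtain ⟨Y', hY', κ', i, h1, h2⟩ := key _ hcon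
    have h3 : {x ∈ Y' | ¬ ∀ j : I, j.1 x = s i j}.Countable := by
      refine (countable_iUnion fun j : I => hsj Y' κ' i h1 j).mono ?_
      rintro x ⟨hx, hx'⟩
      push Not at hx'
      obtain ⟨j, hj⟩ := hx'
      exact mem_iUnion.mpr ⟨j, hx, hj⟩
    obtain ⟨y, hy, hy1, hy2⟩ := STR_two h1.1 h2 h3
    obtain ⟨j, hj⟩ := hY' hy
    rw [hcl' y i hy1] at hj
    exact hj (hy2 j)
  refine ⟨I, q, range b ∪ {x | ¬ ∃ j : I, ∀ k, col (b k) x = j.1 (b k)} ∪
    {x | ∃ j : I, ¬ j.1 x = s (cl x) j}, b, cl, fun i => i.1, s, hI,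
    ((finite_range b).countable.union hA1).union hA2, ?_, hsep, ?_, ?_, ?_, ?_⟩
  · exact fun x hx => Or.inl (Or.inl hx)
  · intro i j
    obtain ⟨y, -, hy1, hy2⟩ := STR_two (hY j).1 (P := fun y => i.1 y = s j i)
      (Q := fun y => i.1 y = inv (s i j)) (hs1 j i) (hs2 i j)
    rw [← hy1, hy2]
  · intro x hx k
    have h : ∃ j : I, ∀ k, col (b k) x = j.1 (b k) := by
      by_contra hcon
      exact hx (Or.inl (Or.inr hcon))
    exact hcl x h k
  · intro w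
    by_contra hcon
    obtain ⟨Y', hY', κ', i, h1, h2⟩ := key _ hcon
    obtain ⟨y, hy, hy1, hy2⟩ := STR_two h1.1 (Q := fun x => col w x = i.1 w) h2 (h1.2.2.2 w)
    have h3 := (hY' hy).2
    rw [hcl' y i hy1] at h3
    exact h3 hy2
  · intro x hx j
    by_contra hcon
    exact hx (Or.inr ⟨j, hcon⟩)

end HER
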