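import Pool.Agent.HER.St

/-!
# HER [TAM]: the large structure is tame
-/

set_option autoImplicit false

namespace HER

open Set Pool.Agent.Helper5.DU Pool.Agent.Helper6.Str Pool.Agent.Helper79.VC
  Pool.Agent.Helper97.LO Pool.Agent.Helper97.VC

section comb

variable {V C I : Type} {col : V → V → C} {cl : V → I} {B : V → Set V}

theorem TAM_symm {x y : V} (hx : x ∈ B x) (h : BIso col cl B x y) : BIso col cl B y x := by
  obtain ⟨h, hb, hxy, hcl, hcol⟩ := h
  have : Nonempty V := ⟨x⟩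
  have hinv := hb.invOn_invFunOn
  have hg : BijOn (Function.invFunOn h (B x)) (B y) (B x) := hb.symm hinv.symm
  refine ⟨Function.invFunOn h (B x), hg, ?_, fun u hu => ?_, fun u hu v hv huv => ?_⟩
  · rw [← hxy]
    exact hinv.1 hx
  · have h1 := hcl _ (hg.mapsTo hu)
    rw [hinv.2 hu] at h1
    exact h1.symm
  · have h1 := hcol _ (hg.mapsTo hu) _ (hg.mapsTo hv) fun h2 => huv (hg.injOn hu hv h2)
    rw [hinv.2 hu, hinv.2 hv] at h1
    exact h1.symm

theorem TAM_trans {x y z : V} (h1 : BIso col cl B x y) (h2 : BIso col cl B y z) :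
    BIso col cl B x z := by
  obtain ⟨h, hb, hxy, hcl, hcol⟩ := h1
  obtain ⟨k, kb, kyz, kcl, kcol⟩ := h2
  refine ⟨k ∘ h, kb.comp hb, ?_, fun u hu => ?_, fun u hu v hv huv => ?_⟩
  · rw [Function.comp_apply, hxy, kyz]
  · rw [Function.comp_apply, kcl _ (hb.mapsTo hu), hcl u hu]
  · rw [Function.comp_apply, Function.comp_apply, kcol _ (hb.mapsTo hu) _ (hb.mapsTo hv)
      fun h3 => huv (hb.injOn hu hv h3), hcol u hu v hv huv]

/-- the type of the codes of finite blocks with a point -/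
abbrev TAM_Cod (C I : Type) : Type := Σ n : ℕ, (Fin n → I) × (Fin n → Fin n → C) × Fin n

/-- `c` is a code of the block of `x` -/
def TAM_Cd (col : V → V → C) (cl : V → I) (B : V → Set V) (x : V) (c : TAM_Cod C I) : Prop :=
  ∃ e : Fin c.1 → V, Function.Injective e ∧ range e = B x ∧ (∀ i, cl (e i) = c.2.1 i) ∧
    (∀ i j, col (e i) (e j) = c.2.2.1 i j) ∧ e c.2.2.2 = x

theorem TAM_Cd_ex {x : V} (hx : x ∈ B x) (hf : (B x).Finite) :
    ∃ c : TAM_Cod C I, TAM_Cd col cl B x c := by
  have : Finite (B x) := hf.to_subtype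
  obtain ⟨n, ⟨e⟩⟩ := Finite.exists_equiv_fin (B x)
  refine ⟨⟨n, fun i => cl (e.symm i), fun i j => col (e.symm i) (e.symm j), e ⟨x, hx⟩⟩,
    fun i => (e.symm i : V), fun i j hij => ?_, ?_, fun i => rfl, fun i j => rfl, ?_⟩
  · exact e.symm.injective (Subtype.ext hij)
  · ext u
    constructor
    · rintro ⟨i, rfl⟩
      exact (e.symm i).2
    · intro hu
      refine ⟨e ⟨u, hu⟩, ?_⟩
      simp
  · simp

theorem TAM_Cd_iso {x y : V} {c : TAM_Cod C I} (hx : TAM_Cd col cl B x c)
    (hy : TAM_Cd col cl B y c) : BIso col cl B x y := by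
  classical
  obtain ⟨e, he1, he2, he3, he4, he5⟩ := hx
  obtain ⟨f, hf1, hf2, hf3, hf4, hf5⟩ := hy
  let h : V → V := fun u => if hu : ∃ i, e i = u then f hu.choose else u
  have hh : ∀ i, h (e i) = f i := by
    intro i
    have hu : ∃ j, e j = e i := ⟨i, rfl⟩
    have h1 : h (e i) = f hu.choose := dif_pos hu
    rw [h1, he1 hu.choose_spec]
  refine ⟨h, ⟨?_, ?_, ?_⟩, ?_, ?_, ?_⟩
  · rw [← he2, ← hf2]
    rintro _ ⟨i, rfl⟩
    exact ⟨i, (hh i).symm⟩
  · rw [← he2]
    rintro _ ⟨i, rfl⟩ _ ⟨j, rfl⟩ hij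
    rw [hh, hh] at hij
    rw [hf1 hij]
  · rw [← he2, ← hf2]
    rintro _ ⟨i, rfl⟩
    exact ⟨e i, ⟨i, rfl⟩, hh i⟩
  · rw [← he5, hh, hf5]
  · rw [← he2]
    rintro _ ⟨i, rfl⟩
    rw [hh, he3, hf3]
  · rw [← he2]
    rintro _ ⟨i, rfl⟩ _ ⟨j, rfl⟩ -
    rw [hh, hh, he4, hf4]

variable {A : Set V} {g : I → V → C} {s : I → I → C}

/-- a countable set with infinitely many blocks of each isomorphism type -/
theorem TAM_Y0 [Finite C] [Finite I] (hb : Blk col A cl g s B)
    (hfin : ∀ x ∉ A, (B x).Finite)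
    (hunc : ∀ x ∉ A, ¬ {y | y ∉ A ∧ BIso col cl B x y}.Countable) :
    ∃ Y0 : Set V, Y0.Countable ∧ A ⊆ Y0 ∧ (∀ x ∈ Y0, x ∉ A → B x ⊆ Y0) ∧
      ∀ u ∉ A, {y | y ∈ Y0 ∧ y ∉ A ∧ BIso col cl B u y}.Infinite := by
  classical
  have hcode : ∀ x : V, ∃ c : TAM_Cod C I, x ∉ A → TAM_Cd col cl B x c := by
    intro x
    by_cases hx : x ∈ A
    · by_cases hne : ∃ c : TAM_Cod C I, True
      · obtain ⟨c, -⟩ := hne
        exact ⟨c, fun h => absurd hx h⟩
      · exact ⟨⟨1, fun _ => cl x, fun _ _ => col x x, 0⟩, fun h => absurd hx h⟩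
    · obtain ⟨c, hc⟩ := TAM_Cd_ex (col := col) (cl := cl) (hb.self x hx) (hfin x hx)
      exact ⟨c, fun _ => hc⟩
  choose c hc using hcode
  have hZ : ∀ x : V, ∃ Z : Set V, Z.Countable ∧
      (x ∉ A → Z.Infinite ∧ ∀ y ∈ Z, y ∉ A ∧ BIso col cl B x y) ∧ (x ∈ A → Z = ∅) := by
    intro x
    by_cases hx : x ∈ A
    · exact ⟨∅, countable_empty, fun h => absurd hx h, fun _ => rfl⟩
    · have hinf : {y | y ∉ A ∧ BIso col cl B x y}.Infinite := fun h => hunc x hx h.countable
      refine ⟨range fun n => (hinf.natEmbedding _ n : V), countable_range _, fun _ => ⟨?_, ?_⟩,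
        fun h => absurd h hx⟩
      · exact infinite_range_of_injective
          (Subtype.val_injective.comp (hinf.natEmbedding _).injective)
      · rintro _ ⟨n, rfl⟩
        exact (hinf.natEmbedding _ n).2
  choose Z hZ1 hZ2 hZ3 using hZ
  let K : Set (TAM_Cod C I) := c '' Aᶜ
  have hr : ∀ κ : TAM_Cod C I, ∃ R : Set V, R.Countable ∧ (∀ x ∈ R, x ∉ A) ∧
      ∀ x ∉ A, c x = κ → ∃ x' ∈ R, c x' = κ := by
    intro κ
    by_cases hκ : ∃ x ∉ A, c x = κ
    · obtain ⟨x, hx, hxκ⟩ := hκ
      refine ⟨{x}, countable_singleton x, ?_, fun _ _ _ => ⟨x, rfl, hxκ⟩⟩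
      intro y hy
      rw [mem_singleton_iff] at hy
      rw [hy]
      exact hx
    · exact ⟨∅, countable_empty, fun x hx => absurd hx (notMem_empty x),
        fun x hx hxκ => absurd ⟨x, hx, hxκ⟩ hκ⟩
  choose R hR1 hR2 hR3 using hr
  refine ⟨A ∪ ⋃ κ, ⋃ x ∈ R κ, ⋃ y ∈ Z x, B y, ?_, subset_union_left, ?_, ?_⟩
  · refine hb.ctbl.union (countable_iUnion fun κ => (hR1 κ).biUnion fun x hx =>
      (hZ1 x).biUnion fun y hy => ?_)
    exact (hfin y ((hZ2 x (hR2 κ x hx)).2 y hy).1).countable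
  · rintro x (hx | hx) hxA
    · exact absurd hx hxA
    · simp only [mem_iUnion] at hx
      obtain ⟨κ, x', hx', y, hy, hxy⟩ := hx
      have hyA := ((hZ2 x' (hR2 κ x' hx')).2 y hy).1
      have h1 := (hb.out y hyA x hxy).2
      rw [h1]
      refine subset_union_of_subset_right ?_ _
      intro w hw
      simp only [mem_iUnion]
      exact ⟨κ, x', hx', y, hy, hw⟩
  · intro u hu
    obtain ⟨x', hx', hcx'⟩ := hR3 (c u) u hu rfl
    have hx'A := hR2 _ x' hx'
    have h1 : BIso col cl B u x' := by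
      have h2 := hc x' hx'A
      rw [hcx'] at h2
      exact TAM_Cd_iso (hc u hu) h2
    refine ((hZ2 x' hx'A).1).mono fun y hy => ?_
    have h3 := (hZ2 x' hx'A).2 y hy
    refine ⟨Or.inr ?_, h3.1, TAM_trans h1 h3.2⟩
    simp only [mem_iUnion]
    exact ⟨c u, x', hx', y, hy, hb.self y h3.1⟩

/-- isomorphisms between unions of `A` and finitely many blocks -/
structure TAM_S (col : V → V → C) (A : Set V) (cl : V → I) (B : V → Set V) (Y0 : Set V)
    (H : V → V) (D : Set V) : Prop where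
  AD : A ⊆ D
  idA : ∀ a ∈ A, H a = a
  fin : (D \ A).Finite
  blk : ∀ x ∈ D, x ∉ A → B x ⊆ D
  outA : ∀ x ∈ D, x ∉ A → H x ∉ A
  img : ∀ x ∈ D, x ∉ A → H '' B x = B (H x)
  inj : InjOn H D
  hcl : ∀ x ∈ D, x ∉ A → cl (H x) = cl x
  hcol : ∀ x ∈ D, x ∉ A → ∀ u ∈ B x, ∀ v ∈ B x, u ≠ v → col (H u) (H v) = col u v
  hY : ∀ x ∈ D, H x ∈ Y0

theorem TAM_ext {Y0 : Set V} (hb : Blk col A cl g s B) (hfin : ∀ x ∉ A, (B x).Finite)
    (hY : ∀ x ∈ Y0, x ∉ A → B x ⊆ Y0) {H : V → V} {D : Set V} (hS : TAM_S col A cl B Y0 H D)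
    {u y : V} (hu : u ∉ D) (hy : y ∈ Y0) (hyA : y ∉ A) (hyD : y ∉ H '' D)
    (hiso : BIso col cl B u y) :
    ∃ (H' : V → V) (D' : Set V), TAM_S col A cl B Y0 H' D' ∧ D ⊆ D' ∧ (∀ x ∈ D, H' x = H x) ∧
      u ∈ D' ∧ H' u = y := by
  classical
  obtain ⟨h, hbij, hhu, hcl, hcol⟩ := hiso
  have huA : u ∉ A := fun h1 => hu (hS.AD h1)
  have hdis : ∀ w ∈ D, w ∉ B u := by
    intro w hw hwu
    obtain ⟨h1, h2⟩ := hb.out u huA w hwu
    apply hu
    apply hS.blk w hw h1
    rw [h2]
    exact hb.self u huA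
  let H' : V → V := fun x => if x ∈ B u then h x else H x
  have H1 : ∀ x ∈ B u, H' x = h x := fun x hx => if_pos hx
  have H2 : ∀ x ∈ D, H' x = H x := fun x hx => if_neg (hdis x hx)
  refine ⟨H', D ∪ B u, ?_, subset_union_left, H2, Or.inr (hb.self u huA), ?_⟩
  · refine ⟨hS.AD.trans subset_union_left, fun a ha => ?_, ?_, ?_, ?_, ?_, ?_, ?_, ?_, ?_⟩
    · rw [H2 a (hS.AD ha), hS.idA a ha]
    · refine (hS.fin.union (hfin u huA)).subset ?_
      rintro x ⟨hx | hx, hxA⟩
      · exact Or.inl ⟨hx, hxA⟩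
      · exact Or.inr hx
    · rintro x (hx | hx) hxA
      · exact (hS.blk x hx hxA).trans subset_union_left
      · rw [(hb.out u huA x hx).2]
        exact subset_union_right
    · rintro x (hx | hx) hxA
      · rw [H2 x hx]
        exact hS.outA x hx hxA
      · rw [H1 x hx]
        exact (hb.out y hyA _ (hbij.mapsTo hx)).1
    · rintro x (hx | hx) hxA
      · rw [H2 x hx, ← hS.img x hx hxA]
        exact image_congr fun w hw => H2 w (hS.blk x hx hxA hw)
      · rw [H1 x hx, (hb.out u huA x hx).2, (hb.out y hyA _ (hbij.mapsTo hx)).2,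
          ← hbij.image_eq]
        exact image_congr fun w hw => H1 w hw
    · have key : ∀ x ∈ D, ∀ x' ∈ B u, H x ≠ h x' := by
        intro x hx x' hx' he
        have h1 : H x ∈ B y := by
          rw [he]
          exact hbij.mapsTo hx'
        obtain ⟨h2, h3⟩ := hb.out y hyA _ h1
        by_cases hxA : x ∈ A
        · rw [hS.idA x hxA] at h2
          exact h2 hxA
        · apply hyD
          have h4 := hb.self y hyA
          rw [← h3, ← hS.img x hx hxA] at h4
          obtain ⟨w, hw, hwy⟩ := h4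
          exact ⟨w, hS.blk x hx hxA hw, hwy⟩
      rintro x (hx | hx) x' (hx' | hx') he
      · rw [H2 x hx, H2 x' hx'] at he
        exact hS.inj hx hx' he
      · rw [H2 x hx, H1 x' hx'] at he
        exact absurd he (key x hx x' hx')
      · rw [H1 x hx, H2 x' hx'] at he
        exact absurd he.symm (key x' hx' x hx)
      · rw [H1 x hx, H1 x' hx'] at he
        exact hbij.injOn hx hx' he
    · rintro x (hx | hx) hxA
      · rw [H2 x hx, hS.hcl x hx hxA]
      · rw [H1 x hx, hcl x hx]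
    · rintro x (hx | hx) hxA v hv w hw hvw
      · rw [H2 v (hS.blk x hx hxA hv), H2 w (hS.blk x hx hxA hw)]
        exact hS.hcol x hx hxA v hv w hw hvw
      · rw [(hb.out u huA x hx).2] at hv hw
        rw [H1 v hv, H1 w hw]
        exact hcol v hv w hw hvw
    · rintro x (hx | hx)
      · rw [H2 x hx]
        exact hS.hY x hx
      · rw [H1 x hx]
        exact hY y hy hyA (hbij.mapsTo hx)
  · rw [H1 u (hb.self u huA), hhu]

end comb

section str

variable {L : FirstOrder.Language.{0, 0}} {M : Type} {S : L.Structure M} {F : Set M}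

theorem TAM_swap {x y x' y' : M} (h : at2 S F x y = at2 S F x' y') :
    at2 S F y x = at2 S F y' x' := by
  have key : ∀ (x y : M) (n : ℕ) (R : L.Relations n) (w : Fin n → F ⊕ Bool),
      (⟨n, R, w⟩ : Σ n, L.Relations n × (Fin n → F ⊕ Bool)) ∈ at2 S F y x ↔
      (⟨n, R, fun i => Sum.map id not (w i)⟩ : Σ n, L.Relations n × (Fin n → F ⊕ Bool)) ∈
        at2 S F x y := by
    intro x y n R w
    have h1 : (fun i => Sum.elim (fun a : F => (a : M)) (fun b => if b then x else y) (w i)) =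
        fun i => Sum.elim (fun a : F => (a : M)) (fun b => if b then y else x)
          (Sum.map id not (w i)) := by
      funext i
      rcases w i with a | b
      · rfl
      · cases b <;> rfl
    show S.RelMap R _ ↔ S.RelMap R _
    exact iff_of_eq (congrArg (S.RelMap R) h1)
  ext ⟨n, R, w⟩
  rw [key x y, key x' y', h]

theorem TAM_one {x y x' y' : M} (h : at2 S F x y = at2 S F x' y') :
    at2 S F x x = at2 S F x' x' := by
  have key : ∀ (x y : M) (n : ℕ) (R : L.Relations n) (w : Fin n → F ⊕ Bool),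
      (⟨n, R, w⟩ : Σ n, L.Relations n × (Fin n → F ⊕ Bool)) ∈ at2 S F x x ↔
      (⟨n, R, fun i => Sum.map id (fun _ => false) (w i)⟩ :
        Σ n, L.Relations n × (Fin n → F ⊕ Bool)) ∈ at2 S F x y := by
    intro x y n R w
    have h1 : (fun i => Sum.elim (fun a : F => (a : M)) (fun b => if b then x else x) (w i)) =
        fun i => Sum.elim (fun a : F => (a : M)) (fun b => if b then y else x)
          (Sum.map id (fun _ => false) (w i)) := by
      funext i
      rcases w i with a | b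
      · rfl
      · cases b <;> rfl
    show S.RelMap R _ ↔ S.RelMap R _
    exact iff_of_eq (congrArg (S.RelMap R) h1)
  ext ⟨n, R, w⟩
  rw [key x y, key x' y', h]

theorem TAM_core {x y x' y' : M} (h : at2 S F x y = at2 S F x' y') {n : ℕ} (R : L.Relations n)
    (v : Fin n → M × M)
    (hv : ∀ i, (∃ a ∈ F, v i = (a, a)) ∨ v i = (x, x') ∨ v i = (y, y')) :
    S.RelMap R (fun i => (v i).1) ↔ S.RelMap R (fun i => (v i).2) := by
  have hw : ∀ i, ∃ w : F ⊕ Bool,
      (v i).1 = Sum.elim (fun a : F => (a : M)) (fun b => if b then y else x) w ∧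
      (v i).2 = Sum.elim (fun a : F => (a : M)) (fun b => if b then y' else x') w := by
    intro i
    rcases hv i with ⟨a, ha, e⟩ | e | e
    · exact ⟨Sum.inl ⟨a, ha⟩, by rw [e]; rfl, by rw [e]; rfl⟩
    · exact ⟨Sum.inr false, by rw [e]; rfl, by rw [e]; rfl⟩
    · exact ⟨Sum.inr true, by rw [e]; rfl, by rw [e]; rfl⟩
  choose w hw1 hw2 using hw
  have h1 : (⟨n, R, w⟩ : Σ n, L.Relations n × (Fin n → F ⊕ Bool)) ∈ at2 S F x y ↔
      (⟨n, R, w⟩ : Σ n, L.Relations n × (Fin n → F ⊕ Bool)) ∈ at2 S F x' y' := by rw [h]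
  have e1 : (fun i => (v i).1) =
      fun i => Sum.elim (fun a : F => (a : M)) (fun b => if b then y else x) (w i) :=
    funext hw1
  have e2 : (fun i => (v i).2) =
      fun i => Sum.elim (fun a : F => (a : M)) (fun b => if b then y' else x') (w i) :=
    funext hw2
  rw [e1, e2]
  exact h1

/-- the pairs matched by `H` on `D` and by the identity on `F` -/
def TAM_P (F : Set M) (H : {x : M // x ∉ F} → {x : M // x ∉ F}) (D : Set {x : M // x ∉ F}) :
    Set (M × M) :=
  {q | (∃ a ∈ F, q = (a, a)) ∨ ∃ u ∈ D, q = ((u : M), (H u : M))}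

theorem TAM_atEq (hAr : Ar2 L) {H : {x : M // x ∉ F} → {x : M // x ∉ F}}
    {D : Set {x : M // x ∉ F}} (hinj : InjOn H D)
    (hat : ∀ u ∈ D, ∀ v ∈ D, at2 S F (u : M) (v : M) = at2 S F (H u : M) (H v : M)) :
    AtEq S S (TAM_P F H D) := by
  constructor
  · rintro p (⟨a, ha, rfl⟩ | ⟨u, hu, rfl⟩) q (⟨b, hb, rfl⟩ | ⟨v, hv, rfl⟩)
    · exact Iff.rfl
    · constructor
      · intro h
        have h' : a = (v : M) := h
        exact absurd (h' ▸ ha) v.2
      · intro h
        have h' : a = (H v : M) := h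
        exact absurd (h' ▸ ha) (H v).2
    · constructor
      · intro h
        have h' : (u : M) = b := h
        exact absurd (h'.symm ▸ hb) u.2
      · intro h
        have h' : (H u : M) = b := h
        exact absurd (h'.symm ▸ hb) (H u).2
    · constructor
      · intro h
        have h' : u = v := Subtype.ext h
        rw [h']
      · intro h
        have h' : H u = H v := Subtype.ext h
        show (u : M) = (v : M)
        rw [hinj hu hv h']
  · intro n R v hv
    by_cases h1 : n = 1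
    · subst h1
      rcases hv 0 with ⟨a, ha, e⟩ | ⟨u, hu, e⟩
      · have e1 : (fun i => (v i).1) = fun i => (v i).2 := by
          funext i
          rw [Subsingleton.elim i 0, e]
        rw [e1]
      · refine TAM_core (hat u hu u hu) R v fun i => ?_
        rw [Subsingleton.elim i 0, e]
        exact Or.inr (Or.inl rfl)
    · by_cases h2 : n = 2
      · subst h2
        rcases hv 0 with ⟨a, ha, e⟩ | ⟨u, hu, e⟩ <;> rcases hv 1 with ⟨b, hb, e'⟩ | ⟨w, hw, e'⟩
        · have e1 : (fun i => (v i).1) = fun i => (v i).2 := by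
            funext i
            refine Fin.cases ?_ (fun i => ?_) i
            · rw [e]
            · rw [Subsingleton.elim i 0]
              show (v 1).1 = (v 1).2
              rw [e']
          rw [e1]
        · refine TAM_core (hat w hw w hw) R v fun i => ?_
          refine Fin.cases ?_ (fun i => ?_) i
          · exact Or.inl ⟨a, ha, e⟩
          · rw [Subsingleton.elim i 0]
            exact Or.inr (Or.inl e')
        · refine TAM_core (hat u hu u hu) R v fun i => ?_
          refine Fin.cases ?_ (fun i => ?_) i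
          · exact Or.inr (Or.inl e)
          · rw [Subsingleton.elim i 0]
            exact Or.inl ⟨b, hb, e'⟩
        · refine TAM_core (hat u hu w hw) R v fun i => ?_
          refine Fin.cases ?_ (fun i => ?_) i
          · exact Or.inr (Or.inl e)
          · rw [Subsingleton.elim i 0]
            exact Or.inr (Or.inr e')
      · exact ((hAr n h1 h2).false R).elim

variable {C I : Type} {t : C → Set (Σ n, L.Relations n × (Fin n → F ⊕ Bool))}
  {col : {x : M // x ∉ F} → {x : M // x ∉ F} → C} {A : Set {x : M // x ∉ F}}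
  {cl : {x : M // x ∉ F} → I} {g : I → {x : M // x ∉ F} → C} {s : I → I → C}
  {B : {x : M // x ∉ F} → Set {x : M // x ∉ F}}

theorem TAM_hat (htc : ∀ x y, t (col x y) = at2 S F x y) (hb : Blk col A cl g s B)
    (hfin : ∀ x ∉ A, (B x).Finite)
    (hunc : ∀ x ∉ A, ¬ {y | y ∉ A ∧ BIso col cl B x y}.Countable)
    {Y0 : Set {x : M // x ∉ F}} {H : {x : M // x ∉ F} → {x : M // x ∉ F}}
    {D : Set {x : M // x ∉ F}} (hS : TAM_S col A cl B Y0 H D) :
    ∀ u ∈ D, ∀ v ∈ D, at2 S F (u : M) (v : M) = at2 S F (H u : M) (H v : M) := by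
  have hc : ∀ {x y x' y' : {x : M // x ∉ F}}, col x y = col x' y' →
      at2 S F (x : M) (y : M) = at2 S F (x' : M) (y' : M) := by
    intro x y x' y' h
    rw [← htc, ← htc, h]
  have hAx : ∀ u ∈ D, u ∈ A → ∀ v ∈ D, v ∉ A →
      at2 S F (u : M) (v : M) = at2 S F (H u : M) (H v : M) := by
    intro u _ huA v hv hvA
    apply hc
    rw [hb.gA u huA v hvA, hS.idA u huA, hb.gA u huA _ (hS.outA v hv hvA), hS.hcl v hv hvA]
  intro u hu v hv
  by_cases huv : u = v
  · subst huv
    by_cases huA : u ∈ A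
    · rw [hS.idA u huA]
    · have hHA := hS.outA u hu huA
      obtain ⟨y, hyA, hy1, hy2⟩ : ∃ y, y ∉ A ∧ y ∉ B u ∧ y ∉ B (H u) := by
        by_contra hcon
        push Not at hcon
        apply hunc u huA
        refine ((hfin u huA).union (hfin _ hHA)).countable.mono ?_
        rintro y ⟨hyA, -⟩
        by_cases hy : y ∈ B u
        · exact Or.inl hy
        · exact Or.inr (hcon y hyA hy)
      have h1 : col u y = col (H u) y := by
        rw [hb.gB u huA y hyA hy1, hb.gB _ hHA y hyA hy2, hS.hcl u hu huA]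
      exact TAM_one (hc h1)
  · by_cases huA : u ∈ A
    · by_cases hvA : v ∈ A
      · rw [hS.idA u huA, hS.idA v hvA]
      · exact hAx u hu huA v hv hvA
    · by_cases hvA : v ∈ A
      · exact TAM_swap (hAx v hv hvA u hu huA)
      · apply hc
        by_cases hvu : v ∈ B u
        · exact (hS.hcol u hu huA u (hb.self u huA) v hvu huv).symm
        · have h1 : H v ∉ B (H u) := by
            rw [← hS.img u hu huA]
            rintro ⟨w, hw, hwv⟩
            have h2 := hS.inj (hS.blk u hu huA hw) hv hwv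
            rw [h2] at hw
            exact hvu hw
          rw [hb.gB u huA v hvA hvu, hb.gB _ (hS.outA u hu huA) _ (hS.outA v hv hvA) h1,
            hS.hcl u hu huA, hS.hcl v hv hvA]

theorem TAM_bfr (hAr : Ar2 L) (htc : ∀ x y, t (col x y) = at2 S F x y)
    (hb : Blk col A cl g s B) (hfin : ∀ x ∉ A, (B x).Finite)
    (hunc : ∀ x ∉ A, ¬ {y | y ∉ A ∧ BIso col cl B x y}.Countable)
    {Y0 : Set {x : M // x ∉ F}} (hY : ∀ x ∈ Y0, x ∉ A → B x ⊆ Y0)
    (hYinf : ∀ u ∉ A, {y | y ∈ Y0 ∧ y ∉ A ∧ BIso col cl B u y}.Infinite) (γ : Ordinal.{0}) :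
    ∀ (H : {x : M // x ∉ F} → {x : M // x ∉ F}) (D : Set {x : M // x ∉ F}),
      TAM_S col A cl B Y0 H D →
      BFR S S univ (F ∪ Subtype.val '' Y0) γ (TAM_P F H D) := by
  induction γ using WellFoundedLT.induction with
  | _ γ ih =>
    intro H D hS
    rw [BFR.def]
    refine ⟨TAM_atEq hAr hS.inj (TAM_hat htc hb hfin hunc hS), fun β hβ => ⟨fun x _ => ?_,
      fun y hy => ?_⟩⟩
    · by_cases hxF : x ∈ F
      · refine ⟨x, Or.inl hxF, ?_⟩
        have h1 : insert (x, x) (TAM_P F H D) = TAM_P F H D :=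
          insert_eq_of_mem (Or.inl ⟨x, hxF, rfl⟩)
        rw [h1]
        exact ih β hβ H D hS
      · set u : {x : M // x ∉ F} := ⟨x, hxF⟩ with hu
        by_cases huD : u ∈ D
        · refine ⟨(H u : M), Or.inr ⟨H u, hS.hY u huD, rfl⟩, ?_⟩
          have h1 : insert (x, (H u : M)) (TAM_P F H D) = TAM_P F H D :=
            insert_eq_of_mem (Or.inr ⟨u, huD, rfl⟩)
          rw [h1]
          exact ih β hβ H D hS
        · have huA : u ∉ A := fun h => huD (hS.AD h)
          obtain ⟨y, ⟨hy1, hy2, hy3⟩, hy4⟩ :=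
            ((hYinf u huA).sdiff (hS.fin.image H)).nonempty
          have hyD : y ∉ H '' D := by
            rintro ⟨w, hw, hwy⟩
            by_cases hwA : w ∈ A
            · apply hy2
              rw [← hwy, hS.idA w hwA]
              exact hwA
            · exact hy4 ⟨w, ⟨hw, hwA⟩, hwy⟩
          obtain ⟨H', D', hS', h1, h2, h3, h4⟩ := TAM_ext hb hfin hY hS huD hy1 hy2 hyD hy3
          refine ⟨(y : M), Or.inr ⟨y, hy1, rfl⟩, BFR.anti ?_ (ih β hβ H' D' hS')⟩
          rintro q (rfl | ⟨a, ha, rfl⟩ | ⟨w, hw, rfl⟩)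
          · refine Or.inr ⟨u, h3, ?_⟩
            rw [h4]
          · exact Or.inl ⟨a, ha, rfl⟩
          · refine Or.inr ⟨w, h1 hw, ?_⟩
            rw [h2 w hw]
    · rcases hy with hyF | ⟨y', hy', rfl⟩
      · refine ⟨y, mem_univ _, ?_⟩
        have h1 : insert (y, y) (TAM_P F H D) = TAM_P F H D :=
          insert_eq_of_mem (Or.inl ⟨y, hyF, rfl⟩)
        rw [h1]
        exact ih β hβ H D hS
      · by_cases hyD : y' ∈ H '' D
        · obtain ⟨u, hu, rfl⟩ := hyD
          refine ⟨(u : M), mem_univ _, ?_⟩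
          have h1 : insert ((u : M), (H u : M)) (TAM_P F H D) = TAM_P F H D :=
            insert_eq_of_mem (Or.inr ⟨u, hu, rfl⟩)
          rw [h1]
          exact ih β hβ H D hS
        · have hyA : y' ∉ A := fun h => hyD ⟨y', hS.AD h, hS.idA y' h⟩
          obtain ⟨u, ⟨hu1, hu2⟩, hu3⟩ : ∃ u, u ∈ {u | u ∉ A ∧ BIso col cl B y' u} ∧ u ∉ D := by
            by_contra hcon
            push Not at hcon
            apply hunc y' hyA
            refine hS.fin.countable.mono ?_
            intro u hu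
            exact ⟨hcon u hu, hu.1⟩
          obtain ⟨H', D', hS', h1, h2, h3, h4⟩ := TAM_ext hb hfin hY hS hu3 hy' hyA hyD
            (TAM_symm (hb.self y' hyA) hu2)
          refine ⟨(u : M), mem_univ _, BFR.anti ?_ (ih β hβ H' D' hS')⟩
          rintro q (rfl | ⟨a, ha, rfl⟩ | ⟨w, hw, rfl⟩)
          · refine Or.inr ⟨u, h3, ?_⟩
            rw [h4]
          · exact Or.inl ⟨a, ha, rfl⟩
          · refine Or.inr ⟨w, h1 hw, ?_⟩
            rw [h2 w hw]

end str

/-- [TAM] -/
theorem thm_TAM : St_TAM := by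
  intro L _ M S F C I t col A cl g s B hAr hF hC hI _ htc hb hfin hunc
  obtain ⟨Y0, hY0, hAY, hY, hYinf⟩ := TAM_Y0 hb hfin hunc
  refine ⟨M, S, F ∪ Subtype.val '' Y0, hF.countable.union (hY0.image _), fun γ _ => ?_⟩
  have hS : TAM_S col A cl B Y0 id A := by
    refine ⟨subset_rfl, fun a _ => rfl, ?_, fun x hx hxA => absurd hx hxA,
      fun x hx hxA => absurd hx hxA, fun x hx hxA => absurd hx hxA, injOn_id A,
      fun x hx hxA => absurd hx hxA, fun x hx hxA => absurd hx hxA, fun x hx => hAY hx⟩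
    rw [sdiff_self]
    exact finite_empty
  exact BFR.anti (empty_subset _) (TAM_bfr hAr htc hb hfin hunc hY hYinf γ id A hS)

end HER
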