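import Pool.Agent.HER.St

/-!
# HER: no hereditarily split tournaments (module TF)
-/

set_option autoImplicit false

namespace HER

open Set Pool.Agent.Helper5.DU Pool.Agent.Helper6.Str Pool.Agent.Helper79.VC
  Pool.Agent.Helper97.LO Pool.Agent.Helper97.VC

/-- [TF] no hereditarily split tournaments -/
theorem thm_TF (h1 : St_ST) (h2 : St_LO1) (h3 : St_LO2) : St_TF := by
  intro M C inv col p T hcs hp hT hcol H
  obtain ⟨T', hT'T, hT', hout⟩ := h1 M C inv col p T hcs hp hT hcol
  obtain ⟨Z, hZT, hZ, htr⟩ := h2 M C inv col p T' hcs.inv2 hcs.sym hp hT'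
    (fun x hx y hy => hcol x (hT'T hx) y (hT'T hy)) (fun T'' h => H T'' (h.trans hT'T)) hout
  obtain ⟨i, hi, hip⟩ := h3 M C inv col p Z hcs.inv2 hcs.sym hp hZ
    (fun x hx y hy => hcol x (hT'T (hZT hx)) y (hT'T (hZT hy)))
    (fun T'' h => H T'' (h.trans (hZT.trans hT'T))) htr
  exact hp (hcs.rat i p hi hip)

end HER
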