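import Pool.Agent.HER.St

/-!
# HER, module THIN: thinning of a comb
-/

set_option autoImplicit false

namespace HER

open Set

/-- many arguments with the same value -/
theorem THIN_pigeon {D : Type} [Finite D] [Nonempty D] (n : ℕ) :
    ∃ (K : ℕ), ∀ v' : ℕ → D, ∃ (d : D) (ψ : ℕ → ℕ), Function.Injective ψ ∧
      (∀ k ≤ n, v' (ψ k) = d) ∧ ∀ k ≤ n, ψ k < K := by
  classical
  have : Fintype D := Fintype.ofFinite D
  refine ⟨Fintype.card D * (n + 1), fun v' => ?_⟩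
  obtain ⟨d, hd⟩ := Fintype.exists_le_card_fiber_of_mul_le_card
    (fun k : Fin (Fintype.card D * (n + 1)) => v' k) (n := n + 1) (by rw [Fintype.card_fin])
  have h1 : Fintype.card (Fin (n + 1)) ≤
      Fintype.card {k : Fin (Fintype.card D * (n + 1)) // v' k = d} := by
    rw [Fintype.card_fin, Fintype.card_subtype]
    exact hd
  obtain ⟨e⟩ := Function.Embedding.nonempty_of_card_le h1
  refine ⟨d, fun k => if h : k < n + 1 then ((e ⟨k, h⟩).1 : ℕ) else
    Fintype.card D * (n + 1) + k, ?_, ?_, ?_⟩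
  · intro k l hkl
    by_cases hk : k < n + 1
    · by_cases hl : l < n + 1
      · simp only [hk, hl, dif_pos] at hkl
        have h2 := e.injective (Subtype.ext (Fin.ext hkl))
        exact congrArg Fin.val h2
      · simp only [hk, hl, dif_pos, dif_neg, not_false_eq_true] at hkl
        have h2 := (e ⟨k, hk⟩).1.2
        omega
    · by_cases hl : l < n + 1
      · simp only [hk, hl, dif_pos, dif_neg, not_false_eq_true] at hkl
        have h2 := (e ⟨l, hl⟩).1.2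
        omega
      · simp only [hk, hl, dif_neg, not_false_eq_true] at hkl
        omega
  · intro k hk
    have hk' : k < n + 1 := Nat.lt_succ_of_le hk
    simp only [hk', dif_pos]
    exact (e ⟨k, hk'⟩).2
  · intro k hk
    have hk' : k < n + 1 := Nat.lt_succ_of_le hk
    simp only [hk', dif_pos]
    exact (e ⟨k, hk'⟩).1.2

/-- one step of the construction -/
theorem THIN_step {C D : Type} [Finite C] [Finite D] (c : ℕ → ℕ → C) (cz : ℕ → ℕ → ℕ → D)
    (s : ℕ × {A : Set ℕ // A.Infinite}) :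
    ∃ (a : ℕ) (t : C) (d : D) (ψ : ℕ → ℕ) (A' : {A : Set ℕ // A.Infinite}), a ∈ s.2.1 ∧
      A'.1 ⊆ s.2.1 ∧ Function.Injective ψ ∧
      ∀ x ∈ A'.1, a < x ∧ c a x = t ∧ ∀ k ≤ s.1, cz x a (ψ k) = d := by
  obtain ⟨n, A⟩ := s
  obtain ⟨a, ha⟩ := A.2.nonempty
  have : Nonempty D := ⟨cz 0 0 0⟩
  obtain ⟨K, hK⟩ := THIN_pigeon (D := D) n
  have hB : (A.1 \ Iic a).Infinite := A.2.sdiff (finite_Iic a)
  have hBi : Infinite ↥(A.1 \ Iic a) := hB.to_subtype
  let F : ↥(A.1 \ Iic a) → C × (Fin K → D) := fun x => (c a x, fun k => cz x a k)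
  obtain ⟨k, hk⟩ := Finite.exists_infinite_fiber F
  have hinf : (Subtype.val '' (F ⁻¹' {k})).Infinite :=
    (Set.infinite_coe_iff.1 hk).image Subtype.val_injective.injOn
  obtain ⟨d, ψ, hψ1, hψ2, hψ3⟩ := hK (fun l => if h : l < K then k.2 ⟨l, h⟩ else cz 0 0 0)
  refine ⟨a, k.1, d, ψ, ⟨_, hinf⟩, ha, ?_, hψ1, ?_⟩
  · rintro _ ⟨x, -, rfl⟩
    exact x.2.1
  · rintro _ ⟨x, hx, rfl⟩
    have hx' : F x = k := hx
    refine ⟨not_le.1 x.2.2, congrArg Prod.fst hx', fun l hl => ?_⟩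
    have h1 := hψ2 l hl
    have h2 := hψ3 l hl
    rw [dif_pos h2] at h1
    have h3 : (F x).2 ⟨ψ l, h2⟩ = k.2 ⟨ψ l, h2⟩ := by rw [hx']
    rw [← h1, ← h3]

/-- [THIN] -/
theorem thm_THIN : St_THIN := by
  intro C D _ _ c cz
  choose a t d ψ A' ha hA hψ hx using THIN_step c cz
  let S : ℕ → {A : Set ℕ // A.Infinite} :=
    fun n => Nat.rec ⟨univ, infinite_univ⟩ (fun m A => A' (m, A)) n
  have hS : ∀ n, S (n + 1) = A' (n, S n) := fun n => rfl
  have hmono : ∀ m j, (S (m + j)).1 ⊆ (S m).1 := by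
    intro m j
    induction j with
    | zero => exact Subset.rfl
    | succ j ih =>
      rw [← Nat.add_assoc, hS]
      exact (hA _).trans ih
  have hlt : ∀ m n, m < n → a (m, S m) < a (n, S n) ∧
      c (a (m, S m)) (a (n, S n)) = t (m, S m) ∧
      ∀ k ≤ m, cz (a (n, S n)) (a (m, S m)) (ψ (m, S m) k) = d (m, S m) := by
    intro m n hmn
    obtain ⟨j, rfl⟩ : ∃ j, n = m + 1 + j := ⟨n - (m + 1), by omega⟩
    apply hx (m, S m)
    rw [← hS]
    exact hmono (m + 1) j (ha (m + 1 + j, S (m + 1 + j)))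
  obtain ⟨κ, hκ⟩ := Finite.exists_infinite_fiber (fun n => (t (n, S n), d (n, S n)))
  have hinf : ((fun n => (t (n, S n), d (n, S n))) ⁻¹' {κ}).Infinite :=
    Set.infinite_coe_iff.1 hκ
  let σ : ℕ → ℕ := Nat.nth (fun n => n ∈ (fun n => (t (n, S n), d (n, S n))) ⁻¹' {κ})
  have hσ : StrictMono σ := Nat.nth_strictMono hinf
  have hσ2 : ∀ n, (t (σ n, S (σ n)), d (σ n, S (σ n))) = κ :=
    fun n => Nat.nth_mem_of_infinite hinf n
  refine ⟨fun n => a (σ n, S (σ n)), fun n => ψ (σ n, S (σ n)), κ.1, κ.2,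
    fun m n hmn => (hlt _ _ (hσ hmn)).1, fun i => hψ _, fun i j hij => ?_,
    fun i j k hij hk => ?_⟩
  · rw [← hσ2 i]
    exact (hlt _ _ (hσ hij)).2.1
  · rw [← hσ2 i]
    exact (hlt _ _ (hσ hij)).2.2 k (hk.trans (hσ.id_le i))

end HER
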