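import Pool.Agent.HER.BK1
import Pool.Agent.HER.BK2
import Pool.Agent.HER.BK3
import Pool.Agent.HER.CBC
import Pool.Agent.HER.CCA
import Pool.Agent.HER.CCB
import Pool.Agent.HER.CCC
import Pool.Agent.HER.CLA
import Pool.Agent.HER.CLB
import Pool.Agent.HER.CLC
import Pool.Agent.HER.CMB
import Pool.Agent.HER.CNT
import Pool.Agent.HER.CSB
import Pool.Agent.HER.CSS
import Pool.Agent.HER.DC1
import Pool.Agent.HER.DC2
import Pool.Agent.HER.DC3
import Pool.Agent.HER.DCD
import Pool.Agent.HER.DM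
import Pool.Agent.HER.FIN
import Pool.Agent.HER.FT
import Pool.Agent.HER.HF
import Pool.Agent.HER.KAR
import Pool.Agent.HER.LD1
import Pool.Agent.HER.LD2
import Pool.Agent.HER.LO1
import Pool.Agent.HER.LO2
import Pool.Agent.HER.LOF
import Pool.Agent.HER.MAIN
import Pool.Agent.HER.NS
import Pool.Agent.HER.NT
import Pool.Agent.HER.NUM
import Pool.Agent.HER.PIG
import Pool.Agent.HER.PR
import Pool.Agent.HER.RAM
import Pool.Agent.HER.SQ
import Pool.Agent.HER.SQN
import Pool.Agent.HER.SS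
import Pool.Agent.HER.ST
import Pool.Agent.HER.STR
import Pool.Agent.HER.TAM
import Pool.Agent.HER.TF
import Pool.Agent.HER.THIN

/-!
# HER: all modules together
-/

set_option autoImplicit false

namespace HER

theorem all_DCD : St_DCD := thm_DCD thm_CSB (thm_DC1 thm_NUM) (thm_DC2 thm_NUM) (thm_DC3 thm_NUM)

theorem all_TF : St_TF := thm_TF thm_ST thm_LO1 thm_LO2

theorem all_CLA : St_CLA :=
  thm_CLA thm_RAM thm_PR (thm_DM thm_SQ) all_DCD (thm_SS thm_SQ) thm_CMB all_TF

theorem all_CLB : St_CLB := thm_CLB thm_PR all_DCD all_CLA (thm_CBC thm_THIN)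

theorem all_CLC : St_CLC := thm_CLC all_DCD thm_CCB (thm_CCC thm_THIN (thm_CCA thm_SQ))

theorem all_BK3 : St_BK3 := thm_BK3 (thm_STR all_CLB (thm_CCA thm_SQ) all_CLC) thm_BK1 thm_BK2

theorem all_SQN : St_SQN := thm_SQN thm_PIG thm_KAR thm_NS thm_NT

theorem all_CSS : St_CSS :=
  thm_CSS thm_HF thm_PIG (thm_FT thm_RAM) thm_CNT (thm_LD1 thm_LOF) (thm_LD2 thm_LOF) all_SQN

/-- every thin model of the class of hereditary structures is tame -/
theorem all_MAIN : St_MAIN := thm_MAIN all_CSS all_BK3 thm_TAM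

end HER
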