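import Pool.Agent.HER.St

/-!
# HER: countable blocks
-/

set_option autoImplicit false

namespace HER

open Set

/-- the components of a relation with countable neighbourhoods are countable -/
theorem BK1_ctbl {M : Type} (R : M → M → Prop) (h : ∀ x, {y | R x y}.Countable) (x : M) :
    {y | Relation.ReflTransGen R x y}.Countable := by
  have hN : ∃ N : ℕ → Set M, N 0 = {x} ∧ ∀ n, N (n + 1) = ⋃ y ∈ N n, {z | R y z} :=
    ⟨fun n => Nat.rec {x} (fun _ S => ⋃ y ∈ S, {z | R y z}) n, rfl, fun n => rfl⟩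
  obtain ⟨N, h0, hs⟩ := hN
  have hc : ∀ n, (N n).Countable := by
    intro n
    induction n with
    | zero =>
      rw [h0]
      exact countable_singleton x
    | succ n ih =>
      rw [hs]
      exact ih.biUnion fun y _ => h y
  refine (countable_iUnion hc).mono ?_
  intro y hy
  have hy' : Relation.ReflTransGen R x y := hy
  rw [mem_iUnion]
  induction hy' with
  | refl => exact ⟨0, by rw [h0]; exact mem_singleton x⟩
  | tail h1 h2 ih =>
    obtain ⟨n, hn⟩ := ih h1
    refine ⟨n + 1, ?_⟩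
    rw [hs]
    exact mem_biUnion hn h2

theorem thm_BK1 : St_BK1 := by
  intro M C I q inv col A b cl g s hinv hcol hS
  obtain ⟨Adj, hAdj⟩ : ∃ Adj : M → M → Prop, ∀ x y, Adj x y ↔
      (x ∉ A ∧ y ∉ A ∧ x ≠ y ∧ col x y ≠ s (cl x) (cl y)) := ⟨_, fun _ _ => Iff.rfl⟩
  have hsymm : ∀ x y, Adj x y → Adj y x := by
    intro x y h
    rw [hAdj] at h ⊢
    obtain ⟨h1, h2, h3, h4⟩ := h
    refine ⟨h2, h1, h3.symm, fun h5 => h4 ?_⟩
    rw [hcol x y, hS.sym (cl x) (cl y)] at h5
    have := congrArg inv h5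
    rwa [hinv, hinv] at this
  have hnb : ∀ x, {y | Adj x y}.Countable := by
    intro x
    by_cases hx : x ∈ A
    · refine (countable_empty).mono ?_
      intro y hy
      exact absurd hx ((hAdj x y).1 hy).1
    · refine (hS.gen x).mono ?_
      intro y hy
      obtain ⟨h1, h2, h3, h4⟩ := (hAdj x y).1 hy
      refine ⟨h2, ?_⟩
      rw [hS.gs x hx]
      exact h4
  have hE : ∀ x y, Relation.ReflTransGen Adj x y → Relation.ReflTransGen Adj y x := by
    intro x y h
    induction h with
    | refl => exact Relation.ReflTransGen.refl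
    | tail _ h2 ih => exact Relation.ReflTransGen.head (hsymm _ _ h2) ih
  obtain ⟨B, hB⟩ : ∃ B : M → Set M, ∀ x y, y ∈ B x ↔ Relation.ReflTransGen Adj x y :=
    ⟨fun x => {y | Relation.ReflTransGen Adj x y}, fun _ _ => Iff.rfl⟩
  have hBc : ∀ x, (B x).Countable := by
    intro x
    refine (BK1_ctbl Adj hnb x).mono ?_
    intro y hy
    exact (hB x y).1 hy
  have hBs : ∀ x, x ∈ B x := fun x => (hB x x).2 Relation.ReflTransGen.refl
  have hBe : ∀ x y, y ∈ B x → B y = B x := by
    intro x y h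
    have h1 := (hB x y).1 h
    ext z
    rw [hB, hB]
    exact ⟨fun h2 => h1.trans h2, fun h2 => (hE _ _ h1).trans h2⟩
  have hBA : ∀ x ∉ A, ∀ y ∈ B x, y ∉ A := by
    intro x hx y hy
    have h1 := (hB x y).1 hy
    induction h1 with
    | refl => exact hx
    | tail h1 h2 ih => exact ((hAdj _ _).1 h2).2.1
  have hadjB : ∀ x y, Adj x y → y ∈ B x := fun x y h =>
    (hB x y).2 (Relation.ReflTransGen.single h)
  obtain ⟨bad, hbad⟩ : ∃ bad : Set M, ∀ x, x ∈ bad ↔ x ∉ A ∧ ∃ a ∈ A, col a x ≠ g (cl x) a :=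
    ⟨{x | x ∉ A ∧ ∃ a ∈ A, col a x ≠ g (cl x) a}, fun _ => Iff.rfl⟩
  have hbadc : bad.Countable := by
    refine (hS.ctbl.biUnion fun a _ => hS.gen a).mono ?_
    intro x hx
    obtain ⟨h1, a, ha, h2⟩ := (hbad x).1 hx
    exact mem_biUnion ha ⟨h1, h2⟩
  obtain ⟨A', hA'⟩ : ∃ A' : Set M, A' = A ∪ ⋃ x ∈ bad, B x := ⟨_, rfl⟩
  have hA'c : A'.Countable := by
    rw [hA']
    exact hS.ctbl.union (hbadc.biUnion fun x _ => hBc x)
  have hAA' : A ⊆ A' := by
    rw [hA']
    exact subset_union_left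
  have hbadA' : ∀ z ∈ bad, B z ⊆ A' := by
    intro z hz
    rw [hA']
    exact (subset_biUnion_of_mem (u := fun x => B x) hz).trans subset_union_right
  have hout : ∀ x ∉ A', ∀ y ∈ B x, y ∉ A' := by
    intro x hx y hy hy'
    rw [hA'] at hy'
    rcases hy' with h1 | h1
    · exact hBA x (fun h => hx (hAA' h)) y hy h1
    · obtain ⟨z, hz, h2⟩ := mem_iUnion₂.1 h1
      apply hx
      apply hbadA' z hz
      rw [← hBe z y h2, hBe x y hy]
      exact hBs x
  refine ⟨A', B, hAA', ⟨hA'c, fun x _ => hBs x, fun x hx y hy => ⟨hout x hx y hy, hBe x y hy⟩,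
    ?_, ?_⟩, fun x _ => hBc x, ?_⟩
  · intro a ha x hx
    have hxA : x ∉ A := fun h => hx (hAA' h)
    by_cases haA : a ∈ A
    · by_contra hc
      exact hx (hbadA' x ((hbad x).2 ⟨hxA, a, haA, hc⟩) (hBs x))
    · have ha' := ha
      rw [hA'] at ha'
      rcases ha' with h1 | h1
      · exact absurd h1 haA
      · obtain ⟨z, hz, h2⟩ := mem_iUnion₂.1 h1
        have h3 : ¬ Adj a x := by
          intro h4
          apply hx
          apply hbadA' z hz
          rw [← hBe z a h2]
          exact hadjB a x h4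
        rw [hS.gs a haA]
        by_contra hc
        exact h3 ((hAdj a x).2 ⟨haA, hxA, fun h => hx (h ▸ ha), hc⟩)
  · intro x hx y hy hyB
    by_contra hc
    apply hyB
    apply hadjB
    exact (hAdj x y).2 ⟨fun h => hx (hAA' h), fun h => hy (hAA' h),
      fun h => hyB (h ▸ hBs x), hc⟩
  · intro x hx D hD hne hDne
    by_contra hc
    push Not at hc
    apply hDne
    obtain ⟨v, hv⟩ := hne
    refine Subset.antisymm hD ?_
    intro w hw
    have h1 : Relation.ReflTransGen Adj v w := by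
      rw [← hB, hBe x v (hD hv)]
      exact hw
    have h2 : w ∈ D := by
      clear hw
      induction h1 with
      | refl => exact hv
      | tail h1 h3 ih =>
        rename_i u u'
        by_contra hu
        have h4 : u' ∈ B x := by
          rw [← hBe x u (hD ih)]
          exact hadjB _ _ h3
        exact ((hAdj _ _).1 h3).2.2.2 (hc u ih u' ⟨h4, hu⟩)
    exact h2

end HER
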