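import Pool.Agent.VB.C

/-!
# HER: hereditary classes of structures with unary and binary relations, definitions
-/

set_option autoImplicit false

namespace HER

open Set Pool.Agent.Helper5.DU Pool.Agent.Helper6.Str Pool.Agent.Helper79.VC
  Pool.Agent.Helper97.LO Pool.Agent.Helper97.VC

/-! ## Coloured complete graphs -/

section comb

variable {M C : Type}

/-- all pairs of different elements of `Y` have the colour `κ` -/
def Hom (col : M → M → C) (Y : Set M) (κ : C) : Prop :=
  ∀ x ∈ Y, ∀ y ∈ Y, x ≠ y → col x y = κ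

/-- `z` splits `Y` by the colours `t`, `t'` -/
def Spl (col : M → M → C) (z : M) (Y : Set M) (t t' : C) : Prop :=
  t ≠ t' ∧ ¬ {x ∈ Y | col z x = t}.Countable ∧ ¬ {x ∈ Y | col z x = t'}.Countable

/-- The relation between `v` and `w` given by `φ` and the colours of `v`, `w` over the constants
`a`. -/
def Rl (col : M → M → C) {n : ℕ} (a : Fin n → M) (φ : (Fin n → C) → (Fin n → C) → C → Prop)
    (v w : M) : Prop :=
  v ≠ w ∧ φ (fun i => col (a i) v) (fun i => col (a i) w) (col v w)

/-- the finite numbers of elements of `X` in the relation `Rl` with an element of `X` -/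
def Cnt (col : M → M → C) {n : ℕ} (a : Fin n → M) (φ : (Fin n → C) → (Fin n → C) → C → Prop)
    (X : Set M) : Set ℕ :=
  {m | ∃ v ∈ X \ range a, {w ∈ X \ range a | Rl col a φ v w}.encard = (m : ℕ∞)}

/-- the sizes of the finite components of `X` for the relation `Rl` -/
def Cmp (col : M → M → C) {n : ℕ} (a : Fin n → M) (φ : (Fin n → C) → (Fin n → C) → C → Prop)
    (X : Set M) : Set ℕ :=
  {m | ∃ D ⊆ X \ range a, D.encard = (m : ℕ∞) ∧
    (∀ D' ⊆ D, D'.Nonempty → D' ≠ D → ∃ v ∈ D', ∃ w ∈ D \ D', Rl col a φ v w ∨ Rl col a φ w v) ∧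
    ∀ v ∈ D, ∀ w ∈ (X \ range a) \ D, ¬ Rl col a φ v w ∧ ¬ Rl col a φ w v}

/-- The properties of the colouring of the pairs of elements of a large structure of a scattered
hereditary class by their atomic types. -/
structure CS (inv : C → C) (col : M → M → C) : Prop where
  inv2 : ∀ c, inv (inv c) = c
  sym : ∀ x y, col y x = inv (col x y)
  cnt : ∀ (n : ℕ) (a : Fin n → M) (φ : (Fin n → C) → (Fin n → C) → C → Prop)
    (X : (ℕ → Bool) → Set M), (∀ f, (X f).Countable ∧ (X f).Infinite ∧ range a ⊆ X f) →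
    ∃ f g, f ≠ g ∧ Cnt col a φ (X f) = Cnt col a φ (X g)
  cmp : ∀ (n : ℕ) (a : Fin n → M) (φ : (Fin n → C) → (Fin n → C) → C → Prop)
    (X : (ℕ → Bool) → Set M), (∀ f, (X f).Countable ∧ (X f).Infinite ∧ range a ⊆ X f) →
    ∃ f g, f ≠ g ∧ Cmp col a φ (X f) = Cmp col a φ (X g)
  rat : ∀ (i : ℚ → M) (κ : C), Function.Injective i → (∀ p q, p < q → col (i p) (i q) = κ) →
    inv κ = κ
  seq1 : ∀ (s : Om → M) (κ : C), Function.Injective s → (∀ a b, a < b → col (s a) (s b) = κ) →
    inv κ = κ
  seq2 : ∀ (c d : Om → M) (κ l s1 s2 : C), Function.Injective c → Function.Injective d →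
    (∀ a b, c a ≠ d b) → inv κ = κ → inv l = l →
    (∀ a b, a < b → col (c a) (c b) = κ ∧ col (d a) (d b) = l ∧ col (c a) (d b) = s1 ∧
      col (c b) (d a) = s2) → s1 = s2

/-- A comb: spine `z`, rows `x i 0, ..., x i (N i - 1)`. -/
structure Comb (col : M → M → C) (N : ℕ → ℕ) (τ p e d ρ ρ0 : C) (z : ℕ → M) (x : ℕ → ℕ → M) :
    Prop where
  zinj : Function.Injective z
  xinj : ∀ i k j l, k < N i → l < N j → x i k = x j l → i = j ∧ k = l
  zx : ∀ i j l, l < N j → z i ≠ x j l
  zz : ∀ i j, i < j → col (z i) (z j) = τ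
  zxp : ∀ i j l, i < j → l < N j → col (z i) (x j l) = p
  zxe : ∀ i k, k < N i → col (z i) (x i k) = e
  zxd : ∀ i j k, i < j → k < N i → col (z j) (x i k) = d
  xx : ∀ i j k l, i < j → k < N i → l < N j → col (x i k) (x j l) = ρ
  xx0 : ∀ i k l, k < l → l < N i → col (x i k) (x i l) = ρ0

/-- `Y` is a good set with generic colours `g` -/
def IsGd (inv : C → C) (col : M → M → C) (Y : Set M) (κ : C) (g : M → C) : Prop :=
  ¬ Y.Countable ∧ inv κ = κ ∧ Hom col Y κ ∧ ∀ z, {x ∈ Y | col z x ≠ g z}.Countable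

/-- The elements outside of the countable set `A` fall in finitely many classes `cl x` with
generic colours `g`. -/
structure Str {I : Type} {q : ℕ} (inv : C → C) (col : M → M → C) (A : Set M) (b : Fin q → M)
    (cl : M → I) (g : I → M → C) (s : I → I → C) : Prop where
  ctbl : A.Countable
  bA : range b ⊆ A
  sep : ∀ i j, i ≠ j → ∃ k, g i (b k) ≠ g j (b k)
  sym : ∀ i j, s j i = inv (s i j)
  bcl : ∀ x ∉ A, ∀ k, col (b k) x = g (cl x) (b k)
  gen : ∀ z, {x | x ∉ A ∧ col z x ≠ g (cl x) z}.Countable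
  gs : ∀ x ∉ A, ∀ j, g j x = s (cl x) j

/-- The elements outside of the countable set `A` are partitioned in blocks `B x`; all other
colours are generic. -/
structure Blk {I : Type} (col : M → M → C) (A : Set M) (cl : M → I) (g : I → M → C)
    (s : I → I → C) (B : M → Set M) : Prop where
  ctbl : A.Countable
  self : ∀ x ∉ A, x ∈ B x
  out : ∀ x ∉ A, ∀ y ∈ B x, y ∉ A ∧ B y = B x
  gA : ∀ a ∈ A, ∀ x ∉ A, col a x = g (cl x) a
  gB : ∀ x ∉ A, ∀ y ∉ A, y ∉ B x → col x y = s (cl x) (cl y)

/-- `y` plays in its block the role of `x` in its block -/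
def BIso {I : Type} (col : M → M → C) (cl : M → I) (B : M → Set M) (x y : M) : Prop :=
  ∃ h : M → M, BijOn h (B x) (B y) ∧ h x = y ∧ (∀ u ∈ B x, cl (h u) = cl u) ∧
    ∀ u ∈ B x, ∀ v ∈ B x, u ≠ v → col (h u) (h v) = col u v

end comb

/-! ## Structures -/

section str

variable {L : FirstOrder.Language.{0, 0}} {M N : Type}

/-- `K` is closed under the infinite substructures which contain a suitable finite set. -/
def HerK [∀ n, IsEmpty (L.Functions n)] (K : Set (L.Structure ℕ)) : Prop :=
  ∀ S ∈ K, ∃ F : Set ℕ, F.Finite ∧ ∀ f : ℕ → ℕ, Function.Injective f → F ⊆ range f → pl S f ∈ K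

/-- the countable infinite substructures of `S` which contain `F` are in `K` -/
def HerS [∀ n, IsEmpty (L.Functions n)] (K : Set (L.Structure ℕ)) (S : L.Structure M)
    (F : Set M) : Prop :=
  ∀ f : ℕ → M, Function.Injective f → F ⊆ range f → pl S f ∈ K

/-- There is no family of countable substructures of `S` containing `F`, indexed by the subsets of
`ℕ`, which is decoded at a countable level over finitely many constants. -/
def Pig (S : L.Structure M) (F : Set M) : Prop :=
  ∀ (X : (ℕ → Bool) → Set M) (G : Set M) (γ : Ordinal.{0}), G.Finite → F ⊆ G → γ < om1 →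
    (∀ f, (X f).Countable ∧ (X f).Infinite ∧ G ⊆ X f) →
    ∃ f g, f ≠ g ∧ BFR S S (X f) (X g) γ (dg G)

/-- the atomic type of the pair `(x, y)` over `F` -/
def at2 (S : L.Structure M) (F : Set M) (x y : M) : Set (Σ n, L.Relations n × (Fin n → F ⊕ Bool)) :=
  {r | S.RelMap r.2.1 (fun i => Sum.elim (fun a : F => (a : M)) (fun b => if b then y else x)
    (r.2.2 i))}

/-- the blocks `w i 0, ..., w i (b - 1)` have constant atomic types -/
structure Seq {J : Type} [LinearOrder J] {b : ℕ} (S : L.Structure M) (w : J → Fin b → M) : Prop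
    where
  inj : ∀ i p j q, w i p = w j q → i = j ∧ p = q
  atb : ∀ i j p q, AtEq S S {(w i p, w j p), (w i q, w j q)}
  atc : ∀ i i' j j' p q, i < j → i' < j' → AtEq S S {(w i p, w i' p), (w j q, w j' q)}

/-- asymmetric sequence of elements -/
def Asy1 {J : Type} [LinearOrder J] (S : L.Structure M) (w : J → Fin 1 → M) : Prop :=
  ∀ i j, i < j → ¬ AtEq S S {(w i 0, w j 0), (w j 0, w i 0)}

/-- asymmetric sequence of pairs -/
def Asy2 {J : Type} [LinearOrder J] (S : L.Structure M) (w : J → Fin 2 → M) : Prop :=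
  ∀ i j, i < j → (∀ p, AtEq S S {(w i p, w j p), (w j p, w i p)}) ∧
    ¬ AtEq S S {(w i 0, w j 0), (w j 1, w i 1)}

end str

end HER
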