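import Pool.Agent.HER.Defs

/-!
# HER: frozen statements
-/

set_option autoImplicit false

namespace HER

open Set Pool.Agent.Helper5.DU Pool.Agent.Helper6.Str Pool.Agent.Helper79.VC
  Pool.Agent.Helper97.LO Pool.Agent.Helper97.VC

/-! ## Combinatorics -/

/-- [RAM] Ramsey theorem for pairs -/
def St_RAM : Prop := ∀ (C : Type) [Finite C] (c : ℕ → ℕ → C),
  ∃ (φ : ℕ → ℕ) (κ : C), StrictMono φ ∧ ∀ i j, i < j → c (φ i) (φ j) = κ

/-- [THIN] thinning of a comb: `cz j i k` is the colour of the spine element `j` and the element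
`k` of row `i` -/
def St_THIN : Prop := ∀ (C D : Type) [Finite C] [Finite D] (c : ℕ → ℕ → C)
  (cz : ℕ → ℕ → ℕ → D), ∃ (φ : ℕ → ℕ) (ψ : ℕ → ℕ → ℕ) (τ : C) (d : D), StrictMono φ ∧
    (∀ i, Function.Injective (ψ i)) ∧ (∀ i j, i < j → c (φ i) (φ j) = τ) ∧
    ∀ i j k, i < j → k ≤ i → cz (φ j) (φ i) (ψ i k) = d

/-- [PR] one pair of colours -/
def St_PR : Prop := ∀ (M D : Type) [Finite D] (Q : D → Set M → Prop) (Y : Set M),
  (∀ c Y' Y'', Y' ⊆ Y'' → Q c Y' → Q c Y'') → ¬ Y.Countable →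
  (∀ Y' ⊆ Y, ¬ Y'.Countable → ∃ c, Q c Y') →
  ∃ Y' ⊆ Y, ¬ Y'.Countable ∧ ∃ c, ∀ Y'' ⊆ Y', ¬ Y''.Countable → Q c Y''

/-- [DM] Dushnik-Miller for uncountable sets -/
def St_DM : Prop := ∀ (M : Type) (G : M → M → Prop) (Y : Set M), (∀ x y, G x y → G y x) →
  ¬ Y.Countable → (¬ ∃ x : ℕ → M, Function.Injective x ∧ (∀ k, x k ∈ Y) ∧
    ∀ k l, k < l → G (x k) (x l)) →
  ∃ T ⊆ Y, ¬ T.Countable ∧ ∀ x ∈ T, ∀ y ∈ T, x ≠ y → ¬ G x y

/-- [SQ] transfinite choice: a sequence of length `ω₁` -/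
def St_SQ : Prop := ∀ (X : Type) (Y : Set X) (E : X → Set X),
  (∀ D : Set X, D.Countable → ∃ x ∈ Y, ∀ y ∈ D, x ∉ E y) →
  ∃ s : Om → X, (∀ a, s a ∈ Y) ∧ ∀ a b, a < b → s b ∉ E (s a)

/-- [NUM] growth -/
def St_NUM : Prop := ∃ m : (ℕ → Bool) → ℕ → ℕ, (∀ f n, 16 ≤ m f n ∧ m f n ≤ 5 ^ (n + 3)) ∧
  ∀ (α β : ℕ), α ≤ 1 → β ≤ 1 → ∀ f g, f ≠ g →
    ∃ n, (∀ n', m f n + α * (∑ j ∈ Finset.range n, m f j) + β * n ≠
        m g n' + α * (∑ j ∈ Finset.range n', m g j) + β * n') ∧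
      (∀ n', m f n - 1 ≠ m g n' - 1)

/-- [CSB] longer rows -/
def St_CSB : Prop := ∀ (M C : Type) (col : M → M → C) (τ p e d ρ ρ0 : C) (z : ℕ → M)
  (x : ℕ → ℕ → M) (N : ℕ → ℕ), Comb col (fun i => i + 1) τ p e d ρ ρ0 z x →
  ∃ (z' : ℕ → M) (x' : ℕ → ℕ → M), Comb col N τ p e d ρ ρ0 z' x'

/-- [DC1] combs: the spine sees spine and rows differently -/
def St_DC1 : Prop := ∀ (M C : Type) (inv : C → C) (col : M → M → C) (N : ℕ → ℕ)
  (τ p e d ρ ρ0 : C) (z : ℕ → M) (x : ℕ → ℕ → M), CS inv col → (∀ n, 5 ^ (n + 3) ≤ N n) →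
  Comb col N τ p e d ρ ρ0 z x → p ≠ e → τ = p

/-- [DC2] combs: the rows see infinitely many elements which are not of the colour `p` -/
def St_DC2 : Prop := ∀ (M C : Type) (inv : C → C) (col : M → M → C) (N : ℕ → ℕ)
  (p e d ρ ρ0 : C) (z : ℕ → M) (x : ℕ → ℕ → M), CS inv col → (∀ n, 5 ^ (n + 3) ≤ N n) →
  Comb col N p p e d ρ ρ0 z x → p ≠ e → d = inv p ∧ ρ = p

/-- [DC3] combs: all elements see the later elements in the colour `p` -/
def St_DC3 : Prop := ∀ (M C : Type) (inv : C → C) (col : M → M → C) (N : ℕ → ℕ)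
  (p e ρ0 : C) (z : ℕ → M) (x : ℕ → ℕ → M), CS inv col → (∀ n, 5 ^ (n + 3) ≤ N n) →
  Comb col N p p e (inv p) p ρ0 z x → p ≠ e →
  inv p ≠ p ∧ e = inv p ∧ (ρ0 = p ∨ ρ0 = inv p)

/-- [DCD] combs which are not decoded -/
def St_DCD : Prop := ∀ (M C : Type) (inv : C → C) (col : M → M → C)
  (τ p e d ρ ρ0 : C) (z : ℕ → M) (x : ℕ → ℕ → M), CS inv col →
  Comb col (fun i => i + 1) τ p e d ρ ρ0 z x → p ≠ e →
  τ = p ∧ d = inv p ∧ ρ = p ∧ inv p ≠ p ∧ e = inv p ∧ (ρ0 = p ∨ ρ0 = inv p)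

/-- [SS] a set which is not split by its elements -/
def St_SS : Prop := ∀ (M C : Type) [Finite C] (inv : C → C) (col : M → M → C) (Y : Set M),
  CS inv col → ¬ Y.Countable → (∀ y ∈ Y, ∀ t t', ¬ Spl col y Y t t') →
  ∃ Y' ⊆ Y, ¬ Y'.Countable ∧ ∃ κ, inv κ = κ ∧ Hom col Y' κ

/-- [CMB] combs in hereditarily split sets -/
def St_CMB : Prop := ∀ (M C : Type) [Finite C] (inv : C → C) (col : M → M → C) (Y : Set M)
  (p e ρ0 : C), (∀ c, inv (inv c) = c) → (∀ x y, col y x = inv (col x y)) → ¬ Y.Countable →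
  (∀ Y' ⊆ Y, ¬ Y'.Countable → ∃ y ∈ Y', ¬ {v ∈ Y' | col y v = p}.Countable ∧
    ∃ x : ℕ → M, Function.Injective x ∧ (∀ k, x k ∈ Y' ∧ x k ≠ y ∧ col y (x k) = e) ∧
      ∀ k l, k < l → col (x k) (x l) = ρ0) →
  ∃ (r : C) (z : ℕ → M) (x : ℕ → ℕ → M),
    Comb col (fun i => i + 1) p p e (inv r) r ρ0 z x

/-- [ST] tournaments: the out-neighbourhoods -/
def St_ST : Prop := ∀ (M C : Type) (inv : C → C) (col : M → M → C) (p : C) (T : Set M),
  CS inv col → inv p ≠ p → ¬ T.Countable →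
  (∀ x ∈ T, ∀ y ∈ T, x ≠ y → col x y = p ∨ col x y = inv p) →
  ∃ T' ⊆ T, ¬ T'.Countable ∧ ∀ x ∈ T', ∀ y ∈ T', x ≠ y → col x y = p →
    {z ∈ T' | col y z = p ∧ col z x = p}.Countable

/-- [LO1] tournaments: a transitive subset -/
def St_LO1 : Prop := ∀ (M C : Type) (inv : C → C) (col : M → M → C) (p : C) (T : Set M),
  (∀ c, inv (inv c) = c) → (∀ x y, col y x = inv (col x y)) → inv p ≠ p → ¬ T.Countable →
  (∀ x ∈ T, ∀ y ∈ T, x ≠ y → col x y = p ∨ col x y = inv p) →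
  (∀ T' ⊆ T, ¬ T'.Countable → ∃ y ∈ T', Spl col y T' p (inv p)) →
  (∀ x ∈ T, ∀ y ∈ T, x ≠ y → col x y = p → {z ∈ T | col y z = p ∧ col z x = p}.Countable) →
  ∃ Z ⊆ T, ¬ Z.Countable ∧ ∀ x ∈ Z, ∀ y ∈ Z, ∀ z ∈ Z, x ≠ y → y ≠ z → col x y = p →
    col y z = p → x ≠ z ∧ col x z = p

/-- [LO2] a hereditarily split linear order contains the rationals -/
def St_LO2 : Prop := ∀ (M C : Type) (inv : C → C) (col : M → M → C) (p : C) (Z : Set M),
  (∀ c, inv (inv c) = c) → (∀ x y, col y x = inv (col x y)) → inv p ≠ p → ¬ Z.Countable →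
  (∀ x ∈ Z, ∀ y ∈ Z, x ≠ y → col x y = p ∨ col x y = inv p) →
  (∀ T' ⊆ Z, ¬ T'.Countable → ∃ y ∈ T', Spl col y T' p (inv p)) →
  (∀ x ∈ Z, ∀ y ∈ Z, ∀ z ∈ Z, x ≠ y → y ≠ z → col x y = p → col y z = p →
    x ≠ z ∧ col x z = p) →
  ∃ i : ℚ → M, Function.Injective i ∧ ∀ a b, a < b → col (i a) (i b) = p

/-- [TF] no hereditarily split tournaments -/
def St_TF : Prop := ∀ (M C : Type) (inv : C → C) (col : M → M → C) (p : C) (T : Set M),
  CS inv col → inv p ≠ p → ¬ T.Countable →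
  (∀ x ∈ T, ∀ y ∈ T, x ≠ y → col x y = p ∨ col x y = inv p) →
  ¬ ∀ T' ⊆ T, ¬ T'.Countable → ∃ y ∈ T', Spl col y T' p (inv p)

/-- [CLA] uncountable sets contain uncountable homogeneous symmetric sets -/
def St_CLA : Prop := ∀ (M C : Type) [Finite C] (inv : C → C) (col : M → M → C) (Y : Set M),
  CS inv col → ¬ Y.Countable → ∃ Y' ⊆ Y, ¬ Y'.Countable ∧ ∃ κ, inv κ = κ ∧ Hom col Y' κ

/-- [CBC] combs over homogeneous sets -/
def St_CBC : Prop := ∀ (M C : Type) [Finite C] (inv : C → C) (col : M → M → C) (Y : Set M)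
  (κ p e : C), (∀ c, inv (inv c) = c) → (∀ x y, col y x = inv (col x y)) → ¬ Y.Countable →
  inv κ = κ → Hom col Y κ →
  (∀ Y' ⊆ Y, ¬ Y'.Countable → ∃ z, Spl col z Y' p e) →
  ∃ (τ d : C) (z : ℕ → M) (x : ℕ → ℕ → M), Comb col (fun i => i + 1) τ p e d κ κ z x

/-- [CLB] uncountable sets contain good sets -/
def St_CLB : Prop := ∀ (M C : Type) [Finite C] (inv : C → C) (col : M → M → C) (Y : Set M),
  CS inv col → ¬ Y.Countable → ∃ Y' ⊆ Y, ∃ κ g, IsGd inv col Y' κ g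

/-- [CCA] cross relations of good sets -/
def St_CCA : Prop := ∀ (M C : Type) [Finite C] (inv : C → C) (col : M → M → C) (Y Y' : Set M)
  (κ κ' : C) (g g' : M → C), CS inv col → IsGd inv col Y κ g → IsGd inv col Y' κ' g' →
  ∃ s, {y ∈ Y | g' y ≠ s}.Countable ∧ {y ∈ Y' | g y ≠ inv s}.Countable

/-- [CCB] combs of functions -/
def St_CCB : Prop := ∀ (M C : Type) [Finite C] (G : Set (M → C)), G.Infinite →
  ∃ (h : ℕ → M → C) (z : ℕ → M) (p e : C), p ≠ e ∧ (∀ i, h i ∈ G) ∧ (∀ i, h i (z i) = e) ∧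
    ∀ i j, i < j → h j (z i) = p

/-- [CCC] combs from good sets -/
def St_CCC : Prop := ∀ (M C : Type) [Finite C] (inv : C → C) (col : M → M → C)
  (h : ℕ → M → C) (z : ℕ → M) (p e : C), CS inv col → p ≠ e →
  (∀ i, ∃ Y κ, IsGd inv col Y κ (h i)) → (∀ i, h i (z i) = e) → (∀ i j, i < j → h j (z i) = p) →
  ∃ (τ d s κ : C) (z : ℕ → M) (x : ℕ → ℕ → M), inv κ = κ ∧
    Comb col (fun i => i + 1) τ p e d s κ z x

/-- [CLC] finitely many generic types -/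
def St_CLC : Prop := ∀ (M C : Type) [Finite C] (inv : C → C) (col : M → M → C), CS inv col →
  {g : M → C | ∃ Y κ, IsGd inv col Y κ g}.Finite

/-- [STR] the structure of the large structure -/
def St_STR : Prop := ∀ (M C : Type) [Finite C] (inv : C → C) (col : M → M → C), CS inv col →
  ¬ (univ : Set M).Countable →
  ∃ (I : Type) (q : ℕ) (A : Set M) (b : Fin q → M) (cl : M → I) (g : I → M → C)
    (s : I → I → C), Finite I ∧ Str inv col A b cl g s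

/-- [BK1] countable blocks -/
def St_BK1 : Prop := ∀ (M C I : Type) (q : ℕ) (inv : C → C) (col : M → M → C) (A : Set M)
  (b : Fin q → M) (cl : M → I) (g : I → M → C) (s : I → I → C), (∀ c, inv (inv c) = c) →
  (∀ x y, col y x = inv (col x y)) → Str inv col A b cl g s →
  ∃ (A' : Set M) (B : M → Set M), A ⊆ A' ∧ Blk col A' cl g s B ∧ (∀ x ∉ A', (B x).Countable) ∧
    ∀ x ∉ A', ∀ D ⊆ B x, D.Nonempty → D ≠ B x → ∃ v ∈ D, ∃ w ∈ B x \ D,
      col v w ≠ s (cl v) (cl w)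

/-- [BK2] the blocks are bounded -/
def St_BK2 : Prop := ∀ (M C I : Type) (q : ℕ) (inv : C → C) (col : M → M → C) (A : Set M)
  (b : Fin q → M) (cl : M → I) (g : I → M → C) (s : I → I → C) (A' : Set M) (B : M → Set M),
  CS inv col → Str inv col A b cl g s → A ⊆ A' → Blk col A' cl g s B →
  (∀ x ∉ A', ∀ D ⊆ B x, D.Nonempty → D ≠ B x → ∃ v ∈ D, ∃ w ∈ B x \ D,
      col v w ≠ s (cl v) (cl w)) →
  ∃ n : ℕ, {D : Set M | ∃ x ∉ A', D = B x ∧ (n : ℕ∞) < D.encard}.Finite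

/-- [BK3] finite blocks, each of infinitely many occurrences -/
def St_BK3 : Prop := ∀ (M C : Type) [Finite C] (inv : C → C) (col : M → M → C), CS inv col →
  ∃ (I : Type) (A : Set M) (cl : M → I) (g : I → M → C) (s : I → I → C) (B : M → Set M),
    Finite I ∧ Blk col A cl g s B ∧ (∀ x ∉ A, (B x).Finite) ∧
    ∀ x ∉ A, ¬ {y | y ∉ A ∧ BIso col cl B x y}.Countable

/-! ## Structures -/

/-- [HF] countable substructures of `S` -/
def St_HF : Prop := ∀ (L : FirstOrder.Language.{0, 0}) [∀ n, IsEmpty (L.Functions n)]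
  [∀ n, Countable (L.Relations n)] (K : Set (L.Structure ℕ)) (δ : Ordinal.{0}) (M : Type)
  (S : L.Structure M), VSt K δ S → HerK K → ∃ F : Set M, F.Finite ∧ HerS K S F

/-- [PIG] pigeonhole -/
def St_PIG : Prop := ∀ (L : FirstOrder.Language.{0, 0}) [∀ n, IsEmpty (L.Functions n)]
  [∀ n, Countable (L.Relations n)] (K : Set (L.Structure ℕ)) (M : Type)
  (S : L.Structure M) (F : Set M), Scat K → HerS K S F → Pig S F

/-- [FT] finitely many types -/
def St_FT : Prop := ∀ (L : FirstOrder.Language.{0, 0}) [∀ n, IsEmpty (L.Functions n)] (M : Type)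
  (S : L.Structure M) (F : Set M), Ar2 L → F.Finite → Infinite M → Pig S F →
  (range fun r : {r : M × M // r.1 ∉ F ∧ r.2 ∉ F} => at2 S F r.1.1 r.1.2).Finite

/-- [CNT] the counting invariants -/
def St_CNT : Prop := ∀ (L : FirstOrder.Language.{0, 0}) [∀ n, IsEmpty (L.Functions n)] (M : Type)
  (S : L.Structure M) (F : Set M), Ar2 L → F.Finite → Pig S F →
  ∀ (C : Type) (t : C → Set (Σ n, L.Relations n × (Fin n → F ⊕ Bool)))
    (col : {x : M // x ∉ F} → {x : M // x ∉ F} → C), (∀ x y, t (col x y) = at2 S F x y) →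
    Function.Injective t →
    ∀ (n : ℕ) (a : Fin n → {x : M // x ∉ F}) (φ : (Fin n → C) → (Fin n → C) → C → Prop)
    (X : (ℕ → Bool) → Set {x : M // x ∉ F}),
    (∀ f, (X f).Countable ∧ (X f).Infinite ∧ range a ⊆ X f) →
    ∃ f g, f ≠ g ∧ Cnt col a φ (X f) = Cnt col a φ (X g) ∧ Cmp col a φ (X f) = Cmp col a φ (X g)

/-- equivalence of level `γ` of the intervals `A`, `B` of linear orders -/
def LE {I J : Type} [LinearOrder I] [LinearOrder J] (γ : Ordinal.{0}) (A : Set I) (B : Set J) :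
    Prop :=
  ∀ β, (h : β < γ) →
    (∀ x ∈ A, ∃ y ∈ B, LE β (A ∩ Iio x) (B ∩ Iio y) ∧ LE β (A ∩ Ioi x) (B ∩ Ioi y)) ∧
    (∀ y ∈ B, ∃ x ∈ A, LE β (A ∩ Iio x) (B ∩ Iio y) ∧ LE β (A ∩ Ioi x) (B ∩ Ioi y))
termination_by γ
decreasing_by all_goals exact h

/-- [LOF] a family of linear orders which are different at a countable level -/
def St_LOF : Prop := ∃ (I : (ℕ → Bool) → Set ℚ) (γ : Ordinal.{0}), γ < om1 ∧
  (∀ f, (I f).Infinite ∧ I f ⊆ Ioo 0 1) ∧ ∀ f g, LE γ (I f) (I g) → f = g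

/-- [LD1] linear orders are decoded -/
def St_LD1 : Prop := ∀ (L : FirstOrder.Language.{0, 0}) [∀ n, IsEmpty (L.Functions n)] (M : Type)
  (S : L.Structure M) (F : Set M), Ar2 L → F.Finite → Pig S F →
  ¬ ∃ w : ℚ → Fin 1 → M, Seq S w ∧ Asy1 S w

/-- [LD2] linear orders are decoded from asymmetric pairs -/
def St_LD2 : Prop := ∀ (L : FirstOrder.Language.{0, 0}) [∀ n, IsEmpty (L.Functions n)] (M : Type)
  (S : L.Structure M) (F : Set M), Ar2 L → F.Finite → Pig S F →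
  ¬ ∃ w : ℚ → Fin 2 → M, Seq S w ∧ Asy2 S w

/-- [KAR] a countable well-order which is equivalent to an order containing the rationals -/
def St_KAR : Prop := ∀ γ < om1, ∃ (I J : Type) (_ : LinearOrder I) (_ : LinearOrder J),
  Countable I ∧ Infinite I ∧ Countable J ∧ WellFoundedLT I ∧ Nonempty (ℚ ↪o J) ∧
    LE γ (univ : Set I) (univ : Set J)

/-- [NS] the structure given by a linear order and a sequence -/
def St_NS : Prop := ∀ (L : FirstOrder.Language.{0, 0}) [∀ n, IsEmpty (L.Functions n)] (M : Type)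
  (S : L.Structure M) (F : Set M) (b : ℕ) (w : Om → Fin b → M) (J : Type) [LinearOrder J],
  Ar2 L → 0 < b → (∀ i p, w i p ∉ F) → Seq S w →
  (∀ i j p, AtEq S S (dg F ∪ {(w i p, w j p)})) →
  (∀ i i' j j' p q, i < j → i' < j' → AtEq S S (dg F ∪ {(w i p, w i' p), (w j q, w j' q)})) →
  (∀ i i' p q, AtEq S S (dg F ∪ {(w i p, w i' p), (w i q, w i' q)})) →
  ∃ T : L.Structure (F ⊕ J × Fin b), ∀ (D : Set J) (h : J → Om), StrictMonoOn h D →
    AtEq T S {r | (∃ a : F, r = (Sum.inl a, (a : M))) ∨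
      ∃ j ∈ D, ∃ p, r = (Sum.inr (j, p), w (h j) p)}

/-- [NT] transfer of the equivalence of linear orders -/
def St_NT : Prop := ∀ (L : FirstOrder.Language.{0, 0}) [∀ n, IsEmpty (L.Functions n)]
  (Q : Type) (b : ℕ) (J J' : Type) [LinearOrder J] [LinearOrder J'] [Nonempty J] [Nonempty J']
  (T : L.Structure (Q ⊕ J × Fin b)) (T' : L.Structure (Q ⊕ J' × Fin b)) (γ : Ordinal.{0}),
  Ar2 L → (∀ (j : Fin 2 → J) (j' : Fin 2 → J'), (j 0 < j 1 ↔ j' 0 < j' 1) →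
    (j 1 < j 0 ↔ j' 1 < j' 0) →
    AtEq T T' {r | (∃ a : Q, r = (Sum.inl a, Sum.inl a)) ∨
      ∃ i p, r = (Sum.inr (j i, p), Sum.inr (j' i, p))}) →
  LE γ (univ : Set J) (univ : Set J') →
  BFR T T' univ univ γ {r | ∃ a : Q, r = (Sum.inl a, Sum.inl a)}

/-- [SQN] no asymmetric sequences of length `ω₁` -/
def St_SQN : Prop := ∀ (L : FirstOrder.Language.{0, 0}) [∀ n, IsEmpty (L.Functions n)]
  [∀ n, Countable (L.Relations n)] (K : Set (L.Structure ℕ)) (δ : Ordinal.{0}) (M : Type)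
  (S : L.Structure M) (F : Set M) (b : ℕ) (w : Om → Fin b → M), Ar2 L → VSt K δ S → HerK K →
  F.Finite → HerS K S F → 0 < b → (∀ i p, w i p ∉ F) → Seq S w →
  (∀ i i' p q, AtEq S S (dg F ∪ {(w i p, w i' p), (w i q, w i' q)})) →
  (∀ i i' j j' p q, i < j → i' < j' → AtEq S S (dg F ∪ {(w i p, w i' p), (w j q, w j' q)})) →
  ∃ (T : L.Structure ℕ) (F' : Set ℕ) (u : ℚ → Fin b → ℕ), F'.Finite ∧ Pig T F' ∧ Seq T u ∧
    ∀ i j i' j', i < j → i' < j' → ∀ p q, AtEq S T {(w i p, u i' p), (w j q, u j' q)}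

/-- [CSS] the large structure as coloured complete graph -/
def St_CSS : Prop := ∀ (L : FirstOrder.Language.{0, 0}) [∀ n, IsEmpty (L.Functions n)]
  [∀ n, Countable (L.Relations n)] (K : Set (L.Structure ℕ)) (δ : Ordinal.{0}) (M : Type)
  (S : L.Structure M), Ar2 L → VSt K δ S → HerK K →
  ∃ (F : Set M) (C : Type) (t : C → Set (Σ n, L.Relations n × (Fin n → F ⊕ Bool))) (inv : C → C)
    (col : {x : M // x ∉ F} → {x : M // x ∉ F} → C), F.Finite ∧ Finite C ∧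
    Function.Injective t ∧ (∀ x y, t (col x y) = at2 S F x y) ∧ CS inv col

/-- [TAM] the large structure is tame -/
def St_TAM : Prop := ∀ (L : FirstOrder.Language.{0, 0}) [∀ n, IsEmpty (L.Functions n)] (M : Type)
  (S : L.Structure M) (F : Set M) (C I : Type) (t : C → Set (Σ n, L.Relations n × (Fin n → F ⊕ Bool)))
  (col : {x : M // x ∉ F} → {x : M // x ∉ F} → C) (A : Set {x : M // x ∉ F})
  (cl : {x : M // x ∉ F} → I) (g : I → {x : M // x ∉ F} → C) (s : I → I → C)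
  (B : {x : M // x ∉ F} → Set {x : M // x ∉ F}), Ar2 L → F.Finite → Finite C → Finite I →
  Function.Injective t → (∀ x y, t (col x y) = at2 S F x y) → Blk col A cl g s B →
  (∀ x ∉ A, (B x).Finite) → (∀ x ∉ A, ¬ {y | y ∉ A ∧ BIso col cl B x y}.Countable) →
  TameX S (univ : Set M)

/-- [MAIN] the large structure of a hereditary class is tame -/
def St_MAIN : Prop := ∀ (L : FirstOrder.Language.{0, 0}) [∀ n, IsEmpty (L.Functions n)]
  [∀ n, Countable (L.Relations n)] (K : Set (L.Structure ℕ)) (δ : Ordinal.{0}) (M : Type)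
  (S : L.Structure M), Ar2 L → VSt K δ S → HerK K → TameX S (univ : Set M)

end HER
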